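import Pool.Agent.K9h47.JL.Stm3

/-!
# Leaf ALG (helper81): saturated sublattices and torsion points
-/

set_option autoImplicit false

open MeasureTheory Filter Topology Finset

namespace Pool.Agent.K9h47.JL

namespace AlgL

variable {s : ℕ}

/-- `k ↦ k · α` -/
def fl (α : TT s) : (Fin s → ℤ) →ₗ[ℤ] UnitAddCircle where
  toFun k := dot k α
  map_add' k k' := by
    unfold dot
    rw [← Finset.sum_add_distrib]
    refine Finset.sum_congr rfl fun l _ => ?_
    rw [Pi.add_apply, add_smul]
  map_smul' m k := by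
    unfold dot
    rw [RingHom.id_apply, Finset.smul_sum]
    refine Finset.sum_congr rfl fun l _ => ?_
    rw [Pi.smul_apply, smul_eq_mul, mul_smul]

theorem fl_apply (α : TT s) (k : Fin s → ℤ) : fl α k = dot k α := rfl

/-- the lattice of the `k` for which `k · α` is a torsion point -/
def lat (α : TT s) : Submodule ℤ (Fin s → ℤ) where
  carrier := {k | IsOfFinAddOrder (dot k α)}
  zero_mem' := by
    show IsOfFinAddOrder (dot 0 α)
    rw [← fl_apply, map_zero]
    exact IsOfFinAddOrder.zero
  add_mem' := by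
    intro k k' hk hk'
    show IsOfFinAddOrder (dot (k + k') α)
    rw [← fl_apply, map_add]
    exact IsOfFinAddOrder.add hk hk'
  smul_mem' := by
    intro m k hk
    show IsOfFinAddOrder (dot (m • k) α)
    rw [← fl_apply, map_smul]
    exact IsOfFinAddOrder.zsmul hk

theorem mem_lat (α : TT s) (k : Fin s → ℤ) : k ∈ lat α ↔ IsOfFinAddOrder (dot k α) := Iff.rfl

theorem sat (α : TT s) {m : ℤ} (hm : m ≠ 0) {k : Fin s → ℤ} (h : m • k ∈ lat α) : k ∈ lat α := by
  rw [mem_lat, ← fl_apply, map_smul] at h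
  rw [mem_lat, ← fl_apply]
  obtain ⟨n, hn, h1⟩ := isOfFinAddOrder_iff_zsmul_eq_zero.1 h
  rw [isOfFinAddOrder_iff_zsmul_eq_zero]
  exact ⟨n * m, mul_ne_zero hn hm, by rw [mul_smul, h1]⟩

theorem tf (α : TT s) : Module.IsTorsionFree ℤ ((Fin s → ℤ) ⧸ lat α) := by
  refine ⟨fun r hr x y hxy => ?_⟩
  obtain ⟨a, rfl⟩ := Submodule.Quotient.mk_surjective _ x
  obtain ⟨b, rfl⟩ := Submodule.Quotient.mk_surjective _ y
  have hr0 : r ≠ 0 := by
    rintro rfl
    exact not_isRegular_zero hr
  have h1 : r • (Submodule.Quotient.mk a : (Fin s → ℤ) ⧸ lat α) = r • Submodule.Quotient.mk b := hxy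
  rw [← Submodule.Quotient.mk_smul, ← Submodule.Quotient.mk_smul, Submodule.Quotient.eq, ← smul_sub] at h1
  rw [Submodule.Quotient.eq]
  exact sat α hr0 h1

/-- torsion points of the circle are rational -/
theorem exists_rat {x : UnitAddCircle} (h : IsOfFinAddOrder x) : ∃ q : ℚ, ((q : ℝ) : UnitAddCircle) = x := by
  obtain ⟨m, _, _, h1⟩ := AddCircle.exists_gcd_eq_one_of_isOfFinAddOrder h
  refine ⟨(m : ℚ) / addOrderOf x, ?_⟩
  rw [mul_one] at h1
  have h2 : (((m : ℚ) / (addOrderOf x : ℚ) : ℚ) : ℝ) = (m : ℝ) / (addOrderOf x : ℝ) := by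
    push_cast
    rfl
  rw [h2]
  exact h1

theorem dot_pt (M : Matrix (Fin s) (Fin s) ℤ) (τ : Fin s → ℚ) (k : Fin s → ℤ) :
    dot k (pt (M, τ) 0) = ∑ l, k l • ((τ l : ℝ) : UnitAddCircle) := by
  unfold dot
  refine Finset.sum_congr rfl fun l _ => ?_
  have h : pt (M, τ) 0 l = ((τ l : ℝ) : UnitAddCircle) := by
    show ((τ l : ℝ) : UnitAddCircle) + ∑ j, M l j • (0 : TT s) j = _
    rw [Finset.sum_eq_zero fun j _ => by rw [Pi.zero_apply, smul_zero], add_zero]
  rw [h]

end AlgL

open AlgL in
/-- **ALG** -/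
theorem alg : S_ALG := by
  classical
  intro s α
  have := tf α
  have hfree : Module.Free ℤ ((Fin s → ℤ) ⧸ lat α) := Module.free_of_finite_type_torsion_free'
  obtain ⟨g, hg⟩ := Module.projective_lifting_property (lat α).mkQ (LinearMap.id (R := ℤ)) (Submodule.mkQ_surjective _)
  -- the endomorphism
  set P : (Fin s → ℤ) →ₗ[ℤ] (Fin s → ℤ) := g ∘ₗ (lat α).mkQ with hP
  have hgx : ∀ x, (lat α).mkQ (g x) = x := fun x => by
    have := LinearMap.congr_fun hg x
    exact this
  have hker : ∀ k, P k = 0 ↔ k ∈ lat α := by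
    intro k
    constructor
    · intro h
      have h1 := hgx ((lat α).mkQ k)
      have h2 : g ((lat α).mkQ k) = 0 := h
      rw [h2, map_zero] at h1
      have h3 : (lat α).mkQ k = 0 := h1.symm
      exact (Submodule.Quotient.mk_eq_zero _).1 h3
    · intro h
      have h3 : (lat α).mkQ k = 0 := (Submodule.Quotient.mk_eq_zero _).2 h
      show g ((lat α).mkQ k) = 0
      rw [h3, map_zero]
  have hproj : ∀ k, k - P k ∈ lat α := by
    intro k
    have h1 : (lat α).mkQ (k - P k) = 0 := by
      rw [map_sub]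
      have : (lat α).mkQ (P k) = (lat α).mkQ k := hgx ((lat α).mkQ k)
      rw [this, sub_self]
    exact (Submodule.Quotient.mk_eq_zero _).1 h1
  -- rational representatives
  choose τ hτ using fun l : Fin s => exists_rat ((mem_lat α _).1 (hproj (Pi.single l 1)))
  have hsum : ∀ k : Fin s → ℤ, k = ∑ l, k l • (Pi.single l (1 : ℤ) : Fin s → ℤ) := by
    intro k
    funext j
    rw [Finset.sum_apply, Finset.sum_eq_single j]
    · simp
    · intro l _ hl
      rw [Pi.smul_apply, Pi.single_eq_of_ne hl.symm, smul_zero]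
    · intro h
      exact absurd (Finset.mem_univ j) h
  refine ⟨(Matrix.of fun l j => P (Pi.single l 1) j, τ), fun k => ⟨?_, fun hk => ?_⟩⟩
  · have h1 : ∀ j, ∑ l, k l * P (Pi.single l 1) j = P k j := by
      intro j
      have h2 : P k = ∑ l, k l • P (Pi.single l 1) := by
        conv_lhs => rw [hsum k]
        rw [map_sum]
        refine Finset.sum_congr rfl fun l _ => ?_
        rw [map_smul]
      rw [h2, Finset.sum_apply]
      refine Finset.sum_congr rfl fun l _ => ?_
      rw [Pi.smul_apply, smul_eq_mul]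
    rw [← mem_lat, ← hker]
    constructor
    · intro h j
      show ∑ l, k l * P (Pi.single l 1) j = 0
      rw [h1 j, h, Pi.zero_apply]
    · intro h
      funext j
      have h3 : ∑ l, k l * P (Pi.single l 1) j = 0 := h j
      rw [← h1 j, h3, Pi.zero_apply]
  · have hP0 : P k = 0 := (hker k).2 ((mem_lat α k).2 hk)
    have h2 : k = ∑ l, k l • (Pi.single l (1 : ℤ) - P (Pi.single l 1)) := by
      have h3 : P k = ∑ l, k l • P (Pi.single l 1) := by
        conv_lhs => rw [hsum k]
        rw [map_sum]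
        refine Finset.sum_congr rfl fun l _ => ?_
        rw [map_smul]
      simp_rw [smul_sub]
      rw [Finset.sum_sub_distrib, ← h3, hP0, sub_zero, ← hsum k]
    have h4 : dot k α = ∑ l, k l • dot (Pi.single l (1 : ℤ) - P (Pi.single l 1)) α := by
      rw [← fl_apply]
      conv_lhs => rw [h2]
      rw [map_sum]
      refine Finset.sum_congr rfl fun l _ => ?_
      rw [map_smul]
      rfl
    rw [h4, dot_pt]
    refine Finset.sum_congr rfl fun l _ => ?_
    rw [hτ l]

end Pool.Agent.K9h47.JL
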