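import Pool.Agent.K9h47.JL.Stm4

/-! Leaf APE (helper42): the frequencies are uniformly distributed in the aperiodic case. -/

set_option autoImplicit false

open MeasureTheory Filter Topology Finset

namespace Pool.Agent.K9h47.JL

open Pool.Agent.Results.MP_4a7640_nt.DisplacedCubes (Val X shift seq IsFurstenbergSystem IsMult Aperiodic)

namespace Ape

lemma FF_cont (y : ℤ → ℝ) (H : ℕ) : Continuous (FF y H) := by
  unfold FF
  refine Continuous.div_const ?_ _
  exact continuous_finsetSum _ fun h _ => continuous_const.mul (fourier (h : ℤ)).continuous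

lemma integrable_cont {E : Type*} [NormedAddCommGroup E] {g : UnitAddCircle → E}
    (hg : Continuous g) : Integrable g :=
  hg.integrable_of_hasCompactSupport (HasCompactSupport.of_compactSpace _)

lemma int_fourier {m : ℤ} (hm : m ≠ 0) : ∫ α : UnitAddCircle, fourier m α = 0 :=
  integral_eq_zero_of_add_right_eq_neg (fourier_add_half_inv_index hm Fact.out)

/-- the real part of a character -/
noncomputable def Gr (m : ℤ) : C(UnitAddCircle, ℝ) :=
  ⟨fun α => (fourier m α : ℂ).re, Complex.continuous_re.comp (fourier m).continuous⟩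

lemma int_Gr {m : ℤ} (hm : m ≠ 0) : ∫ α : UnitAddCircle, Gr m α = 0 := by
  have h1 : ∫ α : UnitAddCircle, Gr m α = (∫ α : UnitAddCircle, fourier m α : ℂ).re := by
    have h2 := integral_re (μ := (volume : Measure UnitAddCircle))
      (integrable_cont (fourier m).continuous)
    exact h2
  rw [h1, int_fourier hm, Complex.zero_re]

lemma co_eq (wone : S_WONE) (y : ℤ → ℝ) (H : ℕ) (hH : 1 ≤ H) (m : ℤ) :
    co y H m = (H : ℝ) * ∫ α : UnitAddCircle, Gr m α * ‖FF y H α‖ ^ 4 := by
  have h1 := congrArg Complex.re (wone y H m hH)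
  rw [Complex.ofReal_re] at h1
  rw [← h1]
  have h2 : (H : ℂ) = ((H : ℝ) : ℂ) := by simp
  rw [h2, Complex.re_ofReal_mul]
  congr 1
  have hint : Integrable (fun α : UnitAddCircle => fourier m α * ((‖FF y H α‖ ^ 4 : ℝ) : ℂ)) :=
    integrable_cont ((fourier m).continuous.mul
      (Complex.continuous_ofReal.comp ((FF_cont y H).norm.pow 4)))
  have h3 := integral_re (μ := (volume : Measure UnitAddCircle)) hint
  refine Eq.trans h3.symm ?_
  apply integral_congr_ae
  refine Eventually.of_forall fun α => ?_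
  show (fourier m α * ((‖FF y H α‖ ^ 4 : ℝ) : ℂ)).re = Gr m α * ‖FF y H α‖ ^ 4
  rw [Complex.re_mul_ofReal]
  rfl

lemma co_zero (wone : S_WONE) (y : ℤ → ℝ) (H : ℕ) (hH : 1 ≤ H) :
    co y H 0 = (H : ℝ) * ∫ α : UnitAddCircle, ‖FF y H α‖ ^ 4 := by
  rw [co_eq wone y H hH 0]
  congr 1
  apply integral_congr_ae
  refine Eventually.of_forall fun α => ?_
  show (fourier 0 α : ℂ).re * ‖FF y H α‖ ^ 4 = ‖FF y H α‖ ^ 4
  rw [fourier_zero, Complex.one_re, one_mul]

end Ape

open Ape in
theorem ape : S_APE := by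
  classical
  intro wone f μ hf ha hμ s l m hm
  let Ψ : C(Fin s → ℝ, ℝ) := ⟨fun v => ∏ l' ∈ univ.erase l, v l',
    continuous_finsetProd _ fun i _ => continuous_apply i⟩
  have h := Pool.Agent.Results.MP_4a7640_nt.FrequencyLaw.result f hf ha μ hμ (Gr m)
    (ContinuousMap.const ℝ 1) s
    (fun _ => Pool.Agent.Results.MP_4a7640_nt.FrequencyLaw.strength 2)
    (fun _ => Or.inl ⟨2, le_rfl, rfl⟩) Ψ
  refine h.congr' ?_
  filter_upwards [eventually_ge_atTop 1] with H hH
  congr 1
  funext x
  have e1 : ∀ α, Pool.Agent.Results.MP_4a7640_nt.FrequencyLaw.F H x α =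
      FF (fun n => (x n : ℝ)) H α := fun α => rfl
  rw [int_Gr hm]
  simp only [sub_zero, ContinuousMap.const_apply, mul_one]
  rw [← Finset.mul_prod_erase univ _ (mem_univ l)]
  have e2 : ∏ l' ∈ univ.erase l, co (fun n => (x n : ℝ)) H (Pi.single (M := fun _ => ℤ) l m l') =
      Ψ (fun _ => Pool.Agent.Results.MP_4a7640_nt.FrequencyLaw.strength 2 H x) := by
    show _ = ∏ l' ∈ univ.erase l, Pool.Agent.Results.MP_4a7640_nt.FrequencyLaw.strength 2 H x
    apply prod_congr rfl
    intro l' hl'
    rw [Pi.single_eq_of_ne (ne_of_mem_erase hl'), co_zero wone _ H hH]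
    rfl
  rw [e2, Pi.single_eq_same, co_eq wone _ H hH m]
  simp only [e1]
  ring

end Pool.Agent.K9h47.JL
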