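import Pool.Agent.K9h47.JL.Stm
import Pool.Agent.Lib.helper27.WPNT

/-!
# Leaf APQ (helper81): primes congruent to one
-/

set_option autoImplicit false

open MeasureTheory Filter Topology Finset

namespace Pool.Agent.K9h47.JL

namespace ApqL

theorem geom {q : ℕ} (hq : 1 ≤ q) (m : ℕ) :
    ∑ a ∈ range q, (Complex.exp (2 * Real.pi * Complex.I / q) ^ m) ^ a = if q ∣ m then (q : ℂ) else 0 := by
  have hprim := Complex.isPrimitiveRoot_exp q (by omega)
  set ζ := Complex.exp (2 * Real.pi * Complex.I / q) with hζ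
  by_cases h : q ∣ m
  · rw [if_pos h, (hprim.pow_eq_one_iff_dvd m).2 h]
    simp
  · rw [if_neg h]
    have h1 : ζ ^ m ≠ 1 := fun h2 => h ((hprim.pow_eq_one_iff_dvd m).1 h2)
    have h2 := geom_sum_mul (ζ ^ m) q
    rw [← pow_mul, mul_comm m q, pow_mul, hprim.pow_eq_one, one_pow, sub_self] at h2
    exact (mul_eq_zero.1 h2).resolve_right (sub_ne_zero.2 h1)

theorem term {q : ℕ} (hq : 1 ≤ q) {p : ℕ} (hp : 1 ≤ p) (θ : ℝ) (a : ℕ) :
    Complex.exp (-(2 * Real.pi * Complex.I * (a / q))) *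
      Complex.exp (2 * Real.pi * Complex.I * (p * ((θ + (a : ℝ) / q : ℝ) : ℂ))) =
    Complex.exp (2 * Real.pi * Complex.I * (p * (θ : ℂ))) *
      (Complex.exp (2 * Real.pi * Complex.I / q) ^ (p - 1)) ^ a := by
  have hq0 : (q : ℂ) ≠ 0 := by
    have : (q : ℕ) ≠ 0 := by omega
    exact_mod_cast this
  rw [← pow_mul, ← Complex.exp_nat_mul, ← Complex.exp_add, ← Complex.exp_add]
  congr 1
  obtain ⟨m, rfl⟩ : ∃ m, p = m + 1 := ⟨p - 1, by omega⟩
  push_cast
  field_simp
  ring

end ApqL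

open ApqL in
/-- **APQ** -/
theorem apq : S_APQ := by
  classical
  intro hV q hq
  refine ⟨fun θ hθ => ?_, ?_⟩
  · -- additive characters
    have hq0 : (q : ℂ) ≠ 0 := by
      have : (q : ℕ) ≠ 0 := by omega
      exact_mod_cast this
    set V : ℝ → ℕ → ℂ := fun θ i => ∑ p ∈ Pr i, ((Real.log p / 2 ^ i : ℝ) : ℂ) *
      Complex.exp (2 * Real.pi * Complex.I * (p * θ)) with hVdef
    have hlim : Tendsto (fun i : ℕ => (1 / (q : ℝ)) * ∑ a ∈ range q, ‖V (θ + (a : ℝ) / q) i‖) atTop (𝓝 0) := by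
      have h1 : ∀ a ∈ range q, Tendsto (fun i : ℕ => ‖V (θ + (a : ℝ) / q) i‖) atTop (𝓝 0) := by
        intro a _
        refine hV (θ + (a : ℝ) / q) ?_
        have h2 := hθ.add_ratCast ((a : ℚ) / q)
        push_cast at h2
        exact h2
      have h2 := (tendsto_finsetSum (range q) h1).const_mul (1 / (q : ℝ))
      simpa using h2
    refine squeeze_zero_norm (fun i => ?_) hlim
    -- real part
    have e1 : ∑ p ∈ (Pr i).filter (fun p => p % q = 1 % q), Real.log p / 2 ^ i * Real.cos (2 * Real.pi * (p * θ)) =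
        (∑ p ∈ (Pr i).filter (fun p => p % q = 1 % q), ((Real.log p / 2 ^ i : ℝ) : ℂ) *
          Complex.exp (2 * Real.pi * Complex.I * (p * θ))).re := by
      rw [Complex.re_sum]
      refine Finset.sum_congr rfl fun p _ => ?_
      rw [Complex.re_ofReal_mul]
      congr 1
      have : (2 * Real.pi * Complex.I * (p * θ) : ℂ) = ((2 * Real.pi * (p * θ) : ℝ) : ℂ) * Complex.I := by
        push_cast
        ring
      rw [this, Complex.exp_ofReal_mul_I_re]
    have e2 : ∑ p ∈ (Pr i).filter (fun p => p % q = 1 % q), ((Real.log p / 2 ^ i : ℝ) : ℂ) *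
          Complex.exp (2 * Real.pi * Complex.I * (p * θ)) =
        (1 / (q : ℂ)) * ∑ a ∈ range q, Complex.exp (-(2 * Real.pi * Complex.I * (a / q))) * V (θ + (a : ℝ) / q) i := by
      have e3 : ∀ a ∈ range q, Complex.exp (-(2 * Real.pi * Complex.I * (a / q))) * V (θ + (a : ℝ) / q) i =
          ∑ p ∈ Pr i, ((Real.log p / 2 ^ i : ℝ) : ℂ) * (Complex.exp (2 * Real.pi * Complex.I * (p * (θ : ℂ))) *
            (Complex.exp (2 * Real.pi * Complex.I / q) ^ (p - 1)) ^ a) := by
        intro a _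
        rw [hVdef, Finset.mul_sum]
        refine Finset.sum_congr rfl fun p hp => ?_
        have hp1 : 1 ≤ p := (Finset.mem_filter.1 hp).2.one_le
        rw [← term hq hp1 θ a]
        ring
      rw [Finset.sum_congr rfl e3, Finset.sum_comm, Finset.mul_sum, Finset.sum_filter]
      refine Finset.sum_congr rfl fun p hp => ?_
      have hp1 : 1 ≤ p := (Finset.mem_filter.1 hp).2.one_le
      rw [← Finset.mul_sum, ← Finset.mul_sum, geom hq]
      have h4 : p % q = 1 % q ↔ q ∣ p - 1 := by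
        rw [← Nat.modEq_iff_dvd' hp1]
        exact ⟨fun h => h.symm, fun h => h.symm⟩
      by_cases h5 : q ∣ p - 1
      · rw [if_pos (h4.2 h5), if_pos h5]
        field_simp
      · rw [if_neg fun h => h5 (h4.1 h), if_neg h5, mul_zero, mul_zero, mul_zero]
    rw [e1, Real.norm_eq_abs]
    refine (Complex.abs_re_le_norm _).trans ?_
    rw [e2, norm_mul]
    have h6 : ‖(1 / (q : ℂ))‖ = 1 / (q : ℝ) := by
      rw [norm_div, norm_one, Complex.norm_natCast]
    rw [h6]
    refine mul_le_mul_of_nonneg_left ((norm_sum_le _ _).trans (Finset.sum_le_sum fun a _ => ?_)) (by positivity)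
    rw [norm_mul]
    have h7 : ‖Complex.exp (-(2 * Real.pi * Complex.I * (a / q)))‖ = 1 := by
      have : (-(2 * Real.pi * Complex.I * (a / q)) : ℂ) = ((-(2 * Real.pi * (a / q)) : ℝ) : ℂ) * Complex.I := by
        push_cast
        ring
      rw [this, Complex.norm_exp_ofReal_mul_I]
    rw [h7, one_mul]
  · -- primes in progressions
    have : NeZero q := ⟨by omega⟩
    obtain ⟨c, hc, N, hN⟩ := Pool.Agent.Lib.helper27.WPNT.weak_pnt_ap (q := q) (r := 1) isUnit_one
      (ε := 1 / 2) (by norm_num)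
    refine ⟨2 * c, by positivity, ?_⟩
    filter_upwards [eventually_ge_atTop N] with i hi
    have h1 : N ≤ 2 ^ (i + 1) := by
      have h2 : i + 1 < 2 ^ (i + 1) := Nat.lt_two_pow_self
      omega
    have h2 := hN (2 ^ (i + 1)) h1
    have h3 : (0 : ℝ) < 2 ^ i := by positivity
    rw [← Finset.sum_div, le_div_iff₀ h3]
    have h4 : 2 * c * 2 ^ i = c * ((2 ^ (i + 1) : ℕ) : ℝ) := by
      push_cast
      ring
    rw [h4]
    refine h2.trans (Finset.sum_le_sum_of_subset_of_nonneg ?_ ?_)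
    · intro p hp
      obtain ⟨h5, h6, h7, h8⟩ := Finset.mem_filter.1 hp
      rw [Finset.mem_range] at h5
      have h9 : 2 ^ i < p := by
        have : (2 : ℝ) ^ i < p := by
          push_cast at h8
          have e : (1 - 1 / 2 : ℝ) * 2 ^ (i + 1) = 2 ^ i := by ring
          linarith
        exact_mod_cast this
      refine Finset.mem_filter.2 ⟨Finset.mem_filter.2 ⟨Finset.mem_Ioc.2 ⟨h9, by omega⟩, h6⟩, ?_⟩
      have h10 : (p : ZMod q) = ((1 : ℕ) : ZMod q) := by rw [h7, Nat.cast_one]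
      exact (ZMod.natCast_eq_natCast_iff' p 1 q).1 h10
    · intro p hp _
      have hp1 : 1 ≤ p := (Finset.mem_filter.1 (Finset.mem_filter.1 hp).1).2.one_le
      exact Real.log_nonneg (by exact_mod_cast hp1)

end Pool.Agent.K9h47.JL
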