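import Pool.Agent.K9h47.JL.Stm

/-!
# Leaf CMP (helper62)
-/

set_option autoImplicit false

open MeasureTheory Filter Topology Finset

namespace Pool.Agent.K9h47.JL

namespace CMP

variable {Ω : Type} [MeasurableSpace Ω]

lemma G_meas {r : ℤ → Ω → ℝ} (hr : ∀ n, Measurable (r n)) (u v : ℕ → ℤ) (N K : ℕ) (j : ℤ) :
    Measurable (G r u v N K j) := by
  unfold G
  refine measurable_const.mul (Finset.measurable_sum _ fun i _ => Finset.measurable_sum _ fun k _ => ?_)
  exact (hr _).mul (hr _)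

lemma aa_even {μ : Measure Ω} {T : Ω → Ω} {x r : ℤ → Ω → ℝ} (h : Cor μ T x r) (n : ℤ) :
    aa μ r (-n) = aa μ r n := by
  unfold aa
  simp only [h.even]

lemma aa_abs {μ : Measure Ω} [IsProbabilityMeasure μ] {T : Ω → Ω} {x r : ℤ → Ω → ℝ}
    (h : Cor μ T x r) (n : ℤ) : aa μ r n ≤ 1 := by
  unfold aa
  calc ∫ ω, r n ω ^ 2 ∂μ ≤ ∫ _ω, (1 : ℝ) ∂μ := by
        refine integral_mono_of_nonneg (Eventually.of_forall fun ω => sq_nonneg _)
          (integrable_const _) (Eventually.of_forall fun ω => ?_)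
        exact (sq_le_one_iff_abs_le_one _).2 (h.bd n ω)
    _ = 1 := by simp

lemma al_comm {μ : Measure Ω} {T : Ω → Ω} {x r : ℤ → Ω → ℝ} (h : Cor μ T x r) (u v : ℕ → ℤ)
    (N K : ℕ) : al (aa μ r) u v N K = al (aa μ r) v u K N := by
  unfold al
  rw [Finset.sum_comm, mul_comm (N : ℝ) K]
  refine congrArg _ (Finset.sum_congr rfl fun k _ => Finset.sum_congr rfl fun i _ => ?_)
  rw [← aa_even h, neg_sub]

lemma al_le {μ : Measure Ω} [IsProbabilityMeasure μ] {T : Ω → Ω} {x r : ℤ → Ω → ℝ}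
    (h : Cor μ T x r) (u v : ℕ → ℤ) {N K : ℕ} (hN : 1 ≤ N) (hK : 1 ≤ K) :
    al (aa μ r) u v N K ≤ 1 := by
  have hN' : (0 : ℝ) < N := by exact_mod_cast hN
  have hK' : (0 : ℝ) < K := by exact_mod_cast hK
  unfold al
  rw [one_div, inv_mul_le_iff₀ (by positivity), mul_one]
  calc ∑ i ∈ range N, ∑ k ∈ range K, aa μ r (u i - v k)
      ≤ ∑ _i ∈ range N, ∑ _k ∈ range K, (1 : ℝ) :=
        Finset.sum_le_sum fun i _ => Finset.sum_le_sum fun k _ => aa_abs h _
    _ = N * K := by simp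

/-- the two families `u i`, `i < N` and `u' i`, `i < N'` -/
def ss (u u' : ℕ → ℤ) (N N' : ℕ) : Fin N ⊕ Fin N' → ℤ := Sum.elim (fun i => u i) fun i => u' i

/-- the weights -/
noncomputable def cc (N N' : ℕ) : Fin N ⊕ Fin N' → ℝ :=
  Sum.elim (fun _ => 1 / (N : ℝ)) fun _ => -(1 / (N' : ℝ))

lemma sum_one (f : ℤ → ℝ) (u u' : ℕ → ℤ) (N N' : ℕ) :
    ∑ i, cc N N' i * f (ss u u' N N' i) =
      1 / (N : ℝ) * ∑ i ∈ range N, f (u i) - 1 / (N' : ℝ) * ∑ i ∈ range N', f (u' i) := by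
  rw [Fintype.sum_sum_type]
  simp only [cc, ss, Sum.elim_inl, Sum.elim_inr]
  rw [Finset.sum_range, Finset.sum_range, Finset.mul_sum, Finset.mul_sum, ← sub_neg_eq_add,
    ← Finset.sum_neg_distrib]
  congr 1
  exact Finset.sum_congr rfl fun _ _ => by ring

lemma sum_two (a : ℤ → ℝ) (u u' : ℕ → ℤ) (N N' : ℕ) :
    ∑ i, ∑ i', cc N N' i * cc N N' i' * a (ss u u' N N' i - ss u u' N N' i') =
      al a u u N N - al a u u' N N' - al a u' u N' N + al a u' u' N' N' := by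
  have h1 : ∀ i, ∑ i', cc N N' i * cc N N' i' * a (ss u u' N N' i - ss u u' N N' i') =
      cc N N' i * (fun z : ℤ => 1 / (N : ℝ) * ∑ k ∈ range N, a (z - u k) -
        1 / (N' : ℝ) * ∑ k ∈ range N', a (z - u' k)) (ss u u' N N' i) := fun i => by
    have h2 := sum_one (fun w => a (ss u u' N N' i - w)) u u' N N'
    beta_reduce at h2 ⊢
    rw [← h2, Finset.mul_sum]
    exact Finset.sum_congr rfl fun _ _ => by ring
  refine (Finset.sum_congr rfl fun i _ => h1 i).trans ((sum_one (fun z : ℤ => 1 / (N : ℝ) *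
    ∑ k ∈ range N, a (z - u k) - 1 / (N' : ℝ) * ∑ k ∈ range N', a (z - u' k)) u u' N N').trans ?_)
  simp only [al, Finset.sum_sub_distrib, ← Finset.mul_sum]
  ring

lemma sum_K (f : ℤ → ℝ) (v : ℕ → ℤ) (K : ℕ) :
    ∑ k : Fin K, 1 / (K : ℝ) * f (v k) = 1 / (K : ℝ) * ∑ k ∈ range K, f (v k) := by
  rw [Finset.sum_range, Finset.mul_sum]

lemma sum_KK (a : ℤ → ℝ) (v : ℕ → ℤ) (K : ℕ) :
    ∑ k : Fin K, ∑ k' : Fin K, 1 / (K : ℝ) * (1 / (K : ℝ)) * a (v k - v k') = al a v v K K := by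
  unfold al
  rw [Finset.sum_range, Finset.mul_sum]
  refine Finset.sum_congr rfl fun k _ => ?_
  rw [Finset.sum_range, Finset.mul_sum]
  exact Finset.sum_congr rfl fun _ _ => by ring

lemma sum_left (F : ℤ → ℝ) (u u' v : ℕ → ℤ) (N N' K : ℕ) :
    ∑ i, ∑ k : Fin K, cc N N' i * (1 / (K : ℝ)) * F (ss u u' N N' i - v k) =
      1 / ((N : ℝ) * K) * ∑ i ∈ range N, ∑ k ∈ range K, F (u i - v k) -
      1 / ((N' : ℝ) * K) * ∑ i ∈ range N', ∑ k ∈ range K, F (u' i - v k) := by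
  have h1 : ∀ i, ∑ k : Fin K, cc N N' i * (1 / (K : ℝ)) * F (ss u u' N N' i - v k) =
      cc N N' i * (fun z : ℤ => 1 / (K : ℝ) * ∑ k ∈ range K, F (z - v k)) (ss u u' N N' i) :=
    fun i => by
      have h2 := sum_K (fun w => F (ss u u' N N' i - w)) v K
      beta_reduce at h2 ⊢
      rw [← h2, Finset.mul_sum]
      exact Finset.sum_congr rfl fun _ _ => by ring
  refine (Finset.sum_congr rfl fun i _ => h1 i).trans ((sum_one (fun z : ℤ => 1 / (K : ℝ) *
    ∑ k ∈ range K, F (z - v k)) u u' N N').trans ?_)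
  simp only [← Finset.mul_sum]
  ring

/-- the end of the proof -/
lemma fin {μ : Measure Ω} {D : Ω → ℝ} (hD : Measurable D) {X Y : ℝ} (hX : 0 ≤ X) (hY : Y ≤ 1)
    (h : ∀ b : Ω → ℝ, Measurable b → (∀ ω, |b ω| ≤ 1) → (∫ ω, b ω * D ω ∂μ) ^ 2 ≤ X * Y) :
    ∫ ω, |D ω| ∂μ ≤ √X := by
  classical
  have h1 := h (fun ω => if 0 ≤ D ω then 1 else -1)
    (Measurable.ite (measurableSet_le measurable_const hD) measurable_const measurable_const)
    (fun ω => by split_ifs <;> simp)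
  have h2 : ∀ ω, (if 0 ≤ D ω then (1 : ℝ) else -1) * D ω = |D ω| := fun ω => by
    split_ifs with h3
    · rw [one_mul, abs_of_nonneg h3]
    · rw [abs_of_neg (not_le.1 h3)]; ring
  simp only [h2] at h1
  exact Real.le_sqrt_of_sq_le (h1.trans ((mul_le_mul_of_nonneg_left hY hX).trans (mul_one X).le))

end CMP

open CMP in
theorem cmp (ker : S_KER) : S_CMP := by
  intro Ω _ μ T x r hS hC u u' v N N' K j hN hN' hK
  have := hS.prob
  have hX : al (aa μ r) u u N N - 2 * al (aa μ r) u u' N N' + al (aa μ r) u' u' N' N' =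
      ∑ i, ∑ i', cc N N' i * cc N N' i' * aa μ r (ss u u' N N' i - ss u u' N N' i') := by
    rw [sum_two, al_comm hC u' u N' N]; ring
  have hX0 := (ker μ T x r hS hC (ss u u' N N') (ss u u' N N') (cc N N') (cc N N')).2
  have hY := al_le hC v v hK hK
  constructor
  · refine fin ((G_meas hC.meas u v N K j).sub (G_meas hC.meas u' v N' K j)) (hX ▸ hX0) hY
      fun b hb hb1 => ?_
    have h := (ker μ T x r hS hC (ss u u' N N') (fun k : Fin K => v k) (cc N N')
      (fun _ => 1 / (K : ℝ))).1 j b hb hb1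
    rw [← hX, sum_KK] at h
    have h2 : ∀ ω, ∑ i, ∑ k : Fin K, cc N N' i * (1 / (K : ℝ)) *
        (r (ss u u' N N' i - v k) ω * r (ss u u' N N' i - v k + j) ω) =
        G r u v N K j ω - G r u' v N' K j ω := fun ω =>
      sum_left (fun z => r z ω * r (z + j) ω) u u' v N N' K
    simp only [h2] at h
    exact h
  · refine fin ((G_meas hC.meas v u K N j).sub (G_meas hC.meas v u' K N' j)) (hX ▸ hX0) hY
      fun b hb hb1 => ?_
    have h := (ker μ T x r hS hC (fun k : Fin K => v k) (ss u u' N N') (fun _ => 1 / (K : ℝ))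
      (cc N N')).1 j b hb hb1
    rw [← hX, sum_KK] at h
    have h2 : ∀ ω, ∑ i : Fin K, ∑ k, (1 / (K : ℝ)) * cc N N' k *
        (r (v i - ss u u' N N' k) ω * r (v i - ss u u' N N' k + j) ω) =
        G r v u K N j ω - G r v u' K N' j ω := fun ω => by
      have h3 := sum_left (fun z => r (-z) ω * r (-z + j) ω) u u' v N N' K
      simp only [neg_sub] at h3
      have e1 : ∀ (w : ℕ → ℤ) (L : ℕ), G r v w K L j ω =
          1 / ((L : ℝ) * K) * ∑ i ∈ range L, ∑ k ∈ range K, r (v k - w i) ω * r (v k - w i + j) ω :=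
        fun w L => by unfold G; rw [Finset.sum_comm, mul_comm (K : ℝ) L]
      rw [e1, e1, ← h3, Finset.sum_comm]
      exact Finset.sum_congr rfl fun _ _ => Finset.sum_congr rfl fun _ _ => by ring
    simp only [h2] at h
    rw [mul_comm] at h
    exact h

end Pool.Agent.K9h47.JL
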