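import Pool.Agent.K9h47.JL.Stm

set_option autoImplicit false

/-!
# LEAF CTWO
-/

open MeasureTheory Filter Topology Finset

namespace Pool.Agent.K9h47.JL

namespace Ctwo_

variable {Ω : Type} [MeasurableSpace Ω] {μ : Measure Ω} {T : Ω → Ω} {x r : ℤ → Ω → ℝ}

theorem bint [IsFiniteMeasure μ] {f : Ω → ℝ} (hf : Measurable f) (C : ℝ) (h : ∀ ω, |f ω| ≤ C) : Integrable f μ :=
  Integrable.of_bound hf.aestronglyMeasurable C (Eventually.of_forall fun ω => by rw [Real.norm_eq_abs]; exact h ω)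

theorem comp_int (hT : MeasurePreserving T μ μ) {f : Ω → ℝ} (hf : Measurable f) :
    ∫ ω, f (T ω) ∂μ = ∫ ω, f ω ∂μ := by
  conv_rhs => rw [← hT.map_eq]
  exact (integral_map hT.measurable.aemeasurable hf.aestronglyMeasurable).symm

/-- products of two places and an invariant function -/
theorem step (hS : Stat μ T x) (hC : Cor μ T x r) (s t n : ℤ) :
    ∫ ω, x (s + 1) ω * x (t + 1) ω * r n ω ∂μ = ∫ ω, x s ω * x t ω * r n ω ∂μ := by
  have h1 : ∫ ω, x (s + 1) ω * x (t + 1) ω * r n ω ∂μ = ∫ ω, (fun ω => x s ω * x t ω * r n ω) (T ω) ∂μ := by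
    apply integral_congr_ae
    filter_upwards [hC.inv n] with ω hω
    simp only [hS.next, hω]
  rw [h1]
  exact comp_int hS.mp (((hS.meas s).mul (hS.meas t)).mul (hC.meas n))

theorem stepn (hS : Stat μ T x) (hC : Cor μ T x r) (s t n : ℤ) (m : ℕ) :
    ∫ ω, x (m + s) ω * x (m + t) ω * r n ω ∂μ = ∫ ω, x s ω * x t ω * r n ω ∂μ := by
  induction m with
  | zero => simp
  | succ m ih =>
    rw [← ih, ← step hS hC (m + s) (m + t) n]
    have e1 : ((m + 1 : ℕ) : ℤ) + s = (m : ℤ) + s + 1 := by push_cast; ring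
    have e2 : ((m + 1 : ℕ) : ℤ) + t = (m : ℤ) + t + 1 := by push_cast; ring
    rw [e1, e2]

theorem key (hS : Stat μ T x) (hC : Cor μ T x r) (s t n : ℤ) :
    ∫ ω, x s ω * x t ω * r n ω ∂μ = ∫ ω, r (s - t) ω * r n ω ∂μ := by
  have := hS.prob
  set D := ∫ ω, x s ω * x t ω * r n ω ∂μ - ∫ ω, r (s - t) ω * r n ω ∂μ with hD
  have hav : ∀ M : ℕ, 1 ≤ M → ∀ δ : ℝ, 0 < δ → |D| ≤ (1 / (4 * δ)) *
      ∫ ω, ((1 / (M : ℝ)) * ∑ m ∈ range M, x (m + s) ω * x (m + t) ω - r (s - t) ω) ^ 2 ∂μ + δ := by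
    intro M hM δ hδ
    have hM0 : (0 : ℝ) < M := by exact_mod_cast hM
    have hxm : ∀ m : ℕ, Measurable fun ω => x (m + s) ω * x (m + t) ω := fun m => (hS.meas _).mul (hS.meas _)
    have hxb : ∀ (m : ℕ) ω, |x (m + s) ω * x (m + t) ω| ≤ 1 := fun m ω => by
      rw [abs_mul]; exact mul_le_one₀ (hS.bd _ _) (abs_nonneg _) (hS.bd _ _)
    have hsm : Measurable fun ω => (1 / (M : ℝ)) * ∑ m ∈ range M, x (m + s) ω * x (m + t) ω :=
      (Finset.measurable_fun_sum _ fun m _ => hxm m).const_mul _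
    have hsb : ∀ ω, |(1 / (M : ℝ)) * ∑ m ∈ range M, x (m + s) ω * x (m + t) ω| ≤ 1 := fun ω => by
      rw [abs_mul, abs_of_pos (by positivity : (0 : ℝ) < 1 / M), one_div, inv_mul_le_iff₀ hM0, mul_one]
      refine (Finset.abs_sum_le_sum_abs _ _).trans ((Finset.sum_le_sum fun m _ => hxb m ω).trans ?_)
      simp
    set f : Ω → ℝ := fun ω => (1 / (M : ℝ)) * ∑ m ∈ range M, x (m + s) ω * x (m + t) ω - r (s - t) ω with hf
    have hfm : Measurable f := hsm.sub (hC.meas _)
    have hfb : ∀ ω, |f ω| ≤ 2 := fun ω => by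
      refine (abs_sub _ _).trans ?_
      linarith [hsb ω, hC.bd (s - t) ω]
    have hD1 : D = ∫ ω, f ω * r n ω ∂μ := by
      have h1 : ∫ ω, ((1 / (M : ℝ)) * ∑ m ∈ range M, x (m + s) ω * x (m + t) ω) * r n ω ∂μ =
          ∫ ω, x s ω * x t ω * r n ω ∂μ := by
        have h2 : ∀ ω, ((1 / (M : ℝ)) * ∑ m ∈ range M, x (m + s) ω * x (m + t) ω) * r n ω =
            (1 / (M : ℝ)) * ∑ m ∈ range M, x (m + s) ω * x (m + t) ω * r n ω := fun ω => by
          rw [mul_assoc, Finset.sum_mul]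
        simp only [h2]
        rw [integral_const_mul, integral_finsetSum]
        · simp only [stepn hS hC s t n]
          rw [Finset.sum_const, card_range, nsmul_eq_mul]
          field_simp
        · intro m _
          refine bint ((hxm m).mul (hC.meas n)) 1 fun ω => ?_
          rw [abs_mul]; exact mul_le_one₀ (hxb _ _) (abs_nonneg _) (hC.bd _ _)
      rw [hD, ← h1, ← integral_sub]
      · congr 1
        ext ω
        simp only [hf]; ring
      · refine bint (hsm.mul (hC.meas n)) 1 fun ω => ?_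
        rw [abs_mul]; exact mul_le_one₀ (hsb _) (abs_nonneg _) (hC.bd _ _)
      · refine bint ((hC.meas _).mul (hC.meas n)) 1 fun ω => ?_
        rw [abs_mul]; exact mul_le_one₀ (hC.bd _ _) (abs_nonneg _) (hC.bd _ _)
    have hf2 : Integrable (fun ω => f ω ^ 2) μ := bint (hfm.pow_const 2) 4 fun ω => by
      rw [abs_pow]
      nlinarith [hfb ω, abs_nonneg (f ω)]
    rw [hD1]
    calc |∫ ω, f ω * r n ω ∂μ| ≤ ∫ ω, |f ω * r n ω| ∂μ := abs_integral_le_integral_abs
      _ ≤ ∫ ω, ((1 / (4 * δ)) * f ω ^ 2 + δ) ∂μ := by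
          apply integral_mono
          · refine (bint (hfm.mul (hC.meas n)) 2 fun ω => ?_).abs
            rw [Pi.mul_apply, abs_mul]
            nlinarith [hfb ω, abs_nonneg (f ω), hC.bd n ω, abs_nonneg (r n ω)]
          · exact (hf2.const_mul _).add (integrable_const _)
          · intro ω
            simp only
            have h3 : |f ω * r n ω| ≤ |f ω| := by
              rw [abs_mul]
              exact mul_le_of_le_one_right (abs_nonneg _) (hC.bd _ _)
            refine h3.trans ?_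
            have h4 : |f ω| = δ * (|f ω| / δ) := by field_simp
            have h5 : (1 / (4 * δ)) * f ω ^ 2 + δ - |f ω| = (1 / (4 * δ)) * (|f ω| - 2 * δ) ^ 2 := by
              rw [← sq_abs (f ω)]
              field_simp
              ring
            have h6 : 0 ≤ (1 / (4 * δ)) * (|f ω| - 2 * δ) ^ 2 := by positivity
            linarith
      _ = (1 / (4 * δ)) * ∫ ω, f ω ^ 2 ∂μ + δ := by
          rw [integral_add (hf2.const_mul _) (integrable_const _), integral_const_mul, integral_const]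
          simp
  have hlim : ∀ δ : ℝ, 0 < δ → |D| ≤ δ := by
    intro δ hδ
    have h1 : Tendsto (fun M : ℕ => (1 / (4 * δ)) *
      ∫ ω, ((1 / (M : ℝ)) * ∑ m ∈ range M, x (m + s) ω * x (m + t) ω - r (s - t) ω) ^ 2 ∂μ + δ) atTop
        (𝓝 ((1 / (4 * δ)) * 0 + δ)) := ((hC.lim s t).const_mul _).add_const _
    rw [mul_zero, zero_add] at h1
    refine ge_of_tendsto h1 ?_
    filter_upwards [eventually_ge_atTop 1] with M hM
    exact hav M hM δ hδ
  have h0 : |D| ≤ 0 := le_of_forall_pos_le_add fun δ hδ => by rw [zero_add]; exact hlim δ hδ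
  have h1 := abs_nonpos_iff.1 h0
  linarith

end Ctwo_

open Ctwo_

theorem ctwo : S_CTWO := by
  intro Ω _ μ T x r hS hC p M n hp hM
  have := hS.prob
  have hM0 : (0 : ℝ) < M := by exact_mod_cast hM
  have hxm : ∀ m : ℕ, Measurable fun ω => x (p * m) ω * x (p * m + p * n) ω := fun m => (hS.meas _).mul (hS.meas _)
  have hxb : ∀ (m : ℕ) ω, |x (p * m) ω * x (p * m + p * n) ω| ≤ 1 := fun m ω => by
    rw [abs_mul]; exact mul_le_one₀ (hS.bd _ _) (abs_nonneg _) (hS.bd _ _)
  have hAm : Measurable (Av x p M n) := (Finset.measurable_fun_sum _ fun m _ => hxm m).const_mul _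
  have hAb : ∀ ω, |Av x p M n ω| ≤ 1 := fun ω => by
    unfold Av
    rw [abs_mul, abs_of_pos (by positivity : (0 : ℝ) < 1 / M), one_div, inv_mul_le_iff₀ hM0, mul_one]
    refine (Finset.abs_sum_le_sum_abs _ _).trans ((Finset.sum_le_sum fun m _ => hxb m ω).trans ?_)
    simp
  have hcross : ∫ ω, Av x p M n ω * r (p * n) ω ∂μ = aa μ r (p * n) := by
    unfold aa
    have h2 : ∀ ω, Av x p M n ω * r (p * n) ω =
        (1 / (M : ℝ)) * ∑ m ∈ range M, x (p * m) ω * x (p * m + p * n) ω * r (p * n) ω := fun ω => by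
      unfold Av
      rw [mul_assoc, Finset.sum_mul]
    simp only [h2]
    rw [integral_const_mul, integral_finsetSum]
    · have h3 : ∀ m : ℕ, ∫ ω, x (p * m) ω * x (p * m + p * n) ω * r (p * n) ω ∂μ = ∫ ω, r (p * n) ω ^ 2 ∂μ := by
        intro m
        rw [key hS hC]
        have e : (p : ℤ) * m - (p * m + p * n) = -(p * n) := by ring
        rw [e]
        simp only [hC.even, sq]
      simp only [h3]
      rw [Finset.sum_const, card_range, nsmul_eq_mul]
      field_simp
    · intro m _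
      refine bint ((hxm m).mul (hC.meas _)) 1 fun ω => ?_
      rw [abs_mul]; exact mul_le_one₀ (hxb _ _) (abs_nonneg _) (hC.bd _ _)
  have i1 : Integrable (fun ω => Av x p M n ω ^ 2) μ := bint (hAm.pow_const 2) 1 fun ω => by
    rw [abs_pow]; exact pow_le_one₀ (abs_nonneg _) (hAb ω)
  have i2 : Integrable (fun ω => Av x p M n ω * r (p * n) ω) μ := bint (hAm.mul (hC.meas _)) 1 fun ω => by
    rw [abs_mul]; exact mul_le_one₀ (hAb _) (abs_nonneg _) (hC.bd _ _)
  have i3 : Integrable (fun ω => r (p * n) ω ^ 2) μ := bint ((hC.meas _).pow_const 2) 1 fun ω => by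
    rw [abs_pow]; exact pow_le_one₀ (abs_nonneg _) (hC.bd _ ω)
  have h4 : ∀ ω, (Av x p M n ω - r (p * n) ω) ^ 2 =
      (Av x p M n ω ^ 2 - 2 * (Av x p M n ω * r (p * n) ω)) + r (p * n) ω ^ 2 := fun ω => by ring
  simp only [h4]
  have i4 : Integrable (fun ω => Av x p M n ω ^ 2 - 2 * (Av x p M n ω * r (p * n) ω)) μ := i1.sub (i2.const_mul 2)
  rw [integral_add i4 i3, integral_sub i1 (i2.const_mul 2), integral_const_mul, hcross]
  unfold aa
  ring

end Pool.Agent.K9h47.JL
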