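import Pool.Agent.K9h47.JL.Haar

/-!
# Leaf DEC of the joint law project (helper32): decomposition of the measure
-/

set_option autoImplicit false

open MeasureTheory Filter Topology Finset

namespace Pool.Agent.K9h47.JL.DecX

open Pool.Agent.K9h47.JL.HaarX

/-- a countable measurable cover gives weights -/
theorem gen {X : Type} [MeasurableSpace X] (ν : Measure X) [IsFiniteMeasure ν] {I : Type} [Countable I]
    [Nonempty I] (P : I → Set X) (hP : ∀ i, MeasurableSet (P i)) (hcov : ∀ x, ∃ i, x ∈ P i) :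
    ∃ (w : I → ℝ) (idx : X → I), (∀ i, 0 ≤ w i) ∧ Summable w ∧ (∀ x, x ∈ P (idx x)) ∧
      ∀ (c : I → ℂ), (∃ C : ℝ, ∀ i, ‖c i‖ ≤ C) →
        ∑' i, (w i : ℂ) * c i = ∫ x, c (idx x) ∂ν := by
  classical
  let mI : MeasurableSpace I := ⊤
  have : MeasurableSingletonClass I := ⟨fun _ => trivial⟩
  obtain ⟨f, hf⟩ := exists_surjective_nat I
  have hex : ∀ x, ∃ n, x ∈ P (f n) := by
    intro x
    obtain ⟨i, hi⟩ := hcov x
    obtain ⟨n, rfl⟩ := hf i
    exact ⟨n, hi⟩
  have hNm : Measurable fun x => Nat.find (hex x) := measurable_find hex fun n => hP (f n)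
  let idx : X → I := fun x => f (Nat.find (hex x))
  have hidx : Measurable idx := (measurable_from_nat (f := f)).comp hNm
  let ρ : Measure I := ν.map idx
  have : IsFiniteMeasure ρ := Measure.isFiniteMeasure_map ν idx
  refine ⟨fun i => ρ.real {i}, idx, fun i => measureReal_nonneg, ?_, fun x => Nat.find_spec (hex x), ?_⟩
  · apply ENNReal.summable_toReal
    have h1 := Measure.tsum_indicator_apply_singleton ρ Set.univ MeasurableSet.univ
    simp only [Set.indicator_univ] at h1
    rw [h1]
    exact measure_ne_top ρ _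
  · rintro c ⟨C, hC⟩
    have hcm : Measurable c := fun _ _ => trivial
    have hci : Integrable c ρ := Integrable.of_bound hcm.aestronglyMeasurable C (ae_of_all _ hC)
    have h1 := integral_countable hci
    have h2 : ∫ x, c (idx x) ∂ν = ∫ i, c i ∂ρ :=
      (integral_map hidx.aemeasurable hcm.aestronglyMeasurable).symm
    rw [h2, h1]
    refine tsum_congr fun i => ?_
    rw [Complex.real_smul]

theorem dot_cont {s : ℕ} (k : Fin s → ℤ) : Continuous (dot k : TT s → UnitAddCircle) := by
  unfold dot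
  fun_prop

theorem fin_meas {s : ℕ} (k : Fin s → ℤ) : MeasurableSet {α : TT s | IsOfFinAddOrder (dot k α)} := by
  have h1 : {α : TT s | IsOfFinAddOrder (dot k α)} = ⋃ n : ℕ, {α : TT s | 0 < n ∧ n • dot k α = 0} := by
    ext α
    simp only [Set.mem_ofPred_eq, Set.mem_iUnion]
    exact isOfFinAddOrder_iff_nsmul_eq_zero
  rw [h1]
  refine MeasurableSet.iUnion fun n => ?_
  by_cases hn : 0 < n
  · simp only [hn, true_and]
    exact (isClosed_eq ((dot_cont k).nsmul n) continuous_const).measurableSet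
  · simp [hn]

theorem ch_neg {s : ℕ} (k : Fin s → ℤ) (α : TT s) : ch k (-α) = (starRingEnd ℂ) (ch k α) := by
  have h1 : ch k (-α) = ch (-k) α := by
    rw [ch_eq, ch_eq]
    congr 2
    unfold dot
    simp
  rw [h1]
  exact UnitAddTorus.mFourier_neg

theorem dot_neg {s : ℕ} (k : Fin s → ℤ) (α : TT s) : dot k (-α) = - dot k α := by
  unfold dot
  simp

theorem dec0 : S_ALG → S_HAAR → ∀ (s : ℕ) (ν : Measure (TT s)), IsFiniteMeasure ν →
  (∀ k : Fin s → ℤ, ∫ α, ch k α ∂ν = ((∫ α in {α | IsOfFinAddOrder (dot k α)}, (ch k α).re ∂ν : ℝ) : ℂ)) →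
  ∃ w : Dat s → ℝ, (∀ i, 0 ≤ w i) ∧ Summable w ∧ ∀ k : Fin s → ℤ,
    ∫ α, ch k α ∂ν = ∑' i, (w i : ℂ) * ∫ β : TT s, ch k (pt i β) := by
  classical
  intro halg hhaar s ν _ hν
  let P : Dat s → Set (TT s) := fun i => {α | ∀ k : Fin s → ℤ,
    (IsOfFinAddOrder (dot k α) ↔ ∀ j, ∑ l, k l * i.1 l j = 0) ∧
    (IsOfFinAddOrder (dot k α) → dot k α = dot k (pt i 0))}
  have hP : ∀ i, MeasurableSet (P i) := by
    intro i
    have h1 : P i = ⋂ k : Fin s → ℤ, ({α | (IsOfFinAddOrder (dot k α) ↔ ∀ j, ∑ l, k l * i.1 l j = 0)} ∩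
      {α | (IsOfFinAddOrder (dot k α) → dot k α = dot k (pt i 0))}) := by
      ext α
      simp only [P, Set.mem_ofPred_eq, Set.mem_iInter, Set.mem_inter_iff]
    rw [h1]
    refine MeasurableSet.iInter fun k => MeasurableSet.inter ?_ ?_
    · exact (fin_meas k).iff (MeasurableSet.const _)
    · exact (fin_meas k).imp (isClosed_eq (dot_cont k) continuous_const).measurableSet
  have hcov : ∀ α, ∃ i, α ∈ P i := fun α => halg s α
  have : Nonempty (Dat s) := ⟨(0, 0)⟩
  have : Countable (Matrix (Fin s) (Fin s) ℤ) := inferInstanceAs (Countable (Fin s → Fin s → ℤ))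
  have : Countable (Dat s) := inferInstanceAs (Countable (Matrix (Fin s) (Fin s) ℤ × (Fin s → ℚ)))
  let ν₂ : Measure (TT s) := (2⁻¹ : ENNReal) • (ν + ν.map (fun α => -α))
  have hnm : Measurable (fun α : TT s => -α) := continuous_neg.measurable
  have : IsFiniteMeasure (ν.map (fun α : TT s => -α)) := Measure.isFiniteMeasure_map ν _
  have : IsFiniteMeasure ν₂ := by
    refine Measure.smul_finite _ (by simp)
  obtain ⟨w, idx, hw0, hws, hidx, hw⟩ := gen ν₂ P hP hcov
  refine ⟨w, hw0, hws, fun k => ?_⟩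
  have hb : ∀ α : TT s, ‖ch k α‖ = 1 := by
    intro α
    rw [ch_eq]
    exact Circle.norm_coe _
  have hcb : ∀ i : Dat s, ‖∫ β : TT s, ch k (pt i β)‖ ≤ 1 := by
    intro i
    by_cases h : ∀ j, ∑ l, k l * i.1 l j = 0
    · rw [(hhaar s i k).1 h, hb]
    · rw [(hhaar s i k).2 h]
      simp
  rw [hw (fun i => ∫ β : TT s, ch k (pt i β)) ⟨1, hcb⟩]
  let F : Set (TT s) := {α | IsOfFinAddOrder (dot k α)}
  have hF : MeasurableSet F := fin_meas k
  have hc : ∀ α : TT s, ∫ β : TT s, ch k (pt (idx α) β) = F.indicator (fun α => ch k α) α := by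
    intro α
    have h1 := hidx α k
    by_cases h : IsOfFinAddOrder (dot k α)
    · rw [Set.indicator_of_mem (show α ∈ F from h), (hhaar s (idx α) k).1 (h1.1.mp h), ch_eq, ch_eq, ← h1.2 h]
    · rw [Set.indicator_of_notMem (show α ∉ F from h)]
      exact (hhaar s (idx α) k).2 fun h2 => h (h1.1.mpr h2)
  simp_rw [hc]
  have hfm : Measurable (F.indicator fun α => ch k α) := (ch k).continuous.measurable.indicator hF
  have hfb : ∀ α, ‖F.indicator (fun α => ch k α) α‖ ≤ 1 := by
    intro α
    refine (norm_indicator_le_norm_self _ _).trans (hb α).le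
  have hi1 : Integrable (F.indicator fun α => ch k α) ν :=
    Integrable.of_bound hfm.aestronglyMeasurable 1 (ae_of_all _ hfb)
  have hi2 : Integrable (F.indicator fun α => ch k α) (ν.map fun α : TT s => -α) :=
    Integrable.of_bound hfm.aestronglyMeasurable 1 (ae_of_all _ hfb)
  have e1 : ∫ α, F.indicator (fun α => ch k α) α ∂ν₂ =
      (2⁻¹ : ℂ) * (∫ α, F.indicator (fun α => ch k α) α ∂ν +
        ∫ α, F.indicator (fun α => ch k α) (-α) ∂ν) := by
    rw [integral_smul_measure, integral_add_measure hi1 hi2,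
      integral_map hnm.aemeasurable hfm.aestronglyMeasurable]
    simp [mul_add]
  rw [e1, hν k]
  have hi3 : Integrable (fun α => F.indicator (fun α => ch k α) (-α)) ν :=
    Integrable.of_bound (hfm.comp hnm).aestronglyMeasurable 1 (ae_of_all _ fun α => hfb (-α))
  rw [← integral_add hi1 hi3, ← integral_const_mul, ← integral_indicator hF, ← integral_complex_ofReal]
  refine integral_congr_ae (ae_of_all _ fun α => ?_)
  show ((F.indicator (fun α => (ch k α).re) α : ℝ) : ℂ) = (2⁻¹ : ℂ) *
    (F.indicator (fun α => ch k α) α + F.indicator (fun α => ch k α) (-α))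
  by_cases h : IsOfFinAddOrder (dot k α)
  · have h' : -α ∈ F := by
      show IsOfFinAddOrder (dot k (-α))
      rw [dot_neg]
      exact h.neg
    rw [Set.indicator_of_mem (show α ∈ F from h), Set.indicator_of_mem (show α ∈ F from h),
      Set.indicator_of_mem h', ch_neg, Complex.add_conj]
    push_cast
    ring
  · have h' : -α ∉ F := by
      show ¬ IsOfFinAddOrder (dot k (-α))
      rw [dot_neg]
      intro h2
      apply h
      have := h2.neg
      rwa [neg_neg] at this
    rw [Set.indicator_of_notMem (show α ∉ F from h), Set.indicator_of_notMem (show α ∉ F from h),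
      Set.indicator_of_notMem h']
    simp

end Pool.Agent.K9h47.JL.DecX

namespace Pool.Agent.K9h47.JL

theorem dec : S_DEC := DecX.dec0

end Pool.Agent.K9h47.JL
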