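import Pool.Agent.K9h47.JL.Stm3

/-!
# From characters to continuous functions on the torus: leaf DEN (proofs by helper84 for helper47)
-/

set_option autoImplicit false

open MeasureTheory Filter Topology

namespace Pool.Agent.K9h47.JL

/-- the parametrisation of a rational affine subtorus is continuous -/
theorem pt_cont' {s : ℕ} (i : Dat s) : Continuous (pt i) := by
  refine continuous_pi fun l => ?_
  have h1 : Continuous fun β : TT s => ∑ j, i.1 l j • β j :=
    continuous_finsetSum _ fun j _ => (continuous_apply j).zsmul (i.1 l j)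
  exact (continuous_const (y := ((i.2 l : ℝ) : UnitAddCircle))).add h1

/-- the torus has total mass one -/
theorem prob_TT (s : ℕ) : IsProbabilityMeasure (volume : Measure (TT s)) := by
  have : IsProbabilityMeasure (volume : Measure UnitAddCircle) := ⟨UnitAddCircle.measure_univ⟩
  exact inferInstanceAs (IsProbabilityMeasure (Measure.pi fun _ : Fin s =>
    (volume : Measure UnitAddCircle)))

/-- a continuous linear form and an absolutely convergent series of continuous linear forms which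
agree on a set with dense span -/
theorem ext_tsum {E ι : Type} [NormedAddCommGroup E] [NormedSpace ℂ E] {D : Set E}
    (hD : Dense (Submodule.span ℂ D : Set E)) (Ψ : ι → E →L[ℂ] ℂ) (hΨ : ∀ i, ‖Ψ i‖ ≤ 1)
    {w : ι → ℝ} (hw0 : ∀ i, 0 ≤ w i) (hw : Summable w) (Φ : E →L[ℂ] ℂ)
    (h : ∀ x ∈ D, Φ x = ∑' i, (w i : ℂ) * Ψ i x) (x : E) : Φ x = ∑' i, (w i : ℂ) * Ψ i x := by
  have hsum : Summable fun i => (w i : ℂ) • Ψ i := by
    refine Summable.of_norm_bounded hw fun i => ?_
    rw [norm_smul, Complex.norm_real, Real.norm_of_nonneg (hw0 i)]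
    exact mul_le_of_le_one_right (hw0 i) (hΨ i)
  have happ : ∀ x : E, (∑' i, (w i : ℂ) • Ψ i) x = ∑' i, (w i : ℂ) * Ψ i x := fun x =>
    (ContinuousLinearMap.apply ℂ ℂ x).map_tsum hsum
  have heq : Φ = ∑' i, (w i : ℂ) • Ψ i := by
    refine ContinuousLinearMap.ext_on hD fun y hy => ?_
    rw [happ, h y hy]
  rw [← happ, ← heq]

/-- the integral as a continuous linear form -/
theorem exists_intL {s : ℕ} (μ : Measure (TT s)) [IsFiniteMeasure μ] :
    ∃ Φ : C(TT s, ℂ) →L[ℂ] ℂ, (∀ G, Φ G = ∫ α, G α ∂μ) ∧ ‖Φ‖ ≤ μ.real Set.univ := by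
  have h1 : ∀ G : C(TT s, ℂ), Integrable (fun α => G α) μ := fun G =>
    G.continuous.integrable_of_hasCompactSupport (HasCompactSupport.of_compactSpace _)
  let Λ : C(TT s, ℂ) →ₗ[ℂ] ℂ :=
    { toFun := fun G => ∫ α, G α ∂μ
      map_add' := fun G G' => integral_add (h1 G) (h1 G')
      map_smul' := fun a G => integral_const_mul a _ }
  refine ⟨Λ.mkContinuous (μ.real Set.univ) fun G => ?_, fun G => rfl,
    Λ.mkContinuous_norm_le measureReal_nonneg _⟩
  rw [mul_comm]
  exact norm_integral_le_of_norm_le_const (ae_of_all _ fun α => G.norm_coe_le_norm α)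

/-- **DEN** -/
theorem den : S_DEN := by
  intro s ν hν w hw0 hw hk G
  have hd : Dense (Submodule.span ℂ (Set.range (ch (s := s))) : Set C(TT s, ℂ)) := by
    rw [Submodule.dense_iff_topologicalClosure_eq_top]
    exact UnitAddTorus.span_mFourier_closure_eq_top
  have hTT := prob_TT s
  have hprob : ∀ i : Dat s, IsProbabilityMeasure ((volume : Measure (TT s)).map (pt i)) := fun i =>
    Measure.isProbabilityMeasure_map (pt_cont' i).aemeasurable
  choose Ψ hΨ hΨn using fun i : Dat s => exists_intL ((volume : Measure (TT s)).map (pt i))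
  obtain ⟨Φ, hΦ, -⟩ := exists_intL ν
  have hΨ' : ∀ i (G : C(TT s, ℂ)), Ψ i G = ∫ β : TT s, G (pt i β) := fun i G => by
    rw [hΨ]
    exact integral_map (pt_cont' i).aemeasurable G.continuous.aestronglyMeasurable
  have hΨ1 : ∀ i, ‖Ψ i‖ ≤ 1 := fun i => (hΨn i).trans_eq (by simp [Measure.real])
  let Gc : C(TT s, ℂ) := ⟨fun α => (G α : ℂ), by fun_prop⟩
  have h1 := ext_tsum hd Ψ hΨ1 hw0 hw Φ (by
    rintro _ ⟨k, rfl⟩
    rw [hΦ, hk k]
    exact tsum_congr fun i => by rw [hΨ']) Gc
  rw [hΦ] at h1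
  have h2 : ∫ α, Gc α ∂ν = ((∫ α, G α ∂ν : ℝ) : ℂ) := integral_ofReal
  have h3 : ∀ i, Ψ i Gc = ((∫ β : TT s, G (pt i β) : ℝ) : ℂ) := fun i => by
    rw [hΨ']
    exact integral_ofReal
  rw [h2] at h1
  have h4 : ((∫ α, G α ∂ν : ℝ) : ℂ) = ((∑' i, w i * ∫ β : TT s, G (pt i β) : ℝ) : ℂ) := by
    rw [h1, Complex.ofReal_tsum]
    refine tsum_congr fun i => ?_
    rw [h3, Complex.ofReal_mul]
  exact Complex.ofReal_injective h4

end Pool.Agent.K9h47.JL
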