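import Pool.Agent.K9h47.JL.Stm

/-!
# The law of the frequencies is invariant under dilation, on average (helper47)
-/

set_option autoImplicit false

open MeasureTheory Filter Topology Finset

namespace Pool.Agent.K9h47.JL

/-- averages of `y_m y_(m+n)` -/
noncomputable def AvY (M : ℕ) (n : ℤ) (y : ℤ → ℝ) : ℝ :=
  (1 / (M : ℝ)) * ∑ m ∈ range M, y m * y (m + n)

lemma AvY_le (M : ℕ) (n : ℤ) (y : ℤ → ℝ) (hy : ∀ k, |y k| ≤ 1) : |AvY M n y| ≤ 1 := by
  unfold AvY
  rcases Nat.eq_zero_or_pos M with h | h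
  · subst h; simp
  have hM : (0 : ℝ) < M := by exact_mod_cast h
  rw [abs_mul, abs_of_nonneg (by positivity : (0 : ℝ) ≤ 1 / M)]
  have h1 : |∑ m ∈ range M, y m * y (m + n)| ≤ ∑ _m ∈ range M, (1 : ℝ) := by
    refine (abs_sum_le_sum_abs _ _).trans (sum_le_sum fun m _ => ?_)
    rw [abs_mul]
    exact mul_le_one₀ (hy _) (abs_nonneg _) (hy _)
  rw [sum_const, card_range, nsmul_eq_mul, mul_one] at h1
  calc 1 / (M : ℝ) * |∑ m ∈ range M, y m * y (m + n)| ≤ 1 / (M : ℝ) * M :=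
        mul_le_mul_of_nonneg_left h1 (by positivity)
    _ = 1 := by field_simp

/-- the mean over a square of differences -/
noncomputable def sq2 (N : ℕ) (f : ℤ → ℝ) : ℝ :=
  (1 / (N : ℝ)) * ∑ i ∈ range N, (1 / (N : ℝ)) * ∑ k ∈ range N, f ((i : ℤ) - k)

lemma sq2_le {N : ℕ} {f g : ℤ → ℝ} (h : ∀ n, f n ≤ g n) : sq2 N f ≤ sq2 N g := by
  unfold sq2
  gcongr
  exact h _

lemma sq2_le' {N : ℕ} {f g : ℤ → ℝ} (h : ∀ i < N, ∀ k < N, f ((i : ℤ) - k) ≤ g ((i : ℤ) - k)) :
    sq2 N f ≤ sq2 N g := by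
  unfold sq2
  refine mul_le_mul_of_nonneg_left (sum_le_sum fun i hi => ?_) (by positivity)
  refine mul_le_mul_of_nonneg_left (sum_le_sum fun k hk => ?_) (by positivity)
  exact h i (mem_range.1 hi) k (mem_range.1 hk)

lemma sq2_add (N : ℕ) (f g : ℤ → ℝ) : sq2 N (fun n => f n + g n) = sq2 N f + sq2 N g := by
  unfold sq2
  simp only [sum_add_distrib, mul_add]

lemma sq2_sub (N : ℕ) (f g : ℤ → ℝ) : sq2 N (fun n => f n - g n) = sq2 N f - sq2 N g := by
  unfold sq2
  simp only [sum_sub_distrib, mul_sub]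

lemma sq2_const {N : ℕ} (hN : 1 ≤ N) (c : ℝ) : sq2 N (fun _ => c) = c := by
  have hM : (N : ℝ) ≠ 0 := by positivity
  unfold sq2
  simp only [sum_const, card_range, nsmul_eq_mul]
  field_simp

lemma sq2_mul (N : ℕ) (c : ℝ) (f : ℤ → ℝ) : sq2 N (fun n => c * f n) = c * sq2 N f := by
  unfold sq2
  simp only [mul_sum]
  refine sum_congr rfl fun i _ => sum_congr rfl fun k _ => ?_
  ring

lemma sq2_nonneg {N : ℕ} {f : ℤ → ℝ} (h : ∀ n, 0 ≤ f n) : 0 ≤ sq2 N f := by
  unfold sq2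
  exact mul_nonneg (by positivity) (sum_nonneg fun i _ => mul_nonneg (by positivity)
    (sum_nonneg fun k _ => h _))

lemma sq2_abs (N : ℕ) (f : ℤ → ℝ) : |sq2 N f| ≤ sq2 N (fun n => |f n|) := by
  rw [abs_le]
  constructor
  · have h1 := sq2_le (N := N) (f := fun n => -|f n|) (g := f) (fun n => neg_abs_le _)
    have h2 := sq2_mul N (-1) (fun n => |f n|)
    simp only [neg_mul, one_mul] at h2
    linarith
  · exact sq2_le fun n => le_abs_self _

lemma sq2_abs_le {N : ℕ} (hN : 1 ≤ N) {f : ℤ → ℝ} {C : ℝ} (h : ∀ n, |f n| ≤ C) : |sq2 N f| ≤ C := by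
  refine (sq2_abs N f).trans ?_
  rw [← sq2_const hN C]
  exact sq2_le h

/-- the average over a shifted square is at most four times the one over the doubled square -/
lemma sq2_shift {N : ℕ} (hN : 1 ≤ N) {f : ℤ → ℝ} (hf : ∀ n, 0 ≤ f n) (j : ℤ) (hj : |j| ≤ N) :
    sq2 N (fun n => f (n + j)) ≤ 4 * sq2 (2 * N) f := by
  have hN0 : (0 : ℝ) < N := by exact_mod_cast hN
  have e1 : sq2 N (fun n => f (n + j)) =
      (1 / ((N : ℝ) * N)) * ∑ q ∈ range N ×ˢ range N, f ((q.1 : ℤ) - q.2 + j) := by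
    unfold sq2
    rw [sum_product, mul_sum, mul_sum]
    refine sum_congr rfl fun i _ => ?_
    field_simp
  have e2 : 4 * sq2 (2 * N) f =
      (1 / ((N : ℝ) * N)) * ∑ q ∈ range (2 * N) ×ˢ range (2 * N), f ((q.1 : ℤ) - q.2) := by
    unfold sq2
    rw [sum_product, mul_sum, mul_sum, mul_sum]
    refine sum_congr rfl fun i _ => ?_
    push_cast
    field_simp
    ring
  rw [e1, e2]
  refine mul_le_mul_of_nonneg_left ?_ (by positivity)
  rcases le_total 0 j with h0 | h0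
  · obtain ⟨m, rfl⟩ := Int.eq_ofNat_of_zero_le h0
    have hm : m ≤ N := by
      rw [abs_of_nonneg h0] at hj
      exact_mod_cast hj
    have : ∑ q ∈ range N ×ˢ range N, f ((q.1 : ℤ) - q.2 + (m : ℤ)) =
        ∑ q ∈ (range N ×ˢ range N).image (fun q => (q.1 + m, q.2)), f ((q.1 : ℤ) - q.2) := by
      rw [sum_image]
      · refine sum_congr rfl fun q _ => ?_
        congr 1
        push_cast
        ring
      · intro a _ b _ hab
        have := Prod.mk.inj hab
        exact Prod.ext (by omega) this.2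
    rw [this]
    refine sum_le_sum_of_subset_of_nonneg ?_ (fun _ _ _ => hf _)
    intro q hq
    obtain ⟨q', hq', rfl⟩ := mem_image.1 hq
    rw [mem_product, mem_range, mem_range] at hq'
    rw [mem_product, mem_range, mem_range]
    constructor
    · show q'.1 + m < 2 * N
      omega
    · show q'.2 < 2 * N
      omega
  · obtain ⟨m, hm⟩ := Int.eq_ofNat_of_zero_le (show 0 ≤ -j by omega)
    have hj' : j = -(m : ℤ) := by omega
    subst hj'
    have hm : m ≤ N := by
      rw [abs_neg, abs_of_nonneg (by positivity)] at hj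
      exact_mod_cast hj
    have : ∑ q ∈ range N ×ˢ range N, f ((q.1 : ℤ) - q.2 + -(m : ℤ)) =
        ∑ q ∈ (range N ×ˢ range N).image (fun q : ℕ × ℕ => ((q.1, q.2 + m) : ℕ × ℕ)),
          f ((q.1 : ℤ) - q.2) := by
      rw [sum_image]
      · refine sum_congr rfl fun q _ => ?_
        congr 1
        push_cast
        ring
      · intro a _ b _ hab
        have := Prod.mk.inj hab
        exact Prod.ext this.1 (by omega)
    rw [this]
    refine sum_le_sum_of_subset_of_nonneg ?_ (fun _ _ _ => hf _)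
    intro q hq
    obtain ⟨q', hq', rfl⟩ := mem_image.1 hq
    rw [mem_product, mem_range, mem_range] at hq'
    rw [mem_product, mem_range, mem_range]
    constructor
    · show q'.1 < 2 * N
      omega
    · show q'.2 + m < 2 * N
      omega

lemma al_sq2 (a : ℤ → ℝ) (p N : ℕ) : al a (pr p) (pr p) N N = sq2 N (fun n => a (p * n)) := by
  unfold al sq2 pr
  rw [mul_sum, mul_sum]
  refine sum_congr rfl fun i _ => ?_
  rw [← mul_assoc]
  congr 1
  · rw [one_div, one_div, mul_inv]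
  · refine sum_congr rfl fun k _ => ?_
    show _ = a ((p : ℤ) * ((i : ℤ) - k))
    rw [mul_sub]

lemma G_sq2 {Ω : Type} (r : ℤ → Ω → ℝ) (p N : ℕ) (j : ℤ) (ω : Ω) : G r (pr p) (pr p) N N (p * j) ω =
    sq2 N (fun n => r (p * n) ω * r (p * (n + j)) ω) := by
  unfold G sq2 pr
  rw [mul_sum, mul_sum]
  refine sum_congr rfl fun i _ => ?_
  rw [← mul_assoc]
  congr 1
  · rw [one_div, one_div, mul_inv]
  · refine sum_congr rfl fun k _ => ?_
    rw [← mul_sub, ← mul_add]

section int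

variable {Ω : Type} [MeasurableSpace Ω] {μ : Measure Ω}

lemma intb [IsProbabilityMeasure μ] {f : Ω → ℝ} (hf : Measurable f) (C : ℝ) (h : ∀ ω, |f ω| ≤ C) :
    Integrable f μ :=
  Integrable.of_bound hf.aestronglyMeasurable C (ae_of_all _ fun ω => by
    rw [Real.norm_eq_abs]; exact h ω)

lemma int_sq2 [IsProbabilityMeasure μ] (N : ℕ) (f : ℤ → Ω → ℝ) (hf : ∀ n, Integrable (f n) μ) :
    ∫ ω, sq2 N (fun n => f n ω) ∂μ = sq2 N (fun n => ∫ ω, f n ω ∂μ) := by
  unfold sq2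
  rw [integral_const_mul, integral_finsetSum]
  · congr 1
    refine sum_congr rfl fun i _ => ?_
    rw [integral_const_mul, integral_finsetSum]
    intro k _
    exact hf _
  · intro i _
    exact (integrable_finsetSum _ fun k _ => hf _).const_mul _

lemma meas_sq2 (N : ℕ) (f : ℤ → Ω → ℝ) (hf : ∀ n, Measurable (f n)) :
    Measurable (fun ω => sq2 N (fun n => f n ω)) := by
  unfold sq2
  fun_prop

lemma prod_le_one' {s : ℕ} (u : Fin s → ℝ) (hu : ∀ l, |u l| ≤ 1) : |∏ l, u l| ≤ 1 := by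
  rw [abs_prod]
  exact prod_le_one (fun _ _ => abs_nonneg _) fun l _ => hu l

lemma prod_diff : ∀ (s : ℕ) (u v : Fin s → ℝ), (∀ l, |u l| ≤ 1) → (∀ l, |v l| ≤ 1) →
    |∏ l, u l - ∏ l, v l| ≤ ∑ l, |u l - v l| := by
  intro s
  induction s with
  | zero => intro u v _ _; simp
  | succ s ih =>
    intro u v hu hv
    rw [Fin.prod_univ_succ, Fin.prod_univ_succ, Fin.sum_univ_succ]
    have h1 := ih (fun l => u l.succ) (fun l => v l.succ) (fun l => hu _) (fun l => hv _)
    have h2 := prod_le_one' (fun l : Fin s => u l.succ) (fun l => hu _)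
    have e : u 0 * ∏ l : Fin s, u l.succ - v 0 * ∏ l : Fin s, v l.succ =
        (u 0 - v 0) * ∏ l : Fin s, u l.succ + v 0 * (∏ l : Fin s, u l.succ - ∏ l : Fin s, v l.succ) := by
      ring
    rw [e]
    refine (abs_add_le _ _).trans ?_
    rw [abs_mul, abs_mul]
    have h3 : |u 0 - v 0| * |∏ l : Fin s, u l.succ| ≤ |u 0 - v 0| * 1 :=
      mul_le_mul_of_nonneg_left h2 (abs_nonneg _)
    have h4 : |v 0| * |∏ l : Fin s, u l.succ - ∏ l : Fin s, v l.succ| ≤
        1 * |∏ l : Fin s, u l.succ - ∏ l : Fin s, v l.succ| :=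
      mul_le_mul_of_nonneg_right (hv 0) (abs_nonneg _)
    linarith

lemma prod_int [IsProbabilityMeasure μ] {s : ℕ} (u v : Fin s → Ω → ℝ) (hu : ∀ l, Measurable (u l))
    (hv : ∀ l, Measurable (v l)) (hu1 : ∀ l ω, |u l ω| ≤ 1) (hv1 : ∀ l ω, |v l ω| ≤ 1) :
    |∫ ω, ∏ l, u l ω ∂μ - ∫ ω, ∏ l, v l ω ∂μ| ≤ ∑ l, ∫ ω, |u l ω - v l ω| ∂μ := by
  have h1 : Integrable (fun ω => ∏ l, u l ω) μ := intb (by fun_prop) 1
    fun ω => prod_le_one' (fun l => u l ω) fun l => hu1 l ω
  have h2 : Integrable (fun ω => ∏ l, v l ω) μ := intb (by fun_prop) 1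
    fun ω => prod_le_one' (fun l => v l ω) fun l => hv1 l ω
  rw [← integral_sub h1 h2, ← integral_finsetSum]
  · refine (abs_integral_le_integral_abs).trans ?_
    refine integral_mono (h1.sub h2).abs ?_ ?_
    · exact integrable_finsetSum _ fun l _ => intb (by fun_prop) 2 fun ω => by
        rw [abs_abs]
        have := abs_sub (u l ω) (v l ω)
        linarith [hu1 l ω, hv1 l ω]
    · intro ω
      exact prod_diff s (fun l => u l ω) (fun l => v l ω) (fun l => hu1 l ω) fun l => hv1 l ω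
  · intro l _
    exact intb (by fun_prop) 2 fun ω => by
      rw [abs_abs]
      have := abs_sub (u l ω) (v l ω)
      linarith [hu1 l ω, hv1 l ω]

/-- Cauchy-Schwarz with a parameter -/
lemma cs_int [IsProbabilityMeasure μ] {f : Ω → ℝ} (hf : Measurable f) (C : ℝ) (h : ∀ ω, |f ω| ≤ C) (τ : ℝ)
    (hτ : 0 < τ) : ∫ ω, |f ω| ∂μ ≤ τ + (1 / τ) * ∫ ω, f ω ^ 2 ∂μ := by
  have h2 : Integrable (fun ω => f ω ^ 2) μ := intb (by fun_prop) (C ^ 2) fun ω => by
    rw [abs_pow]
    exact pow_le_pow_left₀ (abs_nonneg _) (h ω) 2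
  have e : τ + (1 / τ) * ∫ ω, f ω ^ 2 ∂μ = ∫ ω, (τ + 1 / τ * f ω ^ 2) ∂μ := by
    rw [integral_add (integrable_const _) (h2.const_mul _), integral_const_mul]
    simp
  rw [e]
  refine integral_mono (intb (by fun_prop) C fun ω => by rw [abs_abs]; exact h ω)
    ((integrable_const _).add (h2.const_mul _)) fun ω => ?_
  show |f ω| ≤ τ + 1 / τ * f ω ^ 2
  have h3 : 0 ≤ (|f ω| - τ / 2) ^ 2 := sq_nonneg _
  have h4 : |f ω| ^ 2 = f ω ^ 2 := sq_abs _
  have h5 : |f ω| * τ ≤ τ * τ + f ω ^ 2 := by nlinarith [sq_nonneg (|f ω|), abs_nonneg (f ω)]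
  have h6 : |f ω| = (|f ω| * τ) / τ := by field_simp
  rw [h6]
  rw [div_le_iff₀ hτ]
  have h7 : (τ + 1 / τ * f ω ^ 2) * τ = τ * τ + f ω ^ 2 := by field_simp
  rw [h7]
  exact h5

end int

end Pool.Agent.K9h47.JL
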