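import Pool.Agent.K9h47.JL.Dilc

/-!
# The law of the frequencies is invariant under dilation, on average: conclusion (helper47)
-/

set_option autoImplicit false

open MeasureTheory Filter Topology Finset

namespace Pool.Agent.K9h47.JL

section

variable {Ω : Type} [MeasurableSpace Ω] {μ : Measure Ω} {T : Ω → Ω} {x r : ℤ → Ω → ℝ}

lemma Av_eq (p M : ℕ) (n : ℤ) (ω : Ω) : Av x p M n ω = AvY M n (fun k => x (p * k) ω) := by
  unfold Av AvY
  simp only [mul_add]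

lemma Av_meas (hS : Stat μ T x) (p M : ℕ) (n : ℤ) : Measurable (Av x p M n) := by
  have h := hS.meas
  unfold Av
  fun_prop

lemma Av_le (hS : Stat μ T x) (p M : ℕ) (n : ℤ) (ω : Ω) : |Av x p M n ω| ≤ 1 := by
  rw [Av_eq]
  exact AvY_le M n _ fun k => hS.bd _ _

/-- mean square error -/
noncomputable def Qe (μ : Measure Ω) (x r : ℤ → Ω → ℝ) (p M : ℕ) (n : ℤ) : ℝ :=
  ∫ ω, (Av x p M n ω - r (p * n) ω) ^ 2 ∂μ

/-- energy -/
noncomputable def Ue (μ : Measure Ω) (x : ℤ → Ω → ℝ) (p M K : ℕ) : ℝ :=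
  sq2 K (fun n => ∫ ω, Av x p M n ω ^ 2 ∂μ)

/-- one factor -/
noncomputable def fac (M N : ℕ) (j : ℤ) (y : ℤ → ℝ) : ℝ :=
  sq2 N (fun n => AvY M n y * AvY M (n + j) y)

/-- the energy as a polynomial -/
noncomputable def Psi (M K : ℕ) (y : ℤ → ℝ) : ℝ :=
  sq2 K (fun n => AvY M n y * AvY M n y)

lemma fac_le {M N : ℕ} (hN : 1 ≤ N) (j : ℤ) (y : ℤ → ℝ) (hy : ∀ k, |y k| ≤ 1) : |fac M N j y| ≤ 1 := by
  refine sq2_abs_le hN fun n => ?_
  rw [abs_mul]
  exact mul_le_one₀ (AvY_le _ _ _ hy) (abs_nonneg _) (AvY_le _ _ _ hy)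

lemma fac_meas (hS : Stat μ T x) (p M N : ℕ) (j : ℤ) : Measurable (fun ω => fac M N j (fun k => x (p * k) ω)) := by
  have h : (fun ω => fac M N j (fun k => x (p * k) ω)) =
      fun ω => sq2 N (fun n => Av x p M n ω * Av x p M (n + j) ω) := by
    funext ω
    unfold fac
    simp only [Av_eq]
  rw [h]
  exact meas_sq2 N (fun n ω => Av x p M n ω * Av x p M (n + j) ω)
    fun n => (Av_meas hS p M n).mul (Av_meas hS p M (n + j))

lemma Psi_int (hS : Stat μ T x) (p M K : ℕ) :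
    ∫ ω, Psi M K (fun k => x (p * k) ω) ∂μ = Ue μ x p M K := by
  have := hS.prob
  unfold Psi Ue
  rw [← int_sq2 K (fun n ω => Av x p M n ω ^ 2)]
  · congr 1
    funext ω
    congr 1
    funext n
    rw [Av_eq, pow_two]
  · intro n
    exact intb ((Av_meas hS p M n).pow_const 2) 1 fun ω => by
      rw [abs_pow]
      exact pow_le_one₀ (abs_nonneg _) (Av_le hS p M n ω)

variable (h1 : S_CTWO) (hS : Stat μ T x) (hC : Cor μ T x r)
include h1 hS hC

lemma Qe_sq2 (p M K : ℕ) (hp : 1 ≤ p) (hM : 1 ≤ M) :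
    sq2 K (fun n => Qe μ x r p M n) = Ue μ x p M K - al (aa μ r) (pr p) (pr p) K K := by
  rw [al_sq2, Ue, ← sq2_sub]
  congr 1
  funext n
  exact h1 μ T x r hS hC p M n hp hM

omit h1 hC in
lemma Qe_nonneg (p M : ℕ) (n : ℤ) : 0 ≤ Qe μ x r p M n := integral_nonneg fun _ => sq_nonneg _

/-- comparison of one factor with the limit -/
lemma one_fac {A : ℝ} {g : ℤ → Ω → ℝ} (hL : Lims μ r A g) (p M N : ℕ) (hp : 1 ≤ p) (hM : 1 ≤ M) (hN : 1 ≤ N)
    (j : ℤ) (hj : |j| ≤ N) (τ : ℝ) (hτ : 0 < τ) :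
    ∫ ω, |fac M N j (fun k => x (p * k) ω) - g (p * j) ω| ∂μ ≤
      4 * τ + (1 / τ) * (3 * (Ue μ x p M N - A) + 4 * (Ue μ x p M (2 * N) - A)) := by
  have := hS.prob
  have hrm := hC.meas
  -- the difference with `G`
  have hGm : Measurable (fun ω => G r (pr p) (pr p) N N (p * j) ω) := by
    have : (fun ω => G r (pr p) (pr p) N N (p * j) ω) =
        fun ω => sq2 N (fun n => r (p * n) ω * r (p * (n + j)) ω) := by
      funext ω
      exact G_sq2 r p N j ω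
    rw [this]
    exact meas_sq2 N (fun n ω => r (p * n) ω * r (p * (n + j)) ω) fun n => (hrm _).mul (hrm _)
  have hGb : ∀ ω, |G r (pr p) (pr p) N N (p * j) ω| ≤ 1 := by
    intro ω
    rw [G_sq2]
    refine sq2_abs_le hN fun n => ?_
    rw [abs_mul]
    exact mul_le_one₀ (hC.bd _ _) (abs_nonneg _) (hC.bd _ _)
  have hFm := fac_meas hS p M N j
  have hFb : ∀ ω, |fac M N j (fun k => x (p * k) ω)| ≤ 1 := fun ω => fac_le hN j _ fun k => hS.bd _ _
  have hI : ∀ n, Integrable (fun ω => |Av x p M n ω - r (p * n) ω|) μ := fun n =>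
    intb (((Av_meas hS p M n).sub (hrm _)).abs) 2 fun ω => by
      rw [abs_abs]
      have := abs_sub (Av x p M n ω) (r (p * n) ω)
      linarith [Av_le hS p M n ω, hC.bd (p * n) ω]
  have hpt : ∀ ω, |fac M N j (fun k => x (p * k) ω) - G r (pr p) (pr p) N N (p * j) ω| ≤
      sq2 N (fun n => |Av x p M n ω - r (p * n) ω| + |Av x p M (n + j) ω - r (p * (n + j)) ω|) := by
    intro ω
    have e : fac M N j (fun k => x (p * k) ω) - G r (pr p) (pr p) N N (p * j) ω =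
        sq2 N (fun n => Av x p M n ω * Av x p M (n + j) ω - r (p * n) ω * r (p * (n + j)) ω) := by
      rw [sq2_sub, G_sq2]
      unfold fac
      simp only [Av_eq]
    rw [e]
    refine (sq2_abs _ _).trans (sq2_le fun n => ?_)
    have e2 : Av x p M n ω * Av x p M (n + j) ω - r (p * n) ω * r (p * (n + j)) ω =
        (Av x p M n ω - r (p * n) ω) * Av x p M (n + j) ω +
          r (p * n) ω * (Av x p M (n + j) ω - r (p * (n + j)) ω) := by ring
    rw [e2]
    refine (abs_add_le _ _).trans (add_le_add ?_ ?_)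
    · rw [abs_mul]
      exact mul_le_of_le_one_right (abs_nonneg _) (Av_le hS p M _ ω)
    · rw [abs_mul]
      exact mul_le_of_le_one_left (abs_nonneg _) (hC.bd _ ω)
  have hIa : ∀ n, ∫ ω, |Av x p M n ω - r (p * n) ω| ∂μ ≤ τ + (1 / τ) * Qe μ x r p M n := by
    intro n
    exact cs_int ((Av_meas hS p M n).sub (hrm _)) 2 (fun ω => by
      rw [Pi.sub_apply]
      have := abs_sub (Av x p M n ω) (r (p * n) ω)
      linarith [Av_le hS p M n ω, hC.bd (p * n) ω]) τ hτ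
  have h2 : ∫ ω, |fac M N j (fun k => x (p * k) ω) - G r (pr p) (pr p) N N (p * j) ω| ∂μ ≤
      2 * τ + (1 / τ) * ((Ue μ x p M N - A) + 4 * (Ue μ x p M (2 * N) - A)) := by
    have h3 : ∫ ω, |fac M N j (fun k => x (p * k) ω) - G r (pr p) (pr p) N N (p * j) ω| ∂μ ≤
        ∫ ω, sq2 N (fun n => |Av x p M n ω - r (p * n) ω| + |Av x p M (n + j) ω - r (p * (n + j)) ω|) ∂μ := by
      refine integral_mono (intb ((hFm.sub hGm).abs) 2 fun ω => ?_) ?_ hpt
      · rw [abs_abs]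
        exact (abs_sub _ _).trans (by linarith [hFb ω, hGb ω])
      · unfold sq2
        refine (integrable_finsetSum _ fun i _ => ?_).const_mul _
        refine (integrable_finsetSum _ fun k _ => ?_).const_mul _
        exact (hI _).add (hI _)
    refine h3.trans ?_
    rw [int_sq2 N (fun n ω => |Av x p M n ω - r (p * n) ω| + |Av x p M (n + j) ω - r (p * (n + j)) ω|)
      (fun n => (hI n).add (hI (n + j)))]
    have h4 : ∀ n, ∫ ω, (|Av x p M n ω - r (p * n) ω| + |Av x p M (n + j) ω - r (p * (n + j)) ω|) ∂μ ≤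
        (τ + (1 / τ) * Qe μ x r p M n) + (τ + (1 / τ) * Qe μ x r p M (n + j)) := by
      intro n
      rw [integral_add (hI n) (hI (n + j))]
      exact add_le_add (hIa n) (hIa (n + j))
    refine (sq2_le h4).trans ?_
    rw [sq2_add, sq2_add, sq2_add, sq2_const hN, sq2_mul, sq2_mul]
    have h5 := sq2_shift hN (f := fun n => Qe μ x r p M n) (fun n => Qe_nonneg hS p M n) j hj
    have h6 := Qe_sq2 h1 hS hC p M N hp hM
    have h7 := Qe_sq2 h1 hS hC p M (2 * N) hp hM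
    have h8 := hL.low p N hp hN
    have h9 := hL.low p (2 * N) hp (by omega)
    have hτ' : 0 ≤ 1 / τ := by positivity
    have h10 : (1 / τ) * sq2 N (fun n => Qe μ x r p M n) ≤ (1 / τ) * (Ue μ x p M N - A) :=
      mul_le_mul_of_nonneg_left (by rw [h6]; linarith) hτ'
    have h11 : (1 / τ) * sq2 N (fun n => Qe μ x r p M (n + j)) ≤ (1 / τ) * (4 * (Ue μ x p M (2 * N) - A)) :=
      mul_le_mul_of_nonneg_left (by rw [h7] at h5; linarith) hτ'
    rw [mul_add]
    linarith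
  have h12 : ∫ ω, |G r (pr p) (pr p) N N (p * j) ω - g (p * j) ω| ∂μ ≤
      2 * τ + (1 / τ) * (2 * (Ue μ x p M N - A)) := by
    refine (hL.cmp p N j hp hN).trans ?_
    have h8 := hL.low p N hp hN
    have h6 := Qe_sq2 h1 hS hC p M N hp hM
    have h13 : al (aa μ r) (pr p) (pr p) N N ≤ Ue μ x p M N := by
      have := sq2_nonneg (N := N) (f := fun n => Qe μ x r p M n) (fun n => Qe_nonneg hS p M n)
      linarith
    set e := al (aa μ r) (pr p) (pr p) N N - A with he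
    have he0 : 0 ≤ e := by rw [he]; linarith
    have h14 : √e ≤ τ + (1 / τ) * e := by
      rw [Real.sqrt_le_left (by positivity)]
      have : (τ + 1 / τ * e) ^ 2 = τ ^ 2 + 2 * e + (1 / τ * e) ^ 2 := by
        field_simp
        ring
      rw [this]
      nlinarith [sq_nonneg τ, sq_nonneg (1 / τ * e)]
    have h15 : (1 / τ) * e ≤ (1 / τ) * (Ue μ x p M N - A) :=
      mul_le_mul_of_nonneg_left (by rw [he]; linarith) (by positivity)
    linarith
  have h16 : ∫ ω, |fac M N j (fun k => x (p * k) ω) - g (p * j) ω| ∂μ ≤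
      ∫ ω, |fac M N j (fun k => x (p * k) ω) - G r (pr p) (pr p) N N (p * j) ω| ∂μ +
        ∫ ω, |G r (pr p) (pr p) N N (p * j) ω - g (p * j) ω| ∂μ := by
    have hgm := hL.meas (p * j)
    have hi1 : Integrable (fun ω => |fac M N j (fun k => x (p * k) ω) - G r (pr p) (pr p) N N (p * j) ω|) μ :=
      intb ((hFm.sub hGm).abs) 2 fun ω => by
        rw [abs_abs]
        exact (abs_sub _ _).trans (by linarith [hFb ω, hGb ω])
    have hi2 : Integrable (fun ω => |G r (pr p) (pr p) N N (p * j) ω - g (p * j) ω|) μ :=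
      intb ((hGm.sub hgm).abs) 2 fun ω => by
        rw [abs_abs]
        exact (abs_sub _ _).trans (by linarith [hL.bd (p * j) ω, hGb ω])
    rw [← integral_add hi1 hi2]
    refine integral_mono (intb ((hFm.sub hgm).abs) 2 fun ω => ?_) (hi1.add hi2) fun ω => ?_
    · rw [abs_abs]
      exact (abs_sub _ _).trans (by linarith [hFb ω, hL.bd (p * j) ω])
    · exact abs_sub_le _ _ _
  have e : (1 / τ) * (3 * (Ue μ x p M N - A) + 4 * (Ue μ x p M (2 * N) - A)) =
      (1 / τ) * ((Ue μ x p M N - A) + 4 * (Ue μ x p M (2 * N) - A)) + (1 / τ) * (2 * (Ue μ x p M N - A)) := by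
    ring
  rw [e]
  linarith

/-- the product -/
lemma all_fac {A : ℝ} {g : ℤ → Ω → ℝ} (hL : Lims μ r A g) (p M N : ℕ) (hp : 1 ≤ p) (hM : 1 ≤ M) (hN : 1 ≤ N)
    {s : ℕ} (j : Fin s → ℤ) (hj : ∀ l, |j l| ≤ N) (τ : ℝ) (hτ : 0 < τ) :
    |∫ ω, ∏ l, fac M N (j l) (fun k => x (p * k) ω) ∂μ - ∫ ω, ∏ l, g (p * j l) ω ∂μ| ≤
      s * (4 * τ + (1 / τ) * (3 * (Ue μ x p M N - A) + 4 * (Ue μ x p M (2 * N) - A))) := by
  have := hS.prob
  refine (prod_int (fun l ω => fac M N (j l) (fun k => x (p * k) ω)) (fun l ω => g (p * j l) ω)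
    (fun l => fac_meas hS p M N (j l)) (fun l => hL.meas _) (fun l ω => fac_le hN _ _ fun k => hS.bd _ _)
    (fun l ω => hL.bd _ _)).trans ?_
  calc ∑ l, ∫ ω, |fac M N (j l) (fun k => x (p * k) ω) - g (p * j l) ω| ∂μ ≤
      ∑ _l : Fin s, (4 * τ + (1 / τ) * (3 * (Ue μ x p M N - A) + 4 * (Ue μ x p M (2 * N) - A))) :=
        sum_le_sum fun l _ => one_fac h1 hS hC hL p M N hp hM hN (j l) (hj l) τ hτ
    _ = _ := by rw [sum_const, card_univ, Fintype.card_fin, nsmul_eq_mul]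

end

lemma AvY_mem (h2 : S_POL) (M B : ℕ) (n : ℤ) (hB : (M : ℤ) + |n| ≤ B) : AvY M n ∈ Pol 1 B := by
  have h := h2.2.2.1 1 B M (fun m y => y m * y (m + n)) (fun m hm => ?_)
  · exact h
  · refine h2.1 1 B m (m + n) le_rfl ?_ ?_
    · rw [abs_of_nonneg (by positivity)]
      have : (m : ℤ) < M := by exact_mod_cast hm
      linarith [abs_nonneg n]
    · have h3 : (m : ℤ) < M := by exact_mod_cast hm
      have h4 := abs_add_le (m : ℤ) n
      rw [abs_of_nonneg (by positivity : (0 : ℤ) ≤ m)] at h4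
      linarith

lemma sq2_mem (h2 : S_POL) (d B N : ℕ) (Φ : ℤ → (ℤ → ℝ) → ℝ)
    (h : ∀ i < N, ∀ k < N, Φ ((i : ℤ) - k) ∈ Pol d B) : (fun y => sq2 N (fun n => Φ n y)) ∈ Pol d B := by
  refine h2.2.2.1 d B N (fun i y => (1 / (N : ℝ)) * ∑ k ∈ range N, Φ ((i : ℤ) - k) y) (fun i hi => ?_)
  exact h2.2.2.1 d B N (fun k y => Φ ((i : ℤ) - k) y) (fun k hk => h i hi k hk)

lemma fac_mem (h2 : S_POL) (M N B : ℕ) (j : ℤ) (hB : (M : ℤ) + N + |j| ≤ B) : fac M N j ∈ Pol 2 B := by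
  refine sq2_mem h2 2 B N (fun n y => AvY M n y * AvY M (n + j) y) (fun i hi k hk => ?_)
  have h3 : |(i : ℤ) - k| ≤ N := by
    rw [abs_le]
    constructor <;> omega
  refine h2.2.1 1 1 B _ _ (AvY_mem h2 M B _ ?_) (AvY_mem h2 M B _ ?_)
  · linarith [abs_nonneg j]
  · linarith [abs_add_le ((i : ℤ) - k) j]

lemma Psi_mem (h2 : S_POL) (M K B : ℕ) (hB : (M : ℤ) + K ≤ B) : Psi M K ∈ Pol 2 B := by
  refine sq2_mem h2 2 B K (fun n y => AvY M n y * AvY M n y) (fun i hi k hk => ?_)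
  have h3 : |(i : ℤ) - k| ≤ K := by
    rw [abs_le]
    constructor <;> omega
  exact h2.2.1 1 1 B _ _ (AvY_mem h2 M B _ (by linarith)) (AvY_mem h2 M B _ (by linarith))

/-- **dilation invariance** -/
theorem dilc (h1 : S_CTWO) (h2 : S_POL) (h3 : S_WT) : S_DILC := by
  intro Ω _ μ T x r A g hS hC hL hD s j ε hε i₁
  have := hS.prob
  -- parameters
  set τ : ℝ := min 1 (ε / (116 * (s + 1))) with hτd
  have hs0 : (0 : ℝ) ≤ s := by positivity
  have hτ : 0 < τ := by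
    rw [hτd]
    positivity
  have hτ1 : τ ≤ 1 := min_le_left _ _
  have hτε : 116 * (s + 1) * τ ≤ ε := by
    have : τ ≤ ε / (116 * (s + 1)) := min_le_right _ _
    rw [le_div_iff₀ (by positivity)] at this
    linarith
  set η : ℝ := τ ^ 2 with hη
  have hη0 : 0 < η := by positivity
  obtain ⟨J, hJ⟩ : ∃ J : ℕ, ∀ l, |j l| ≤ J := by
    refine ⟨∑ l, (j l).natAbs, fun l => ?_⟩
    rw [Int.abs_eq_natAbs]
    exact_mod_cast single_le_sum (f := fun l => (j l).natAbs) (fun _ _ => Nat.zero_le _) (mem_univ l)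
  obtain ⟨N₀, hN₀⟩ : ∃ N₀ : ℕ, ∀ N : ℕ, N₀ ≤ N → al (aa μ r) (pr 1) (pr 1) N N ≤ A + η := by
    have := hL.tend.eventually (ge_mem_nhds (show A < A + η by linarith))
    exact eventually_atTop.1 this
  set N : ℕ := max N₀ (max J 1) with hNd
  have hN1 : 1 ≤ N := (le_max_right J 1).trans (le_max_right _ _)
  have hNJ : J ≤ N := (le_max_left J 1).trans (le_max_right _ _)
  have hj : ∀ l, |j l| ≤ (N : ℤ) := fun l => (hJ l).trans (by exact_mod_cast hNJ)
  have hQ0 : ∀ n : ℤ, Tendsto (fun M : ℕ => Qe μ x r 1 M n) atTop (𝓝 0) := by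
    intro n
    refine (hC.lim n 0).congr fun M => ?_
    unfold Qe Av
    congr 1
    funext ω
    congr 2
    · congr 1
      refine sum_congr rfl fun m _ => ?_
      push_cast
      rw [one_mul, one_mul, add_zero, mul_comm]
    · push_cast
      rw [one_mul, sub_zero]
  have hQ : ∀ K : ℕ, Tendsto (fun M : ℕ => sq2 K (fun n => Qe μ x r 1 M n)) atTop (𝓝 0) := by
    intro K
    have : Tendsto (fun M : ℕ => sq2 K (fun n => Qe μ x r 1 M n)) atTop
        (𝓝 ((1 / (K : ℝ)) * ∑ i ∈ range K, (1 / (K : ℝ)) * ∑ k ∈ range K, (0 : ℝ))) := by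
      unfold sq2
      refine Tendsto.const_mul _ (tendsto_finsetSum _ fun i _ => ?_)
      refine Tendsto.const_mul _ (tendsto_finsetSum _ fun k _ => ?_)
      exact hQ0 _
    simpa using this
  obtain ⟨M, hM1, hMN, hM2N⟩ : ∃ M : ℕ, 1 ≤ M ∧ sq2 N (fun n => Qe μ x r 1 M n) ≤ η ∧
      sq2 (2 * N) (fun n => Qe μ x r 1 M n) ≤ η := by
    have e1 := (hQ N).eventually (ge_mem_nhds hη0)
    have e2 := (hQ (2 * N)).eventually (ge_mem_nhds hη0)
    obtain ⟨M, hM⟩ := ((eventually_ge_atTop 1).and (e1.and e2)).exists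
    exact ⟨M, hM.1, hM.2.1, hM.2.2⟩
  have hU : ∀ K : ℕ, N₀ ≤ K → sq2 K (fun n => Qe μ x r 1 M n) ≤ η → Ue μ x 1 M K - A ≤ 2 * η := by
    intro K hK hq
    have := Qe_sq2 h1 hS hC 1 M K le_rfl hM1
    have := hN₀ K hK
    linarith
  have hU0 : ∀ p K : ℕ, 1 ≤ p → 1 ≤ K → 0 ≤ Ue μ x p M K - A := by
    intro p K hp hK
    have h4 := Qe_sq2 h1 hS hC p M K hp hM1
    have h5 := sq2_nonneg (N := K) (f := fun n => Qe μ x r p M n) (fun n => Qe_nonneg hS p M n)
    have h6 := hL.low p K hp hK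
    linarith
  have hUN := hU N (le_max_left _ _) hMN
  have hN0N : N₀ ≤ N := le_max_left _ _
  have hU2N := hU (2 * N) (by omega) hM2N
  -- the scale
  set B : ℕ := M + 2 * N + J with hB
  obtain ⟨i, hi, hsc⟩ := h2.2.2.2.2 μ T x hS hD (s * 2 + 2) B η hη0 i₁
  refine ⟨i, hi, ?_⟩
  have hsN := hsc 2 (by omega) (Psi M N) (Psi_mem h2 M N B (by rw [hB]; push_cast; omega))
  have hs2N := hsc 2 (by omega) (Psi M (2 * N)) (Psi_mem h2 M (2 * N) B (by rw [hB]; push_cast; omega))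
  have hsΦ := hsc (s * 2) (by omega) (fun y => ∏ l, fac M N (j l) y)
    (h2.2.2.2.1 2 B s (fun l => fac M N (j l)) (fun l => fac_mem h2 M N B (j l) (by
      have := hJ l
      rw [hB]; push_cast; omega)))
  set w : ℕ → ℝ := fun p => Real.log p / 2 ^ i with hw
  have hp1 : ∀ p ∈ Pr i, 1 ≤ p := fun p hp => ((mem_filter.1 hp).2).one_lt.le
  have hw0 : ∀ p ∈ Pr i, 0 ≤ w p := fun p hp => by
    have : (1 : ℝ) ≤ p := by exact_mod_cast hp1 p hp
    rw [hw]
    have := Real.log_nonneg this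
    positivity
  have hW : ∑ p ∈ Pr i, w p ≤ 3 := h3 i
  have e1 : ∀ K : ℕ, ∫ ω, Psi M K (fun n => x n ω) ∂μ = Ue μ x 1 M K := by
    intro K
    rw [← Psi_int hS 1 M K]
    simp only [Nat.cast_one, one_mul]
  -- energies
  have hE : ∀ K : ℕ, 1 ≤ K → Ue μ x 1 M K - A ≤ 2 * η →
      ∑ p ∈ Pr i, w p * |∫ ω, Psi M K (fun n => x (p * n) ω) ∂μ - ∫ ω, Psi M K (fun n => x n ω) ∂μ| ≤ η →
      ∑ p ∈ Pr i, w p * (Ue μ x p M K - A) ≤ 7 * η := by
    intro K hK h4 h5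
    have h6 : ∀ p ∈ Pr i, w p * (Ue μ x p M K - A) ≤
        w p * |∫ ω, Psi M K (fun n => x (p * n) ω) ∂μ - ∫ ω, Psi M K (fun n => x n ω) ∂μ| + w p * (2 * η) := by
      intro p hp
      rw [← mul_add]
      refine mul_le_mul_of_nonneg_left ?_ (hw0 p hp)
      rw [e1, Psi_int hS p M K]
      linarith [le_abs_self (Ue μ x p M K - Ue μ x 1 M K)]
    refine (sum_le_sum h6).trans ?_
    rw [sum_add_distrib, ← sum_mul]
    have : (∑ p ∈ Pr i, w p) * (2 * η) ≤ 3 * (2 * η) := mul_le_mul_of_nonneg_right hW (by positivity)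
    linarith
  have hEN := hE N hN1 hUN hsN
  have hE2N := hE (2 * N) (by omega) hU2N hs2N
  -- conclusion
  have hfin : ∀ p ∈ Pr i, w p * |∫ ω, ∏ l, g (p * j l) ω ∂μ - ∫ ω, ∏ l, g (j l) ω ∂μ| ≤
      s * (4 * τ) * w p + (s * (1 / τ) * 3) * (w p * (Ue μ x p M N - A)) +
        (s * (1 / τ) * 4) * (w p * (Ue μ x p M (2 * N) - A)) +
        w p * |∫ ω, ∏ l, fac M N (j l) (fun n => x (p * n) ω) ∂μ - ∫ ω, ∏ l, fac M N (j l) (fun n => x n ω) ∂μ| +
        (s * (4 * τ + (1 / τ) * (14 * η))) * w p := by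
    intro p hp
    have h5 := all_fac h1 hS hC hL p M N (hp1 p hp) hM1 hN1 j hj τ hτ
    have h6 := all_fac h1 hS hC hL 1 M N le_rfl hM1 hN1 j hj τ hτ
    simp only [Nat.cast_one, one_mul] at h6
    have h7 : (s : ℝ) * (4 * τ + (1 / τ) * (3 * (Ue μ x 1 M N - A) + 4 * (Ue μ x 1 M (2 * N) - A))) ≤
        s * (4 * τ + (1 / τ) * (14 * η)) := by
      refine mul_le_mul_of_nonneg_left (add_le_add_right (mul_le_mul_of_nonneg_left ?_ (by positivity)) _) hs0
      linarith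
    have h8 : |∫ ω, ∏ l, g (p * j l) ω ∂μ - ∫ ω, ∏ l, g (j l) ω ∂μ| ≤
        s * (4 * τ + (1 / τ) * (3 * (Ue μ x p M N - A) + 4 * (Ue μ x p M (2 * N) - A))) +
        |∫ ω, ∏ l, fac M N (j l) (fun n => x (p * n) ω) ∂μ - ∫ ω, ∏ l, fac M N (j l) (fun n => x n ω) ∂μ| +
        s * (4 * τ + (1 / τ) * (14 * η)) := by
      have e := abs_sub_le (∫ ω, ∏ l, g (p * j l) ω ∂μ)
        (∫ ω, ∏ l, fac M N (j l) (fun n => x (p * n) ω) ∂μ) (∫ ω, ∏ l, g (j l) ω ∂μ)
      have e' := abs_sub_le (∫ ω, ∏ l, fac M N (j l) (fun n => x (p * n) ω) ∂μ)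
        (∫ ω, ∏ l, fac M N (j l) (fun n => x n ω) ∂μ) (∫ ω, ∏ l, g (j l) ω ∂μ)
      rw [abs_sub_comm] at h5
      linarith
    have h9 := mul_le_mul_of_nonneg_left h8 (hw0 p hp)
    refine h9.trans (le_of_eq ?_)
    ring
  refine (sum_le_sum hfin).trans ?_
  rw [sum_add_distrib, sum_add_distrib, sum_add_distrib, sum_add_distrib, ← mul_sum, ← mul_sum, ← mul_sum,
    ← mul_sum]
  have hτi : 0 ≤ 1 / τ := by positivity
  have k1 : s * (4 * τ) * ∑ p ∈ Pr i, w p ≤ s * (4 * τ) * 3 := mul_le_mul_of_nonneg_left hW (by positivity)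
  have k2 : (s * (1 / τ) * 3) * ∑ p ∈ Pr i, w p * (Ue μ x p M N - A) ≤ (s * (1 / τ) * 3) * (7 * η) :=
    mul_le_mul_of_nonneg_left hEN (by positivity)
  have k3 : (s * (1 / τ) * 4) * ∑ p ∈ Pr i, w p * (Ue μ x p M (2 * N) - A) ≤ (s * (1 / τ) * 4) * (7 * η) :=
    mul_le_mul_of_nonneg_left hE2N (by positivity)
  have k4 : (s * (4 * τ + (1 / τ) * (14 * η))) * ∑ p ∈ Pr i, w p ≤ (s * (4 * τ + (1 / τ) * (14 * η))) * 3 :=
    mul_le_mul_of_nonneg_left hW (by positivity)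
  have k5 : (1 / τ) * η = τ := by rw [hη]; field_simp
  have k6 : (s * (1 / τ) * 3) * (7 * η) = 21 * s * τ := by
    calc (s * (1 / τ) * 3) * (7 * η) = 21 * s * ((1 / τ) * η) := by ring
      _ = _ := by rw [k5]
  have k7 : (s * (1 / τ) * 4) * (7 * η) = 28 * s * τ := by
    calc (s * (1 / τ) * 4) * (7 * η) = 28 * s * ((1 / τ) * η) := by ring
      _ = _ := by rw [k5]
  have k8 : (s * (4 * τ + (1 / τ) * (14 * η))) * 3 = 54 * s * τ := by
    calc (s * (4 * τ + (1 / τ) * (14 * η))) * 3 = 12 * s * τ + 42 * s * ((1 / τ) * η) := by ring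
      _ = _ := by rw [k5]; ring
  have k9 : η ≤ τ := by
    rw [hη, pow_two]
    exact mul_le_of_le_one_left hτ.le hτ1
  have k10 : 0 ≤ s * τ := by positivity
  nlinarith

end Pool.Agent.K9h47.JL
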