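import Pool.Agent.K9h47.JL.Stm

/-!
# Joint law of the local frequencies on the torus: leaves, second part (helper47)

The goal is now the joint law of the `s` frequencies on the torus: it tends to a countable combination of the uniform
distributions of rational affine subtori (images of Haar measure under `β ↦ τ + M β`, `τ` rational, `M` an integer matrix).
-/

set_option autoImplicit false

open MeasureTheory Filter Topology Finset

namespace Pool.Agent.K9h47.JL

/-- the torus -/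
abbrev TT (s : ℕ) : Type := Fin s → UnitAddCircle

/-- the point `k · α` of the circle -/
def dot {s : ℕ} (k : Fin s → ℤ) (α : TT s) : UnitAddCircle := ∑ l, k l • α l

/-- the characters `e(k · α)` of the torus -/
noncomputable def ch {s : ℕ} (k : Fin s → ℤ) : C(TT s, ℂ) := UnitAddTorus.mFourier k

/-- integer matrices and rational points: the data of a rational affine subtorus -/
abbrev Dat (s : ℕ) : Type := Matrix (Fin s) (Fin s) ℤ × (Fin s → ℚ)

/-- the point `τ + M β` -/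
noncomputable def pt {s : ℕ} (i : Dat s) (β : TT s) : TT s :=
  fun l => ((i.2 l : ℝ) : UnitAddCircle) + ∑ j, i.1 l j • β j

/-- LEAF LEVY (weak convergence on the torus). Density of trigonometric polynomials:
`UnitAddTorus.span_mFourier_closure_eq_top` in `Mathlib/Analysis/Fourier/AddCircleMulti.lean`; existence of `ν'`:
`CompactSpace (ProbabilityMeasure E)` in `Mathlib/MeasureTheory/Measure/Prokhorov.lean` (put the missing mass at a
point and take it away again, or normalise; if the masses tend to `0` take `ν' = 0`), or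
Riesz-Markov-Kakutani `RealRMK.rieszMeasure`, `RealRMK.integral_rieszMeasure` for the limit functional. -/
def S_LEVY : Prop := ∀ (s : ℕ) (ν : ℕ → Measure (TT s)) (c : (Fin s → ℤ) → ℂ), (∀ H, ν H Set.univ ≤ 1) →
  (∀ k, Tendsto (fun H => ∫ α, ch k α ∂(ν H)) atTop (𝓝 (c k))) →
  ∃ ν' : Measure (TT s), ν' Set.univ ≤ 1 ∧
    (∀ G : C(TT s, ℝ), Tendsto (fun H => ∫ α, G α ∂(ν H)) atTop (𝓝 (∫ α, G α ∂ν'))) ∧
    ∀ k, ∫ α, ch k α ∂ν' = c k

/-- LEAF TOR: the joint law of the `s` frequencies in a window is a measure on the torus (density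
`∫ ∏ l, H |F_H(ω, α l)|^4 dμ(ω)`, Fubini; or the image of a measure with density on the product). The mass is at most
one: `H ∫ |F_H|^4 ≤ H ∫ |F_H|^2 = (1/H) ∑ x_h^2 ≤ 1`. The Fourier coefficients by WONE and
`MeasureTheory.integral_fintype_prod_eq_prod`. -/
def S_TOR : Prop := S_WONE → ∀ {Ω : Type} [MeasurableSpace Ω] (μ : Measure Ω) (T : Ω → Ω) (x : ℤ → Ω → ℝ),
  Stat μ T x → ∀ s H : ℕ, 1 ≤ H → ∃ ν : Measure (TT s), ν Set.univ ≤ 1 ∧
    (∀ G : C(TT s, ℝ), ∫ α, G α ∂ν =
      ∫ ω, (∫ α : TT s, G α * ∏ l, ((H : ℝ) * ‖FF (fun n => x n ω) H (α l)‖ ^ 4)) ∂μ) ∧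
    ∀ k : Fin s → ℤ, ∫ α, ch k α ∂ν = ((∫ ω, ∏ l, co (fun n => x n ω) H (k l) ∂μ : ℝ) : ℂ)

/-- LEAF NTV (replaces NT: on the torus, no Herglotz needed). `c k = ∫ e(k · α) dν`. Let `q = Q!`. At the scales `i` of the
hypothesis, averaging over the primes `p ≡ 1 (q)` of `Pr i` (total weight at least `δ(q) > 0` by APQ), `c k` is the limit
of `∫ (average over p ≡ 1 (q) of e(p (k · α))) dν(α)`. If `k · α` is irrational (i.e. not of finite order) the inner
average tends to `0` (APQ gives the cosine, the real part, which is enough as `c k` is real). If `q (k · α) = 0` it is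
`e(k · α)`; the remaining points of finite order have small
`ν`-measure for large `Q`. -/
def S_NTV : Prop := S_VIN → S_APQ → S_WT → ∀ (s : ℕ) (ν : Measure (TT s)), IsFiniteMeasure ν →
  (∀ k : Fin s → ℤ, (∫ α, ch k α ∂ν).im = 0) →
  (∀ (k : Fin s → ℤ) (ε : ℝ), 0 < ε → ∀ i₁ : ℕ, ∃ i : ℕ, i₁ ≤ i ∧
    ∑ p ∈ Pr i, Real.log p / 2 ^ i * ‖∫ α, ch (fun l => (p : ℤ) * k l) α ∂ν - ∫ α, ch k α ∂ν‖ ≤ ε) →
  ∀ k : Fin s → ℤ, ∫ α, ch k α ∂ν = ((∫ α in {α | IsOfFinAddOrder (dot k α)}, (ch k α).re ∂ν : ℝ) : ℂ)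

/-- LEAF ALG. `Λ = {k : k · α has finite order}` is a saturated subgroup of `ℤ^s`, so `ℤ^s / Λ` is free, and embeds in
`ℤ^s`: this gives `M`; a splitting `ℤ^s → Λ` gives `τ` (`τ l` = a rational representative of `(image of e_l) · α`). -/
def S_ALG : Prop := ∀ (s : ℕ) (α : TT s), ∃ i : Dat s, ∀ k : Fin s → ℤ,
  (IsOfFinAddOrder (dot k α) ↔ ∀ j, ∑ l, k l * i.1 l j = 0) ∧
  (IsOfFinAddOrder (dot k α) → dot k α = dot k (pt i 0))

/-- LEAF HAAR: the Fourier coefficients of the image of Haar measure. -/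
def S_HAAR : Prop := ∀ (s : ℕ) (i : Dat s) (k : Fin s → ℤ),
  ((∀ j, ∑ l, k l * i.1 l j = 0) → ∫ β : TT s, ch k (pt i β) = ch k (pt i 0)) ∧
  ((¬ ∀ j, ∑ l, k l * i.1 l j = 0) → ∫ β : TT s, ch k (pt i β) = 0)

/-- LEAF DEC (from ALG, HAAR). `Dat s` is countable; for `i` in `Dat s` let `P i` be the set of the `α` for which `i` is as in
ALG and is the first such element (`Encodable`). These sets are measurable (countable intersections over `k`), disjoint
and cover; `w i = ν (P i)`. By the real parts: the right side of the hypothesis is `∑ i, w i [M^T k = 0] cos(k · τ)`; and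
both sides of the claim are then equal as the left side is real, and as
`∑ i, w i [M^T k = 0] e(k · τ)` is the integral of `e(k · α)` over `{α | IsOfFinAddOrder (dot k α)}`, with the imaginary
part: put `w` symmetric if necessary, `w' i = (w i + w (M, - τ)) / 2`, which makes the sum real. -/
def S_DEC : Prop := S_ALG → S_HAAR → ∀ (s : ℕ) (ν : Measure (TT s)), IsFiniteMeasure ν →
  (∀ k : Fin s → ℤ, ∫ α, ch k α ∂ν = ((∫ α in {α | IsOfFinAddOrder (dot k α)}, (ch k α).re ∂ν : ℝ) : ℂ)) →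
  ∃ w : Dat s → ℝ, (∀ i, 0 ≤ w i) ∧ Summable w ∧ ∀ k : Fin s → ℤ,
    ∫ α, ch k α ∂ν = ∑' i, (w i : ℂ) * ∫ β : TT s, ch k (pt i β)

/-- LEAF DEN (density of trigonometric polynomials; both sides are bounded by a constant times `‖G‖`). -/
def S_DEN : Prop := ∀ (s : ℕ) (ν : Measure (TT s)), IsFiniteMeasure ν → ∀ w : Dat s → ℝ, (∀ i, 0 ≤ w i) → Summable w →
  (∀ k : Fin s → ℤ, ∫ α, ch k α ∂ν = ∑' i, (w i : ℂ) * ∫ β : TT s, ch k (pt i β)) →
  ∀ G : C(TT s, ℝ), ∫ α, G α ∂ν = ∑' i, w i * ∫ β : TT s, G (pt i β)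

/-- LEAF ROW. By HAAR the hypothesis says `∑ over i with row l of M zero of w i e(m τ_l) = 0` for all `m ≠ 0`; take
`m = q!`, `q → ∞` (dominated convergence): the sum of these `w i` is `0`. -/
def S_ROW : Prop := S_HAAR → ∀ (s : ℕ) (w : Dat s → ℝ) (l : Fin s), (∀ i, 0 ≤ w i) → Summable w →
  (∀ m : ℤ, m ≠ 0 → ∑' i, (w i : ℂ) * ∫ β : TT s, ch (Pi.single l m) (pt i β) = 0) →
  ∀ i, w i ≠ 0 → ∃ j, i.1 l j ≠ 0

end Pool.Agent.K9h47.JL
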