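import Pool.Agent.K9h47.JL.Stm
import Pool.Agent.Results.MP_4a7640_nt.FrequencyLaw

/-!
# Joint law of the local frequencies: the aperiodic case (helper47)
-/

set_option autoImplicit false

open MeasureTheory Filter Topology Finset

namespace Pool.Agent.K9h47.JL

open Pool.Agent.Results.MP_4a7640_nt.DisplacedCubes (Val X shift seq IsFurstenbergSystem IsMult Aperiodic)

/-- LEAF APE, from `Pool.Agent.Results.MP_4a7640_nt.FrequencyLaw.result` with `G = cos (2 π m α)` (the real part of
`fourier m`, integral zero), `ψ = 1`, `r = s`, `W l' = strength 2` for all `l'` and `Ψ = ∏ over l' ≠ l of the coordinate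
l'`; by WONE `co y H 0 = strength 2 H` and `co y H m` is the real part of `H ∫ e(m α) |F|^4`. -/
def S_APE : Prop := S_WONE → ∀ (f : ℕ → Val) (μ : Measure X), IsMult f → Aperiodic f → IsFurstenbergSystem f μ →
  ∀ (s : ℕ) (l : Fin s) (m : ℤ), m ≠ 0 →
    Tendsto (fun H : ℕ => ∫ x, ∏ l', co (fun n => (x n : ℝ)) H (Pi.single (M := fun _ => ℤ) l m l') ∂μ) atTop (𝓝 0)

end Pool.Agent.K9h47.JL
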