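import Pool.Agent.K9h47.JL.Stm2
import Pool.Agent.K9h47.JL.Stm3
import Pool.Agent.K9h47.JL.Stm4
import Pool.Agent.Helper47.Law.Cube

/-!
# Joint law of the local frequencies: assembly (helper47)
-/

set_option autoImplicit false

open MeasureTheory Filter Topology Finset

namespace Pool.Agent.K9h47.JL

open Pool.Agent.Results.MP_4a7640_nt.DisplacedCubes (Val X shift seq IsFurstenbergSystem IsMult Aperiodic)

/-- Furstenberg systems are stationary -/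
lemma fin_stat {f : ℕ → Val} {μ : Measure X} (hμ : IsFurstenbergSystem f μ) :
    Stat μ (shift 1) (fun (n : ℤ) (x : X) => (x n : ℝ)) where
  prob := hμ.1
  mp := Pool.Agent.Helper47.Law.mp_shift hμ
  meas := fun n => measurable_subtype_coe.comp (measurable_pi_apply n)
  bd := fun n ω => Pool.Agent.Results.MP_4a7640_nt.DisplacedCubes.val_le (ω n)
  next := fun n ω => rfl

section

variable {Ω : Type} [MeasurableSpace Ω] {μ : Measure Ω} {T : Ω → Ω} {x : ℤ → Ω → ℝ}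

/-- the limit measure on the torus -/
lemma fin_levy (hwone : S_WONE) (hwin : S_WIN) (hpdw : S_WONE → S_WIN → ∀ {Ω : Type} [MeasurableSpace Ω]
    (μ : Measure Ω) (T : Ω → Ω) (x r : ℤ → Ω → ℝ) (A : ℝ) (g : ℤ → Ω → ℝ), Stat μ T x → Cor μ T x r → Lims μ r A g →
    ∀ (s : ℕ) (k : Fin s → ℤ), ∀ m : ℤ, Tendsto (fun H : ℕ => ∫ ω, ∏ l, co (fun n => x n ω) H (m * k l) ∂μ) atTop
      (𝓝 ((2 / 3) ^ s * ∫ ω, ∏ l, g (m * k l) ω ∂μ)))
    (hlevy : S_LEVY) (htor : S_TOR) (hS : Stat μ T x) {r : ℤ → Ω → ℝ} (hC : Cor μ T x r) {A : ℝ} {g : ℤ → Ω → ℝ}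
    (hL : Lims μ r A g) (s : ℕ) : ∃ ν : Measure (TT s), ν Set.univ ≤ 1 ∧
      (∀ G : C(TT s, ℝ), Tendsto (fun H : ℕ => ∫ ω, (∫ α : TT s, G α *
        ∏ l, ((H : ℝ) * ‖FF (fun n => x n ω) H (α l)‖ ^ 4)) ∂μ) atTop (𝓝 (∫ α, G α ∂ν))) ∧
      (∀ k : Fin s → ℤ, ∫ α, ch k α ∂ν = (((2 / 3) ^ s * ∫ ω, ∏ l, g (k l) ω ∂μ : ℝ) : ℂ)) ∧
      ∀ k : Fin s → ℤ, Tendsto (fun H : ℕ => ∫ ω, ∏ l, co (fun n => x n ω) H (k l) ∂μ) atTop
        (𝓝 ((2 / 3) ^ s * ∫ ω, ∏ l, g (k l) ω ∂μ)) := by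
  have h4 := fun (H : ℕ) (h : 1 ≤ H) => htor hwone μ T x hS s H h
  choose! ν hν1 hν2 hν3 using h4
  have hlim : ∀ k : Fin s → ℤ, Tendsto (fun H : ℕ => ∫ ω, ∏ l, co (fun n => x n ω) H (k l) ∂μ) atTop
      (𝓝 ((2 / 3) ^ s * ∫ ω, ∏ l, g (k l) ω ∂μ)) := by
    intro k
    have h := hpdw hwone hwin μ T x r A g hS hC hL s k 1
    simpa only [one_mul] using h
  obtain ⟨ν', h1, h2, h3⟩ := hlevy s (fun H => if 1 ≤ H then ν H else 0)
    (fun k => (((2 / 3) ^ s * ∫ ω, ∏ l, g (k l) ω ∂μ : ℝ) : ℂ)) (fun H => by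
      by_cases h : 1 ≤ H
      · simp only [h, if_true]
        exact hν1 H h
      · simp only [h, if_false]
        simp) (fun k => by
      have h5 : Tendsto (fun H : ℕ => ((∫ ω, ∏ l, co (fun n => x n ω) H (k l) ∂μ : ℝ) : ℂ)) atTop
          (𝓝 (((2 / 3) ^ s * ∫ ω, ∏ l, g (k l) ω ∂μ : ℝ) : ℂ)) :=
        (Complex.continuous_ofReal.tendsto _).comp (hlim k)
      refine h5.congr' ?_
      filter_upwards [eventually_ge_atTop 1] with H hH
      simp only [hH, if_true]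
      exact (hν3 H hH k).symm)
  refine ⟨ν', h1, fun G => (h2 G).congr' ?_, h3, hlim⟩
  filter_upwards [eventually_ge_atTop 1] with H hH
  simp only [hH, if_true]
  exact hν2 H hH G

end

/-- the joint law -/
theorem fin (hrn : S_RN) (hlimg : S_LIMG) (hdilc : S_DILC) (hwone : S_WONE) (hwin : S_WIN) (hvin : S_VIN)
    (hapq : S_APQ) (hwt : S_WT) (htao : S_TAO) (hpdw : S_PDW) (hlevy : S_LEVY) (htor : S_TOR) (hntv : S_NTV)
    (halg : S_ALG) (hhaar : S_HAAR) (hdec : S_DEC) (hden : S_DEN) (hrow : S_ROW) (hape : S_APE)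
    (f : ℕ → Val) (hf : IsMult f) (μ : Measure X) (hμ : IsFurstenbergSystem f μ) (s : ℕ) :
    ∃ w : Dat s → ℝ, (∀ i, 0 ≤ w i) ∧ Summable w ∧
      (Aperiodic f → ∀ i, w i ≠ 0 → ∀ l, ∃ j, i.1 l j ≠ 0) ∧
      ∀ G : C(TT s, ℝ), Tendsto (fun H : ℕ => ∫ x, (∫ α : TT s, G α *
        ∏ l, ((H : ℝ) * ‖FF (fun n => (x n : ℝ)) H (α l)‖ ^ 4)) ∂μ) atTop
        (𝓝 (∑' i, w i * ∫ β : TT s, G (pt i β))) := by
  have hS := fin_stat hμ
  obtain ⟨r, hC⟩ := hrn μ _ _ hS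
  obtain ⟨A, g, hL⟩ := hlimg μ _ _ r hS hC
  have hD := htao f μ hf hμ
  obtain ⟨ν, h1, h2, h3, h4⟩ := fin_levy hwone hwin (fun a b _ _ μ T x r A g hS hC hL s k m =>
    (hpdw a b μ T x r A g hS hC hL s k).1 m) hlevy htor hS hC hL s
  have hfin : IsFiniteMeasure ν := ⟨h1.trans_lt ENNReal.one_lt_top⟩
  have h5 := hntv hvin hapq hwt s ν hfin (fun k => by rw [h3 k, Complex.ofReal_im]) (fun k ε hε i₁ => by
    obtain ⟨i, hi, h⟩ := hdilc μ _ _ r A g hS hC hL hD s k ε hε i₁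
    refine ⟨i, hi, le_trans (sum_le_sum fun p hp => ?_) h⟩
    refine mul_le_mul_of_nonneg_left ?_ (by
      have : 0 ≤ Real.log p := Real.log_natCast_nonneg p
      positivity)
    rw [h3, h3, ← Complex.ofReal_sub, Complex.norm_real, Real.norm_eq_abs, ← mul_sub, abs_mul]
    refine mul_le_of_le_one_left (abs_nonneg _) ?_
    rw [abs_of_nonneg (by positivity)]
    exact pow_le_one₀ (by norm_num) (by norm_num))
  obtain ⟨w, hw0, hws, hwk⟩ := hdec halg hhaar s ν hfin h5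
  refine ⟨w, hw0, hws, fun ha i hi l => ?_, fun G => ?_⟩
  · refine hrow hhaar s w l hw0 hws (fun m hm => ?_) i hi
    rw [← hwk, h3]
    have h6 := hape hwone f μ hf ha hμ s l m hm
    have h7 := h4 (Pi.single l m)
    have h8 := tendsto_nhds_unique h7 h6
    rw [h8]
    simp
  · rw [← hden s ν hfin w hw0 hws hwk G]
    exact h2 G

end Pool.Agent.K9h47.JL
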