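import Pool.Agent.K9h47.JL.Stm3

/-!
# Leaf HAAR of the joint law project (helper32)
-/

set_option autoImplicit false

open MeasureTheory Filter Topology Finset

namespace Pool.Agent.K9h47.JL.HaarX

theorem toCircle_sum {ι : Type} (S : Finset ι) (f : ι → UnitAddCircle) :
    AddCircle.toCircle (∑ l ∈ S, f l) = ∏ l ∈ S, AddCircle.toCircle (f l) := by
  classical
  induction S using Finset.induction_on with
  | empty => simp
  | insert a S ha ih => rw [Finset.sum_insert ha, Finset.prod_insert ha, AddCircle.toCircle_add, ih]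

theorem ch_eq {s : ℕ} (k : Fin s → ℤ) (α : TT s) : ch k α = (AddCircle.toCircle (dot k α) : ℂ) := by
  unfold dot
  rw [toCircle_sum]
  show ∏ l, fourier (k l) (α l) = _
  simp only [fourier_apply]
  exact (map_prod Circle.coeHom (fun l => AddCircle.toCircle (k l • α l)) Finset.univ).symm

/-- `M^T k` -/
def tr {s : ℕ} (i : Dat s) (k : Fin s → ℤ) : Fin s → ℤ := fun j => ∑ l, k l * i.1 l j

theorem dot_pt {s : ℕ} (i : Dat s) (k : Fin s → ℤ) (β : TT s) :
    dot k (pt i β) = dot k (pt i 0) + dot (tr i k) β := by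
  unfold dot pt tr
  simp only [Pi.zero_apply, smul_zero, Finset.sum_const_zero, add_zero, smul_add,
    Finset.sum_add_distrib, Finset.smul_sum, Finset.sum_smul, mul_smul]
  congr 1
  rw [Finset.sum_comm]

theorem ch_pt {s : ℕ} (i : Dat s) (k : Fin s → ℤ) (β : TT s) :
    ch k (pt i β) = ch k (pt i 0) * ch (tr i k) β := by
  rw [ch_eq, ch_eq, ch_eq, dot_pt, AddCircle.toCircle_add]
  push_cast
  rfl

theorem int_fourier {n : ℤ} (hn : n ≠ 0) : ∫ x : UnitAddCircle, fourier n x = 0 := by
  have h1 : ∫ x : UnitAddCircle, fourier n x =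
      ∫ x : UnitAddCircle, fourier n (x + ((1 / 2 / n : ℝ) : UnitAddCircle)) :=
    (integral_add_right_eq_self (fun x : UnitAddCircle => fourier n x) _).symm
  have h2 : ∀ x : UnitAddCircle, fourier n (x + ((1 / 2 / n : ℝ) : UnitAddCircle)) = - fourier n x :=
    fun x => fourier_add_half_inv_index hn one_pos x
  simp_rw [h2] at h1
  rw [integral_neg] at h1
  have h3 : (2 : ℂ) * ∫ x : UnitAddCircle, fourier n x = 0 := by linear_combination h1
  exact (mul_eq_zero.mp h3).resolve_left two_ne_zero

theorem int_ch {s : ℕ} (k : Fin s → ℤ) : ∫ β : TT s, ch k β = ∏ l, ∫ x : UnitAddCircle, fourier (k l) x := by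
  exact integral_fintype_prod_eq_prod (fun l (x : UnitAddCircle) => fourier (k l) x)

theorem int_pt {s : ℕ} (i : Dat s) (k : Fin s → ℤ) :
    ∫ β : TT s, ch k (pt i β) = ch k (pt i 0) * ∫ β : TT s, ch (tr i k) β := by
  rw [← integral_const_mul]
  exact integral_congr_ae (ae_of_all _ fun β => ch_pt i k β)

theorem haar0 : S_HAAR := by
  intro s i k
  rw [int_pt, int_ch]
  refine ⟨fun h => ?_, fun h => ?_⟩
  · have h1 : ∏ l, ∫ x : UnitAddCircle, fourier (tr i k l) x = 1 := by
      refine Finset.prod_eq_one fun l _ => ?_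
      have h2 : tr i k l = 0 := h l
      rw [h2]
      simp [measureReal_def]
    rw [h1, mul_one]
  · push Not at h
    obtain ⟨j, hj⟩ := h
    rw [Finset.prod_eq_zero (Finset.mem_univ j), mul_zero]
    exact int_fourier hj

end Pool.Agent.K9h47.JL.HaarX

namespace Pool.Agent.K9h47.JL

theorem haar : S_HAAR := HaarX.haar0

end Pool.Agent.K9h47.JL
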