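import Pool.Agent.K9h47.JL.Stm

/-!
# Leaf KER (helper81): Cauchy-Schwarz for the kernel
-/

set_option autoImplicit false

open MeasureTheory Filter Topology Finset

namespace Pool.Agent.K9h47.JL

namespace KerL

theorem comm3 {ι : Type} [Fintype ι] (R : Finset ℕ) (U : ι → ℕ → ℕ → ℝ) :
    ∑ i, ∑ m ∈ R, ∑ m' ∈ R, U i m m' = ∑ m ∈ R, ∑ m' ∈ R, ∑ i, U i m m' := by
  rw [Finset.sum_comm]
  refine Finset.sum_congr rfl fun m _ => ?_
  rw [Finset.sum_comm]

theorem dbl {ι κ : Type} [Fintype ι] [Fintype κ] (c : ι → ℝ) (d : κ → ℝ) (p p' : ι → ℕ → ℝ) (q q' : κ → ℕ → ℝ)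
    (w : ℝ) (R : Finset ℕ) :
    ∑ i, ∑ k, c i * d k * ((w * ∑ m ∈ R, p i m * q k m) * (w * ∑ m ∈ R, p' i m * q' k m)) =
      w ^ 2 * ∑ m ∈ R, ∑ m' ∈ R, (∑ i, c i * (p i m * p' i m')) * (∑ k, d k * (q k m * q' k m')) := by
  have h1 : ∀ i k, c i * d k * ((w * ∑ m ∈ R, p i m * q k m) * (w * ∑ m ∈ R, p' i m * q' k m)) =
      ∑ m ∈ R, ∑ m' ∈ R, w ^ 2 * (c i * (p i m * p' i m') * (d k * (q k m * q' k m'))) := by
    intro i k
    have h2 : c i * d k * ((w * ∑ m ∈ R, p i m * q k m) * (w * ∑ m ∈ R, p' i m * q' k m)) =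
      c i * d k * w ^ 2 * ((∑ m ∈ R, p i m * q k m) * ∑ m ∈ R, p' i m * q' k m) := by ring
    rw [h2, Finset.sum_mul_sum, Finset.mul_sum]
    refine Finset.sum_congr rfl fun m _ => ?_
    rw [Finset.mul_sum]
    refine Finset.sum_congr rfl fun m' _ => ?_
    ring
  have h4 : ∀ i, ∑ k, c i * d k * ((w * ∑ m ∈ R, p i m * q k m) * (w * ∑ m ∈ R, p' i m * q' k m)) =
      ∑ m ∈ R, ∑ m' ∈ R, ∑ k, w ^ 2 * (c i * (p i m * p' i m') * (d k * (q k m * q' k m'))) := by
    intro i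
    rw [← comm3]
    exact Finset.sum_congr rfl fun k _ => h1 i k
  rw [Finset.sum_congr rfl fun i _ => h4 i, comm3, Finset.mul_sum]
  refine Finset.sum_congr rfl fun m _ => ?_
  rw [Finset.mul_sum]
  refine Finset.sum_congr rfl fun m' _ => ?_
  rw [Finset.sum_mul_sum, Finset.mul_sum]
  refine Finset.sum_congr rfl fun i _ => ?_
  rw [Finset.mul_sum]

/-- the averages -/
noncomputable def Am (y : ℤ → ℝ) (M : ℕ) (s t : ℤ) : ℝ := (1 / (M : ℝ)) * ∑ m ∈ range M, y (m + s) * y (m + t)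

theorem abs_Am {y : ℤ → ℝ} (hy : ∀ n, |y n| ≤ 1) (M : ℕ) (s t : ℤ) : |Am y M s t| ≤ 1 := by
  unfold Am
  rcases Nat.eq_zero_or_pos M with h | h
  · subst h
    simp
  · have h1 : |∑ m ∈ range M, y (m + s) * y (m + t)| ≤ M := by
      refine (Finset.abs_sum_le_sum_abs _ _).trans ?_
      have h2 : ∑ m ∈ range M, |y (m + s) * y (m + t)| ≤ ∑ m ∈ range M, (1 : ℝ) := by
        refine Finset.sum_le_sum fun m _ => ?_
        rw [abs_mul]
        exact mul_le_one₀ (hy _) (abs_nonneg _) (hy _)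
      rwa [Finset.sum_const, Finset.card_range, nsmul_eq_mul, mul_one] at h2
    have h3 : (0 : ℝ) < M := by exact_mod_cast h
    rw [abs_mul, abs_of_nonneg (by positivity), one_div, inv_mul_le_iff₀ h3, mul_one]
    exact h1

/-- pointwise Cauchy-Schwarz -/
theorem point {ι κ : Type} [Fintype ι] [Fintype κ] (y : ℤ → ℝ) (M : ℕ) (s : ι → ℤ) (t : κ → ℤ) (c : ι → ℝ)
    (d : κ → ℝ) (j : ℤ) :
    (∑ i, ∑ k, c i * d k * (Am y M (s i) (t k) * Am y M (s i + j) (t k))) ^ 2 ≤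
      (∑ i, ∑ i', c i * c i' * (Am y M (s i) (s i') * Am y M (s i + j) (s i' + j))) *
        (∑ k, ∑ k', d k * d k' * (Am y M (t k) (t k') * Am y M (t k) (t k'))) ∧
    0 ≤ ∑ i, ∑ i', c i * c i' * (Am y M (s i) (s i') * Am y M (s i + j) (s i' + j)) := by
  set w : ℝ := 1 / (M : ℝ) with hw
  set Φ : ℕ → ℕ → ℝ := fun m m' => ∑ i, c i * (y (m + s i) * y (m' + (s i + j))) with hΦ
  set Ψ : ℕ → ℕ → ℝ := fun m m' => ∑ k, d k * (y (m + t k) * y (m' + t k)) with hΨ
  have e1 : ∑ i, ∑ k, c i * d k * (Am y M (s i) (t k) * Am y M (s i + j) (t k)) =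
      w ^ 2 * ∑ m ∈ range M, ∑ m' ∈ range M, Φ m m' * Ψ m m' :=
    dbl c d (fun i (m : ℕ) => y (m + s i)) (fun i (m : ℕ) => y (m + (s i + j))) (fun k (m : ℕ) => y (m + t k))
      (fun k (m : ℕ) => y (m + t k)) w (range M)
  have e2 : ∑ i, ∑ i', c i * c i' * (Am y M (s i) (s i') * Am y M (s i + j) (s i' + j)) =
      w ^ 2 * ∑ m ∈ range M, ∑ m' ∈ range M, Φ m m' * Φ m m' :=
    dbl c c (fun i (m : ℕ) => y (m + s i)) (fun i (m : ℕ) => y (m + (s i + j))) (fun k (m : ℕ) => y (m + s k))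
      (fun k (m : ℕ) => y (m + (s k + j))) w (range M)
  have e3 : ∑ k, ∑ k', d k * d k' * (Am y M (t k) (t k') * Am y M (t k) (t k')) =
      w ^ 2 * ∑ m ∈ range M, ∑ m' ∈ range M, Ψ m m' * Ψ m m' :=
    dbl d d (fun i (m : ℕ) => y (m + t i)) (fun i (m : ℕ) => y (m + t i)) (fun k (m : ℕ) => y (m + t k))
      (fun k (m : ℕ) => y (m + t k)) w (range M)
  rw [e1, e2, e3]
  constructor
  · have h1 := Finset.sum_mul_sq_le_sq_mul_sq (range M ×ˢ range M) (fun x => Φ x.1 x.2) fun x => Ψ x.1 x.2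
    rw [Finset.sum_product, Finset.sum_product, Finset.sum_product] at h1
    simp only [pow_two] at h1 ⊢
    have h2 : 0 ≤ w * w * (w * w) := by positivity
    nlinarith [mul_le_mul_of_nonneg_left h1 h2]
  · refine mul_nonneg (sq_nonneg w) (Finset.sum_nonneg fun m _ => Finset.sum_nonneg fun m' _ => mul_self_nonneg _)

variable {Ω : Type} [MeasurableSpace Ω] {μ : Measure Ω}

theorem integrable_bd [IsProbabilityMeasure μ] {f : Ω → ℝ} (hf : Measurable f) {C : ℝ} (h : ∀ ω, |f ω| ≤ C) :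
    Integrable f μ :=
  Integrable.of_bound hf.aestronglyMeasurable C (Filter.Eventually.of_forall fun ω => by
    rw [Real.norm_eq_abs]
    exact h ω)

/-- `L¹ ≤ L²` -/
theorem sq_int_abs [IsProbabilityMeasure μ] {u : Ω → ℝ} (hu : Measurable u) {C : ℝ} (h : ∀ ω, |u ω| ≤ C) :
    (∫ ω, |u ω| ∂μ) ^ 2 ≤ ∫ ω, u ω ^ 2 ∂μ := by
  set m := ∫ ω, |u ω| ∂μ with hm
  have hC : ∀ ω, |u ω ^ 2| ≤ C ^ 2 := by
    intro ω
    rw [abs_pow]
    exact pow_le_pow_left₀ (abs_nonneg _) (h ω) 2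
  have i1 : Integrable (fun ω => u ω ^ 2) μ := integrable_bd (hu.pow_const 2) hC
  have i2 : Integrable (fun ω => |u ω|) μ := (integrable_bd hu h).abs
  have h1 : 0 ≤ ∫ ω, (|u ω| - m) ^ 2 ∂μ := integral_nonneg fun ω => sq_nonneg _
  have h2 : ∀ ω, (|u ω| - m) ^ 2 = u ω ^ 2 - 2 * m * |u ω| + m ^ 2 := by
    intro ω
    rw [sub_sq, sq_abs]
    ring
  simp_rw [h2] at h1
  have i4 : Integrable (fun ω => 2 * m * |u ω|) μ := i2.const_mul _
  have i3 : Integrable (fun ω => u ω ^ 2 - 2 * m * |u ω|) μ := i1.sub i4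
  rw [integral_add i3 (integrable_const _), integral_sub i1 i4, integral_const_mul, integral_const, probReal_univ, one_smul, ← hm] at h1
  nlinarith

/-- the limit of a product -/
theorem lim2 [IsProbabilityMeasure μ] {F K : ℕ → Ω → ℝ} {f k h : Ω → ℝ} (hF : ∀ M, Measurable (F M))
    (hK : ∀ M, Measurable (K M)) (hf : Measurable f) (hk : Measurable k) (hh : Measurable h)
    (bF : ∀ M ω, |F M ω| ≤ 1) (bK : ∀ M ω, |K M ω| ≤ 1) (bf : ∀ ω, |f ω| ≤ 1) (bk : ∀ ω, |k ω| ≤ 1)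
    (bh : ∀ ω, |h ω| ≤ 1) (lF : Tendsto (fun M => ∫ ω, (F M ω - f ω) ^ 2 ∂μ) atTop (𝓝 0))
    (lK : Tendsto (fun M => ∫ ω, (K M ω - k ω) ^ 2 ∂μ) atTop (𝓝 0)) :
    Tendsto (fun M => ∫ ω, h ω * (F M ω * K M ω) ∂μ) atTop (𝓝 (∫ ω, h ω * (f ω * k ω) ∂μ)) := by
  rw [tendsto_iff_norm_sub_tendsto_zero]
  have b2 : ∀ (a b : ℝ), |a| ≤ 1 → |b| ≤ 1 → |a - b| ≤ 2 := by
    intro a b ha hb
    exact (abs_sub _ _).trans (by linarith)
  have l1 : Tendsto (fun M => √(∫ ω, (F M ω - f ω) ^ 2 ∂μ) + √(∫ ω, (K M ω - k ω) ^ 2 ∂μ)) atTop (𝓝 0) := by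
    have := (Real.continuous_sqrt.tendsto 0).comp lF
    have h2 := (Real.continuous_sqrt.tendsto 0).comp lK
    have h3 := this.add h2
    rw [Real.sqrt_zero, add_zero] at h3
    exact h3
  refine squeeze_zero (fun M => norm_nonneg _) (fun M => ?_) l1
  have b1 : ∀ ω, |h ω * (F M ω * K M ω)| ≤ 1 := by
    intro ω
    rw [abs_mul, abs_mul]
    exact mul_le_one₀ (bh ω) (by positivity) (mul_le_one₀ (bF M ω) (abs_nonneg _) (bK M ω))
  have b3 : ∀ ω, |h ω * (f ω * k ω)| ≤ 1 := by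
    intro ω
    rw [abs_mul, abs_mul]
    exact mul_le_one₀ (bh ω) (by positivity) (mul_le_one₀ (bf ω) (abs_nonneg _) (bk ω))
  have i1 : Integrable (fun ω => h ω * (F M ω * K M ω)) μ := integrable_bd (hh.mul ((hF M).mul (hK M))) b1
  have i2 : Integrable (fun ω => h ω * (f ω * k ω)) μ := integrable_bd (hh.mul (hf.mul hk)) b3
  have i3 : Integrable (fun ω => |F M ω - f ω|) μ :=
    (integrable_bd ((hF M).sub hf) fun ω => b2 _ _ (bF M ω) (bf ω)).abs
  have i4 : Integrable (fun ω => |K M ω - k ω|) μ :=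
    (integrable_bd ((hK M).sub hk) fun ω => b2 _ _ (bK M ω) (bk ω)).abs
  rw [← integral_sub i1 i2, Real.norm_eq_abs]
  refine (abs_integral_le_integral_abs).trans ?_
  have h1 : ∫ ω, |h ω * (F M ω * K M ω) - h ω * (f ω * k ω)| ∂μ ≤ ∫ ω, (|F M ω - f ω| + |K M ω - k ω|) ∂μ := by
    refine integral_mono (i1.sub i2).abs (i3.add i4) fun ω => ?_
    show |h ω * (F M ω * K M ω) - h ω * (f ω * k ω)| ≤ |F M ω - f ω| + |K M ω - k ω|
    have e : h ω * (F M ω * K M ω) - h ω * (f ω * k ω) =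
        h ω * ((F M ω - f ω) * K M ω + f ω * (K M ω - k ω)) := by ring
    rw [e, abs_mul]
    calc |h ω| * |(F M ω - f ω) * K M ω + f ω * (K M ω - k ω)|
        ≤ 1 * |(F M ω - f ω) * K M ω + f ω * (K M ω - k ω)| :=
          mul_le_mul_of_nonneg_right (bh ω) (abs_nonneg _)
      _ ≤ |(F M ω - f ω) * K M ω| + |f ω * (K M ω - k ω)| := by
          rw [one_mul]
          exact abs_add_le _ _
      _ ≤ |F M ω - f ω| + |K M ω - k ω| := by
          rw [abs_mul, abs_mul]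
          refine add_le_add ?_ ?_
          · exact mul_le_of_le_one_right (abs_nonneg _) (bK M ω)
          · exact mul_le_of_le_one_left (abs_nonneg _) (bf ω)
  rw [integral_add i3 i4] at h1
  refine h1.trans (add_le_add ?_ ?_)
  · exact Real.le_sqrt_of_sq_le (sq_int_abs ((hF M).sub hf) fun ω => b2 _ _ (bF M ω) (bf ω))
  · exact Real.le_sqrt_of_sq_le (sq_int_abs ((hK M).sub hk) fun ω => b2 _ _ (bK M ω) (bk ω))

/-- integrals of double sums -/
theorem int_sum [IsProbabilityMeasure μ] {ι κ : Type} [Fintype ι] [Fintype κ] (c : ι → ℝ) (d : κ → ℝ)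
    {f : ι → κ → Ω → ℝ} {h : Ω → ℝ} (hf : ∀ i k, Measurable (f i k)) (bf : ∀ i k ω, |f i k ω| ≤ 1)
    (hh : Measurable h) (bh : ∀ ω, |h ω| ≤ 1) :
    Integrable (fun ω => h ω * ∑ i, ∑ k, c i * d k * f i k ω) μ ∧
    ∫ ω, h ω * ∑ i, ∑ k, c i * d k * f i k ω ∂μ = ∑ i, ∑ k, c i * d k * ∫ ω, h ω * f i k ω ∂μ := by
  have i1 : ∀ i k, Integrable (fun ω => c i * d k * (h ω * f i k ω)) μ := by
    intro i k
    refine (integrable_bd (f := fun ω => h ω * f i k ω) (C := 1) (hh.mul (hf i k)) fun ω => ?_).const_mul _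
    rw [abs_mul]
    exact mul_le_one₀ (bh ω) (abs_nonneg _) (bf i k ω)
  have e1 : (fun ω => h ω * ∑ i, ∑ k, c i * d k * f i k ω) = fun ω => ∑ i, ∑ k, c i * d k * (h ω * f i k ω) := by
    funext ω
    rw [Finset.mul_sum]
    refine Finset.sum_congr rfl fun i _ => ?_
    rw [Finset.mul_sum]
    refine Finset.sum_congr rfl fun k _ => ?_
    ring
  rw [e1]
  refine ⟨integrable_finsetSum _ fun i _ => integrable_finsetSum _ fun k _ => i1 i k, ?_⟩
  rw [integral_finsetSum _ fun i _ => integrable_finsetSum _ fun k _ => i1 i k]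
  refine Finset.sum_congr rfl fun i _ => ?_
  rw [integral_finsetSum _ fun k _ => i1 i k]
  refine Finset.sum_congr rfl fun k _ => ?_
  rw [integral_const_mul]

end KerL

open KerL in
/-- **KER** -/
theorem ker : S_KER := by
  intro Ω _ μ T x r hx hr ι κ _ _ s t c d
  have := hx.prob
  have mA : ∀ (M : ℕ) (a b : ℤ), Measurable fun ω => Am (fun n => x n ω) M a b := by
    intro M a b
    unfold Am
    exact (Finset.measurable_fun_sum _ fun m _ => (hx.meas _).mul (hx.meas _)).const_mul _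
  have bA : ∀ (M : ℕ) (a b : ℤ) (ω : Ω), |Am (fun n => x n ω) M a b| ≤ 1 := fun M a b ω =>
    abs_Am (fun n => hx.bd n ω) M a b
  have m1 : ∀ (f g : Ω → ℝ), Measurable f → Measurable g → (∀ ω, |f ω| ≤ 1) → (∀ ω, |g ω| ≤ 1) →
      Measurable (fun ω => f ω * g ω) ∧ ∀ ω, |f ω * g ω| ≤ 1 := by
    intro f g hf hg bf bg
    refine ⟨hf.mul hg, fun ω => ?_⟩
    rw [abs_mul]
    exact mul_le_one₀ (bf ω) (abs_nonneg _) (bg ω)
  -- the limits
  have lim : ∀ (a b a' b' : ℤ) (h : Ω → ℝ), Measurable h → (∀ ω, |h ω| ≤ 1) →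
      Tendsto (fun M : ℕ => ∫ ω, h ω * (Am (fun n => x n ω) M a b * Am (fun n => x n ω) M a' b') ∂μ) atTop
        (𝓝 (∫ ω, h ω * (r (a - b) ω * r (a' - b') ω) ∂μ)) := fun a b a' b' h hh bh =>
    lim2 (fun M => mA M a b) (fun M => mA M a' b') (hr.meas _) (hr.meas _) hh (fun M => bA M a b)
      (fun M => bA M a' b') (hr.bd _) (hr.bd _) bh (hr.lim a b) (hr.lim a' b')
  have limaa : ∀ {α : Type} [Fintype α] (c : α → ℝ) (s : α → ℤ) (j : ℤ),
      Tendsto (fun M : ℕ => ∫ ω, ∑ i, ∑ i', c i * c i' *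
        (Am (fun n => x n ω) M (s i) (s i') * Am (fun n => x n ω) M (s i + j) (s i' + j)) ∂μ) atTop
        (𝓝 (∑ i, ∑ i', c i * c i' * aa μ r (s i - s i'))) := by
    intro α _ c s j
    have e : ∀ M : ℕ, ∫ ω, ∑ i, ∑ i', c i * c i' *
        (Am (fun n => x n ω) M (s i) (s i') * Am (fun n => x n ω) M (s i + j) (s i' + j)) ∂μ =
        ∑ i, ∑ i', c i * c i' * ∫ ω, (1 : ℝ) * (Am (fun n => x n ω) M (s i) (s i') *
          Am (fun n => x n ω) M (s i + j) (s i' + j)) ∂μ := by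
      intro M
      have := (int_sum (μ := μ) c c (f := fun i i' ω => Am (fun n => x n ω) M (s i) (s i') *
          Am (fun n => x n ω) M (s i + j) (s i' + j)) (h := fun _ => (1 : ℝ))
        (fun i i' => (m1 _ _ (mA _ _ _) (mA _ _ _) (bA _ _ _) (bA _ _ _)).1)
        (fun i i' => (m1 _ _ (mA _ _ _) (mA _ _ _) (bA _ _ _) (bA _ _ _)).2)
        measurable_const (fun _ => by rw [abs_one])).2
      rw [← this]
      simp only [one_mul]
    simp_rw [e]
    refine tendsto_finsetSum _ fun i _ => tendsto_finsetSum _ fun i' _ => Tendsto.const_mul _ ?_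
    have h1 := lim (s i) (s i') (s i + j) (s i' + j) (fun _ => 1) measurable_const fun _ => by rw [abs_one]
    have h2 : ∫ ω, (1 : ℝ) * (r (s i - s i') ω * r (s i + j - (s i' + j)) ω) ∂μ = aa μ r (s i - s i') := by
      unfold aa
      refine integral_congr_ae (Filter.Eventually.of_forall fun ω => ?_)
      show (1 : ℝ) * (r (s i - s i') ω * r (s i + j - (s i' + j)) ω) = r (s i - s i') ω ^ 2
      rw [add_sub_add_right_eq_sub, one_mul, pow_two]
    rw [h2] at h1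
    exact h1
  refine ⟨fun j b hb bb => ?_, ?_⟩
  · -- the numerator
    have l1 : Tendsto (fun M : ℕ => ∫ ω, b ω * ∑ i, ∑ k, c i * d k *
        (Am (fun n => x n ω) M (s i) (t k) * Am (fun n => x n ω) M (s i + j) (t k)) ∂μ) atTop
        (𝓝 (∫ ω, b ω * ∑ i, ∑ k, c i * d k * (r (s i - t k) ω * r (s i - t k + j) ω) ∂μ)) := by
      have e : ∀ M : ℕ, ∫ ω, b ω * ∑ i, ∑ k, c i * d k *
          (Am (fun n => x n ω) M (s i) (t k) * Am (fun n => x n ω) M (s i + j) (t k)) ∂μ =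
          ∑ i, ∑ k, c i * d k * ∫ ω, b ω *
            (Am (fun n => x n ω) M (s i) (t k) * Am (fun n => x n ω) M (s i + j) (t k)) ∂μ := fun M =>
        (int_sum (μ := μ) c d (f := fun i k ω => Am (fun n => x n ω) M (s i) (t k) *
            Am (fun n => x n ω) M (s i + j) (t k))
          (fun i k => (m1 _ _ (mA _ _ _) (mA _ _ _) (bA _ _ _) (bA _ _ _)).1)
          (fun i k => (m1 _ _ (mA _ _ _) (mA _ _ _) (bA _ _ _) (bA _ _ _)).2) hb bb).2
      have e2 : ∫ ω, b ω * ∑ i, ∑ k, c i * d k * (r (s i - t k) ω * r (s i - t k + j) ω) ∂μ =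
          ∑ i, ∑ k, c i * d k * ∫ ω, b ω * (r (s i - t k) ω * r (s i - t k + j) ω) ∂μ :=
        (int_sum (μ := μ) c d (f := fun i k ω => r (s i - t k) ω * r (s i - t k + j) ω)
          (fun i k => (m1 _ _ (hr.meas _) (hr.meas _) (hr.bd _) (hr.bd _)).1)
          (fun i k => (m1 _ _ (hr.meas _) (hr.meas _) (hr.bd _) (hr.bd _)).2) hb bb).2
      simp_rw [e]
      rw [e2]
      refine tendsto_finsetSum _ fun i _ => tendsto_finsetSum _ fun k _ => Tendsto.const_mul _ ?_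
      have h1 := lim (s i) (t k) (s i + j) (t k) b hb bb
      rwa [add_sub_right_comm] at h1
    have l2 := limaa c s j
    have l3 := limaa d t 0
    refine le_of_tendsto_of_tendsto' (l1.pow 2) (l2.mul l3) fun M => ?_
    -- Cauchy-Schwarz for the integrals
    set Z : Ω → ℝ := fun ω => ∑ i, ∑ k, c i * d k *
        (Am (fun n => x n ω) M (s i) (t k) * Am (fun n => x n ω) M (s i + j) (t k)) with hZ
    set A : Ω → ℝ := fun ω => ∑ i, ∑ i', c i * c i' *
        (Am (fun n => x n ω) M (s i) (s i') * Am (fun n => x n ω) M (s i + j) (s i' + j)) with hA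
    set B : Ω → ℝ := fun ω => ∑ k, ∑ k', d k * d k' *
        (Am (fun n => x n ω) M (t k) (t k') * Am (fun n => x n ω) M (t k + 0) (t k' + 0)) with hB
    show (∫ ω, b ω * Z ω ∂μ) ^ 2 ≤ (∫ ω, A ω ∂μ) * ∫ ω, B ω ∂μ
    have iZ : Integrable (fun ω => b ω * Z ω) μ :=
      (int_sum (μ := μ) c d (f := fun i k ω => Am (fun n => x n ω) M (s i) (t k) *
            Am (fun n => x n ω) M (s i + j) (t k))
          (fun i k => (m1 _ _ (mA _ _ _) (mA _ _ _) (bA _ _ _) (bA _ _ _)).1)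
          (fun i k => (m1 _ _ (mA _ _ _) (mA _ _ _) (bA _ _ _) (bA _ _ _)).2) hb bb).1
    have iA : Integrable A μ := by
      have := (int_sum (μ := μ) c c (f := fun i i' ω => Am (fun n => x n ω) M (s i) (s i') *
          Am (fun n => x n ω) M (s i + j) (s i' + j)) (h := fun _ => (1 : ℝ))
        (fun i i' => (m1 _ _ (mA _ _ _) (mA _ _ _) (bA _ _ _) (bA _ _ _)).1)
        (fun i i' => (m1 _ _ (mA _ _ _) (mA _ _ _) (bA _ _ _) (bA _ _ _)).2)
        measurable_const (fun _ => by rw [abs_one])).1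
      simpa only [one_mul] using this
    have iB : Integrable B μ := by
      have := (int_sum (μ := μ) d d (f := fun i i' ω => Am (fun n => x n ω) M (t i) (t i') *
          Am (fun n => x n ω) M (t i + 0) (t i' + 0)) (h := fun _ => (1 : ℝ))
        (fun i i' => (m1 _ _ (mA _ _ _) (mA _ _ _) (bA _ _ _) (bA _ _ _)).1)
        (fun i i' => (m1 _ _ (mA _ _ _) (mA _ _ _) (bA _ _ _) (bA _ _ _)).2)
        measurable_const (fun _ => by rw [abs_one])).1
      simpa only [one_mul] using this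
    have hpt : ∀ ω, Z ω ^ 2 ≤ A ω * B ω ∧ 0 ≤ A ω ∧ 0 ≤ B ω := by
      intro ω
      have p1 := point (fun n => x n ω) M s t c d j
      have p2 := point (fun n => x n ω) M t s d c 0
      refine ⟨?_, p1.2, p2.2⟩
      have h1 := p1.1
      have h2 : B ω = ∑ k, ∑ k', d k * d k' * (Am (fun n => x n ω) M (t k) (t k') *
          Am (fun n => x n ω) M (t k) (t k')) := by
        rw [hB]
        simp only [add_zero]
      rw [h2]
      exact h1
    have hq : ∀ lam : ℝ, 0 ≤ (∫ ω, A ω ∂μ) * (lam * lam) + (2 * ∫ ω, b ω * Z ω ∂μ) * lam + ∫ ω, B ω ∂μ := by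
      intro lam
      have h1 : 0 ≤ ∫ ω, (A ω * (lam * lam) + 2 * lam * (b ω * Z ω) + B ω) ∂μ := by
        refine integral_nonneg fun ω => ?_
        show 0 ≤ A ω * (lam * lam) + 2 * lam * (b ω * Z ω) + B ω
        obtain ⟨h2, h3, h4⟩ := hpt ω
        have h5 : (b ω * Z ω) ^ 2 ≤ A ω * B ω := by
          have h6 : b ω ^ 2 ≤ 1 := by
            have := sq_le_one_iff_abs_le_one (b ω)
            exact this.2 (bb ω)
          rw [mul_pow]
          have h7 := mul_le_mul_of_nonneg_right h6 (sq_nonneg (Z ω))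
          linarith
        rcases h3.eq_or_lt with h6 | h6
        · rw [← h6, zero_mul] at h5
          have h7 : b ω * Z ω = 0 := by
            have h8 := sq_nonneg (b ω * Z ω)
            exact pow_eq_zero_iff (two_ne_zero) |>.1 (le_antisymm h5 h8)
          rw [← h6, h7]
          simpa using h4
        · have h7 : 0 ≤ A ω * (A ω * (lam * lam) + 2 * lam * (b ω * Z ω) + B ω) := by
            nlinarith [sq_nonneg (A ω * lam + b ω * Z ω)]
          exact nonneg_of_mul_nonneg_right h7 h6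
      have j1 : Integrable (fun ω => A ω * (lam * lam)) μ := iA.mul_const _
      have j2 : Integrable (fun ω => 2 * lam * (b ω * Z ω)) μ := iZ.const_mul _
      have j3 : Integrable (fun ω => A ω * (lam * lam) + 2 * lam * (b ω * Z ω)) μ := j1.add j2
      rw [integral_add j3 iB, integral_add j1 j2,
        integral_mul_const, integral_const_mul] at h1
      linarith
    have h3 := discrim_le_zero hq
    unfold discrim at h3
    nlinarith
  · have l2 := limaa c s 0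
    exact ge_of_tendsto' l2 fun M => integral_nonneg fun ω =>
      (point (fun n => x n ω) M s s c c 0).2

end Pool.Agent.K9h47.JL
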