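import Pool.Agent.K9h47.JL.Stm3

/-!
# Weak convergence on the torus: leaf LEVY (proofs by helper84 for helper47)
-/

set_option autoImplicit false

open MeasureTheory Filter Topology

namespace Pool.Agent.K9h47.JL

/-- trigonometric polynomials are dense -/
theorem dense_trig (s : ℕ) :
    Dense (Submodule.span ℂ (Set.range (ch (s := s))) : Set C(TT s, ℂ)) := by
  rw [Submodule.dense_iff_topologicalClosure_eq_top]
  exact UnitAddTorus.span_mFourier_closure_eq_top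

/-- approximation by trigonometric polynomials -/
theorem exists_trig {s : ℕ} (G : C(TT s, ℂ)) {ε : ℝ} (hε : 0 < ε) :
    ∃ g ∈ Submodule.span ℂ (Set.range (ch (s := s))), ‖G - g‖ < ε := by
  obtain ⟨g, hd, hg⟩ := Metric.dense_iff.1 (dense_trig s) G ε hε
  refine ⟨g, hg, ?_⟩
  rw [← dist_eq_norm, dist_comm]
  exact hd

/-- continuous functions are integrable -/
theorem int_ch {s : ℕ} (ν : Measure (TT s)) [IsFiniteMeasure ν] (G : C(TT s, ℂ)) :
    Integrable (fun α => G α) ν :=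
  G.continuous.integrable_of_hasCompactSupport (HasCompactSupport.of_compactSpace _)

/-- the bound for the integral -/
theorem int_bd {s : ℕ} (ν : Measure (TT s)) (hν : ν Set.univ ≤ 1) (G : C(TT s, ℂ)) :
    ‖∫ α, G α ∂ν‖ ≤ ‖G‖ := by
  have : IsFiniteMeasure ν := ⟨hν.trans_lt ENNReal.one_lt_top⟩
  have h1 : ν.real Set.univ ≤ 1 := by
    have h2 := ENNReal.toReal_mono ENNReal.one_ne_top hν
    simpa [Measure.real] using h2
  calc ‖∫ α, G α ∂ν‖ ≤ ‖G‖ * ν.real Set.univ :=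
        norm_integral_le_of_norm_le_const (ae_of_all _ fun α => G.norm_coe_le_norm α)
    _ ≤ ‖G‖ * 1 := by
        gcongr
    _ = ‖G‖ := mul_one _

theorem int_sub' {s : ℕ} (ν : Measure (TT s)) [IsFiniteMeasure ν] (G g : C(TT s, ℂ)) :
    ∫ α, (G - g) α ∂ν = ∫ α, G α ∂ν - ∫ α, g α ∂ν := by
  rw [← integral_sub (int_ch ν G) (int_ch ν g)]
  rfl

/-- convergence of the Fourier coefficients implies convergence of the integrals -/
theorem tendsto_of_coeff {s : ℕ} {ν : ℕ → Measure (TT s)} {ν' : Measure (TT s)}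
    (hm : ∀ H, ν H Set.univ ≤ 1) (hm' : ν' Set.univ ≤ 1)
    (hc : ∀ k, Tendsto (fun H => ∫ α, ch k α ∂(ν H)) atTop (𝓝 (∫ α, ch k α ∂ν')))
    (G : C(TT s, ℂ)) : Tendsto (fun H => ∫ α, G α ∂(ν H)) atTop (𝓝 (∫ α, G α ∂ν')) := by
  have hfin : ∀ H, IsFiniteMeasure (ν H) := fun H => ⟨(hm H).trans_lt ENNReal.one_lt_top⟩
  have hfin' : IsFiniteMeasure ν' := ⟨hm'.trans_lt ENNReal.one_lt_top⟩
  -- trigonometric polynomials
  have hspan : ∀ g ∈ Submodule.span ℂ (Set.range (ch (s := s))),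
      Tendsto (fun H => ∫ α, g α ∂(ν H)) atTop (𝓝 (∫ α, g α ∂ν')) := by
    intro g hg
    induction hg using Submodule.span_induction with
    | mem x hx =>
      obtain ⟨k, rfl⟩ := hx
      exact hc k
    | zero =>
      simp
    | add x y _ _ hx hy =>
      have h1 : ∀ μ : Measure (TT s), IsFiniteMeasure μ →
          ∫ α, (x + y) α ∂μ = ∫ α, x α ∂μ + ∫ α, y α ∂μ := fun μ _ => by
        rw [← integral_add (int_ch μ x) (int_ch μ y)]
        rfl
      rw [h1 ν' hfin']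
      exact (hx.add hy).congr fun H => (h1 (ν H) (hfin H)).symm
    | smul a x _ hx =>
      have h1 : ∀ μ : Measure (TT s), ∫ α, (a • x) α ∂μ = a * ∫ α, x α ∂μ := fun μ => by
        rw [← integral_const_mul]
        rfl
      rw [h1 ν']
      exact (hx.const_mul a).congr fun H => (h1 (ν H)).symm
  rw [Metric.tendsto_atTop]
  intro ε hε
  obtain ⟨g, hg, hGg⟩ := exists_trig G (ε := ε / 3) (by positivity)
  obtain ⟨H0, hH0⟩ := Metric.tendsto_atTop.1 (hspan g hg) (ε / 3) (by positivity)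
  refine ⟨H0, fun H hH => ?_⟩
  have h1 := hH0 H hH
  rw [dist_eq_norm] at h1 ⊢
  have h2 := int_bd (ν H) (hm H) (G - g)
  have h3 := int_bd ν' hm' (G - g)
  rw [int_sub'] at h2 h3
  have h4 : ∫ α, G α ∂(ν H) - ∫ α, G α ∂ν' =
      (∫ α, G α ∂(ν H) - ∫ α, g α ∂(ν H)) + (∫ α, g α ∂(ν H) - ∫ α, g α ∂ν') -
        (∫ α, G α ∂ν' - ∫ α, g α ∂ν') := by ring
  rw [h4]
  calc _ ≤ ‖∫ α, G α ∂(ν H) - ∫ α, g α ∂(ν H)‖ + ‖∫ α, g α ∂(ν H) - ∫ α, g α ∂ν'‖ +
        ‖∫ α, G α ∂ν' - ∫ α, g α ∂ν'‖ := (norm_sub_le _ _).trans (by gcongr; exact norm_add_le _ _)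
    _ < ε := by linarith

/-- **LEVY** -/
theorem levy : S_LEVY := by
  intro s ν c hm hc
  have hfin : ∀ H, IsFiniteMeasure (ν H) := fun H => ⟨(hm H).trans_lt ENNReal.one_lt_top⟩
  let νf : ℕ → FiniteMeasure (TT s) := fun H => ⟨ν H, hfin H⟩
  let 𝒰 : Ultrafilter ℕ := Ultrafilter.of atTop
  obtain ⟨L, hL, hUL⟩ := (isCompact_setOfPred_finiteMeasure_le_of_compactSpace (TT s)
    1).ultrafilter_le_nhds (𝒰.map νf) (by
      rw [Filter.le_principal_iff]
      refine Filter.mem_map.2 (Filter.univ_mem' fun H => ?_)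
      have h1 : ((νf H).mass : ENNReal) ≤ 1 := by
        rw [FiniteMeasure.ennreal_mass]
        exact hm H
      exact_mod_cast h1)
  have hT : Tendsto νf 𝒰 (𝓝 L) := hUL
  have hT2 := (FiniteMeasure.tendsto_iff_forall_integral_rclike_tendsto ℂ).1 hT
  have hck : ∀ k, ∫ α, ch k α ∂(L : Measure (TT s)) = c k := by
    intro k
    have h1 := hT2 (BoundedContinuousFunction.mkOfCompact (ch k))
    have h2 : Tendsto (fun H => ∫ α, ch k α ∂(ν H)) 𝒰 (𝓝 (c k)) :=
      (hc k).mono_left (Ultrafilter.of_le _)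
    exact tendsto_nhds_unique h1 h2
  have hL1 : (L : Measure (TT s)) Set.univ ≤ 1 := by
    have h1 : (L.mass : ENNReal) ≤ 1 := by exact_mod_cast hL
    rwa [FiniteMeasure.ennreal_mass] at h1
  refine ⟨L, hL1, ?_, hck⟩
  intro G
  let Gc : C(TT s, ℂ) := ⟨fun α => (G α : ℂ), by fun_prop⟩
  have key := tendsto_of_coeff hm hL1 (fun k => by rw [hck k]; exact hc k) Gc
  have h3 : ∀ μ : Measure (TT s), (∫ α, Gc α ∂μ).re = ∫ α, G α ∂μ := fun μ => by
    have h4 : ∫ α, Gc α ∂μ = ((∫ α, G α ∂μ : ℝ) : ℂ) := integral_ofReal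
    rw [h4, Complex.ofReal_re]
  have h5 := (Complex.continuous_re.tendsto _).comp key
  simp only [Function.comp_def, h3] at h5
  exact h5

end Pool.Agent.K9h47.JL
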