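import Pool.Agent.K9h47.JL.Stm

/-!
# Leaf LIMG: the limits of the averages of the conditional correlations (helper60)
-/

set_option autoImplicit false

open MeasureTheory Filter Topology Finset

namespace Pool.Agent.K9h47.JL

namespace Limg

variable {Ω : Type} [MeasurableSpace Ω]

lemma G_meas {r : ℤ → Ω → ℝ} (hm : ∀ n, Measurable (r n)) (u v : ℕ → ℤ) (N K : ℕ) (j : ℤ) :
    Measurable (G r u v N K j) := by
  unfold G
  refine Measurable.const_mul ?_ _
  refine Finset.measurable_sum _ fun i _ => ?_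
  refine Finset.measurable_sum _ fun k _ => ?_
  exact (hm _).mul (hm _)

omit [MeasurableSpace Ω] in
lemma G_bd {r : ℤ → Ω → ℝ} (hb : ∀ n ω, |r n ω| ≤ 1) (u v : ℕ → ℤ) (N K : ℕ) (j : ℤ) (ω : Ω) :
    |G r u v N K j ω| ≤ 1 := by
  unfold G
  have h1 : |∑ i ∈ range N, ∑ k ∈ range K, r (u i - v k) ω * r (u i - v k + j) ω| ≤ (N : ℝ) * K := by
    calc |∑ i ∈ range N, ∑ k ∈ range K, r (u i - v k) ω * r (u i - v k + j) ω|
        ≤ ∑ i ∈ range N, |∑ k ∈ range K, r (u i - v k) ω * r (u i - v k + j) ω| :=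
          Finset.abs_sum_le_sum_abs _ _
      _ ≤ ∑ i ∈ range N, ∑ k ∈ range K, |r (u i - v k) ω * r (u i - v k + j) ω| :=
          Finset.sum_le_sum fun i _ => Finset.abs_sum_le_sum_abs _ _
      _ ≤ ∑ i ∈ range N, ∑ k ∈ range K, (1 : ℝ) := by
          refine Finset.sum_le_sum fun i _ => Finset.sum_le_sum fun k _ => ?_
          rw [abs_mul]
          calc |r (u i - v k) ω| * |r (u i - v k + j) ω| ≤ 1 * 1 :=
                mul_le_mul (hb _ _) (hb _ _) (abs_nonneg _) zero_le_one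
            _ = 1 := one_mul 1
      _ = (N : ℝ) * K := by simp
  rw [abs_mul, abs_of_nonneg (by positivity : (0 : ℝ) ≤ 1 / ((N : ℝ) * K))]
  rcases (by positivity : (0 : ℝ) ≤ (N : ℝ) * K).eq_or_lt with h0 | h0
  · rw [← h0]; simp
  · rw [one_div, inv_mul_le_iff₀ h0, mul_one]
    exact h1

lemma bdd_int {μ : Measure Ω} [IsProbabilityMeasure μ] {f : Ω → ℝ} (hm : Measurable f) (C : ℝ)
    (hb : ∀ ω, |f ω| ≤ C) : Integrable f μ :=
  Integrable.of_bound hm.aestronglyMeasurable C (Eventually.of_forall fun ω => by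
    rw [Real.norm_eq_abs]; exact hb ω)

/-- the cut off to `[-1, 1]` -/
noncomputable def cut (y : ℝ) : ℝ := max (-1) (min 1 y)

lemma cut_meas : Measurable cut := by
  unfold cut
  exact measurable_const.max (measurable_const.min measurable_id)

lemma cut_bd (y : ℝ) : |cut y| ≤ 1 := by
  unfold cut
  rw [abs_le]
  constructor
  · exact le_max_left _ _
  · exact max_le (by norm_num) (min_le_left _ _)

lemma cut_dist {z : ℝ} (hz : |z| ≤ 1) (y : ℝ) : |z - cut y| ≤ |z - y| := by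
  obtain ⟨h1, h2⟩ := abs_le.1 hz
  unfold cut
  rcases le_total 1 y with hy | hy
  · rw [min_eq_left hy, max_eq_right (by norm_num)]
    rw [abs_of_nonpos (by linarith), abs_of_nonpos (by linarith)]
    linarith
  · rw [min_eq_right hy]
    rcases le_total (-1) y with hy' | hy'
    · rw [max_eq_right hy']
    · rw [max_eq_left hy']
      rw [abs_of_nonneg (by linarith), abs_of_nonneg (by linarith)]
      linarith

/-- completeness of `L¹` for functions bounded by one -/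
lemma exists_lim {μ : Measure Ω} [IsProbabilityMeasure μ] {F : ℕ → Ω → ℝ} (hm : ∀ n, Measurable (F n))
    (hb : ∀ n ω, |F n ω| ≤ 1)
    (hc : Tendsto (fun q : ℕ × ℕ => ∫ ω, |F q.1 ω - F q.2 ω| ∂μ) atTop (𝓝 0)) :
    ∃ g : Ω → ℝ, Measurable g ∧ (∀ ω, |g ω| ≤ 1) ∧
      Tendsto (fun N : ℕ => ∫ ω, |F N ω - g ω| ∂μ) atTop (𝓝 0) := by
  have hi : ∀ n, Integrable (F n) μ := fun n => bdd_int (hm n) 1 (hb n)
  have hL : ∀ n, MemLp (F n) 1 μ := fun n => memLp_one_iff_integrable.2 (hi n)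
  set f : ℕ → Lp ℝ 1 μ := fun n => (hi n).toL1 (F n) with hf
  have hdist : ∀ n m, dist (f n) (f m) = ∫ ω, |F n ω - F m ω| ∂μ := by
    intro n m
    rw [dist_eq_norm, hf]
    simp only []
    rw [← Integrable.toL1_sub _ _ (hi n) (hi m), L1.norm_eq_integral_norm]
    refine integral_congr_ae ?_
    filter_upwards [Integrable.coeFn_toL1 ((hi n).sub (hi m))] with ω hω
    rw [hω, Real.norm_eq_abs]; rfl
  have hcau : CauchySeq f := by
    rw [Metric.cauchySeq_iff]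
    intro ε hε
    have h := (Metric.tendsto_atTop.1 hc) ε hε
    obtain ⟨⟨a, b⟩, hab⟩ := h
    refine ⟨max a b, fun m hm' n hn' => ?_⟩
    have := hab (m, n) ⟨le_trans (le_max_left a b) hm', le_trans (le_max_right a b) hn'⟩
    rw [Real.dist_eq, sub_zero, abs_of_nonneg (integral_nonneg fun ω => abs_nonneg _)] at this
    rw [hdist]
    exact this
  obtain ⟨φ, hφ⟩ := cauchySeq_tendsto_of_complete hcau
  have hφm : Measurable (φ : Ω → ℝ) := (Lp.stronglyMeasurable φ).measurable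
  have hφi : Integrable (φ : Ω → ℝ) μ := L1.integrable_coeFn φ
  refine ⟨fun ω => cut (φ ω), cut_meas.comp hφm, fun ω => cut_bd _, ?_⟩
  have hφd : Tendsto (fun n => dist (f n) φ) atTop (𝓝 0) := tendsto_iff_dist_tendsto_zero.1 hφ
  refine squeeze_zero (fun n => integral_nonneg fun ω => abs_nonneg _) (fun n => ?_) hφd
  have hd : dist (f n) φ = ∫ ω, |F n ω - φ ω| ∂μ := by
    rw [dist_eq_norm, L1.norm_eq_integral_norm]
    refine integral_congr_ae ?_
    filter_upwards [Integrable.coeFn_toL1 (hi n), Lp.coeFn_sub (f n) φ] with ω h1 h2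
    rw [h2, Pi.sub_apply, Real.norm_eq_abs, hf]
    simp only []
    rw [h1]
  rw [hd]
  refine integral_mono ?_ ?_ fun ω => ?_
  · exact ((hi n).sub (bdd_int (cut_meas.comp hφm) 1 fun ω => cut_bd _)).abs
  · exact ((hi n).sub hφi).abs
  · exact cut_dist (hb n ω) _

lemma aa_even {μ : Measure Ω} {T : Ω → Ω} {x r : ℤ → Ω → ℝ} (hC : Cor μ T x r) (n : ℤ) :
    aa μ r (-n) = aa μ r n := by
  unfold aa
  simp only [hC.even]

lemma aa_bd {μ : Measure Ω} {T : Ω → Ω} {x r : ℤ → Ω → ℝ} (hS : Stat μ T x) (hC : Cor μ T x r) (n : ℤ) :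
    |aa μ r n| ≤ 1 := by
  have := hS.prob
  unfold aa
  rw [abs_of_nonneg (integral_nonneg fun ω => sq_nonneg _)]
  have h1 : ∀ ω, r n ω ^ 2 ≤ 1 := fun ω => by
    have := hC.bd n ω
    rw [← sq_abs]
    exact pow_le_one₀ (abs_nonneg _) this
  calc ∫ ω, r n ω ^ 2 ∂μ ≤ ∫ _ω, (1 : ℝ) ∂μ := by
        refine integral_mono (bdd_int ((hC.meas n).pow_const 2) 1 fun ω => ?_) (integrable_const _) h1
        rw [abs_of_nonneg (sq_nonneg _)]
        exact h1 ω
    _ = 1 := by simp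

/-- `L¹` triangle inequality -/
lemma tri {μ : Measure Ω} [IsProbabilityMeasure μ] {f g h : Ω → ℝ} (hf : Integrable f μ) (hg : Integrable g μ)
    (hh : Integrable h μ) :
    ∫ ω, |f ω - h ω| ∂μ ≤ ∫ ω, |f ω - g ω| ∂μ + ∫ ω, |g ω - h ω| ∂μ := by
  have e : ∫ ω, |f ω - g ω| ∂μ + ∫ ω, |g ω - h ω| ∂μ = ∫ ω, (|f ω - g ω| + |g ω - h ω|) ∂μ :=
    (integral_add (hf.sub hg).abs (hg.sub hh).abs).symm
  rw [e]
  refine integral_mono (hf.sub hh).abs ((hf.sub hg).abs.add (hg.sub hh).abs) fun ω => ?_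
  exact abs_sub_le _ _ _

/-- the double limit along the diagonal -/
lemma diag {W : ℕ → ℕ → ℝ} {A : ℝ} (h : Tendsto (fun q : ℕ × ℕ => W q.1 q.2) atTop (𝓝 A)) :
    Tendsto (fun N : ℕ => W N N) atTop (𝓝 A) := by
  have hd : Tendsto (fun N : ℕ => ((N, N) : ℕ × ℕ)) atTop atTop := tendsto_atTop_diagonal
  exact h.comp hd

lemma two {W : ℕ → ℕ → ℝ} {A : ℝ} (h : Tendsto (fun q : ℕ × ℕ => W q.1 q.2) atTop (𝓝 A)) :
    Tendsto (fun q : ℕ × ℕ => 2 * √(W q.1 q.1 - 2 * W q.1 q.2 + W q.2 q.2)) atTop (𝓝 0) := by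
  have hfst : Tendsto (fun q : ℕ × ℕ => q.1) atTop atTop := by
    rw [← prod_atTop_atTop_eq]; exact tendsto_fst
  have hsnd : Tendsto (fun q : ℕ × ℕ => q.2) atTop atTop := by
    rw [← prod_atTop_atTop_eq]; exact tendsto_snd
  have e1 : Tendsto (fun q : ℕ × ℕ => W q.1 q.1) atTop (𝓝 A) := (diag h).comp hfst
  have e2 : Tendsto (fun q : ℕ × ℕ => W q.2 q.2) atTop (𝓝 A) := (diag h).comp hsnd
  have e3 := ((e1.sub (h.const_mul 2)).add e2)
  have e4 := (e3.sqrt).const_mul 2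
  have : 2 * √(A - 2 * A + A) = 0 := by
    rw [show A - 2 * A + A = 0 by ring, Real.sqrt_zero, mul_zero]
  rw [this] at e4
  exact e4

lemma one {W V : ℕ → ℝ} {A D : ℝ} {E : ℕ → ℝ} (h : Tendsto W atTop (𝓝 A)) (h' : Tendsto V atTop (𝓝 A))
    (hE : Tendsto E atTop (𝓝 0)) :
    Tendsto (fun L : ℕ => 2 * √(D - 2 * V L + W L) + E L) atTop (𝓝 (2 * √(D - A))) := by
  have e3 := ((tendsto_const_nhds (x := D)).sub (h'.const_mul 2)).add h
  have e4 := ((e3.sqrt).const_mul 2).add hE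
  have : 2 * √(D - 2 * A + A) + 0 = 2 * √(D - A) := by
    rw [show D - 2 * A + A = D - A by ring, add_zero]
  rw [this] at e4
  exact e4

end Limg

open Limg

theorem limg (h1 : S_KER) (h2 : S_CMP) (h3 : S_MEAN) : S_LIMG := by
  intro Ω _ μ T x r hS hC
  have := hS.prob
  have hpd : PDZ (aa μ r) := by
    refine ⟨aa_even hC, aa_bd hS hC, fun n s c => ?_⟩
    exact (h1 μ T x r hS hC s s c c).2
  obtain ⟨A, hA0, hAlow, hAt, hAp, hAf⟩ := h3 _ hpd
  have hGi : ∀ (u v : ℕ → ℤ) (N K : ℕ) (j : ℤ), Integrable (G r u v N K j) μ := fun u v N K j =>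
    bdd_int (G_meas hC.meas u v N K j) 1 (G_bd hC.bd u v N K j)
  -- the diagonal averages
  have hdiag : Tendsto (fun N : ℕ => al (aa μ r) (pr 1) (pr 1) N N) atTop (𝓝 A) :=
    diag (W := fun N K => al (aa μ r) (pr 1) (pr 1) N K) hAt
  have hfst : Tendsto (fun q : ℕ × ℕ => q.1) atTop atTop := by
    rw [← prod_atTop_atTop_eq]; exact tendsto_fst
  have hsnd : Tendsto (fun q : ℕ × ℕ => q.2) atTop atTop := by
    rw [← prod_atTop_atTop_eq]; exact tendsto_snd
  have hcau : ∀ j, Tendsto (fun q : ℕ × ℕ =>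
      ∫ ω, |G r (pr 1) (pr 1) q.1 q.1 j ω - G r (pr 1) (pr 1) q.2 q.2 j ω| ∂μ) atTop (𝓝 0) := by
    intro j
    have hlim := two (W := fun N K => al (aa μ r) (pr 1) (pr 1) N K) hAt
    refine squeeze_zero' (Eventually.of_forall fun q => integral_nonneg fun ω => abs_nonneg _) ?_ hlim
    filter_upwards [hfst.eventually_ge_atTop 1, hsnd.eventually_ge_atTop 1] with q hq1 hq2
    have t := tri (hGi (pr 1) (pr 1) q.1 q.1 j) (hGi (pr 1) (pr 1) q.2 q.1 j) (hGi (pr 1) (pr 1) q.2 q.2 j)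
    have c1 := (h2 μ T x r hS hC (pr 1) (pr 1) (pr 1) q.1 q.2 q.1 j hq1 hq2 hq1).1
    have c2 := (h2 μ T x r hS hC (pr 1) (pr 1) (pr 1) q.1 q.2 q.2 j hq1 hq2 hq2).2
    linarith
  choose g hgm hgb hgl using fun j => exists_lim (μ := μ) (F := fun N => G r (pr 1) (pr 1) N N j)
    (fun N => G_meas hC.meas _ _ _ _ _) (fun N => G_bd hC.bd _ _ _ _ _) (hcau j)
  refine ⟨A, g, ⟨hA0, hAlow, hdiag, hAf, hgm, hgb, hgl, ?_⟩⟩
  intro p N j hp hN
  set D := al (aa μ r) (pr p) (pr p) N N with hD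
  have hlim := one (W := fun L => al (aa μ r) (pr 1) (pr 1) L L)
    (V := fun L => al (aa μ r) (pr p) (pr 1) N L) (D := D)
    (E := fun L => ∫ ω, |G r (pr 1) (pr 1) L L (p * j) ω - g (p * j) ω| ∂μ) hdiag (hAp p N hp hN) (hgl (p * j))
  refine ge_of_tendsto hlim ?_
  filter_upwards [eventually_ge_atTop 1] with L hL
  have t1 := tri (hGi (pr p) (pr p) N N (p * j)) (hGi (pr 1) (pr 1) L L (p * j))
    (bdd_int (μ := μ) (hgm (p * j)) 1 (hgb (p * j)))
  have t2 := tri (hGi (pr p) (pr p) N N (p * j)) (hGi (pr p) (pr 1) N L (p * j)) (hGi (pr 1) (pr 1) L L (p * j))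
  have c1 := (h2 μ T x r hS hC (pr p) (pr 1) (pr p) N L N (p * j) hN hL hN).2
  have c2 := (h2 μ T x r hS hC (pr p) (pr 1) (pr 1) N L L (p * j) hN hL hL).1
  rw [← hD] at c1 c2
  linarith

end Pool.Agent.K9h47.JL
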