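import Pool.Agent.K9h47.JL.Stm
import Pool.Agent.H514R3.Herg

/-!
# Leaf MEAN: the mean of a positive definite sequence (helper7)
-/

set_option autoImplicit false

open MeasureTheory Filter Topology Finset

namespace Pool.Agent.K9h47.JL

namespace MeanLeaf

/-- mean of cosines -/
noncomputable def cc (N : ℕ) (y : ℝ) : ℝ := (1 / (N : ℝ)) * ∑ i ∈ range N, Real.cos (i * y)

/-- mean of sines -/
noncomputable def ss (N : ℕ) (y : ℝ) : ℝ := (1 / (N : ℝ)) * ∑ i ∈ range N, Real.sin (i * y)

lemma mean_abs (N : ℕ) (f : ℕ → ℝ) (hf : ∀ i, |f i| ≤ 1) :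
    |(1 / (N : ℝ)) * ∑ i ∈ range N, f i| ≤ 1 := by
  rw [abs_mul, abs_of_nonneg (by positivity : (0 : ℝ) ≤ 1 / N)]
  have h1 : |∑ i ∈ range N, f i| ≤ N := by
    refine (Finset.abs_sum_le_sum_abs _ _).trans ?_
    calc ∑ i ∈ range N, |f i| ≤ ∑ _i ∈ range N, (1 : ℝ) := Finset.sum_le_sum fun i _ => hf i
      _ = N := by simp
  rcases Nat.eq_zero_or_pos N with h | h
  · subst h; simp
  · have hN : (0 : ℝ) < N := by exact_mod_cast h
    calc 1 / (N : ℝ) * |∑ i ∈ range N, f i| ≤ 1 / (N : ℝ) * N :=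
          mul_le_mul_of_nonneg_left h1 (by positivity)
      _ = 1 := by field_simp

lemma cc_abs (N : ℕ) (y : ℝ) : |cc N y| ≤ 1 := mean_abs N _ fun _ => Real.abs_cos_le_one _

lemma ss_abs (N : ℕ) (y : ℝ) : |ss N y| ≤ 1 := mean_abs N _ fun _ => Real.abs_sin_le_one _

lemma cc_zero {N : ℕ} (hN : 1 ≤ N) : cc N 0 = 1 := by
  have : (N : ℝ) ≠ 0 := by exact_mod_cast (by omega : N ≠ 0)
  simp [cc, this]

lemma ss_zero (N : ℕ) : ss N 0 = 0 := by simp [ss]

lemma cc_cont (N : ℕ) : Continuous (cc N) := by unfold cc; fun_prop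

lemma ss_cont (N : ℕ) : Continuous (ss N) := by unfold ss; fun_prop

lemma trig_bound {y : ℝ} (hy : 0 < y) (hy' : y ≤ Real.pi) :
    ∃ B : ℝ, ∀ N : ℕ, |∑ i ∈ range N, Real.cos (i * y)| ≤ B ∧ |∑ i ∈ range N, Real.sin (i * y)| ≤ B := by
  set z : ℂ := Complex.exp (y * Complex.I) with hz
  have hz1 : z ≠ 1 := by
    rw [hz, Ne, Complex.exp_eq_one_iff]
    rintro ⟨n, hn⟩
    have h1 : ((y : ℝ) : ℂ) = n * (2 * Real.pi) := by
      have h2 : (y : ℂ) * Complex.I = (n * (2 * Real.pi)) * Complex.I := by rw [hn]; ring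
      exact mul_right_cancel₀ Complex.I_ne_zero h2
    have h2 : y = n * (2 * Real.pi) := by exact_mod_cast h1
    have hpi := Real.pi_pos
    have h3 : (0 : ℝ) < n := by
      by_contra hcon
      push Not at hcon
      nlinarith
    have h4 : (1 : ℝ) ≤ n := by exact_mod_cast (by exact_mod_cast h3 : 0 < n)
    nlinarith
  have hzn : ‖z‖ = 1 := by rw [hz]; exact Complex.norm_exp_ofReal_mul_I y
  have hzpow : ∀ i : ℕ, z ^ i = (Real.cos (i * y) : ℂ) + Real.sin (i * y) * Complex.I := by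
    intro i
    rw [hz, ← Complex.exp_nat_mul, ← mul_assoc]
    have : ((i : ℂ) * (y : ℂ)) = ((i * y : ℝ) : ℂ) := by push_cast; ring
    rw [this, Complex.exp_mul_I, Complex.ofReal_cos, Complex.ofReal_sin]
  have hre : ∀ N : ℕ, (∑ i ∈ range N, z ^ i).re = ∑ i ∈ range N, Real.cos (i * y) := by
    intro N
    rw [Complex.re_sum]
    refine Finset.sum_congr rfl fun i _ => ?_
    rw [hzpow]
    simp only [Complex.add_re, Complex.mul_re, Complex.ofReal_re,
      Complex.ofReal_im, Complex.I_re, Complex.I_im]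
    ring
  have him : ∀ N : ℕ, (∑ i ∈ range N, z ^ i).im = ∑ i ∈ range N, Real.sin (i * y) := by
    intro N
    rw [Complex.im_sum]
    refine Finset.sum_congr rfl fun i _ => ?_
    rw [hzpow]
    simp only [Complex.add_re, Complex.add_im, Complex.mul_re, Complex.mul_im, Complex.ofReal_re,
      Complex.ofReal_im, Complex.I_re, Complex.I_im]
    ring
  have hnorm : ∀ N : ℕ, ‖∑ i ∈ range N, z ^ i‖ ≤ 2 / ‖z - 1‖ := by
    intro N
    rw [geom_sum_eq hz1, norm_div]
    refine div_le_div_of_nonneg_right ?_ (norm_nonneg _)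
    calc ‖z ^ N - 1‖ ≤ ‖z ^ N‖ + ‖(1 : ℂ)‖ := norm_sub_le _ _
      _ = 2 := by rw [norm_pow, hzn, one_pow, norm_one]; norm_num
  refine ⟨2 / ‖z - 1‖, fun N => ⟨?_, ?_⟩⟩
  · rw [← hre]; exact (Complex.abs_re_le_norm _).trans (hnorm N)
  · rw [← him]; exact (Complex.abs_im_le_norm _).trans (hnorm N)

lemma tend_of_bound (f : ℕ → ℝ) (B : ℝ) (h : ∀ N, |f N| ≤ B) :
    Tendsto (fun N : ℕ => (1 / (N : ℝ)) * f N) atTop (𝓝 0) := by
  have h1 : Tendsto (fun N : ℕ => (1 / (N : ℝ)) * B) atTop (𝓝 0) := by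
    have := (tendsto_one_div_atTop_nhds_zero_nat (𝕜 := ℝ)).mul_const B
    rwa [zero_mul] at this
  refine squeeze_zero_norm (fun N => ?_) h1
  rw [Real.norm_eq_abs, abs_mul, abs_of_nonneg (by positivity : (0 : ℝ) ≤ 1 / N)]
  exact mul_le_mul_of_nonneg_left (h N) (by positivity)

lemma cc_tend {y : ℝ} (hy : 0 < y) (hy' : y ≤ Real.pi) : Tendsto (fun N => cc N y) atTop (𝓝 0) := by
  obtain ⟨B, hB⟩ := trig_bound hy hy'
  exact tend_of_bound _ B fun N => (hB N).1

lemma ss_tend {y : ℝ} (hy : 0 < y) (hy' : y ≤ Real.pi) : Tendsto (fun N => ss N y) atTop (𝓝 0) := by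
  obtain ⟨B, hB⟩ := trig_bound hy hy'
  exact tend_of_bound _ B fun N => (hB N).2

/-- the kernel -/
noncomputable def kr (p q N L : ℕ) (x : ℝ) : ℝ :=
  cc N (p * x) * cc L (q * x) + ss N (p * x) * ss L (q * x)

lemma kr_cont (p q N L : ℕ) : Continuous (kr p q N L) := by
  unfold kr
  exact (((cc_cont N).comp (by fun_prop)).mul ((cc_cont L).comp (by fun_prop))).add
    (((ss_cont N).comp (by fun_prop)).mul ((ss_cont L).comp (by fun_prop)))

lemma kr_abs (p q N L : ℕ) (x : ℝ) : |kr p q N L x| ≤ 2 := by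
  unfold kr
  refine (abs_add_le _ _).trans ?_
  rw [abs_mul, abs_mul]
  have h1 := mul_le_one₀ (cc_abs N (p * x)) (abs_nonneg _) (cc_abs L (q * x))
  have h2 := mul_le_one₀ (ss_abs N (p * x)) (abs_nonneg _) (ss_abs L (q * x))
  linarith

lemma kr_zero {p q N L : ℕ} (hN : 1 ≤ N) (hL : 1 ≤ L) : kr p q N L 0 = 1 := by
  simp [kr, cc_zero hN, cc_zero hL, ss_zero]

lemma kr_eq (p q N L : ℕ) (x : ℝ) : kr p q N L x =
    (1 / ((N : ℝ) * L)) * ∑ i ∈ range N, ∑ k ∈ range L, Real.cos (((pr p i - pr q k : ℤ) : ℝ) * x) := by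
  have h : ∀ i k : ℕ, Real.cos (((pr p i - pr q k : ℤ) : ℝ) * x) =
      Real.cos (i * (p * x)) * Real.cos (k * (q * x)) +
        Real.sin (i * (p * x)) * Real.sin (k * (q * x)) := by
    intro i k
    rw [← Real.cos_sub]
    congr 1
    unfold pr
    push_cast
    ring
  simp_rw [h, Finset.sum_add_distrib]
  unfold kr cc ss
  rw [← Finset.sum_mul_sum, ← Finset.sum_mul_sum, one_div_mul_eq_div, one_div_mul_eq_div,
    one_div_mul_eq_div, one_div_mul_eq_div, one_div_mul_eq_div, div_mul_div_comm, div_mul_div_comm,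
    ← add_div]

section sigma

variable {a : ℤ → ℝ} {σ : Measure ℝ} [IsFiniteMeasure σ]

lemma integrable_of_abs {f : ℝ → ℝ} (hf : Continuous f) (C : ℝ) (hC : ∀ x, |f x| ≤ C) :
    Integrable f σ :=
  (integrable_const C).mono' hf.aestronglyMeasurable (Eventually.of_forall hC)

lemma al_eq (ha : ∀ m : ℤ, a m = ∫ x, Real.cos (m * x) ∂σ) (p q N L : ℕ) :
    al a (pr p) (pr q) N L = ∫ x, kr p q N L x ∂σ := by
  have hint : ∀ m : ℤ, Integrable (fun x : ℝ => Real.cos (m * x)) σ := fun m =>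
    integrable_of_abs (by fun_prop) 1 fun x => Real.abs_cos_le_one _
  simp_rw [kr_eq]
  rw [integral_const_mul, integral_finsetSum _ fun i _ => integrable_finsetSum _ fun k _ => hint _]
  unfold al
  congr 1
  refine Finset.sum_congr rfl fun i _ => ?_
  rw [integral_finsetSum _ fun k _ => hint _]
  exact Finset.sum_congr rfl fun k _ => ha _

/-- the limits by dominated convergence -/
lemma tend_int {ι : Type} {l : Filter ι} [l.IsCountablyGenerated] (hσ : σ (Set.Icc 0 Real.pi)ᶜ = 0)
    (f : ι → ℝ → ℝ) (hf : ∀ i, Continuous (f i)) (C : ℝ) (hC : ∀ i x, |f i x| ≤ C)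
    (h0 : Tendsto (fun i => f i 0) l (𝓝 1))
    (h1 : ∀ x, 0 < x → x ≤ Real.pi → Tendsto (fun i => f i x) l (𝓝 0)) :
    Tendsto (fun i => ∫ x, f i x ∂σ) l (𝓝 (σ.real {0})) := by
  have e : σ.real {0} = ∫ x, Set.indicator {0} (fun _ => (1 : ℝ)) x ∂σ := by
    rw [integral_indicator_const _ (measurableSet_singleton _)]
    simp
  rw [e]
  refine tendsto_integral_filter_of_dominated_convergence (fun _ => C)
    (Eventually.of_forall fun i => (hf i).aestronglyMeasurable)
    (Eventually.of_forall fun i => Eventually.of_forall fun x => hC i x) (integrable_const C) ?_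
  have hae : ∀ᵐ x ∂σ, x ∈ Set.Icc 0 Real.pi := by
    rw [ae_iff]
    exact hσ
  filter_upwards [hae] with x hx
  rcases hx.1.eq_or_lt with h | h
  · subst h
    simpa using h0
  · rw [Set.indicator_of_notMem (by simpa using h.ne')]
    exact h1 x h hx.2

end sigma

end MeanLeaf

open MeanLeaf in
theorem mean : S_MEAN := by
  intro a ha
  obtain ⟨heven, hbd, hpd⟩ := ha
  have hPD : Pool.Agent.H514R3.PD (fun m : ℕ => a m) := by
    intro N v
    have h := hpd N (fun i => ((i : ℕ) : ℤ)) (fun i => v i)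
    rw [← Fin.sum_univ_eq_sum_range (fun j => ∑ k ∈ range N, v j * v k *
      a ((Pool.Agent.H514R3.lag j k : ℕ) : ℤ))]
    refine h.trans_eq (Finset.sum_congr rfl fun i _ => ?_)
    rw [← Fin.sum_univ_eq_sum_range (fun k => v i * v k *
      a ((Pool.Agent.H514R3.lag i k : ℕ) : ℤ))]
    refine Finset.sum_congr rfl fun k _ => ?_
    congr 1
    unfold Pool.Agent.H514R3.lag
    rcases Int.natAbs_eq (((i : ℕ) : ℤ) - ((k : ℕ) : ℤ)) with h1 | h1
    · rw [← h1]
    · conv_lhs => rw [h1]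
      rw [heven]
  obtain ⟨σ, hfin, hsupp, hr⟩ := Pool.Agent.H514R3.herglotz _ hPD
  have hr' : ∀ m : ℤ, a m = ∫ x, Real.cos (m * x) ∂σ := by
    intro m
    obtain ⟨k, rfl | rfl⟩ := m.eq_nat_or_neg
    · exact (hr k).trans (by simp)
    · rw [heven]
      refine (hr k).trans ?_
      refine integral_congr_ae (Eventually.of_forall fun x => ?_)
      simp only
      push_cast
      rw [neg_mul, Real.cos_neg]
  refine ⟨σ.real {0}, measureReal_nonneg, ?_, ?_, ?_, ?_⟩
  · intro p N hp hN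
    rw [al_eq hr']
    have e : σ.real {0} = ∫ x, Set.indicator {0} (fun _ => (1 : ℝ)) x ∂σ := by
      rw [integral_indicator_const _ (measurableSet_singleton _)]
      simp
    rw [e]
    refine integral_mono ((integrable_const (1 : ℝ)).indicator (measurableSet_singleton _))
      (integrable_of_abs (kr_cont p p N N) 2 (kr_abs p p N N)) fun x => ?_
    by_cases hx : x = 0
    · subst hx
      simp only
      rw [kr_zero hN hN]
      simp
    · simp only
      rw [Set.indicator_of_notMem (by simpa using hx)]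
      unfold kr
      exact add_nonneg (mul_self_nonneg _) (mul_self_nonneg _)
  · simp_rw [al_eq hr']
    refine tend_int hsupp (fun q : ℕ × ℕ => kr 1 1 q.1 q.2) (fun q => kr_cont _ _ _ _) 2
      (fun q x => kr_abs _ _ _ _ x) ?_ ?_
    · refine tendsto_const_nhds.congr' ?_
      filter_upwards [eventually_ge_atTop ((1, 1) : ℕ × ℕ)] with q hq
      exact (kr_zero hq.1 hq.2).symm
    · intro x hx hx'
      have t1 : Tendsto (fun q : ℕ × ℕ => q.1) atTop atTop := by
        rw [← prod_atTop_atTop_eq]; exact tendsto_fst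
      have t2 : Tendsto (fun q : ℕ × ℕ => q.2) atTop atTop := by
        rw [← prod_atTop_atTop_eq]; exact tendsto_snd
      have c1 := (cc_tend hx hx').comp t1
      have c2 := (cc_tend hx hx').comp t2
      have s1 := (ss_tend hx hx').comp t1
      have s2 := (ss_tend hx hx').comp t2
      have := (c1.mul c2).add (s1.mul s2)
      simpa [kr, Function.comp_def] using this
  · intro p N hp hN
    simp_rw [al_eq hr']
    refine tend_int hsupp (fun L : ℕ => kr p 1 N L) (fun q => kr_cont _ _ _ _) 2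
      (fun q x => kr_abs _ _ _ _ x) ?_ ?_
    · refine tendsto_const_nhds.congr' ?_
      filter_upwards [eventually_ge_atTop 1] with q hq
      exact (kr_zero hN hq).symm
    · intro x hx hx'
      have := ((cc_tend hx hx').const_mul (cc N (p * x))).add
        ((ss_tend hx hx').const_mul (ss N (p * x)))
      simpa [kr] using this
  · have key : ∀ H : ℕ, (1 / (2 * (H : ℝ))) * ∑ n ∈ Ioo (-(H : ℤ)) H, a n =
        ∫ x, (1 / (2 * (H : ℝ))) * ∑ n ∈ Ioo (-(H : ℤ)) H, Real.cos (n * x) ∂σ := by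
      intro H
      rw [integral_const_mul, integral_finsetSum _ fun m _ => integrable_of_abs (by fun_prop) 1
        fun x => Real.abs_cos_le_one _]
      simp_rw [hr']
    simp_rw [key]
    have hsum : ∀ (H : ℕ) (x : ℝ), 1 ≤ H → ∑ n ∈ Ioo (-(H : ℤ)) H, Real.cos (n * x) =
        2 * ∑ i ∈ range H, Real.cos (i * x) - 1 := by
      intro H x hH
      induction H, hH using Nat.le_induction with
      | base =>
        have : Ioo (-((1 : ℕ) : ℤ)) ((1 : ℕ) : ℤ) = {0} := by ext n; simp; omega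
        rw [this]; simp; norm_num
      | succ H hH ih =>
        have : Ioo (-((H + 1 : ℕ) : ℤ)) ((H + 1 : ℕ) : ℤ) =
            insert (H : ℤ) (insert (-(H : ℤ)) (Ioo (-(H : ℤ)) H)) := by
          ext n; simp only [mem_Ioo, mem_insert]; push_cast; omega
        rw [this, Finset.sum_insert (by simp only [mem_insert, mem_Ioo]; omega),
          Finset.sum_insert (by simp only [mem_Ioo]; omega), ih, Finset.sum_range_succ]
        push_cast
        rw [neg_mul, Real.cos_neg]
        ring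
    have hkr : ∀ (H : ℕ) (x : ℝ), (1 / (2 * (H : ℝ))) * ∑ n ∈ Ioo (-(H : ℤ)) H, Real.cos (n * x) =
        cc H x - 1 / (2 * (H : ℝ)) := by
      intro H x
      rcases Nat.eq_zero_or_pos H with h | h
      · subst h; simp [cc]
      · rw [hsum H x h]
        unfold cc
        have : (H : ℝ) ≠ 0 := by exact_mod_cast h.ne'
        generalize (∑ i ∈ range H, Real.cos (i * x)) = S
        field_simp
    have hlim : Tendsto (fun H : ℕ => 1 / (2 * (H : ℝ))) atTop (𝓝 0) := by
      have := (tendsto_one_div_atTop_nhds_zero_nat (𝕜 := ℝ)).const_mul (1 / 2)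
      rw [mul_zero] at this
      refine this.congr fun H => ?_
      rw [one_div_mul_one_div]
    simp_rw [hkr]
    refine tend_int hsupp (fun (H : ℕ) (x : ℝ) => cc H x - 1 / (2 * (H : ℝ)))
      (fun H => (cc_cont H).sub continuous_const) 2 (fun H x => ?_) ?_ ?_
    · refine (abs_sub _ _).trans ?_
      have h1 := cc_abs H x
      have h2 : |1 / (2 * (H : ℝ))| ≤ 1 := by
        rw [abs_of_nonneg (by positivity)]
        rcases Nat.eq_zero_or_pos H with h | h
        · subst h; simp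
        · have : (1 : ℝ) ≤ H := by exact_mod_cast h
          rw [div_le_one (by positivity)]
          linarith
      linarith
    · have h1 : Tendsto (fun H : ℕ => (1 : ℝ) - 1 / (2 * (H : ℝ))) atTop (𝓝 (1 - 0)) :=
        tendsto_const_nhds.sub hlim
      rw [sub_zero] at h1
      refine h1.congr' ?_
      filter_upwards [eventually_ge_atTop 1] with H hH
      rw [cc_zero hH]
    · intro x hx hx'
      have := (cc_tend hx hx').sub hlim
      rwa [sub_zero] at this

end Pool.Agent.K9h47.JL
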