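import Pool.Agent.K9h47.JL.Stm
import Pool.Agent.H514R3.Herg

/-!
# Leaf NT (helper62)
-/

set_option autoImplicit false

open MeasureTheory Filter Topology Finset

namespace Pool.Agent.K9h47.JL

namespace NT

/-- the rational numbers -/
def QQ : Set ℝ := Set.range ((↑) : ℚ → ℝ)

/-- the rational numbers whose denominator divides `q` -/
def Aq (q : ℕ) : Set ℝ := {t | ∃ r : ℚ, r.den ∣ q ∧ (r : ℝ) = t}

lemma Aq_sub (q : ℕ) : Aq q ⊆ QQ := fun _ ⟨r, _, h⟩ => ⟨r, h⟩

lemma QQ_meas : MeasurableSet QQ := (Set.countable_range _).measurableSet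

lemma Aq_meas (q : ℕ) : MeasurableSet (Aq q) :=
  ((Set.countable_range ((↑) : ℚ → ℝ)).mono (Aq_sub q)).measurableSet

lemma cos_red {r : ℚ} {q p m : ℕ} (hr : r.den ∣ q) (hp : p % q = 1 % q) :
    Real.cos (2 * Real.pi * (p * (m * (r : ℝ)))) = Real.cos (2 * Real.pi * (m * (r : ℝ))) := by
  obtain ⟨l, rfl⟩ := hr
  obtain ⟨k, hk⟩ := Nat.modEq_iff_dvd.1 (show p ≡ 1 [MOD r.den * l] from hp)
  have hk' : (p : ℝ) = 1 - (r.den * l : ℝ) * k := by
    have : (1 : ℤ) - p = (r.den * l : ℤ) * k := by exact_mod_cast hk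
    have h2 : ((1 : ℤ) : ℝ) - ((p : ℤ) : ℝ) = ((r.den * l : ℤ) : ℝ) * k := by exact_mod_cast this
    push_cast at h2
    linarith
  have hr : (r : ℝ) * r.den = r.num := by exact_mod_cast Rat.mul_den_eq_num r
  have e : 2 * Real.pi * (p * (m * (r : ℝ))) =
      2 * Real.pi * (m * (r : ℝ)) + ((-(l * k * m * r.num) : ℤ) : ℝ) * (2 * Real.pi) := by
    rw [hk']
    push_cast
    linear_combination (-2 * Real.pi * l * k * m) * hr
  rw [e, Real.cos_add_int_mul_two_pi]

section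

variable {ν : Measure ℝ} [IsFiniteMeasure ν] {c : ℕ → ℝ}

/-- the primes congruent to one -/
def P1 (q i : ℕ) : Finset ℕ := (Pr i).filter fun p => p % q = 1 % q

/-- their weight -/
noncomputable def W (q i : ℕ) : ℝ := ∑ p ∈ P1 q i, Real.log p / 2 ^ i

/-- the weighted sum of cosines -/
noncomputable def F (q i m : ℕ) (t : ℝ) : ℝ :=
  ∑ p ∈ P1 q i, Real.log p / 2 ^ i * Real.cos (2 * Real.pi * (p * (m * t)))

lemma w_nonneg (p i : ℕ) : 0 ≤ Real.log p / 2 ^ i := by
  have := Real.log_natCast_nonneg p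
  positivity

lemma F_cont (q i m : ℕ) : Continuous (F q i m) := by
  unfold F
  fun_prop

lemma F_abs (q i m : ℕ) (t : ℝ) : ‖F q i m t‖ ≤ W q i := by
  unfold F W
  refine (norm_sum_le _ _).trans (Finset.sum_le_sum fun p _ => ?_)
  rw [Real.norm_eq_abs, abs_mul, abs_of_nonneg (w_nonneg p i)]
  exact (mul_le_mul_of_nonneg_left (Real.abs_cos_le_one _) (w_nonneg p i)).trans (mul_one _).le

lemma W_le (hWT : S_WT) (q i : ℕ) : W q i ≤ 3 :=
  (Finset.sum_le_sum_of_subset_of_nonneg (Finset.filter_subset _ _)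
    fun p _ _ => w_nonneg p i).trans (hWT i)

lemma F_int (q i m : ℕ) : Integrable (F q i m) ν :=
  Integrable.of_bound (F_cont q i m).aestronglyMeasurable (W q i) (ae_of_all _ (F_abs q i m))

lemma cos_int (x : ℝ) : Integrable (fun t : ℝ => Real.cos (2 * Real.pi * (x * t))) ν :=
  Integrable.of_bound (by fun_prop : Continuous fun t : ℝ =>
    Real.cos (2 * Real.pi * (x * t))).aestronglyMeasurable 1
    (ae_of_all _ fun t => by rw [Real.norm_eq_abs]; exact Real.abs_cos_le_one _)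

lemma F_A {q i m : ℕ} {t : ℝ} (ht : t ∈ Aq q) :
    F q i m t = W q i * Real.cos (2 * Real.pi * (m * t)) := by
  obtain ⟨r, hr, rfl⟩ := ht
  unfold F W
  rw [Finset.sum_mul]
  exact Finset.sum_congr rfl fun p hp => by rw [cos_red hr (Finset.mem_filter.1 hp).2]

lemma int_F (hc : ∀ m : ℕ, c m = ∫ t, Real.cos (2 * Real.pi * (m * t)) ∂ν) (q i m : ℕ) :
    ∫ t, F q i m t ∂ν = ∑ p ∈ P1 q i, Real.log p / 2 ^ i * c (p * m) := by
  unfold F
  rw [integral_finsetSum]
  · refine Finset.sum_congr rfl fun p _ => ?_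
    rw [integral_const_mul, hc]
    push_cast
    simp only [mul_assoc]
  · intro p _
    have := (cos_int (ν := ν) (p * m : ℝ)).const_mul (Real.log p / 2 ^ i)
    simpa only [mul_assoc] using this

lemma irr_lim (hWT : S_WT) {q m : ℕ} (hm : 1 ≤ m)
    (h1 : ∀ θ : ℝ, Irrational θ → Tendsto (fun i : ℕ => ∑ p ∈ (Pr i).filter
      (fun p => p % q = 1 % q), Real.log p / 2 ^ i * Real.cos (2 * Real.pi * (p * θ))) atTop (𝓝 0)) :
    Tendsto (fun i => ∫ t in QQᶜ, F q i m t ∂ν) atTop (𝓝 0) := by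
  have h := tendsto_integral_of_dominated_convergence (μ := ν.restrict QQᶜ)
    (F := fun i t => F q i m t) (f := fun _ => (0 : ℝ)) (fun _ => (3 : ℝ))
    (fun i => (F_cont q i m).aestronglyMeasurable) (integrable_const _)
    (fun i => ae_of_all _ fun t => (F_abs q i m t).trans (W_le hWT q i)) ?_
  · simpa using h
  · refine (ae_restrict_mem QQ_meas.compl).mono fun t ht => ?_
    have ht' : Irrational t := ht
    exact h1 _ (ht'.natCast_mul (by omega))

lemma claim1 (hc : ∀ m : ℕ, c m = ∫ t, Real.cos (2 * Real.pi * (m * t)) ∂ν) (hWT : S_WT)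
    {q m : ℕ} (hm : 1 ≤ m)
    (h1 : ∀ θ : ℝ, Irrational θ → Tendsto (fun i : ℕ => ∑ p ∈ (Pr i).filter
      (fun p => p % q = 1 % q), Real.log p / 2 ^ i * Real.cos (2 * Real.pi * (p * θ))) atTop (𝓝 0))
    (h2 : ∃ δ : ℝ, 0 < δ ∧ ∀ᶠ i : ℕ in atTop, δ ≤ ∑ p ∈ (Pr i).filter (fun p => p % q = 1 % q),
      Real.log p / 2 ^ i)
    (h3 : ∀ ε : ℝ, 0 < ε → ∀ i₁ : ℕ,
      ∃ i : ℕ, i₁ ≤ i ∧ ∑ p ∈ Pr i, Real.log p / 2 ^ i * |c (p * m) - c m| ≤ ε) :
    |c m - ∫ t in Aq q, Real.cos (2 * Real.pi * (m * t)) ∂ν| ≤ ν.real (QQ \ Aq q) := by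
  refine le_of_forall_pos_le_add fun η hη => ?_
  obtain ⟨δ, hδ, hW⟩ := h2
  have hlim := irr_lim (ν := ν) hWT hm h1
  have hev : ∀ᶠ i in atTop, |∫ t in QQᶜ, F q i m t ∂ν| < δ * η / 2 := by
    have := (Metric.tendsto_nhds.1 hlim) (δ * η / 2) (by positivity)
    simpa [Real.dist_eq] using this
  obtain ⟨i₁, hi₁⟩ := (hev.and hW).exists_forall_of_atTop
  obtain ⟨i, hi, hs⟩ := h3 (δ * η / 2) (by positivity) i₁
  obtain ⟨hI, hWi⟩ := hi₁ i hi
  have hWi' : δ ≤ W q i := hWi
  have hW0 : 0 < W q i := hδ.trans_le hWi'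
  have e1 : |∫ t, F q i m t ∂ν - W q i * c m| ≤ δ * η / 2 := by
    rw [int_F hc, W, Finset.sum_mul, ← Finset.sum_sub_distrib]
    refine (Finset.abs_sum_le_sum_abs _ _).trans (le_trans ?_ hs)
    refine le_trans (Finset.sum_le_sum fun p _ => ?_)
      (Finset.sum_le_sum_of_subset_of_nonneg (Finset.filter_subset _ _)
        fun p _ _ => mul_nonneg (w_nonneg p i) (abs_nonneg _))
    rw [← mul_sub, abs_mul, abs_of_nonneg (w_nonneg p i)]
  have e2 : ∫ t, F q i m t ∂ν = W q i * (∫ t in Aq q, Real.cos (2 * Real.pi * (m * t)) ∂ν) +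
      ∫ t in QQ \ Aq q, F q i m t ∂ν + ∫ t in QQᶜ, F q i m t ∂ν := by
    rw [← integral_add_compl QQ_meas (F_int q i m),
      ← integral_inter_add_sdiff (s := QQ) (Aq_meas q) (F_int q i m).integrableOn,
      Set.inter_eq_right.2 (Aq_sub q), ← integral_const_mul]
    congr 2
    exact setIntegral_congr_fun (Aq_meas q) fun t ht => F_A ht
  have e3 : |∫ t in QQ \ Aq q, F q i m t ∂ν| ≤ W q i * ν.real (QQ \ Aq q) :=
    norm_setIntegral_le_of_norm_le_const (measure_lt_top _ _) fun t _ => F_abs q i m t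
  set IA := ∫ t in Aq q, Real.cos (2 * Real.pi * (m * t)) ∂ν
  set IB := ∫ t in QQ \ Aq q, F q i m t ∂ν
  set IC := ∫ t in QQᶜ, F q i m t ∂ν
  have e4 : W q i * |c m - IA| ≤ W q i * (ν.real (QQ \ Aq q) + η) := by
    have h5 : W q i * (c m - IA) = -(∫ t, F q i m t ∂ν - W q i * c m) + IB + IC := by
      rw [e2]; ring
    rw [← abs_of_pos hW0, ← abs_mul, abs_of_pos hW0, h5]
    refine (abs_add_le _ _).trans ((add_le_add_left (abs_add_le _ _) _).trans ?_)
    rw [abs_neg]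
    have h6 : δ * η ≤ W q i * η := mul_le_mul_of_nonneg_right hWi' hη.le
    linarith
  exact le_of_mul_le_mul_left e4 hW0

lemma tail_lim : Tendsto (fun n : ℕ => ν.real (QQ \ Aq n.factorial)) atTop (𝓝 0) := by
  have h := tendsto_measure_iInter_atTop (μ := ν) (s := fun n : ℕ => QQ \ Aq n.factorial)
    (fun n => (QQ_meas.diff (Aq_meas _)).nullMeasurableSet) ?_ ⟨0, measure_ne_top _ _⟩
  · have h0 : (⋂ n : ℕ, QQ \ Aq n.factorial) = ∅ := by
      rw [Set.eq_empty_iff_forall_notMem]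
      intro t ht
      rw [Set.mem_iInter] at ht
      obtain ⟨r, rfl⟩ := (ht 0).1
      exact (ht r.den).2 ⟨r, Nat.dvd_factorial r.pos le_rfl, rfl⟩
    rw [h0, measure_empty] at h
    have := (ENNReal.tendsto_toReal ENNReal.zero_ne_top).comp h
    rw [ENNReal.toReal_zero] at this
    exact this
  · intro a b hab
    refine Set.sdiff_subset_sdiff_right ?_
    rintro t ⟨r, hr, rfl⟩
    exact ⟨r, hr.trans (Nat.factorial_dvd_factorial hab), rfl⟩

lemma claim2 (hc : ∀ m : ℕ, c m = ∫ t, Real.cos (2 * Real.pi * (m * t)) ∂ν) (hWT : S_WT)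
    {m : ℕ} (hm : 1 ≤ m)
    (hA : ∀ q : ℕ, 1 ≤ q →
      (∀ θ : ℝ, Irrational θ → Tendsto (fun i : ℕ => ∑ p ∈ (Pr i).filter
        (fun p => p % q = 1 % q), Real.log p / 2 ^ i * Real.cos (2 * Real.pi * (p * θ))) atTop
          (𝓝 0)) ∧
      ∃ δ : ℝ, 0 < δ ∧ ∀ᶠ i : ℕ in atTop, δ ≤ ∑ p ∈ (Pr i).filter (fun p => p % q = 1 % q),
        Real.log p / 2 ^ i)
    (h3 : ∀ ε : ℝ, 0 < ε → ∀ i₁ : ℕ,
      ∃ i : ℕ, i₁ ≤ i ∧ ∑ p ∈ Pr i, Real.log p / 2 ^ i * |c (p * m) - c m| ≤ ε) :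
    c m = ∫ t in QQ, Real.cos (2 * Real.pi * (m * t)) ∂ν := by
  have key : ∀ n : ℕ, |c m - ∫ t in QQ, Real.cos (2 * Real.pi * (m * t)) ∂ν| ≤
      2 * ν.real (QQ \ Aq n.factorial) := fun n => by
    have h1 := claim1 hc hWT hm (hA n.factorial n.factorial_pos).1 (hA _ n.factorial_pos).2 h3
    have h2 := integral_inter_add_sdiff (s := QQ) (Aq_meas n.factorial)
      (cos_int (ν := ν) (m : ℝ)).integrableOn
    rw [Set.inter_eq_right.2 (Aq_sub _)] at h2
    have h4 : ‖∫ t in QQ \ Aq n.factorial, Real.cos (2 * Real.pi * (m * t)) ∂ν‖ ≤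
        1 * ν.real (QQ \ Aq n.factorial) :=
      norm_setIntegral_le_of_norm_le_const (measure_lt_top _ _) fun t _ =>
        Real.abs_cos_le_one _
    rw [Real.norm_eq_abs] at h4
    rw [← h2]
    have h5 := abs_sub (c m - ∫ t in Aq n.factorial, Real.cos (2 * Real.pi * (m * t)) ∂ν)
      (∫ t in QQ \ Aq n.factorial, Real.cos (2 * Real.pi * (m * t)) ∂ν)
    rw [sub_sub] at h5
    linarith
  have h0 : Tendsto (fun n : ℕ => 2 * ν.real (QQ \ Aq n.factorial)) atTop (𝓝 0) := by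
    simpa using (tail_lim (ν := ν)).const_mul 2
  have h6 := ge_of_tendsto' h0 key
  exact sub_eq_zero.1 (abs_nonpos_iff.1 h6)

omit [IsFiniteMeasure ν] in
lemma claim3 {g : ℝ → ℝ} (hg : Integrable g ν) :
    HasSum (fun r : ℚ => ν.real {(r : ℝ)} * g r) (∫ t in QQ, g t ∂ν) := by
  have h0 : QQ = ⋃ r : ℚ, {(r : ℝ)} := by
    ext t; simp [QQ, eq_comm]
  rw [h0]
  have h := hasSum_integral_iUnion (μ := ν) (f := g) (s := fun r : ℚ => {(r : ℝ)})
    (fun r => measurableSet_singleton _) (fun r s hrs => by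
      rw [Function.onFun, Set.disjoint_singleton]
      exact fun h => hrs (by exact_mod_cast h)) hg.integrableOn
  simpa only [integral_singleton, smul_eq_mul] using h

end

/-- the exponential -/
noncomputable def E (m : ℤ) (r : ℚ) : ℂ := Complex.exp (2 * Real.pi * Complex.I * (m * (r : ℂ)))

lemma E_norm (m : ℤ) (r : ℚ) : ‖E m r‖ = 1 := by
  unfold E
  have : (2 * Real.pi * Complex.I * (m * (r : ℂ))) =
      ((2 * Real.pi * (m * r) : ℝ) : ℂ) * Complex.I := by push_cast; ring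
  rw [this, Complex.norm_exp_ofReal_mul_I]

lemma E_zero (m : ℤ) : E m 0 = 1 := by simp [E]

lemma E_one (m : ℤ) : E m 1 = 1 := by
  unfold E
  rw [show (2 * Real.pi * Complex.I * (m * ((1 : ℚ) : ℂ))) = m * (2 * Real.pi * Complex.I) by
    push_cast; ring, Complex.exp_int_mul_two_pi_mul_I]

lemma E_refl (m : ℤ) (r : ℚ) : E m (1 - r) = E (-m) r := by
  have h := E_one m
  unfold E at h ⊢
  rw [show (2 * Real.pi * Complex.I * (m * ((1 - r : ℚ) : ℂ))) =
    2 * Real.pi * Complex.I * (m * ((1 : ℚ) : ℂ)) +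
      2 * Real.pi * Complex.I * (((-m : ℤ) : ℂ) * (r : ℂ)) by push_cast; ring,
    Complex.exp_add, h, one_mul]

lemma E_add (m : ℤ) (r : ℚ) :
    E m r + E (-m) r = 2 * ((Real.cos (2 * Real.pi * (m.natAbs * (r : ℝ))) : ℝ) : ℂ) := by
  have h1 : Real.cos (2 * Real.pi * (m.natAbs * (r : ℝ))) = Real.cos (2 * Real.pi * (m * r)) := by
    rcases Int.natAbs_eq m with h | h
    · have : ((m.natAbs : ℕ) : ℝ) = (m : ℝ) := by
        conv_rhs => rw [h]
        simp
      rw [this]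
    · have : ((m.natAbs : ℕ) : ℝ) = -(m : ℝ) := by
        conv_rhs => rw [h]
        simp
      rw [this, ← Real.cos_neg]
      congr 1; ring
  rw [h1, Complex.ofReal_cos, Complex.cos, mul_div_cancel₀ _ two_ne_zero]
  unfold E
  congr 2 <;> (push_cast; ring)

end NT

open NT in
theorem nt : S_NT := by
  intro hVIN hAPQ hWT c hPD hdil
  obtain ⟨σ, hσ, hσ0, hcσ⟩ := Pool.Agent.H514R3.herglotz c hPD
  set ν : Measure ℝ := σ.map fun x => x / (2 * Real.pi) with hν
  have hmeas : Measurable fun x : ℝ => x / (2 * Real.pi) := by fun_prop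
  have hνf : IsFiniteMeasure ν := by rw [hν]; infer_instance
  have hpi := Real.pi_pos
  have hc : ∀ m : ℕ, c m = ∫ t, Real.cos (2 * Real.pi * (m * t)) ∂ν := fun m => by
    rw [hν, integral_map hmeas.aemeasurable (by
      exact (by fun_prop : Continuous fun t : ℝ =>
        Real.cos (2 * Real.pi * (m * t))).aestronglyMeasurable), hcσ m]
    refine integral_congr_ae (ae_of_all _ fun x => ?_)
    simp only
    congr 1
    field_simp
  set u : ℚ → ℝ := fun r => ν.real {(r : ℝ)} with hu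
  have hu0 : ∀ r, 0 ≤ u r := fun r => measureReal_nonneg
  have hu1 : ∀ r, u r ≠ 0 → 0 ≤ r ∧ r ≤ 1 / 2 := by
    intro r hr
    by_contra hcon
    apply hr
    have h1 : ν {(r : ℝ)} = 0 := by
      rw [hν, Measure.map_apply hmeas (measurableSet_singleton _)]
      refine measure_mono_null (fun x hx => ?_) hσ0
      rw [Set.mem_preimage, Set.mem_singleton_iff, div_eq_iff (by positivity)] at hx
      rw [Set.mem_compl_iff, Set.mem_Icc]
      rintro ⟨hx0, hx1⟩
      apply hcon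
      rw [hx] at hx0 hx1
      have h2 : (0 : ℝ) ≤ r := by
        by_contra h3
        have := mul_neg_of_neg_of_pos (not_le.1 h3) (by positivity : 0 < 2 * Real.pi)
        linarith
      have h3 : (r : ℝ) ≤ 1 / 2 := by
        have h4 : (r : ℝ) * 2 * Real.pi ≤ 1 * Real.pi := by linarith
        have := le_of_mul_le_mul_right h4 hpi
        linarith
      exact ⟨by exact_mod_cast h2, by
        have h5 : (r : ℝ) ≤ ((1 / 2 : ℚ) : ℝ) := by push_cast; exact h3
        exact_mod_cast h5⟩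
    simp [hu, Measure.real, h1]
  have hcos : ∀ m : ℕ, HasSum (fun r : ℚ => u r * Real.cos (2 * Real.pi * (m * (r : ℝ))))
      (∫ t in QQ, Real.cos (2 * Real.pi * (m * t)) ∂ν) := fun m =>
    claim3 (g := fun t => Real.cos (2 * Real.pi * (m * t))) (cos_int (m : ℝ))
  have hU : HasSum u (ν.real QQ) := by
    have := hcos 0
    simpa using this
  have hcm : ∀ m : ℕ, 1 ≤ m →
      HasSum (fun r : ℚ => u r * Real.cos (2 * Real.pi * (m * (r : ℝ)))) (c m) := fun m hm => by
    rw [claim2 hc hWT hm (hAPQ hVIN) (hdil m hm)]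
    exact hcos m
  have hE : ∀ m : ℤ, Summable fun r : ℚ => ((u r / 2 : ℝ) : ℂ) * E m r := fun m => by
    refine Summable.of_norm ?_
    have h1 : ∀ r : ℚ, ‖((u r / 2 : ℝ) : ℂ) * E m r‖ = u r / 2 := fun r => by
      rw [norm_mul, E_norm, mul_one, Complex.norm_real, Real.norm_eq_abs,
        abs_of_nonneg (by have := hu0 r; positivity)]
    simp only [h1]
    exact hU.summable.div_const 2
  set w : ℚ → ℝ := fun r => u r / 2 + u (1 - r) / 2 + (if r = 0 then u 0 / 2 else 0) -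
    (if r = 1 then u 0 / 2 else 0) with hw
  have hz : ∀ r, (r < 0 ∨ 1 / 2 < r) → u r = 0 := fun r h => by
    by_contra h1
    have h2 := hu1 r h1
    rcases h with h | h
    · linarith [h2.1]
    · linarith [h2.2]
  have hws : HasSum w (ν.real QQ) := by
    have h1 := hU.div_const 2
    have h2 : HasSum (fun r : ℚ => u (1 - r) / 2) (ν.real QQ / 2) :=
      (Equiv.hasSum_iff (Equiv.subLeft (1 : ℚ))).2 h1
    have h3 := ((h1.add h2).add (hasSum_ite_eq (0 : ℚ) (u 0 / 2))).sub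
      (hasSum_ite_eq (1 : ℚ) (u 0 / 2))
    have h4 : ν.real QQ / 2 + ν.real QQ / 2 + u 0 / 2 - u 0 / 2 = ν.real QQ := by ring
    rw [h4] at h3
    exact h3
  refine ⟨w, c 0 - ν.real QQ, fun t => ?_, fun t ht => ?_, ?_, ?_, ?_, ?_⟩
  · have h1 := hu0 t
    have h2 := hu0 (1 - t)
    have h3 := hu0 0
    by_cases ht : t = 1
    · subst ht
      simp only [hw, sub_self, one_ne_zero, if_false, if_true]
      linarith
    · simp only [hw, if_neg ht]
      split_ifs <;> linarith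
  · by_contra hcon
    apply ht
    rw [not_and_or, not_le, not_lt] at hcon
    rcases hcon with h | h
    · simp only [hw]
      rw [hz t (Or.inl h), hz (1 - t) (Or.inr (by linarith)), if_neg h.ne, if_neg (by linarith)]
      ring
    · rcases h.eq_or_lt with h | h
      · subst h
        simp only [hw]
        rw [hz 1 (Or.inr (by norm_num))]
        norm_num
      · simp only [hw]
        rw [hz t (Or.inr (by linarith)), hz (1 - t) (Or.inl (by linarith)),
          if_neg (by linarith), if_neg h.ne']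
        ring
  · exact hws.summable
  · rw [hc 0]
    have h1 : ∫ t, Real.cos (2 * Real.pi * (((0 : ℕ) : ℝ) * t)) ∂ν = ν.real Set.univ := by simp
    rw [h1, sub_nonneg]
    exact measureReal_mono (Set.subset_univ _)
  · rw [hws.tsum_eq]; ring
  · intro m hm
    symm
    have h1 := (hE m).hasSum
    have h2 := (hE (-m)).hasSum
    have h3 : ∑' r : ℚ, ((u r / 2 : ℝ) : ℂ) * E m r + ∑' r : ℚ, ((u r / 2 : ℝ) : ℂ) * E (-m) r =
        ((c m.natAbs : ℝ) : ℂ) := by
      refine (h1.add h2).unique ?_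
      have h4 := Complex.ofRealCLM.hasSum (hcm m.natAbs (Int.natAbs_pos.2 hm))
      refine h4.congr_fun fun r => ?_
      simp only [Complex.ofRealCLM_apply]
      rw [← mul_add, E_add]
      push_cast
      ring
    have h5 : HasSum (fun r : ℚ => ((u (1 - r) / 2 : ℝ) : ℂ) * E m r)
        (∑' r : ℚ, ((u r / 2 : ℝ) : ℂ) * E (-m) r) := by
      have h6 := (Equiv.hasSum_iff (Equiv.subLeft (1 : ℚ))).2 h2
      refine h6.congr_fun fun r => ?_
      simp only [Function.comp_apply, Equiv.subLeft_apply]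
      rw [← E_refl, sub_sub_cancel]
    have h7 : HasSum (fun r : ℚ => if r = 0 then ((u 0 / 2 : ℝ) : ℂ) else 0) ((u 0 / 2 : ℝ) : ℂ) :=
      hasSum_ite_eq _ _
    have h8 : HasSum (fun r : ℚ => if r = 1 then ((u 0 / 2 : ℝ) : ℂ) else 0) ((u 0 / 2 : ℝ) : ℂ) :=
      hasSum_ite_eq _ _
    have h9 := ((h1.add h5).add h7).sub h8
    rw [h3, add_sub_cancel_right] at h9
    refine HasSum.tsum_eq ?_
    refine h9.congr_fun fun r => ?_
    change ((w r : ℝ) : ℂ) * E m r = _
    simp only [hw]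
    by_cases hr0 : r = 0
    · subst hr0
      simp [E_zero]
    · by_cases hr1 : r = 1
      · subst hr1
        simp [E_one]
      · simp only [if_neg hr0, if_neg hr1, add_zero, sub_zero]
        push_cast
        ring

end Pool.Agent.K9h47.JL
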