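import Pool.Agent.K9h47.JL.Stm3
import Pool.Agent.K9h47.JL.Nt

/-!
# Leaf NTV (helper62)
-/

set_option autoImplicit false

open MeasureTheory Filter Topology Finset

namespace Pool.Agent.K9h47.JL

namespace NTV

/-- the representative in `[0, 1)` -/
noncomputable def rep (x : UnitAddCircle) : ℝ := (AddCircle.measurableEquivIco 1 0 x : ℝ)

lemma rep_meas : Measurable rep :=
  measurable_subtype_coe.comp (AddCircle.measurableEquivIco 1 0).measurable

lemma coe_rep (x : UnitAddCircle) : ((rep x : ℝ) : UnitAddCircle) = x :=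
  (AddCircle.measurableEquivIco 1 0).symm_apply_apply x

lemma fin_iff (x : UnitAddCircle) : IsOfFinAddOrder x ↔ rep x ∈ NT.QQ := by
  conv_lhs => rw [← coe_rep x]
  rw [AddCircle.isOfFinAddOrder_iff_exists_rat_eq_div]
  simp [NT.QQ]

lemma circ_sum {ι : Type*} (s : Finset ι) (x : ι → UnitAddCircle) :
    ((AddCircle.toCircle (∑ l ∈ s, x l) : Circle) : ℂ) =
      ∏ l ∈ s, ((AddCircle.toCircle (x l) : Circle) : ℂ) := by
  classical
  induction s using Finset.induction_on with
  | empty => simp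
  | insert a s ha ih =>
    rw [Finset.sum_insert ha, Finset.prod_insert ha, AddCircle.toCircle_add, Circle.coe_mul, ih]

lemma ch_eq {s : ℕ} (m : ℤ) (k : Fin s → ℤ) (α : TT s) :
    ch (fun l => m * k l) α = fourier m (dot k α) := by
  have h : ch (fun l => m * k l) α = ∏ l, fourier (m * k l) (α l) := rfl
  rw [h, fourier_apply, dot, Finset.smul_sum, circ_sum]
  refine Finset.prod_congr rfl fun l _ => ?_
  rw [fourier_apply, mul_smul]

lemma re_eq {s : ℕ} (m : ℤ) (k : Fin s → ℤ) (α : TT s) :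
    (ch (fun l => m * k l) α).re = Real.cos (2 * Real.pi * (m * rep (dot k α))) := by
  rw [ch_eq]
  conv_lhs => rw [← coe_rep (dot k α)]
  rw [fourier_coe_apply]
  have : (2 * Real.pi * Complex.I * (m : ℂ) * ((rep (dot k α) : ℝ) : ℂ) / ((1 : ℝ) : ℂ)) =
      ((2 * Real.pi * (m * rep (dot k α)) : ℝ) : ℂ) * Complex.I := by push_cast; ring
  rw [this, Complex.exp_ofReal_mul_I_re]

lemma dot_meas {s : ℕ} (k : Fin s → ℤ) : Measurable (dot k : TT s → UnitAddCircle) := by
  have : Continuous (dot k : TT s → UnitAddCircle) := by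
    unfold dot
    fun_prop
  exact this.measurable

end NTV

open NTV NT in
theorem ntv : S_NTV := by
  intro hVIN hAPQ hWT s ν hνf him hdil k
  set f : TT s → ℝ := fun α => rep (dot k α) with hf
  have hfm : Measurable f := rep_meas.comp (dot_meas k)
  set ν' : Measure ℝ := ν.map f with hν'
  have hν'f : IsFiniteMeasure ν' := by rw [hν']; infer_instance
  set c : ℕ → ℝ := fun m => ∫ t, Real.cos (2 * Real.pi * (m * t)) ∂ν' with hc
  have hci : ∀ n : Fin s → ℤ, Integrable (fun α => ch n α) ν := fun n =>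
    (ch n).continuous.integrable_of_hasCompactSupport (HasCompactSupport.of_compactSpace _)
  have hcm : ∀ m : ℕ, c m = (∫ α, ch (fun l => (m : ℤ) * k l) α ∂ν).re := fun m => by
    simp only [hc, hν']
    rw [integral_map hfm.aemeasurable (by
      exact (by fun_prop : Continuous fun t : ℝ =>
        Real.cos (2 * Real.pi * (m * t))).aestronglyMeasurable)]
    have h1 : (∫ α, ch (fun l => (m : ℤ) * k l) α ∂ν).re =
        ∫ α, (ch (fun l => (m : ℤ) * k l) α).re ∂ν := (integral_re (hci _)).symm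
    rw [h1]
    refine integral_congr_ae (ae_of_all _ fun α => ?_)
    simp only [re_eq, hf]
    norm_cast
  have hk1 : (fun l => ((1 : ℕ) : ℤ) * k l) = k := by funext l; simp
  have h3 : ∀ ε : ℝ, 0 < ε → ∀ i₁ : ℕ,
      ∃ i : ℕ, i₁ ≤ i ∧ ∑ p ∈ Pr i, Real.log p / 2 ^ i * |c (p * 1) - c 1| ≤ ε := by
    intro ε hε i₁
    obtain ⟨i, hi, hs⟩ := hdil k ε hε i₁
    refine ⟨i, hi, le_trans (Finset.sum_le_sum fun p _ => ?_) hs⟩
    refine mul_le_mul_of_nonneg_left ?_ (w_nonneg p i)
    rw [mul_one, hcm, hcm, hk1, ← Complex.sub_re]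
    exact Complex.abs_re_le_norm _
  have key := claim2 (ν := ν') (c := c) (fun _ => rfl) hWT le_rfl (hAPQ hVIN) h3
  have hset : f ⁻¹' QQ = {α | IsOfFinAddOrder (dot k α)} := by
    ext α
    exact (fin_iff _).symm
  have h4 : ∫ t in QQ, Real.cos (2 * Real.pi * (((1 : ℕ) : ℝ) * t)) ∂ν' =
      ∫ α in {α | IsOfFinAddOrder (dot k α)}, (ch k α).re ∂ν := by
    rw [hν', setIntegral_map QQ_meas (by
      exact (by fun_prop : Continuous fun t : ℝ =>
        Real.cos (2 * Real.pi * (((1 : ℕ) : ℝ) * t))).aestronglyMeasurable) hfm.aemeasurable, hset]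
    refine integral_congr_ae (ae_of_all _ fun α => ?_)
    have := re_eq ((1 : ℕ) : ℤ) k α
    rw [hk1] at this
    simp only [hf]
    rw [this]
    norm_cast
  rw [h4, hcm, hk1] at key
  refine Complex.ext ?_ ?_
  · rw [Complex.ofReal_re]; exact key
  · rw [Complex.ofReal_im]; exact him k

end Pool.Agent.K9h47.JL
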