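import Pool.Agent.K9h47.JL.Stm

/-!
# Leaf PDW of the joint law project (helper32): positive definiteness in the limit
-/

set_option autoImplicit false

open MeasureTheory Filter Topology Finset

namespace Pool.Agent.K9h47.JL.Pdw0

/-- `R` vanishes for `|n| ≥ H` -/
theorem R_zero (y : ℤ → ℝ) (H : ℕ) (n : ℤ) (hn : n ∉ Ioo (-(H : ℤ)) H) : R y H n = 0 := by
  unfold R
  have h0 : (Ico (0 : ℤ) H).filter (fun m => 0 ≤ m + n ∧ m + n < H) = ∅ := by
    ext m
    simp only [mem_filter, mem_Ico, Finset.notMem_empty, iff_false, mem_Ioo] at *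
    omega
  rw [h0]
  simp

theorem co_tsum (y : ℤ → ℝ) (H : ℕ) (j : ℤ) :
    co y H j = (1 / (H : ℝ)) * ∑' n : ℤ, R y H n * R y H (n + j) := by
  unfold co
  rw [tsum_eq_sum (s := Ioo (-(H : ℤ)) H)]
  intro n hn
  rw [R_zero y H n hn, zero_mul]

theorem co_neg (y : ℤ → ℝ) (H : ℕ) (j : ℤ) : co y H (-j) = co y H j := by
  rw [co_tsum, co_tsum, ← (Equiv.addRight j).tsum_eq (fun n => R y H n * R y H (n + -j))]
  congr 1
  apply tsum_congr
  intro n
  simp only [Equiv.coe_addRight]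
  rw [add_neg_cancel_right, mul_comm]

theorem co_shift (y : ℤ → ℝ) (H : ℕ) (p q : ℤ) :
    co y H (p - q) = (1 / (H : ℝ)) * ∑' n : ℤ, R y H (n + q) * R y H (n + p) := by
  rw [co_tsum, ← (Equiv.addRight q).tsum_eq (fun n => R y H n * R y H (n + (p - q)))]
  congr 1
  apply tsum_congr
  intro n
  simp only [Equiv.coe_addRight]
  congr 2
  ring

theorem summ (y : ℤ → ℝ) (H : ℕ) (p q : ℤ) :
    Summable (fun n : ℤ => R y H (n + q) * R y H (n + p)) := by
  apply summable_of_ne_finset_zero (s := Ioo (-(H : ℤ) - q) (H - q))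
  intro n hn
  rw [R_zero y H (n + q) (by simp only [mem_Ioo] at *; omega), zero_mul]

theorem co_psd {ι : Type} [Fintype ι] (y : ℤ → ℝ) (H : ℕ) (p : ι → ℤ) :
    (Matrix.of fun i k => co y H (p i - p k)).PosSemidef := by
  rw [Matrix.posSemidef_iff_dotProduct_mulVec]
  refine ⟨?_, fun v => ?_⟩
  · ext i k
    simp only [Matrix.conjTranspose_apply, Matrix.of_apply, star_trivial]
    rw [← co_neg, neg_sub]
  · have h1 : star v ⬝ᵥ ((Matrix.of fun i k => co y H (p i - p k)).mulVec v) =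
        (1 / (H : ℝ)) * ∑' n : ℤ, (∑ i, v i * R y H (n + p i)) ^ 2 := by
      have h2 : ∀ n : ℤ, (∑ i, v i * R y H (n + p i)) ^ 2 =
          ∑ i, ∑ k, v i * v k * (R y H (n + p k) * R y H (n + p i)) := by
        intro n
        rw [sq, Finset.sum_mul_sum]
        refine Finset.sum_congr rfl fun i _ => Finset.sum_congr rfl fun k _ => ?_
        ring
      simp_rw [h2]
      rw [Summable.tsum_finsetSum]
      · simp only [dotProduct, Matrix.mulVec, Matrix.of_apply, star_trivial, Pi.star_apply]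
        rw [Finset.mul_sum]
        refine Finset.sum_congr rfl fun i _ => ?_
        rw [Summable.tsum_finsetSum, Finset.mul_sum, Finset.mul_sum]
        · refine Finset.sum_congr rfl fun k _ => ?_
          rw [co_shift, tsum_mul_left]
          ring
        · intro k _
          exact (summ y H (p i) (p k)).mul_left _
      · intro i _
        apply summable_sum
        intro k _
        exact (summ y H (p i) (p k)).mul_left _
    rw [h1]
    exact mul_nonneg (by positivity) (tsum_nonneg fun n => sq_nonneg _)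

theorem prod_psd {ι σ : Type} [Fintype ι] (S : Finset σ) (M : σ → Matrix ι ι ℝ)
    (h : ∀ l ∈ S, (M l).PosSemidef) : (Matrix.of fun i k => ∏ l ∈ S, M l i k).PosSemidef := by
  classical
  induction S using Finset.induction_on with
  | empty =>
    rw [Matrix.posSemidef_iff_dotProduct_mulVec]
    refine ⟨?_, fun v => ?_⟩
    · ext i k
      simp
    · have h1 : star v ⬝ᵥ ((Matrix.of fun i k => ∏ l ∈ (∅ : Finset σ), M l i k).mulVec v) =
          (∑ i, v i) ^ 2 := by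
        simp only [dotProduct, Matrix.mulVec, Matrix.of_apply, star_trivial, Pi.star_apply,
          Finset.prod_empty, one_mul]
        rw [sq, Finset.sum_mul]
      rw [h1]
      exact sq_nonneg _
  | insert a S ha ih =>
    have h1 : (Matrix.of fun i k => ∏ l ∈ insert a S, M l i k) =
        Matrix.hadamard (M a) (Matrix.of fun i k => ∏ l ∈ S, M l i k) := by
      ext i k
      simp only [Matrix.of_apply, Matrix.hadamard_apply]
      rw [Finset.prod_insert ha]
    rw [h1]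
    exact (h a (Finset.mem_insert_self a S)).hadamard (ih fun l hl => h l (Finset.mem_insert_of_mem hl))

theorem R_bd (y : ℤ → ℝ) (hy : ∀ n, |y n| ≤ 1) (H : ℕ) (n : ℤ) : |R y H n| ≤ 1 := by
  unfold R
  rcases Nat.eq_zero_or_pos H with h0 | h0
  · subst h0; simp
  have hH : (0 : ℝ) < H := by exact_mod_cast h0
  rw [abs_mul, abs_of_pos (by positivity : (0 : ℝ) < 1 / H)]
  have h1 : |∑ m ∈ (Ico (0 : ℤ) H).filter (fun m => 0 ≤ m + n ∧ m + n < H), y m * y (m + n)| ≤ H := by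
    calc |∑ m ∈ (Ico (0 : ℤ) H).filter (fun m => 0 ≤ m + n ∧ m + n < H), y m * y (m + n)|
        ≤ ∑ m ∈ (Ico (0 : ℤ) H).filter (fun m => 0 ≤ m + n ∧ m + n < H), |y m * y (m + n)| :=
          Finset.abs_sum_le_sum_abs _ _
      _ ≤ ∑ m ∈ (Ico (0 : ℤ) H).filter (fun m => 0 ≤ m + n ∧ m + n < H), (1 : ℝ) := by
          refine Finset.sum_le_sum fun m _ => ?_
          rw [abs_mul]
          exact mul_le_one₀ (hy m) (abs_nonneg _) (hy _)
      _ = (((Ico (0 : ℤ) H).filter (fun m => 0 ≤ m + n ∧ m + n < H)).card : ℝ) := by simp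
      _ ≤ ((Ico (0 : ℤ) H).card : ℝ) := by
          exact_mod_cast Finset.card_filter_le _ _
      _ = H := by simp
  calc 1 / (H : ℝ) * |∑ m ∈ (Ico (0 : ℤ) H).filter (fun m => 0 ≤ m + n ∧ m + n < H), y m * y (m + n)|
      ≤ 1 / (H : ℝ) * H := by gcongr
    _ = 1 := by field_simp

theorem co_bd (y : ℤ → ℝ) (hy : ∀ n, |y n| ≤ 1) (H : ℕ) (j : ℤ) : |co y H j| ≤ 2 := by
  unfold co
  rcases Nat.eq_zero_or_pos H with h0 | h0
  · subst h0; simp
  have hH : (0 : ℝ) < H := by exact_mod_cast h0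
  rw [abs_mul, abs_of_pos (by positivity : (0 : ℝ) < 1 / H)]
  have h1 : |∑ n ∈ Ioo (-(H : ℤ)) H, R y H n * R y H (n + j)| ≤ 2 * H := by
    calc |∑ n ∈ Ioo (-(H : ℤ)) H, R y H n * R y H (n + j)|
        ≤ ∑ n ∈ Ioo (-(H : ℤ)) H, |R y H n * R y H (n + j)| := Finset.abs_sum_le_sum_abs _ _
      _ ≤ ∑ n ∈ Ioo (-(H : ℤ)) H, (1 : ℝ) := by
          refine Finset.sum_le_sum fun m _ => ?_
          rw [abs_mul]
          exact mul_le_one₀ (R_bd y hy H m) (abs_nonneg _) (R_bd y hy H _)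
      _ = ((Ioo (-(H : ℤ)) H).card : ℝ) := by simp
      _ ≤ 2 * H := by
          rw [Int.card_Ioo]
          have : ((H : ℤ) - -(H : ℤ) - 1).toNat ≤ 2 * H := by omega
          exact_mod_cast this
  calc 1 / (H : ℝ) * |∑ n ∈ Ioo (-(H : ℤ)) H, R y H n * R y H (n + j)|
      ≤ 1 / (H : ℝ) * (2 * H) := by gcongr
    _ = 2 := by field_simp

section meas

variable {Ω : Type} [MeasurableSpace Ω]

theorem R_meas (x : ℤ → Ω → ℝ) (hx : ∀ n, Measurable (x n)) (H : ℕ) (n : ℤ) :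
    Measurable (fun ω => R (fun k => x k ω) H n) := by
  unfold R
  apply Measurable.const_mul
  apply Finset.measurable_fun_sum
  intro m _
  exact (hx m).mul (hx (m + n))

theorem co_meas (x : ℤ → Ω → ℝ) (hx : ∀ n, Measurable (x n)) (H : ℕ) (j : ℤ) :
    Measurable (fun ω => co (fun k => x k ω) H j) := by
  unfold co
  apply Measurable.const_mul
  apply Finset.measurable_fun_sum
  intro m _
  exact (R_meas x hx H m).mul (R_meas x hx H (m + j))

end meas

theorem prod_diff {σ : Type} (S : Finset σ) (a b : σ → ℝ) (ha : ∀ l, |a l| ≤ 2) (hb : ∀ l, |b l| ≤ 2) :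
    |∏ l ∈ S, a l - ∏ l ∈ S, b l| ≤ 2 ^ S.card * ∑ l ∈ S, |a l - b l| := by
  classical
  have hB : ∀ S : Finset σ, |∏ l ∈ S, b l| ≤ 2 ^ S.card := by
    intro S
    rw [Finset.abs_prod]
    calc ∏ l ∈ S, |b l| ≤ ∏ l ∈ S, (2 : ℝ) := Finset.prod_le_prod (fun l _ => abs_nonneg _) (fun l _ => hb l)
      _ = 2 ^ S.card := by simp
  induction S using Finset.induction_on with
  | empty => simp
  | insert c S hc ih =>
    rw [Finset.prod_insert hc, Finset.prod_insert hc, Finset.sum_insert hc, Finset.card_insert_of_notMem hc]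
    have h1 : a c * ∏ l ∈ S, a l - b c * ∏ l ∈ S, b l =
        a c * (∏ l ∈ S, a l - ∏ l ∈ S, b l) + (a c - b c) * ∏ l ∈ S, b l := by ring
    rw [h1]
    have h2 : |a c * (∏ l ∈ S, a l - ∏ l ∈ S, b l)| ≤ 2 * (2 ^ S.card * ∑ l ∈ S, |a l - b l|) := by
      rw [abs_mul]
      exact mul_le_mul (ha c) ih (abs_nonneg _) (by norm_num)
    have h3 : |(a c - b c) * ∏ l ∈ S, b l| ≤ |a c - b c| * 2 ^ S.card := by
      rw [abs_mul]
      exact mul_le_mul_of_nonneg_left (hB S) (abs_nonneg _)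
    have h4 : 0 ≤ |a c - b c| * 2 ^ S.card := by positivity
    calc |a c * (∏ l ∈ S, a l - ∏ l ∈ S, b l) + (a c - b c) * ∏ l ∈ S, b l|
        ≤ |a c * (∏ l ∈ S, a l - ∏ l ∈ S, b l)| + |(a c - b c) * ∏ l ∈ S, b l| := abs_add_le _ _
      _ ≤ 2 * (2 ^ S.card * ∑ l ∈ S, |a l - b l|) + |a c - b c| * 2 ^ S.card := add_le_add h2 h3
      _ ≤ 2 ^ (S.card + 1) * (|a c - b c| + ∑ l ∈ S, |a l - b l|) := by
          rw [pow_succ]
          nlinarith

theorem pdw0 : S_WONE → S_WIN → ∀ {Ω : Type} [MeasurableSpace Ω] (μ : Measure Ω) (T : Ω → Ω)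
  (x r : ℤ → Ω → ℝ) (A : ℝ) (g : ℤ → Ω → ℝ), Stat μ T x → Cor μ T x r → Lims μ r A g →
  ∀ (s : ℕ) (k : Fin s → ℤ),
    (∀ m : ℤ, Tendsto (fun H : ℕ => ∫ ω, ∏ l, co (fun n => x n ω) H (m * k l) ∂μ) atTop
      (𝓝 ((2 / 3) ^ s * ∫ ω, ∏ l, g (m * k l) ω ∂μ))) ∧
    PDN (fun m : ℕ => ∫ ω, ∏ l, g (m * k l) ω ∂μ) := by
  intro _ hwin Ω _ μ T x r A g hS hC hL s k
  have := hS.prob
  have hcom : ∀ (H : ℕ) (j : ℤ), Measurable (fun ω => co (fun n => x n ω) H j) :=
    fun H j => co_meas x hS.meas H j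
  have hcob : ∀ (H : ℕ) (j : ℤ) (ω : Ω), |co (fun n => x n ω) H j| ≤ 2 :=
    fun H j ω => co_bd _ (fun n => hS.bd n ω) H j
  have hgb : ∀ (j : ℤ) (ω : Ω), |(2 / 3 : ℝ) * g j ω| ≤ 2 := by
    intro j ω
    rw [abs_mul, abs_of_pos (by norm_num : (0 : ℝ) < 2 / 3)]
    have := hL.bd j ω
    linarith
  have hPi : ∀ (H : ℕ) (q : Fin s → ℤ), Integrable (fun ω => ∏ l, co (fun n => x n ω) H (q l)) μ := by
    intro H q
    refine Integrable.of_bound (C := 2 ^ s)
      (Finset.measurable_fun_prod _ fun l _ => hcom H (q l)).aestronglyMeasurable (ae_of_all _ fun ω => ?_)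
    rw [Real.norm_eq_abs, Finset.abs_prod]
    calc ∏ l, |co (fun n => x n ω) H (q l)| ≤ ∏ l : Fin s, (2 : ℝ) :=
          Finset.prod_le_prod (fun l _ => abs_nonneg _) (fun l _ => hcob H (q l) ω)
      _ = 2 ^ s := by simp
  have hGi : ∀ (q : Fin s → ℤ), Integrable (fun ω => ∏ l, ((2 / 3 : ℝ) * g (q l) ω)) μ := by
    intro q
    refine Integrable.of_bound (C := 2 ^ s)
      (Finset.measurable_fun_prod _ fun l _ => (hL.meas (q l)).const_mul _).aestronglyMeasurable
      (ae_of_all _ fun ω => ?_)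
    rw [Real.norm_eq_abs, Finset.abs_prod]
    calc ∏ l, |(2 / 3 : ℝ) * g (q l) ω| ≤ ∏ l : Fin s, (2 : ℝ) :=
          Finset.prod_le_prod (fun l _ => abs_nonneg _) (fun l _ => hgb (q l) ω)
      _ = 2 ^ s := by simp
  have hDi : ∀ (H : ℕ) (j : ℤ), Integrable (fun ω => |co (fun n => x n ω) H j - (2 / 3) * g j ω|) μ := by
    intro H j
    refine Integrable.of_bound (C := 4)
      (((hcom H j).sub ((hL.meas j).const_mul _)).abs).aestronglyMeasurable (ae_of_all _ fun ω => ?_)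
    rw [Real.norm_eq_abs, abs_abs]
    have h1 := abs_sub (co (fun n => x n ω) H j) ((2 / 3) * g j ω)
    have h2 := hcob H j ω
    have h3 := hgb j ω
    linarith
  have hlim : ∀ q : Fin s → ℤ, Tendsto (fun H : ℕ => ∫ ω, ∏ l, co (fun n => x n ω) H (q l) ∂μ) atTop
      (𝓝 ((2 / 3) ^ s * ∫ ω, ∏ l, g (q l) ω ∂μ)) := by
    intro q
    have e1 : (2 / 3 : ℝ) ^ s * ∫ ω, ∏ l, g (q l) ω ∂μ = ∫ ω, ∏ l, ((2 / 3 : ℝ) * g (q l) ω) ∂μ := by
      rw [← integral_const_mul]
      congr 1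
      ext ω
      rw [Finset.prod_mul_distrib, Finset.prod_const, Finset.card_univ, Fintype.card_fin]
    rw [e1, tendsto_iff_dist_tendsto_zero]
    have h0 : Tendsto (fun H : ℕ => (2 : ℝ) ^ s * ∑ l,
        ∫ ω, |co (fun n => x n ω) H (q l) - (2 / 3) * g (q l) ω| ∂μ) atTop (𝓝 0) := by
      have h1 : Tendsto (fun H : ℕ => (2 : ℝ) ^ s * ∑ l,
        ∫ ω, |co (fun n => x n ω) H (q l) - (2 / 3) * g (q l) ω| ∂μ) atTop
          (𝓝 ((2 : ℝ) ^ s * ∑ l : Fin s, (0 : ℝ))) :=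
        (tendsto_finsetSum _ fun l _ => hwin μ T x r A g hS hC hL (q l)).const_mul _
      simpa using h1
    refine squeeze_zero (fun H => dist_nonneg) (fun H => ?_) h0
    rw [Real.dist_eq, ← integral_sub (hPi H q) (hGi q)]
    calc |∫ ω, (∏ l, co (fun n => x n ω) H (q l) - ∏ l, ((2 / 3 : ℝ) * g (q l) ω)) ∂μ|
        ≤ ∫ ω, |∏ l, co (fun n => x n ω) H (q l) - ∏ l, ((2 / 3 : ℝ) * g (q l) ω)| ∂μ :=
          abs_integral_le_integral_abs
      _ ≤ ∫ ω, 2 ^ s * ∑ l, |co (fun n => x n ω) H (q l) - (2 / 3) * g (q l) ω| ∂μ := by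
          refine integral_mono ((hPi H q).sub (hGi q)).abs
            ((integrable_finsetSum _ fun l _ => hDi H (q l)).const_mul _) fun ω => ?_
          have h1 := prod_diff (Finset.univ : Finset (Fin s)) (fun l => co (fun n => x n ω) H (q l))
            (fun l => (2 / 3 : ℝ) * g (q l) ω) (fun l => hcob H (q l) ω) (fun l => hgb (q l) ω)
          simpa using h1
      _ = 2 ^ s * ∑ l, ∫ ω, |co (fun n => x n ω) H (q l) - (2 / 3) * g (q l) ω| ∂μ := by
          rw [integral_const_mul, integral_finsetSum _ fun l _ => hDi H (q l)]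
  refine ⟨fun m => hlim fun l => m * k l, ?_⟩
  intro N v
  have h23 : (0 : ℝ) < (2 / 3) ^ s := by positivity
  have hnn : 0 ≤ (2 / 3 : ℝ) ^ s * ∑ j ∈ range N, ∑ i ∈ range N,
      v j * v i * ∫ ω, ∏ l, g ((((j : ℤ) - i).natAbs : ℤ) * k l) ω ∂μ := by
    have hT : Tendsto (fun H : ℕ => ∑ j ∈ range N, ∑ i ∈ range N,
        v j * v i * ∫ ω, ∏ l, co (fun n => x n ω) H ((((j : ℤ) - i).natAbs : ℤ) * k l) ∂μ) atTop
        (𝓝 (∑ j ∈ range N, ∑ i ∈ range N,
          v j * v i * ((2 / 3) ^ s * ∫ ω, ∏ l, g ((((j : ℤ) - i).natAbs : ℤ) * k l) ω ∂μ))) :=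
      tendsto_finsetSum _ fun j _ => tendsto_finsetSum _ fun i _ =>
        (hlim fun l => (((j : ℤ) - i).natAbs : ℤ) * k l).const_mul _
    have e2 : (∑ j ∈ range N, ∑ i ∈ range N,
          v j * v i * ((2 / 3 : ℝ) ^ s * ∫ ω, ∏ l, g ((((j : ℤ) - i).natAbs : ℤ) * k l) ω ∂μ)) =
        (2 / 3 : ℝ) ^ s * ∑ j ∈ range N, ∑ i ∈ range N,
      v j * v i * ∫ ω, ∏ l, g ((((j : ℤ) - i).natAbs : ℤ) * k l) ω ∂μ := by
      rw [Finset.mul_sum]
      refine Finset.sum_congr rfl fun j _ => ?_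
      rw [Finset.mul_sum]
      refine Finset.sum_congr rfl fun i _ => ?_
      ring
    rw [← e2]
    refine ge_of_tendsto' hT fun H => ?_
    -- evenness
    have hev : ∀ (j i : ℕ) (ω : Ω), ∏ l, co (fun n => x n ω) H ((((j : ℤ) - i).natAbs : ℤ) * k l) =
        ∏ l, co (fun n => x n ω) H ((j : ℤ) * k l - (i : ℤ) * k l) := by
      intro j i ω
      refine Finset.prod_congr rfl fun l _ => ?_
      rw [← sub_mul]
      rcases Int.natAbs_eq ((j : ℤ) - i) with h | h
      · rw [← h]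
      · have h' : (((j : ℤ) - i).natAbs : ℤ) = -((j : ℤ) - i) := by omega
        rw [h', neg_mul, co_neg]
    simp_rw [hev]
    have hint : ∀ j i : ℕ, Integrable (fun ω => v j * v i *
        ∏ l, co (fun n => x n ω) H ((j : ℤ) * k l - (i : ℤ) * k l)) μ := fun j i =>
      (hPi H fun l => (j : ℤ) * k l - (i : ℤ) * k l).const_mul _
    have e3 : ∑ j ∈ range N, ∑ i ∈ range N,
        v j * v i * ∫ ω, ∏ l, co (fun n => x n ω) H ((j : ℤ) * k l - (i : ℤ) * k l) ∂μ =
        ∫ ω, ∑ j ∈ range N, ∑ i ∈ range N,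
          v j * v i * ∏ l, co (fun n => x n ω) H ((j : ℤ) * k l - (i : ℤ) * k l) ∂μ := by
      rw [integral_finsetSum _ fun j _ => integrable_finsetSum _ fun i _ => hint j i]
      refine Finset.sum_congr rfl fun j _ => ?_
      rw [integral_finsetSum _ fun i _ => hint j i]
      refine Finset.sum_congr rfl fun i _ => ?_
      rw [integral_const_mul]
    rw [e3]
    refine integral_nonneg fun ω => ?_
    have hP := prod_psd (Finset.univ : Finset (Fin s))
      (fun l => Matrix.of fun (j i : Fin N) =>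
        co (fun n => x n ω) H (((j : ℕ) : ℤ) * k l - ((i : ℕ) : ℤ) * k l))
      (fun l _ => co_psd (fun n => x n ω) H (fun j : Fin N => ((j : ℕ) : ℤ) * k l))
    have h5 := (Matrix.posSemidef_iff_dotProduct_mulVec.mp hP).2 (fun j : Fin N => v j)
    simp only [dotProduct, Matrix.mulVec, Matrix.of_apply, star_trivial, Pi.star_apply] at h5
    have e4 : ∑ j ∈ range N, ∑ i ∈ range N,
          v j * v i * ∏ l, co (fun n => x n ω) H ((j : ℤ) * k l - (i : ℤ) * k l) =
        ∑ j : Fin N, v j * ∑ i : Fin N,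
          (∏ l, co (fun n => x n ω) H (((j : ℕ) : ℤ) * k l - ((i : ℕ) : ℤ) * k l)) * v i := by
      rw [Finset.sum_range]
      refine Finset.sum_congr rfl fun j _ => ?_
      rw [Finset.sum_range, Finset.mul_sum]
      refine Finset.sum_congr rfl fun i _ => ?_
      ring
    show (0 : ℝ) ≤ _
    rw [e4]
    exact h5
  exact nonneg_of_mul_nonneg_right hnn h23

end Pool.Agent.K9h47.JL.Pdw0
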