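import Pool.Agent.K9h47.JL.Stm2
import Pool.Agent.K9h47.JL.Pdw0

/-!
# Leaf PDW of the joint law project (helper32)
-/

set_option autoImplicit false

namespace Pool.Agent.K9h47.JL

theorem pdw : S_PDW := Pdw0.pdw0

end Pool.Agent.K9h47.JL
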