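import Mathlib

/-!
# Joint law of the local frequencies: statements of the leaves (helper47)

Goal (problem MP_4a7640_nt, hard). Let `μ` be a Furstenberg system of a multiplicative function with values
`1` and `-1`, `F_H(x, α) = (1/H) ∑_{0 ≤ h < H} x(h) e(h α)` the local Fourier transform. Draw `s` frequencies
`α_1, ..., α_s` at the same point `x` with the densities `H |F_H(x, α_i)|^4`. For every integer vector `k` the law of
`k_1 α_1 + ... + k_s α_s` tends to `κ` times Lebesgue measure plus point masses at RATIONAL points.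

Notation: `x n` (`n` an integer) a stationary bounded sequence, `r n` the conditional two point correlation
`E(x_0 x_n | invariant sets)`, `a n = ∫ (r n)^2`, `G` the averages of `r_n r_(n+j)` over differences `n = u_i - v_k`,
`g j` their limit. Each `S_...` is one leaf; all leaves are Mathlib only unless said otherwise.
File of the leaf NAME: `Pool/Agent/K9h47/JL/Name.lean`, theorem `name : S_NAME` in the namespace below.
-/

set_option autoImplicit false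

open MeasureTheory Filter Topology Finset

namespace Pool.Agent.K9h47.JL

section dyn

variable {Ω : Type} [MeasurableSpace Ω]

/-- a stationary sequence bounded by one -/
structure Stat (μ : Measure Ω) (T : Ω → Ω) (x : ℤ → Ω → ℝ) : Prop where
  prob : IsProbabilityMeasure μ
  mp : MeasurePreserving T μ μ
  meas : ∀ n, Measurable (x n)
  bd : ∀ n ω, |x n ω| ≤ 1
  next : ∀ n ω, x (n + 1) ω = x n (T ω)

/-- `r n` is the limit in `L^2` of the averages of `x_m x_(m+n)` -/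
structure Cor (μ : Measure Ω) (T : Ω → Ω) (x r : ℤ → Ω → ℝ) : Prop where
  meas : ∀ n, Measurable (r n)
  bd : ∀ n ω, |r n ω| ≤ 1
  even : ∀ n ω, r (-n) ω = r n ω
  inv : ∀ n, ∀ᵐ ω ∂μ, r n (T ω) = r n ω
  lim : ∀ s t : ℤ, Tendsto (fun M : ℕ => ∫ ω, ((1 / (M : ℝ)) *
    ∑ m ∈ range M, x (m + s) ω * x (m + t) ω - r (s - t) ω) ^ 2 ∂μ) atTop (𝓝 0)

/-- the mean square of `r n` -/
noncomputable def aa (μ : Measure Ω) (r : ℤ → Ω → ℝ) (n : ℤ) : ℝ := ∫ ω, r n ω ^ 2 ∂μ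

/-- averages of `r_n r_(n + j)` over the differences `n = u i - v k`, `i < N`, `k < K` -/
noncomputable def G (r : ℤ → Ω → ℝ) (u v : ℕ → ℤ) (N K : ℕ) (j : ℤ) (ω : Ω) : ℝ :=
  (1 / ((N : ℝ) * K)) * ∑ i ∈ range N, ∑ k ∈ range K, r (u i - v k) ω * r (u i - v k + j) ω

/-- the progression `0, p, 2 p, ...` -/
def pr (p : ℕ) (i : ℕ) : ℤ := (p : ℤ) * (i : ℤ)

/-- the average of `x_(p m) x_(p m + p n)` over `m < M` -/
noncomputable def Av (x : ℤ → Ω → ℝ) (p M : ℕ) (n : ℤ) (ω : Ω) : ℝ :=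
  (1 / (M : ℝ)) * ∑ m ∈ range M, x (p * m) ω * x (p * m + p * n) ω

end dyn

/-- averages of a sequence of numbers over the differences `u i - v k` -/
noncomputable def al (a : ℤ → ℝ) (u v : ℕ → ℤ) (N K : ℕ) : ℝ :=
  (1 / ((N : ℝ) * K)) * ∑ i ∈ range N, ∑ k ∈ range K, a (u i - v k)

/-- LEAF RN. Existence of the conditional correlations. Proof: `U f = f ∘ T` is an isometry of `L²(μ)`; for
`y = x_0 x_n` (bounded) the averages of `U^m y` converge in `L²` to the projection `P y` to the invariant functions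
(Mathlib `ContinuousLinearMap.tendsto_birkhoffAverage_orthogonalProjection`); take a measurable representative cut
off to `[-1, 1]` for `n ≥ 0` and `r (-n) = r n`. `lim` for general `s`, `t`: shift by `T` (if `t = s + n`,
`s ≥ 0`: apply `U^s`, which fixes `P y` a.e.; if `s < 0` use that the average for `s` composed with `T^(-s)` is the
average for `0` and that `T` preserves `μ`). -/
def S_RN : Prop := ∀ {Ω : Type} [MeasurableSpace Ω] (μ : Measure Ω) (T : Ω → Ω) (x : ℤ → Ω → ℝ), Stat μ T x →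
  ∃ r : ℤ → Ω → ℝ, Cor μ T x r

/-- LEAF KER (Cauchy-Schwarz for the kernel). Proof: `r_(s-t) r_(s-t+j)` is the limit (`Cor.lim`, everything bounded)
of the double average over `m, m' < M` of `φ_s ψ_t` with `φ_s = x_(m+s) x_(m'+s+j)`, `ψ_t = x_(m+t) x_(m'+t)`
(the first average, over `m`, tends to `r_(s-t)`, the second, over `m'`, to `r_(s+j-t)`); so the integral is the limit of
the averages of `∫ b (∑ c_s φ_s) (∑ d_t ψ_t) ≤ (∫ (∑ c_s φ_s)²)^(1/2) (∫ (∑ d_t ψ_t)²)^(1/2)`; Cauchy-Schwarz for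
the average over `m, m'`; and the averages of `∫ (∑ c_s φ_s)²` tend to `∑∑ c_s c_s' a(s - s')`, as do those for `ψ`
(`∫ r_(s-s') r_(s-s') = a (s - s')`). The second part is what this shows for `c`. -/
def S_KER : Prop := ∀ {Ω : Type} [MeasurableSpace Ω] (μ : Measure Ω) (T : Ω → Ω) (x r : ℤ → Ω → ℝ), Stat μ T x →
  Cor μ T x r → ∀ {ι κ : Type} [Fintype ι] [Fintype κ] (s : ι → ℤ) (t : κ → ℤ) (c : ι → ℝ) (d : κ → ℝ),
  (∀ (j : ℤ) (b : Ω → ℝ), Measurable b → (∀ ω, |b ω| ≤ 1) →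
    (∫ ω, b ω * ∑ i, ∑ k, c i * d k * (r (s i - t k) ω * r (s i - t k + j) ω) ∂μ) ^ 2 ≤
      (∑ i, ∑ i', c i * c i' * aa μ r (s i - s i')) * (∑ k, ∑ k', d k * d k' * aa μ r (t k - t k'))) ∧
  0 ≤ ∑ i, ∑ i', c i * c i' * aa μ r (s i - s i')

/-- LEAF CMP (from KER, with the index type `Fin N ⊕ Fin N'`, weights `1/N` and `-1/N'`, `b` = the sign of the
difference, and `al (aa μ r) v v K K ≤ 1`). -/
def S_CMP : Prop := ∀ {Ω : Type} [MeasurableSpace Ω] (μ : Measure Ω) (T : Ω → Ω) (x r : ℤ → Ω → ℝ), Stat μ T x →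
  Cor μ T x r → ∀ (u u' v : ℕ → ℤ) (N N' K : ℕ) (j : ℤ), 1 ≤ N → 1 ≤ N' → 1 ≤ K →
  (∫ ω, |G r u v N K j ω - G r u' v N' K j ω| ∂μ ≤
    √(al (aa μ r) u u N N - 2 * al (aa μ r) u u' N N' + al (aa μ r) u' u' N' N')) ∧
  (∫ ω, |G r v u K N j ω - G r v u' K N' j ω| ∂μ ≤
    √(al (aa μ r) u u N N - 2 * al (aa μ r) u u' N N' + al (aa μ r) u' u' N' N'))

/-- positive definite even bounded sequences -/
def PDZ (a : ℤ → ℝ) : Prop := (∀ n, a (-n) = a n) ∧ (∀ n, |a n| ≤ 1) ∧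
  ∀ (n : ℕ) (s : Fin n → ℤ) (c : Fin n → ℝ), 0 ≤ ∑ i, ∑ k, c i * c k * a (s i - s k)

/-- LEAF MEAN (the mean of a positive definite sequence). Proof: the starting file `Pool/Agent/H514R3/Herg.lean`
(`Pool.Agent.H514R3.herglotz`, import it) gives a finite measure `σ` on `[0, π]` with `a m = ∫ cos (m θ) dσ`;
`A = σ {0}`; `al a (pr p) (pr p) N N = ∫ |(1/N) ∑_{i<N} e^{i p i θ}|² dσ ≥ σ {0}`; the limits by dominated convergence
(geometric sums; for `0 < θ ≤ π` the averages tend to `0`). -/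
def S_MEAN : Prop := ∀ a : ℤ → ℝ, PDZ a → ∃ A : ℝ, 0 ≤ A ∧
  (∀ p N : ℕ, 1 ≤ p → 1 ≤ N → A ≤ al a (pr p) (pr p) N N) ∧
  Tendsto (fun q : ℕ × ℕ => al a (pr 1) (pr 1) q.1 q.2) atTop (𝓝 A) ∧
  (∀ p N : ℕ, 1 ≤ p → 1 ≤ N → Tendsto (fun L : ℕ => al a (pr p) (pr 1) N L) atTop (𝓝 A)) ∧
  Tendsto (fun H : ℕ => (1 / (2 * (H : ℝ))) * ∑ n ∈ Ioo (-(H : ℤ)) H, a n) atTop (𝓝 A)

/-- the data of the limits -/
structure Lims {Ω : Type} [MeasurableSpace Ω] (μ : Measure Ω) (r : ℤ → Ω → ℝ) (A : ℝ) (g : ℤ → Ω → ℝ) : Prop where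
  A0 : 0 ≤ A
  low : ∀ p N : ℕ, 1 ≤ p → 1 ≤ N → A ≤ al (aa μ r) (pr p) (pr p) N N
  tend : Tendsto (fun N : ℕ => al (aa μ r) (pr 1) (pr 1) N N) atTop (𝓝 A)
  flat : Tendsto (fun H : ℕ => (1 / (2 * (H : ℝ))) * ∑ n ∈ Ioo (-(H : ℤ)) H, aa μ r n) atTop (𝓝 A)
  meas : ∀ j, Measurable (g j)
  bd : ∀ j ω, |g j ω| ≤ 1
  lim : ∀ j, Tendsto (fun N : ℕ => ∫ ω, |G r (pr 1) (pr 1) N N j ω - g j ω| ∂μ) atTop (𝓝 0)
  cmp : ∀ (p N : ℕ) (j : ℤ), 1 ≤ p → 1 ≤ N →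
    ∫ ω, |G r (pr p) (pr p) N N (p * j) ω - g (p * j) ω| ∂μ ≤
      2 * √(al (aa μ r) (pr p) (pr p) N N - A)

/-- LEAF LIMG (from CMP, MEAN and `PDZ (aa μ r)`, which is the last part of KER). `G N N` is a Cauchy sequence in
`L¹`: compare `G N N` with `G N N'` and with `G N' N'` by CMP; the square roots tend to `√(A - 2A + A) = 0`. `g j` is the
limit, cut off to `[-1, 1]`. For `cmp` compare `G (pr p) (pr p) N N` with `G (pr p) (pr 1) N L` and this with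
`G (pr 1) (pr 1) L L`, and let `L → ∞`: both square roots tend to `√(al .. (pr p) (pr p) N N - 2 A + A)`. -/
def S_LIMG : Prop := ∀ {Ω : Type} [MeasurableSpace Ω] (μ : Measure Ω) (T : Ω → Ω) (x r : ℤ → Ω → ℝ), Stat μ T x →
  Cor μ T x r → ∃ (A : ℝ) (g : ℤ → Ω → ℝ), Lims μ r A g

/-- LEAF CTWO (from `Stat`, `Cor` only). `∫ x_s x_t r_n = ∫ r_(s-t) r_n` for all `s, t, n` (invariance of `r_n` and of
`μ`, then `Cor.lim`), so `∫ Av * r_(p n) = a (p n)`. -/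
def S_CTWO : Prop := ∀ {Ω : Type} [MeasurableSpace Ω] (μ : Measure Ω) (T : Ω → Ω) (x r : ℤ → Ω → ℝ), Stat μ T x →
  Cor μ T x r → ∀ (p M : ℕ) (n : ℤ), 1 ≤ p → 1 ≤ M →
  ∫ ω, (Av x p M n ω - r (p * n) ω) ^ 2 ∂μ = ∫ ω, Av x p M n ω ^ 2 ∂μ - aa μ r (p * n)

/-- the primes of a dyadic interval -/
def Pr (i : ℕ) : Finset ℕ := (Ioc (2 ^ i) (2 ^ (i + 1))).filter Nat.Prime

/-- the dilation property: at infinitely many scales, on average over the primes of the scale, the correlations do not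
change if all the places are multiplied by `p` -/
def Dil {Ω : Type} [MeasurableSpace Ω] (μ : Measure Ω) (x : ℤ → Ω → ℝ) : Prop :=
  ∀ (D B : ℕ) (ε : ℝ), 0 < ε → ∀ i₁ : ℕ, ∃ i : ℕ, i₁ ≤ i ∧ ∀ d ≤ D, ∀ h : Fin (2 * d) → ℤ, (∀ l, |h l| ≤ B) →
    ∑ p ∈ Pr i, Real.log p / 2 ^ i * |∫ ω, ∏ l, x (p * h l) ω ∂μ - ∫ ω, ∏ l, x (h l) ω ∂μ| ≤ ε

/-- even polynomial functions of a sequence, degree `2 d`, places at most `B` -/
def Pol (d B : ℕ) : Set ((ℤ → ℝ) → ℝ) := {Φ | ∃ (n : ℕ) (q : Fin n → ℝ) (h : Fin n → Fin (2 * d) → ℤ),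
  ∑ i, |q i| ≤ 1 ∧ (∀ i l, |h i l| ≤ B) ∧ ∀ y, Φ y = ∑ i, q i * ∏ l, y (h i l)}

/-- LEAF POL: closure properties of `Pol`, and the dilation property for `Pol` (same scale for all; only
`Σ |q| ≤ 1` and the triangle inequality are used). -/
def S_POL : Prop :=
  (∀ (d B : ℕ) (h h' : ℤ), 1 ≤ d → |h| ≤ B → |h'| ≤ B → (fun y : ℤ → ℝ => y h * y h') ∈ Pol 1 B) ∧
  (∀ (d d' B : ℕ) (Φ Ψ : (ℤ → ℝ) → ℝ), Φ ∈ Pol d B → Ψ ∈ Pol d' B → (fun y => Φ y * Ψ y) ∈ Pol (d + d') B) ∧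
  (∀ (d B N : ℕ) (Φ : ℕ → (ℤ → ℝ) → ℝ), (∀ i < N, Φ i ∈ Pol d B) →
    (fun y => (1 / (N : ℝ)) * ∑ i ∈ range N, Φ i y) ∈ Pol d B) ∧
  (∀ (d B s : ℕ) (Φ : Fin s → (ℤ → ℝ) → ℝ), (∀ i, Φ i ∈ Pol d B) → (fun y => ∏ i, Φ i y) ∈ Pol (s * d) B) ∧
  (∀ {Ω : Type} [MeasurableSpace Ω] (μ : Measure Ω) (T : Ω → Ω) (x : ℤ → Ω → ℝ), Stat μ T x → Dil μ x →
    ∀ (D B : ℕ) (ε : ℝ), 0 < ε → ∀ i₁ : ℕ, ∃ i : ℕ, i₁ ≤ i ∧ ∀ d ≤ D, ∀ Φ ∈ Pol d B,
      ∑ p ∈ Pr i, Real.log p / 2 ^ i *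
        |∫ ω, Φ (fun n => x (p * n) ω) ∂μ - ∫ ω, Φ (fun n => x n ω) ∂μ| ≤ ε)

/-- LEAF WT: Chebyshev; starting file `Pool/Agent/Y956/CB/...` has `QDw_le` (`Pr i` is
`Pool.Agent.TH575.CW.QD i (i + 1)`). -/
def S_WT : Prop := ∀ i : ℕ, ∑ p ∈ Pr i, Real.log p / 2 ^ i ≤ 3

/-- LEAF DILC (assembly, helper47): the law of the frequencies is invariant under dilation, on average. -/
def S_DILC : Prop := ∀ {Ω : Type} [MeasurableSpace Ω] (μ : Measure Ω) (T : Ω → Ω) (x r : ℤ → Ω → ℝ) (A : ℝ)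
  (g : ℤ → Ω → ℝ), Stat μ T x → Cor μ T x r → Lims μ r A g → Dil μ x → ∀ (s : ℕ) (j : Fin s → ℤ) (ε : ℝ), 0 < ε →
  ∀ i₁ : ℕ, ∃ i : ℕ, i₁ ≤ i ∧
    ∑ p ∈ Pr i, Real.log p / 2 ^ i * |∫ ω, ∏ l, g (p * j l) ω ∂μ - ∫ ω, ∏ l, g (j l) ω ∂μ| ≤ ε

/-! ### Windows -/

/-- the autocorrelation of a window: `(1/H) ∑ y_m y_(m+n)` over `0 ≤ m < H`, `0 ≤ m + n < H` -/
noncomputable def R (y : ℤ → ℝ) (H : ℕ) (n : ℤ) : ℝ :=
  (1 / (H : ℝ)) * ∑ m ∈ (Ico (0 : ℤ) H).filter (fun m => 0 ≤ m + n ∧ m + n < H), y m * y (m + n)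

/-- the Fourier coefficient `j` of the measure with the density `H |F_H|^4` -/
noncomputable def co (y : ℤ → ℝ) (H : ℕ) (j : ℤ) : ℝ :=
  (1 / (H : ℝ)) * ∑ n ∈ Ioo (-(H : ℤ)) H, R y H n * R y H (n + j)

/-- the local Fourier transform -/
noncomputable def FF (y : ℤ → ℝ) (H : ℕ) (α : UnitAddCircle) : ℂ :=
  (∑ h ∈ range H, ((y (h : ℤ) : ℝ) : ℂ) * fourier (h : ℤ) α) / H

/-- LEAF WONE: `|F_H|² = (1/H) ∑_n R_n e(n α)` (a finite identity), and Parseval: `R` vanishes for `|n| ≥ H`, `R` is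
even. -/
def S_WONE : Prop := ∀ (y : ℤ → ℝ) (H : ℕ) (j : ℤ), 1 ≤ H →
  (H : ℂ) * ∫ α : UnitAddCircle, fourier j α * ((‖FF y H α‖ ^ 4 : ℝ) : ℂ) = (co y H j : ℂ)

/-- LEAF WTWO: `R_n` is close to `(1 - |n|/H) r_n` on average over `|n| < H`.
Proof. For `0 ≤ n < H`: `R_n = ((H-n)/H) A_n`, `A_n` = the average of `x_m x_(m+n)` over `m < H - n`
(negative `n`: `R` is even). By CTWO with `p = 1`: `‖A_n - r_n‖₂² = ‖A_n‖₂² - a(n)`. Fix `δ > 0`, `M₀`. The terms with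
`H - n ≤ δ H` contribute at most `2 δ`·const. For `M = H - n ≥ δ H` one has `‖A_n‖₂ ≤ ‖(average over M₀)‖₂ + 2 M₀ / M`
(split `M` into blocks of length `M₀` and use stationarity). The mean over `|n| < H` of
`‖(1/M₀) ∑_{m<M₀} x_m x_(m+n)‖₂² = (1/M₀²) ∑_{m,m'<M₀} ∫ (x_m x_m') (x_(m+n) x_(m'+n))` tends for `H → ∞` to
`(1/M₀²) ∑_{m,m'} a(m - m')` (`Cor.lim` with `s = m`, `t = m'`, and CTWO's `∫ x_m x_m' r = a`), which tends to `A` as
`M₀ → ∞` (`Lims.tend`); and the mean over `|n| < H` of `a(n)` tends to `A` (`Lims.flat`). Use Cauchy-Schwarz to pass from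
squares to absolute values. -/
def S_WTWO : Prop := ∀ {Ω : Type} [MeasurableSpace Ω] (μ : Measure Ω) (T : Ω → Ω) (x r : ℤ → Ω → ℝ) (A : ℝ)
  (g : ℤ → Ω → ℝ), Stat μ T x → Cor μ T x r → Lims μ r A g →
  Tendsto (fun H : ℕ => (1 / (H : ℝ)) * ∑ n ∈ Ioo (-(H : ℤ)) H,
    ∫ ω, |R (fun k => x k ω) H n - (1 - |(n : ℝ)| / H) * r n ω| ∂μ) atTop (𝓝 0)

/-- LEAF WTHR: for all bounded sequences of functions. Identity for `0 ≤ n < H`:
`(H - n) (H - n + 1) = 2 ∑_{N=1}^{H} (N - n)_+`, so that the average with the weights `(1 - |n|/H)²` is, up to `O(1/H)`,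
`(2/H³) ∑_{N ≤ H} N² G_N`, `G_N = G r (pr 1) (pr 1) N N j = (1/N²) ∑_{|n|<N} (N - |n|) r_n r_(n+j)`, and it tends to
`(2/3) g` in `L¹` as `G_N` tends to `g`. -/
def S_WTHR : Prop := ∀ {Ω : Type} [MeasurableSpace Ω] (μ : Measure Ω) [IsProbabilityMeasure μ] (r : ℤ → Ω → ℝ)
  (g : Ω → ℝ) (j : ℤ), (∀ n, Measurable (r n)) → (∀ n ω, |r n ω| ≤ 1) → Measurable g → (∀ ω, |g ω| ≤ 1) →
  Tendsto (fun N : ℕ => ∫ ω, |G r (pr 1) (pr 1) N N j ω - g ω| ∂μ) atTop (𝓝 0) →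
  Tendsto (fun H : ℕ => ∫ ω, |(1 / (H : ℝ)) * ∑ n ∈ Ioo (-(H : ℤ)) H,
    (1 - |(n : ℝ)| / H) ^ 2 * (r n ω * r (n + j) ω) - (2 / 3) * g ω| ∂μ) atTop (𝓝 0)

/-- LEAF WIN (from WTWO and WTHR): replace `R_n` by `(1 - |n|/H) r_n` and `R_(n+j)` by `(1 - |n+j|/H)_+ r_(n+j)`
(`R` vanishes for `|n| ≥ H`), up to `O(|j|/H)`. -/
def S_WIN : Prop := ∀ {Ω : Type} [MeasurableSpace Ω] (μ : Measure Ω) (T : Ω → Ω) (x r : ℤ → Ω → ℝ) (A : ℝ)
  (g : ℤ → Ω → ℝ), Stat μ T x → Cor μ T x r → Lims μ r A g → ∀ j : ℤ,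
  Tendsto (fun H : ℕ => ∫ ω, |co (fun k => x k ω) H j - (2 / 3) * g j ω| ∂μ) atTop (𝓝 0)

/-! ### Numbers -/

/-- LEAF VIN: Vinogradov's theorem for irrational `θ` (dyadic intervals, weights `log p / 2^i`). Search the starting
files for Vaughan / minor arcs (`Pool/Agent/H373R2/T7/Vau.lean`: `vaughan_gen`; other prime exponential sums). -/
def S_VIN : Prop := ∀ θ : ℝ, Irrational θ →
  Tendsto (fun i : ℕ => ‖∑ p ∈ Pr i, ((Real.log p / 2 ^ i : ℝ) : ℂ) * Complex.exp (2 * Real.pi * Complex.I * (p * θ))‖)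
    atTop (𝓝 0)

/-- LEAF APQ: primes congruent to one (from VIN by additive characters modulo `q`; and the prime number theorem in
progressions, `Pool.Agent.H379R2.SW.siegelWalfisz`, `Pool/Agent/Lib/helper27/WPNT.lean` `weak_pnt_ap`, ..., or Mertens for
progressions in all dyadic intervals). -/
def S_APQ : Prop := S_VIN → ∀ q : ℕ, 1 ≤ q →
  (∀ θ : ℝ, Irrational θ → Tendsto (fun i : ℕ => ∑ p ∈ (Pr i).filter (fun p => p % q = 1 % q),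
    Real.log p / 2 ^ i * Real.cos (2 * Real.pi * (p * θ))) atTop (𝓝 0)) ∧
  ∃ δ : ℝ, 0 < δ ∧ ∀ᶠ i : ℕ in atTop, δ ≤ ∑ p ∈ (Pr i).filter (fun p => p % q = 1 % q), Real.log p / 2 ^ i

/-- positive definite sequences, as in `Pool/Agent/H514R3/Herg.lean` -/
def PDN (c : ℕ → ℝ) : Prop :=
  ∀ (N : ℕ) (v : ℕ → ℝ), 0 ≤ ∑ j ∈ range N, ∑ k ∈ range N, v j * v k * c ((j : ℤ) - k).natAbs

/-- LEAF NT. Proof: `Pool.Agent.H514R3.herglotz` gives a finite measure `σ` on `[0, π]` with `c m = ∫ cos (m θ) dσ(θ)`.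
Let `q = Q!`, `m ≥ 1`. At the scales `i` of the hypothesis, averaging over `p ≡ 1 (q)` (weights at least `δ(q)` by APQ),
`c m` is the limit of `∫ (average over p ≡ 1 (q) of cos (p m θ)) dσ`. If `θ/(2π)` is irrational the inner average
tends to `0` (APQ with `m θ / 2π`); if `θ / (2π)` is rational with denominator dividing `q` it is `cos (m θ)`; the
remaining rational points have small `σ`-measure for large `Q`. So `c m = ∑ over rational t = θ/2π of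
σ{θ} cos (2 π m t)`, with `t` in `[0, 1/2]`. Put half of the mass of `0 < t < 1/2` at `1 - t`. -/
def S_NT : Prop := S_VIN → S_APQ → S_WT → ∀ c : ℕ → ℝ, PDN c → (∀ m : ℕ, 1 ≤ m → ∀ ε : ℝ, 0 < ε → ∀ i₁ : ℕ,
    ∃ i : ℕ, i₁ ≤ i ∧ ∑ p ∈ Pr i, Real.log p / 2 ^ i * |c (p * m) - c m| ≤ ε) →
  ∃ (w : ℚ → ℝ) (κ : ℝ), (∀ t, 0 ≤ w t) ∧ (∀ t, w t ≠ 0 → 0 ≤ t ∧ t < 1) ∧ Summable w ∧ 0 ≤ κ ∧
    κ + ∑' t, w t = c 0 ∧ ∀ m : ℤ, m ≠ 0 →
      ((c m.natAbs : ℝ) : ℂ) = ∑' t : ℚ, ((w t : ℝ) : ℂ) * Complex.exp (2 * Real.pi * Complex.I * (m * (t : ℂ)))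

end Pool.Agent.K9h47.JL
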