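import Mathlib
import Pool.Agent.K9h47.JL.Stm

/-!
# Closure properties of even polynomial functions (leaf POL)
-/

set_option autoImplicit false

open MeasureTheory Filter Topology Finset

namespace Pool.Agent.K9h47.JL

/-- A member of `Pol d B` from arbitrary finite index types. -/
theorem pol_of {d B : ℕ} {I L : Type} [Fintype I] [Fintype L] (hL : Fintype.card L = 2 * d)
    (q : I → ℝ) (h : I → L → ℤ) (hq : ∑ i, |q i| ≤ 1) (hh : ∀ i l, |h i l| ≤ B)
    {Φ : (ℤ → ℝ) → ℝ} (hΦ : ∀ y, Φ y = ∑ i, q i * ∏ l, y (h i l)) : Φ ∈ Pol d B := by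
  let e : Fin (Fintype.card I) ≃ I := (Fintype.equivFin I).symm
  let f : Fin (2 * d) ≃ L := (Fintype.equivFinOfCardEq hL).symm
  refine ⟨Fintype.card I, fun i => q (e i), fun i l => h (e i) (f l), ?_, fun i l => hh _ _,
    fun y => ?_⟩
  · rw [Equiv.sum_comp e fun i => |q i|]
    exact hq
  · rw [hΦ]
    refine (Fintype.sum_equiv e _ _ fun i => ?_).symm
    congr 1
    exact Fintype.prod_equiv f _ _ fun l => rfl

theorem pol_one (B : ℕ) : (fun _ : ℤ → ℝ => (1 : ℝ)) ∈ Pol 0 B :=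
  pol_of (I := Unit) (L := Empty) (by simp) (fun _ => 1) (fun _ l => l.elim) (by simp)
    (fun _ l => l.elim) (fun y => by simp)

theorem pol_two {B : ℕ} {h h' : ℤ} (hh : |h| ≤ B) (hh' : |h'| ≤ B) :
    (fun y : ℤ → ℝ => y h * y h') ∈ Pol 1 B :=
  pol_of (I := Unit) (L := Fin 2) (by simp) (fun _ => 1) (fun _ l => if l = 0 then h else h')
    (by simp) (fun _ l => by split_ifs <;> assumption) (fun y => by simp [Fin.prod_univ_two])

theorem pol_mul {d d' B : ℕ} {Φ Ψ : (ℤ → ℝ) → ℝ} (hΦ : Φ ∈ Pol d B) (hΨ : Ψ ∈ Pol d' B) :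
    (fun y => Φ y * Ψ y) ∈ Pol (d + d') B := by
  obtain ⟨n, q, h, h1, h2, h3⟩ := hΦ
  obtain ⟨n', q', h', h1', h2', h3'⟩ := hΨ
  refine pol_of (I := Fin n × Fin n') (L := Fin (2 * d) ⊕ Fin (2 * d')) (by simp; ring)
    (fun i => q i.1 * q' i.2) (fun i => Sum.elim (h i.1) (h' i.2)) ?_ ?_ ?_
  · have h4 : ∑ i : Fin n × Fin n', |q i.1 * q' i.2| = (∑ i, |q i|) * ∑ i, |q' i| := by
      rw [Fintype.sum_prod_type, Finset.sum_mul_sum]
      exact Finset.sum_congr rfl fun i _ => Finset.sum_congr rfl fun k _ => abs_mul _ _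
    rw [h4]
    have h5 : 0 ≤ ∑ i, |q' i| := Finset.sum_nonneg fun i _ => abs_nonneg _
    nlinarith
  · rintro i (l | l)
    · exact h2 _ _
    · exact h2' _ _
  · intro y
    rw [h3, h3', Finset.sum_mul_sum, Fintype.sum_prod_type]
    refine Finset.sum_congr rfl fun i _ => Finset.sum_congr rfl fun k _ => ?_
    rw [Fintype.prod_sum_type]
    simp only [Sum.elim_inl, Sum.elim_inr]
    ring

theorem pol_avg {d B N : ℕ} {Φ : ℕ → (ℤ → ℝ) → ℝ} (hΦ : ∀ i < N, Φ i ∈ Pol d B) :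
    (fun y => (1 / (N : ℝ)) * ∑ i ∈ range N, Φ i y) ∈ Pol d B := by
  choose n q h h1 h2 h3 using fun i : Fin N => hΦ i i.2
  refine pol_of (I := Σ i : Fin N, Fin (n i)) (L := Fin (2 * d)) (by simp)
    (fun i => (1 / (N : ℝ)) * q i.1 i.2) (fun i => h i.1 i.2) ?_ (fun i l => h2 _ _ _) ?_
  · rw [Fintype.sum_sigma]
    have h4 : ∀ i : Fin N, ∑ j, |(1 / (N : ℝ)) * q i j| ≤ 1 / (N : ℝ) := by
      intro i
      have h5 : ∑ j, |(1 / (N : ℝ)) * q i j| = (1 / (N : ℝ)) * ∑ j, |q i j| := by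
        rw [Finset.mul_sum]
        refine Finset.sum_congr rfl fun j _ => ?_
        rw [abs_mul, abs_of_nonneg (by positivity : (0 : ℝ) ≤ 1 / (N : ℝ))]
      rw [h5]
      exact mul_le_of_le_one_right (by positivity) (h1 i)
    refine (Finset.sum_le_sum fun i _ => h4 i).trans ?_
    rw [Finset.sum_const, Finset.card_univ, Fintype.card_fin, nsmul_eq_mul, mul_one_div]
    exact div_self_le_one _
  · intro y
    rw [Fintype.sum_sigma, Finset.sum_range, Finset.mul_sum]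
    refine Finset.sum_congr rfl fun i _ => ?_
    rw [h3, Finset.mul_sum]
    exact Finset.sum_congr rfl fun j _ => by ring

theorem pol_prod {d B : ℕ} : ∀ (s : ℕ) (Φ : Fin s → (ℤ → ℝ) → ℝ), (∀ i, Φ i ∈ Pol d B) →
    (fun y => ∏ i, Φ i y) ∈ Pol (s * d) B
  | 0, Φ, _ => by
    simp only [Finset.univ_eq_empty, Finset.prod_empty, Nat.zero_mul]
    exact pol_one B
  | s + 1, Φ, h => by
    have h1 := pol_mul (pol_prod s (fun i => Φ i.castSucc) fun i => h _) (h (Fin.last s))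
    rw [Nat.succ_mul]
    refine (congrArg (· ∈ Pol (s * d + d) B) ?_).mp h1
    funext y
    exact (Fin.prod_univ_castSucc fun i => Φ i y).symm

theorem pol_dil {Ω : Type} [MeasurableSpace Ω] (μ : Measure Ω) (T : Ω → Ω) (x : ℤ → Ω → ℝ)
    (hx : Stat μ T x) (hD : Dil μ x) (D B : ℕ) (ε : ℝ) (hε : 0 < ε) (i₁ : ℕ) :
    ∃ i : ℕ, i₁ ≤ i ∧ ∀ d ≤ D, ∀ Φ ∈ Pol d B,
      ∑ p ∈ Pr i, Real.log p / 2 ^ i *
        |∫ ω, Φ (fun n => x (p * n) ω) ∂μ - ∫ ω, Φ (fun n => x n ω) ∂μ| ≤ ε := by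
  have _ := hx.prob
  obtain ⟨i, hi, hI⟩ := hD D B ε hε i₁
  refine ⟨i, hi, fun d hd Φ hΦ => ?_⟩
  obtain ⟨n, q, h, h1, h2, h3⟩ := hΦ
  -- integrability of monomials
  have hint : ∀ g : Fin (2 * d) → ℤ, Integrable (fun ω => ∏ l, x (g l) ω) μ := by
    intro g
    refine Integrable.of_bound (C := 1) ?_ (Filter.Eventually.of_forall fun ω => ?_)
    · exact (Finset.measurable_prod _ fun l _ => hx.meas (g l)).aestronglyMeasurable
    · rw [Real.norm_eq_abs, Finset.abs_prod]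
      exact Finset.prod_le_one (fun l _ => abs_nonneg _) fun l _ => hx.bd _ _
  have hexp : ∀ p : ℤ, ∫ ω, Φ (fun n => x (p * n) ω) ∂μ =
      ∑ k, q k * ∫ ω, ∏ l, x (p * h k l) ω ∂μ := by
    intro p
    simp only [h3]
    rw [integral_finsetSum]
    · exact Finset.sum_congr rfl fun k _ => integral_const_mul _ _
    · intro k _
      exact (hint fun l => p * h k l).const_mul _
  have hexp1 : ∫ ω, Φ (fun n => x n ω) ∂μ = ∑ k, q k * ∫ ω, ∏ l, x (h k l) ω ∂μ := by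
    have h4 := hexp 1
    simp only [one_mul] at h4
    exact h4
  have hstep : ∀ p ∈ Pr i, Real.log p / 2 ^ i *
      |∫ ω, Φ (fun n => x (p * n) ω) ∂μ - ∫ ω, Φ (fun n => x n ω) ∂μ| ≤
      ∑ k, |q k| * (Real.log p / 2 ^ i *
        |∫ ω, ∏ l, x (p * h k l) ω ∂μ - ∫ ω, ∏ l, x (h k l) ω ∂μ|) := by
    intro p _
    have h5 : (0 : ℝ) ≤ Real.log p / 2 ^ i := div_nonneg (Real.log_natCast_nonneg p) (by positivity)
    rw [hexp, hexp1, ← Finset.sum_sub_distrib]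
    refine (mul_le_mul_of_nonneg_left (Finset.abs_sum_le_sum_abs _ _) h5).trans ?_
    rw [Finset.mul_sum]
    refine Finset.sum_le_sum fun k _ => ?_
    rw [← mul_sub, abs_mul]
    exact le_of_eq (by ring)
  refine (Finset.sum_le_sum hstep).trans ?_
  rw [Finset.sum_comm]
  have h6 : ∀ k, ∑ p ∈ Pr i, |q k| * (Real.log p / 2 ^ i *
      |∫ ω, ∏ l, x (p * h k l) ω ∂μ - ∫ ω, ∏ l, x (h k l) ω ∂μ|) ≤ |q k| * ε := by
    intro k
    rw [← Finset.mul_sum]
    exact mul_le_mul_of_nonneg_left (hI d hd (h k) (h2 k)) (abs_nonneg _)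
  refine (Finset.sum_le_sum fun k _ => h6 k).trans ?_
  rw [← Finset.sum_mul]
  exact mul_le_of_le_one_left hε.le h1

theorem pol : S_POL :=
  ⟨fun _ _ _ _ _ h h' => pol_two h h', fun _ _ _ _ _ h h' => pol_mul h h',
    fun _ _ _ _ h => pol_avg h, fun _ _ s Φ h => pol_prod s Φ h,
    fun μ T x hx hD D B ε hε i₁ => pol_dil μ T x hx hD D B ε hε i₁⟩

end Pool.Agent.K9h47.JL
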