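import Pool.Agent.K9h47.JL.Stm

set_option autoImplicit false

/-!
# LEAF RN
-/

open MeasureTheory Filter Topology Finset

namespace Pool.Agent.K9h47.JL

namespace Rn_

variable {Ω : Type} [MeasurableSpace Ω] {μ : Measure Ω} {T : Ω → Ω}

theorem bint [IsFiniteMeasure μ] {f : Ω → ℝ} (hf : Measurable f) (C : ℝ) (h : ∀ ω, |f ω| ≤ C) : Integrable f μ :=
  Integrable.of_bound hf.aestronglyMeasurable C (Eventually.of_forall fun ω => by rw [Real.norm_eq_abs]; exact h ω)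

theorem comp_int (hT : MeasurePreserving T μ μ) {f : Ω → ℝ} (hf : Measurable f) :
    ∫ ω, f (T ω) ∂μ = ∫ ω, f ω ∂μ := by
  conv_rhs => rw [← hT.map_eq]
  exact (integral_map hT.measurable.aemeasurable hf.aestronglyMeasurable).symm

/-- cutting off to `[-1, 1]` -/
noncomputable def cut (a : ℝ) : ℝ := max (-1) (min 1 a)

theorem cut_abs (a : ℝ) : |cut a| ≤ 1 := by
  unfold cut
  rw [abs_le]
  exact ⟨le_max_left _ _, max_le (by norm_num) (min_le_left _ _)⟩

theorem cut_close {a b : ℝ} (hb : |b| ≤ 1) : (b - cut a) ^ 2 ≤ (b - a) ^ 2 := by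
  unfold cut
  rw [abs_le] at hb
  rcases le_total a 1 with h1 | h1
  · rw [min_eq_right h1]
    rcases le_total (-1) a with h2 | h2
    · rw [max_eq_right h2]
    · rw [max_eq_left h2]
      nlinarith [hb.1, hb.2]
  · rw [min_eq_left h1, max_eq_right (by norm_num)]
    nlinarith [hb.1, hb.2]

theorem cut_meas : Measurable cut := by
  unfold cut
  fun_prop

/-- the mean ergodic theorem for a bounded function -/
theorem mean_erg [IsProbabilityMeasure μ] (hT : MeasurePreserving T μ μ) (y : Ω → ℝ) (hy : Measurable y)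
    (hyb : ∀ ω, |y ω| ≤ 1) : ∃ R : Ω → ℝ, Measurable R ∧ (∀ ω, |R ω| ≤ 1) ∧ (∀ᵐ ω ∂μ, R (T ω) = R ω) ∧
    Tendsto (fun M : ℕ => ∫ ω, ((1 / (M : ℝ)) * ∑ m ∈ range M, y (T^[m] ω) - R ω) ^ 2 ∂μ) atTop (𝓝 0) := by
  have hL : MemLp y 2 μ := MemLp.of_bound hy.aestronglyMeasurable 1
    (Eventually.of_forall fun ω => by rw [Real.norm_eq_abs]; exact hyb ω)
  set Y : Lp ℝ 2 μ := hL.toLp y with hY
  set U : Lp ℝ 2 μ →ₗᵢ[ℝ] Lp ℝ 2 μ := Lp.compMeasurePreservingₗᵢ ℝ T hT with hU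
  have hUe : ∀ g : Lp ℝ 2 μ, U g =ᵐ[μ] g ∘ T := fun g => Lp.coeFn_compMeasurePreserving g hT
  have herg := ContinuousLinearMap.tendsto_birkhoffAverage_orthogonalProjection U.toContinuousLinearMap
    U.norm_toContinuousLinearMap_le Y
  set P := (U.toContinuousLinearMap.eqLocus (1 : Lp ℝ 2 μ →L[ℝ] Lp ℝ 2 μ)).orthogonalProjectionOnto Y with hP
  have hPU : U (P : Lp ℝ 2 μ) = (P : Lp ℝ 2 μ) := P.2
  have hPT : ∀ᵐ ω ∂μ, (P : Lp ℝ 2 μ) (T ω) = (P : Lp ℝ 2 μ) ω := by
    have h1 := hUe (P : Lp ℝ 2 μ)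
    rw [hPU] at h1
    filter_upwards [h1] with ω h
    exact h.symm
  have hPm := Lp.aestronglyMeasurable (P : Lp ℝ 2 μ)
  set Q : Ω → ℝ := hPm.mk _ with hQ
  have hQm : Measurable Q := hPm.stronglyMeasurable_mk.measurable
  have hQe : (P : Lp ℝ 2 μ) =ᵐ[μ] Q := hPm.ae_eq_mk
  have hQT : ∀ᵐ ω ∂μ, (P : Lp ℝ 2 μ) (T ω) = Q (T ω) := hT.quasiMeasurePreserving.ae hQe
  have hiter : ∀ k : ℕ, (U.toContinuousLinearMap^[k] Y : Lp ℝ 2 μ) =ᵐ[μ] fun ω => y (T^[k] ω) := by
    intro k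
    induction k with
    | zero => simpa using hL.coeFn_toLp
    | succ k ih =>
      rw [Function.iterate_succ_apply']
      have h1 := hUe (U.toContinuousLinearMap^[k] Y)
      have h2 := hT.quasiMeasurePreserving.ae ih
      filter_upwards [h1, h2] with ω h1 h2
      have h3 : (U.toContinuousLinearMap (U.toContinuousLinearMap^[k] Y) : Lp ℝ 2 μ) ω =
        (U.toContinuousLinearMap^[k] Y : Lp ℝ 2 μ) (T ω) := h1
      rw [h3, h2]
      rw [Function.iterate_succ_apply]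
  have hav : ∀ M : ℕ, (birkhoffAverage ℝ U.toContinuousLinearMap _root_.id M Y : Lp ℝ 2 μ) =ᵐ[μ]
      fun ω => (1 / (M : ℝ)) * ∑ m ∈ range M, y (T^[m] ω) := by
    intro M
    unfold birkhoffAverage birkhoffSum
    refine (Lp.coeFn_smul _ _).trans ?_
    have h1 : ((∑ k ∈ range M, _root_.id (U.toContinuousLinearMap^[k] Y) : Lp ℝ 2 μ) : Ω → ℝ) =ᵐ[μ]
        fun ω => ∑ m ∈ range M, y (T^[m] ω) := by
      induction M with
      | zero =>
        rw [Finset.range_zero, Finset.sum_empty]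
        filter_upwards [Lp.coeFn_zero ℝ 2 μ] with ω h
        rw [h]; simp
      | succ M ih =>
        rw [Finset.sum_range_succ]
        filter_upwards [Lp.coeFn_add (∑ k ∈ range M, _root_.id (U.toContinuousLinearMap^[k] Y))
          (_root_.id (U.toContinuousLinearMap^[M] Y)), ih, hiter M] with ω h1 h2 h3
        rw [h1, Pi.add_apply, h2, _root_.id, h3, Finset.sum_range_succ]
    filter_upwards [h1] with ω h
    rw [Pi.smul_apply, h, smul_eq_mul, one_div]
  refine ⟨fun ω => cut (Q ω), cut_meas.comp hQm, fun ω => cut_abs _, ?_, ?_⟩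
  · filter_upwards [hPT, hQe, hQT] with ω h1 h2 h3
    rw [← h3, h1, h2]
  · have hn : Tendsto (fun M : ℕ => ‖(birkhoffAverage ℝ U.toContinuousLinearMap _root_.id M Y : Lp ℝ 2 μ) -
        (P : Lp ℝ 2 μ)‖ ^ 2) atTop (𝓝 0) := by
      have h1 := (tendsto_iff_norm_sub_tendsto_zero.1 herg).pow 2
      simpa using h1
    refine squeeze_zero (fun M => integral_nonneg fun ω => sq_nonneg _) (fun M => ?_) hn
    rw [← real_inner_self_eq_norm_sq, MeasureTheory.L2.inner_def]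
    apply integral_mono_of_nonneg (Eventually.of_forall fun ω => sq_nonneg _)
    · exact MeasureTheory.L2.integrable_inner _ _
    · filter_upwards [Lp.coeFn_sub (birkhoffAverage ℝ U.toContinuousLinearMap _root_.id M Y) (P : Lp ℝ 2 μ), hav M,
        hQe] with ω h1 h2 h3
      rw [h1, Pi.sub_apply, h2, h3]
      have h4 : |(1 / (M : ℝ)) * ∑ m ∈ range M, y (T^[m] ω)| ≤ 1 := by
        rcases Nat.eq_zero_or_pos M with h0 | h0
        · subst h0; simp
        · have hM0 : (0 : ℝ) < M := by exact_mod_cast h0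
          rw [abs_mul, abs_of_pos (by positivity : (0 : ℝ) < 1 / M), one_div, inv_mul_le_iff₀ hM0, mul_one]
          refine (Finset.abs_sum_le_sum_abs _ _).trans ((Finset.sum_le_sum fun m _ => hyb _).trans ?_)
          simp
      refine (cut_close h4).trans (le_of_eq ?_)
      simp [sq]

theorem next_iter {x : ℤ → Ω → ℝ} (hS : Stat μ T x) (n : ℤ) (k : ℕ) (ω : Ω) : x (n + k) ω = x n (T^[k] ω) := by
  induction k generalizing n with
  | zero => simp
  | succ k ih =>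
    rw [Function.iterate_succ_apply', ← hS.next, ← ih (n + 1)]
    congr 1
    push_cast
    ring

end Rn_

open Rn_

theorem rn : S_RN := by
  intro Ω _ μ T x hS
  have := hS.prob
  have hex : ∀ k : ℕ, ∃ R : Ω → ℝ, Measurable R ∧ (∀ ω, |R ω| ≤ 1) ∧ (∀ᵐ ω ∂μ, R (T ω) = R ω) ∧
      Tendsto (fun M : ℕ => ∫ ω, ((1 / (M : ℝ)) * ∑ m ∈ range M, (fun ω => x 0 ω * x (k : ℤ) ω) (T^[m] ω) - R ω) ^ 2
        ∂μ) atTop (𝓝 0) := fun k =>
    mean_erg hS.mp (fun ω => x 0 ω * x (k : ℤ) ω) ((hS.meas _).mul (hS.meas _)) fun ω => by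
      rw [abs_mul]; exact mul_le_one₀ (hS.bd _ _) (abs_nonneg _) (hS.bd _ _)
  choose R hRm hRb hRi hRl using hex
  have hI : ∀ (k M : ℕ) (s : ℤ), ∫ ω, ((1 / (M : ℝ)) * ∑ m ∈ range M, x (m + (s + 1)) ω * x (m + (s + 1 + k)) ω -
      R k ω) ^ 2 ∂μ = ∫ ω, ((1 / (M : ℝ)) * ∑ m ∈ range M, x (m + s) ω * x (m + (s + k)) ω - R k ω) ^ 2 ∂μ := by
    intro k M s
    have h1 : ∫ ω, ((1 / (M : ℝ)) * ∑ m ∈ range M, x (m + (s + 1)) ω * x (m + (s + 1 + k)) ω - R k ω) ^ 2 ∂μ =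
        ∫ ω, (fun ω => ((1 / (M : ℝ)) * ∑ m ∈ range M, x (m + s) ω * x (m + (s + k)) ω - R k ω) ^ 2) (T ω) ∂μ := by
      apply integral_congr_ae
      filter_upwards [hRi k] with ω hω
      have h2 : ∀ m : ℕ, x (m + (s + 1)) ω * x (m + (s + 1 + k)) ω = x (m + s) (T ω) * x (m + (s + k)) (T ω) := by
        intro m
        rw [← hS.next, ← hS.next]
        congr 2 <;> ring
      simp only [h2, hω]
    rw [h1]
    have h3 : Measurable fun ω => (1 / (M : ℝ)) * ∑ m ∈ range M, x (m + s) ω * x (m + (s + k)) ω :=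
      (Finset.measurable_fun_sum _ fun m _ => (hS.meas _).mul (hS.meas _)).const_mul _
    have h4 : Measurable fun ω => ((1 / (M : ℝ)) * ∑ m ∈ range M, x (m + s) ω * x (m + (s + k)) ω - R k ω) ^ 2 :=
      (h3.sub (hRm k)).pow_const 2
    exact comp_int hS.mp h4
  have hI0 : ∀ (k M : ℕ) (s : ℤ), ∫ ω, ((1 / (M : ℝ)) * ∑ m ∈ range M, x (m + s) ω * x (m + (s + k)) ω -
      R k ω) ^ 2 ∂μ = ∫ ω, ((1 / (M : ℝ)) * ∑ m ∈ range M, x (m + 0) ω * x (m + (0 + k)) ω - R k ω) ^ 2 ∂μ := by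
    intro k M s
    induction s with
    | zero => rfl
    | succ i ih => rw [hI, ih]
    | pred i ih =>
      rw [← ih, ← hI k M (-(i : ℤ) - 1)]
      have e : (-(i : ℤ) - 1 + 1) = -(i : ℤ) := by ring
      rw [e]
  have hlim : ∀ (k : ℕ) (s : ℤ), Tendsto (fun M : ℕ => ∫ ω, ((1 / (M : ℝ)) *
      ∑ m ∈ range M, x (m + s) ω * x (m + (s + k)) ω - R k ω) ^ 2 ∂μ) atTop (𝓝 0) := by
    intro k s
    have h1 := hRl k
    refine h1.congr fun M => ?_
    rw [hI0 k M s]
    apply integral_congr_ae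
    refine Eventually.of_forall fun ω => ?_
    have h2 : ∀ m : ℕ, (fun ω => x 0 ω * x (k : ℤ) ω) (T^[m] ω) = x (m + 0) ω * x (m + (0 + k)) ω := by
      intro m
      simp only
      rw [← next_iter hS, ← next_iter hS]
      congr 2 <;> ring
    simp only [h2]
  refine ⟨fun n => R n.natAbs, ⟨fun n => hRm _, fun n ω => hRb _ _, fun n ω => ?_, fun n => hRi _, ?_⟩⟩
  · simp only [Int.natAbs_neg]
  · intro s t
    rcases le_total s t with h | h
    · obtain ⟨k, hk⟩ := Int.eq_ofNat_of_zero_le (sub_nonneg.2 h)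
      have e1 : t = s + k := by omega
      have e2 : (s - t).natAbs = k := by omega
      subst e1
      rw [e2]
      exact hlim k s
    · obtain ⟨k, hk⟩ := Int.eq_ofNat_of_zero_le (sub_nonneg.2 h)
      have e1 : s = t + k := by omega
      have e2 : (s - t).natAbs = k := by omega
      subst e1
      rw [e2]
      refine (hlim k t).congr fun M => ?_
      congr 1
      ext ω
      simp only [mul_comm]

end Pool.Agent.K9h47.JL
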