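import Pool.Agent.K9h47.JL.Stm3

/-! leaf ROW (helper46) -/

set_option autoImplicit false

open MeasureTheory Filter Topology Finset

namespace Pool.Agent.K9h47.JL

theorem ch_single {s : ℕ} (l : Fin s) (m : ℤ) (x : TT s) : ch (Pi.single l m) x = fourier m (x l) := by
  classical
  have h : (UnitAddTorus.mFourier (Pi.single l m)) x = ∏ i, fourier ((Pi.single l m : Fin s → ℤ) i) (x i) := rfl
  rw [ch, h, Finset.prod_eq_single l]
  · simp
  · intro j _ hj
    rw [Pi.single_eq_of_ne hj]
    simp
  · intro hl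
    exact absurd (Finset.mem_univ l) hl

theorem fourier_fact (t : ℚ) (q : ℕ) (hq : t.den ≤ q) :
    fourier ((q.factorial : ℕ) : ℤ) (((t : ℝ) : UnitAddCircle)) = 1 := by
  have hd : t.den ∣ q.factorial := Nat.dvd_factorial t.den_pos hq
  obtain ⟨c, hc⟩ := hd
  rw [fourier_coe_apply]
  have h1 : 2 * (Real.pi : ℂ) * Complex.I * (((q.factorial : ℕ) : ℤ) : ℂ) * ((t : ℝ) : ℂ) / ((1 : ℝ) : ℂ) =
      ((t.num * c : ℤ) : ℂ) * (2 * Real.pi * Complex.I) := by
    have h2 : ((t : ℝ) : ℂ) = (t.num : ℂ) / (t.den : ℂ) := by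
      have := Rat.num_div_den t
      conv_lhs => rw [← this]
      push_cast
      rfl
    have h3 : (t.den : ℂ) ≠ 0 := by exact_mod_cast t.den_pos.ne'
    rw [hc, h2]
    push_cast
    field_simp
  rw [h1]
  exact Complex.exp_int_mul_two_pi_mul_I _

theorem row : S_ROW := by
  classical
  intro haar s w l hw hsum h i hi
  by_contra hcon
  push Not at hcon
  -- the set of the i with row l zero
  let Z : Set (Dat s) := {i | ∀ j, i.1 l j = 0}
  have hsingle : ∀ (m : ℤ) (i : Dat s) (j : Fin s), ∑ l', (Pi.single l m : Fin s → ℤ) l' * i.1 l' j = m * i.1 l j := by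
    intro m i j
    rw [Finset.sum_eq_single l]
    · simp
    · intro b _ hb
      rw [Pi.single_eq_of_ne hb, zero_mul]
    · intro hl; exact absurd (Finset.mem_univ l) hl
  have hval : ∀ (m : ℤ) (i : Dat s), m ≠ 0 → ∫ β : TT s, ch (Pi.single l m) (pt i β) =
      if i ∈ Z then fourier m (((i.2 l : ℝ) : UnitAddCircle)) else 0 := by
    intro m i hm
    obtain ⟨h1, h2⟩ := haar s i (Pi.single l m)
    split_ifs with hZ
    · rw [h1 (by intro j; rw [hsingle, hZ j, mul_zero]), ch_single]
      congr 1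
      simp [pt]
    · apply h2
      intro hh
      apply hZ
      intro j
      have := hh j
      rw [hsingle] at this
      exact (mul_eq_zero.mp this).resolve_left hm
  have hlim : Tendsto (fun q : ℕ => ∑' i, (w i : ℂ) * (if i ∈ Z then
      fourier ((q.factorial : ℕ) : ℤ) (((i.2 l : ℝ) : UnitAddCircle)) else 0)) atTop
      (𝓝 (∑' i, (w i : ℂ) * (if i ∈ Z then 1 else 0))) := by
    refine tendsto_tsum_of_dominated_convergence (bound := w) hsum (fun i => ?_) ?_
    · apply tendsto_const_nhds.congr'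
      filter_upwards [eventually_ge_atTop (i.2 l).den] with q hq
      split_ifs
      · rw [fourier_fact _ _ hq]
      · rfl
    · filter_upwards with q i
      rw [norm_mul, Complex.norm_real, Real.norm_of_nonneg (hw i)]
      refine mul_le_of_le_one_right (hw i) ?_
      split_ifs
      · rw [fourier_apply]
        exact le_of_eq (Circle.norm_coe _)
      · simp
  have hzero : ∀ q : ℕ, ∑' i, (w i : ℂ) * (if i ∈ Z then
      fourier ((q.factorial : ℕ) : ℤ) (((i.2 l : ℝ) : UnitAddCircle)) else 0) = 0 := by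
    intro q
    have hq : ((q.factorial : ℕ) : ℤ) ≠ 0 := by exact_mod_cast q.factorial_ne_zero
    exact (tsum_congr fun i => by rw [hval _ i hq]).trans (h _ hq)
  have h0 : ∑' i, (w i : ℂ) * (if i ∈ Z then 1 else 0) = 0 := by
    have := hlim.congr (fun q => hzero q)
    exact tendsto_nhds_unique this tendsto_const_nhds
  have h0' : ∑' i, w i * (if i ∈ Z then 1 else 0) = 0 := by
    have h1 : ∑' i, (w i : ℂ) * (if i ∈ Z then 1 else 0) = ((∑' i, w i * (if i ∈ Z then (1 : ℝ) else 0) : ℝ) : ℂ) := by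
      rw [Complex.ofReal_tsum]
      exact tsum_congr fun i => by split_ifs <;> simp
    rw [h1] at h0
    exact_mod_cast h0
  have hs : Summable (fun i => w i * (if i ∈ Z then (1 : ℝ) else 0)) := by
    refine Summable.of_nonneg_of_le (fun i => ?_) (fun i => ?_) hsum
    · split_ifs <;> simp [hw i]
    · split_ifs <;> simp [hw i]
  have hnn : ∀ i : Dat s, 0 ≤ w i * (if i ∈ Z then (1 : ℝ) else 0) := by
    intro i
    split_ifs <;> simp [hw i]
  have hsm : HasSum (fun i => w i * (if i ∈ Z then (1 : ℝ) else 0)) 0 := by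
    exact (hs.hasSum_iff).mpr h0'
  have h2 := (hasSum_zero_iff_of_nonneg (f := fun i => w i * (if i ∈ Z then (1 : ℝ) else 0)) hnn).mp hsm
  have h3 : w i * (if i ∈ Z then (1 : ℝ) else 0) = 0 := congrFun h2 i
  have h4 : i ∈ Z := hcon
  rw [if_pos h4, mul_one] at h3
  exact hi h3

end Pool.Agent.K9h47.JL
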