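import Pool.Agent.K9h47.JL.Stm
import Pool.Agent.Results.MP_4a7640_nt.DisplacedCubes

/-!
# Joint law of the local frequencies: further leaves (helper47)
-/

set_option autoImplicit false

open MeasureTheory Filter Topology Finset

namespace Pool.Agent.K9h47.JL

open Pool.Agent.Results.MP_4a7640_nt.DisplacedCubes (Val X shift seq IsFurstenbergSystem IsMult)

/-- LEAF TAO (Tao's entropy decrement, in the starting files). `f` is multiplicative with values `1`, `-1` on `n ≥ 1`.
Sketch. `∫ ∏ x (h l) dμ` is the logarithmic mean (along `N j`, or along an ultrafilter: `Pool.Agent.Y956.CM.eeLM (lmLM ..)`,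
`usq`, see how `DisplacedCubes.result` passes from `μ` to it, `hkey`) of `n ↦ ∏ l f (n + h l)` (shift by `B` first so that all
`h l ≥ 0`). At a good scale `i` (`Pool.Agent.Y956.CM.dec1L` in `Y956/CM/Nl.lean`, with `A` = the values, `a` = the sequence,
window `c 2^i`, `c = 4 B + 4` say) for all `g p n = ∏ l f (n + p h l)` on average over `p ∈ Pr i = QD i (i+1)` the mean of
`g p` is close to the mean of `p 1_{p ∣ n} g p n`, which is the mean of `∏ l f (p n + p h l)` (logarithmic means:
`nl_dil` / `Dom`), and `f (p (n + h)) = f p f (n + h)` unless `p ∣ n + h` (error `O(1/p)`), and `(f p)^(2 d) = 1`.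
There are finitely many `(d, h)`; take `δ` small. Similar proofs: `Y956/CM/CmpL.lean` `scale_cmpL` (two variables),
`Y956/CP/Scd.lean`. -/
def S_TAO : Prop := ∀ (f : ℕ → Val) (μ : Measure X), IsMult f → IsFurstenbergSystem f μ →
  Dil μ (fun (n : ℤ) (x : X) => (x n : ℝ))

/-- LEAF PDW. At a finite window `m ↦ ∏ l co (y) H (m k_l)` is positive definite: by WONE it is
`H^s ∫ e(m (k_1 α_1 + ... + k_s α_s)) ∏ |F(α_l)|^4 dα` (or: each factor is, and products of positive definite sequences
are). Then pass to the limit with WIN (`∏` of functions bounded by one converging in `L¹`); `co y H (-j) = co y H j`. -/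
def S_PDW : Prop := S_WONE → S_WIN → ∀ {Ω : Type} [MeasurableSpace Ω] (μ : Measure Ω) (T : Ω → Ω)
  (x r : ℤ → Ω → ℝ) (A : ℝ) (g : ℤ → Ω → ℝ), Stat μ T x → Cor μ T x r → Lims μ r A g →
  ∀ (s : ℕ) (k : Fin s → ℤ),
    (∀ m : ℤ, Tendsto (fun H : ℕ => ∫ ω, ∏ l, co (fun n => x n ω) H (m * k l) ∂μ) atTop
      (𝓝 ((2 / 3) ^ s * ∫ ω, ∏ l, g (m * k l) ω ∂μ))) ∧
    PDN (fun m : ℕ => ∫ ω, ∏ l, g (m * k l) ω ∂μ)

end Pool.Agent.K9h47.JL
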