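import Pool.Agent.K9h47.JL.Stm2
import Pool.Agent.K9h60.TA.Core

/-!
# Leaf TAO: the dilation property of the correlations of a Furstenberg system (helper60)
-/

set_option autoImplicit false

open MeasureTheory Filter Topology Finset

namespace Pool.Agent.K9h47.JL

open Pool.Agent.Results.MP_4a7640_nt.DisplacedCubes (Val X shift seq IsFurstenbergSystem IsMult val_le seq_nat)
open Pool.Agent.TH112.BL (LM Bd)
open Pool.Agent.Y956.CB (eeLM)
open Pool.Agent.Y956.CM (lmLM usq usq_le eeLM_lm lm_usq)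

/-- real continuous functions bounded by one: the mean is the integral -/
lemma mean_real {N : ℕ → ℕ} (hN : Tendsto N atTop atTop) {f : ℕ → Val} {μ : Measure X}
    (hlim : ∀ φ : X → ℝ, Continuous φ →
      Tendsto (fun j => (1 / Real.log (N j : ℝ)) * ∑ n ∈ Icc 1 (N j), (1 / (n : ℝ)) *
        φ (shift (n : ℤ) (seq f))) atTop (𝓝 (∫ x, φ x ∂μ)))
    (φ : X → ℝ) (hφ : Continuous φ) (hφ1 : ∀ x, |φ x| ≤ 1) :
    (eeLM (lmLM (usq N) (usq_le hN))).m (fun n : ℕ => φ (shift (n : ℤ) (seq f))) = ∫ x, φ x ∂μ := by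
  rw [eeLM_lm (usq N) (usq_le hN) ⟨1, fun n => hφ1 _⟩]
  exact lm_usq (hlim φ hφ)

/-- a correlation of the system is the mean of a product of values, with nonnegative places -/
lemma corr_mean {N : ℕ → ℕ} (hN : Tendsto N atTop atTop) {f : ℕ → Val} {μ : Measure X}
    (hlim : ∀ φ : X → ℝ, Continuous φ →
      Tendsto (fun j => (1 / Real.log (N j : ℝ)) * ∑ n ∈ Icc 1 (N j), (1 / (n : ℝ)) *
        φ (shift (n : ℤ) (seq f))) atTop (𝓝 (∫ x, φ x ∂μ)))
    {d : ℕ} (h : Fin d → ℤ) (s : ℕ) (b : Fin d → ℕ) (hb : ∀ l, (b l : ℤ) = h l + s) :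
    (eeLM (lmLM (usq N) (usq_le hN))).m (fun n : ℕ => ∏ l, (f (n + b l) : ℝ)) =
      ∫ x : X, ∏ l, (x (h l) : ℝ) ∂μ := by
  have hc : Continuous (fun x : X => ∏ l, (x (h l) : ℝ)) := by fun_prop
  have hle : ∀ x : X, |∏ l, (x (h l) : ℝ)| ≤ 1 := by
    intro x
    rw [abs_prod]
    exact prod_le_one (fun _ _ => abs_nonneg _) fun _ _ => val_le _
  rw [← mean_real hN hlim _ hc hle]
  set m := eeLM (lmLM (usq N) (usq_le hN)) with hm
  have hΦ : Bd (fun n : ℕ => ∏ l, ((shift (n : ℤ) (seq f)) (h l) : ℝ)) := ⟨1, fun n => hle _⟩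
  rw [← m.shiftk s hΦ]
  apply m.congr_large (N := 1)
  · refine ⟨1, fun n => ?_⟩
    rw [abs_prod]
    exact prod_le_one (fun _ _ => abs_nonneg _) fun _ _ => val_le _
  · exact hΦ.comp _
  · intro n hn
    apply prod_congr rfl
    intro l _
    have e1 : h l + ((n + s : ℕ) : ℤ) = ((n + b l : ℕ) : ℤ) := by
      push_cast
      rw [hb l]
      ring
    unfold shift
    rw [e1, seq_nat f _ (by omega)]

theorem tao : S_TAO := by
  classical
  intro f μ hf hμ
  obtain ⟨hprob, N, hN, hlim⟩ := hμ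
  intro D B ε hε i₁
  let _ : Fintype Val := (Set.Finite.fintype (by simp : ({-1, 0, 1} : Set ℝ).Finite))
  have : Nonempty Val := ⟨⟨0, by simp⟩⟩
  obtain ⟨i₂, hi₂⟩ : ∃ i₂ : ℕ, ∀ i ≥ i₂, 12 * (D : ℝ) / 2 ^ i ≤ ε / 2 := by
    have h1 : Tendsto (fun i : ℕ => 12 * (D : ℝ) * (1 / 2 : ℝ) ^ i) atTop (𝓝 (12 * D * 0)) :=
      (tendsto_pow_atTop_nhds_zero_of_lt_one (by norm_num) (by norm_num)).const_mul _
    rw [mul_zero] at h1
    obtain ⟨i₂, h2⟩ := eventually_atTop.1 (h1.eventually_le_const (half_pos hε))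
    refine ⟨i₂, fun i hi => ?_⟩
    have := h2 i hi
    rw [one_div, inv_pow, ← div_eq_mul_inv] at this
    exact this
  set m := eeLM (lmLM (usq N) (usq_le hN)) with hm
  obtain ⟨i, hi, -, hdec⟩ := Pool.Agent.Y956.CB.dec1L (lmLM (usq N) (usq_le hN)) Val f (4 * B + 1) (ε / 20)
    (by positivity) (max i₁ i₂) (fun _ => False) 0 (fun i0 J => by simp)
  refine ⟨i, (le_max_left _ _).trans hi, fun d hd h hh => ?_⟩
  have hnn : ∀ l, 0 ≤ h l + B := fun l => by
    have := (abs_le.1 (hh l)).1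
    linarith
  have hbl : ∀ l, (((h l + B).toNat : ℕ) : ℤ) = h l + B := fun l => Int.toNat_of_nonneg (hnn l)
  have hble : ∀ l, (h l + B).toNat ≤ 2 * B := fun l => by
    have h1 := (abs_le.1 (hh l)).2
    have h2 := hbl l
    omega
  have hval : ∀ n : ℕ, 1 ≤ n → (f n : ℝ) ^ 2 = 1 := by
    intro n hn
    have h0 := hf.1 n hn
    have h := (f n).2
    simp only [Set.mem_insert_iff, Set.mem_singleton_iff] at h
    rcases h with h | h | h
    · rw [h]; norm_num
    · exact absurd h h0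
    · rw [h]; norm_num
  have hcore := Pool.Agent.K9h60.TA.core m i D B (4 * B + 1) (ε / 20) (fun n => (f n : ℝ)) f
    (fun n => val_le _) (fun n n' h => by simp only [h]) (fun p hp => hval p hp.one_lt.le)
    (fun p n hp hn hpn => hf.2 p n hp.one_lt.le hn ((Nat.Prime.coprime_iff_not_dvd hp).2 hpn))
    hdec (by omega) d hd (fun l => (h l + B).toNat) hble
  have h1 := hi₂ i ((le_max_right _ _).trans hi)
  have h2 : ∀ p : ℕ, (m.m fun n => ∏ l, (f (n + p * (h l + B).toNat) : ℝ)) =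
      ∫ x : X, ∏ l, (x (p * h l) : ℝ) ∂μ := by
    intro p
    exact corr_mean hN hlim (fun l => (p : ℤ) * h l) (p * B) (fun l => p * (h l + B).toNat) (fun l => by
      push_cast
      rw [Int.toNat_of_nonneg (hnn l)]
      ring)
  have h3 : (m.m fun n => ∏ l, (f (n + (h l + B).toNat) : ℝ)) = ∫ x : X, ∏ l, (x (h l) : ℝ) ∂μ :=
    corr_mean hN hlim h B (fun l => (h l + B).toNat) hbl
  have h4 : ∑ p ∈ Pr i, Real.log p / 2 ^ i *
      |∫ x : X, ∏ l, (x (p * h l) : ℝ) ∂μ - ∫ x : X, ∏ l, (x (h l) : ℝ) ∂μ| ≤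
      10 * (ε / 20) + 12 * D / 2 ^ i := by
    simp only [← h2, ← h3]
    exact hcore
  refine h4.trans ?_
  linarith

end Pool.Agent.K9h47.JL
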