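import Pool.Agent.K9h47.JL.Stm3

/-!
# Leaf TOR: the joint law of the frequencies in a window is a measure on the torus (helper43)
-/

set_option autoImplicit false

open MeasureTheory Filter Topology Finset

namespace Pool.Agent.K9h47.JL

lemma tor_prob : IsProbabilityMeasure (volume : Measure UnitAddCircle) :=
  ⟨UnitAddCircle.measure_univ⟩

variable {Ω : Type} [MeasurableSpace Ω]

/-- the density -/
noncomputable def torD (x : ℤ → Ω → ℝ) (s H : ℕ) (ω : Ω) (α : TT s) : ℝ :=
  ∏ l, ((H : ℝ) * ‖FF (fun n => x n ω) H (α l)‖ ^ 4)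

lemma tor_FF_le (y : ℤ → ℝ) (hy : ∀ n, |y n| ≤ 1) {H : ℕ} (hH : 1 ≤ H) (α : UnitAddCircle) :
    ‖FF y H α‖ ≤ 1 := by
  have hH0 : (0 : ℝ) < H := by exact_mod_cast hH
  unfold FF
  rw [norm_div, Complex.norm_natCast, div_le_one hH0]
  calc ‖∑ h ∈ range H, ((y (h : ℤ) : ℝ) : ℂ) * fourier (h : ℤ) α‖
      ≤ ∑ h ∈ range H, ‖((y (h : ℤ) : ℝ) : ℂ) * fourier (h : ℤ) α‖ := norm_sum_le _ _
    _ ≤ ∑ _h ∈ range H, (1 : ℝ) := by
        refine Finset.sum_le_sum fun h _ => ?_
        rw [norm_mul, Complex.norm_real, Real.norm_eq_abs]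
        have h1 : ‖fourier (h : ℤ) α‖ ≤ 1 :=
          (ContinuousMap.norm_coe_le_norm (fourier (h : ℤ) : C(UnitAddCircle, ℂ)) α).trans_eq
            (fourier_norm _)
        exact mul_le_one₀ (hy _) (norm_nonneg _) h1
    _ = H := by simp

omit [MeasurableSpace Ω] in
lemma torD_nonneg (x : ℤ → Ω → ℝ) (s H : ℕ) (ω : Ω) (α : TT s) : 0 ≤ torD x s H ω α :=
  Finset.prod_nonneg fun _ _ => by positivity

omit [MeasurableSpace Ω] in
lemma torD_le (x : ℤ → Ω → ℝ) (hx : ∀ n ω, |x n ω| ≤ 1) (s : ℕ) {H : ℕ} (hH : 1 ≤ H) (ω : Ω)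
    (α : TT s) : torD x s H ω α ≤ (H : ℝ) ^ s := by
  unfold torD
  calc ∏ l, ((H : ℝ) * ‖FF (fun n => x n ω) H (α l)‖ ^ 4) ≤ ∏ _l : Fin s, (H : ℝ) := by
        refine Finset.prod_le_prod (fun _ _ => by positivity) fun l _ => ?_
        have h1 := tor_FF_le (fun n => x n ω) (fun n => hx n ω) hH (α l)
        have h2 : ‖FF (fun n => x n ω) H (α l)‖ ^ 4 ≤ 1 := pow_le_one₀ (norm_nonneg _) h1
        have h3 : (0 : ℝ) ≤ H := Nat.cast_nonneg _
        nlinarith
    _ = _ := by simp

lemma torD_meas (x : ℤ → Ω → ℝ) (hx : ∀ n, Measurable (x n)) (s H : ℕ) :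
    Measurable (fun q : TT s × Ω => torD x s H q.2 q.1) := by
  unfold torD FF
  refine Finset.measurable_prod _ fun l _ => ?_
  refine Measurable.const_mul (Measurable.pow_const (Measurable.norm ?_) _) _
  refine Measurable.div_const (Finset.measurable_sum _ fun h _ => ?_) _
  refine Measurable.mul ?_ ?_
  · exact Complex.measurable_ofReal.comp ((hx _).comp measurable_snd)
  · exact (fourier (h : ℤ) : C(UnitAddCircle, ℂ)).continuous.measurable.comp
      ((measurable_pi_apply l).comp measurable_fst)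

/-- integrability of bounded functions times the density -/
lemma tor_int {E : Type*} [NormedAddCommGroup E] [NormedSpace ℝ E] [SecondCountableTopology E]
    [MeasurableSpace E] [BorelSpace E] (μ : Measure Ω)
    [IsFiniteMeasure μ] (x : ℤ → Ω → ℝ) (hm : ∀ n, Measurable (x n)) (hx : ∀ n ω, |x n ω| ≤ 1)
    (s : ℕ) {H : ℕ} (hH : 1 ≤ H) (F : C(TT s, E)) :
    Integrable (Function.uncurry fun (α : TT s) (ω : Ω) => torD x s H ω α • F α)
      ((volume : Measure (TT s)).prod μ) := by
  have := tor_prob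
  refine Integrable.of_bound (C := (H : ℝ) ^ s * ‖F‖) ?_ (Eventually.of_forall fun q => ?_)
  · refine (Measurable.aestronglyMeasurable ?_)
    exact (torD_meas x hm s H).smul (F.continuous.measurable.comp measurable_fst)
  · simp only [Function.uncurry]
    rw [norm_smul, Real.norm_eq_abs, abs_of_nonneg (torD_nonneg x s H q.2 q.1)]
    exact mul_le_mul (torD_le x hx s hH q.2 q.1) (F.norm_coe_le_norm _) (norm_nonneg _)
      (by positivity)

/-- the measure -/
noncomputable def torM (μ : Measure Ω) (x : ℤ → Ω → ℝ) (s H : ℕ) : Measure (TT s) :=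
  (volume : Measure (TT s)).withDensity fun α => ENNReal.ofReal (∫ ω, torD x s H ω α ∂μ)

lemma torG_meas (μ : Measure Ω) [IsFiniteMeasure μ] (x : ℤ → Ω → ℝ)
    (hm : ∀ n, Measurable (x n)) (s H : ℕ) :
    Measurable (fun α : TT s => ∫ ω, torD x s H ω α ∂μ) :=
  (StronglyMeasurable.integral_prod_right (f := fun (α : TT s) (ω : Ω) => torD x s H ω α)
    (torD_meas x hm s H).stronglyMeasurable).measurable

theorem tor_fubini {E : Type*} [NormedAddCommGroup E] [NormedSpace ℝ E] [CompleteSpace E]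
    [SecondCountableTopology E] [MeasurableSpace E] [BorelSpace E] (μ : Measure Ω)
    [IsFiniteMeasure μ] (x : ℤ → Ω → ℝ) (hm : ∀ n, Measurable (x n)) (hx : ∀ n ω, |x n ω| ≤ 1)
    (s : ℕ) {H : ℕ} (hH : 1 ≤ H) (F : C(TT s, E)) :
    ∫ α, F α ∂(torM μ x s H) = ∫ ω, (∫ α : TT s, torD x s H ω α • F α) ∂μ := by
  have := tor_prob
  unfold torM
  rw [integral_withDensity_eq_integral_toReal_smul₀
    (torG_meas μ x hm s H).ennreal_ofReal.aemeasurable
    (Eventually.of_forall fun _ => ENNReal.ofReal_lt_top)]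
  rw [← integral_integral_swap (f := fun (α : TT s) (ω : Ω) => torD x s H ω α • F α)
    (tor_int μ x hm hx s hH F)]
  refine integral_congr_ae (Eventually.of_forall fun α => ?_)
  have h1 : 0 ≤ ∫ ω, torD x s H ω α ∂μ := integral_nonneg fun ω => torD_nonneg x s H ω α
  simp only
  rw [ENNReal.toReal_ofReal h1, integral_smul_const]

/-- the autocorrelations are small -/
lemma tor_co_le (y : ℤ → ℝ) (hy : ∀ n, |y n| ≤ 1) {H : ℕ} (hH : 1 ≤ H) : co y H 0 ≤ 1 := by
  have hH0 : (0 : ℝ) < H := by exact_mod_cast hH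
  set c : ℤ → ℕ := fun n => ((Ico (0 : ℤ) H).filter (fun m => 0 ≤ m + n ∧ m + n < H)).card with hc
  have hR : ∀ n, |R y H n| ≤ (c n : ℝ) / H := by
    intro n
    unfold R
    rw [abs_mul, abs_of_pos (by positivity), one_div, inv_mul_eq_div]
    refine div_le_div_of_nonneg_right ?_ hH0.le
    refine (Finset.abs_sum_le_sum_abs _ _).trans ?_
    calc _ ≤ ∑ _m ∈ (Ico (0 : ℤ) H).filter (fun m => 0 ≤ m + n ∧ m + n < H), (1 : ℝ) := by
          refine Finset.sum_le_sum fun m _ => ?_
          rw [abs_mul]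
          exact mul_le_one₀ (hy _) (abs_nonneg _) (hy _)
      _ = _ := by simp [hc]
  have hcH : ∀ n, (c n : ℝ) ≤ H := by
    intro n
    have h1 : c n ≤ (Ico (0 : ℤ) H).card := Finset.card_filter_le _ _
    rw [Int.card_Ico, sub_zero, Int.toNat_natCast] at h1
    exact_mod_cast h1
  have hR1 : ∀ n, R y H n * R y H (n + 0) ≤ (c n : ℝ) / H := by
    intro n
    rw [add_zero]
    have h1 := hR n
    have h2 : (c n : ℝ) / H ≤ 1 := by
      rw [div_le_one hH0]
      exact hcH n
    have h3 : R y H n * R y H n = |R y H n| * |R y H n| := (abs_mul_abs_self _).symm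
    rw [h3]
    have h4 := abs_nonneg (R y H n)
    nlinarith
  have hsum : ∑ n ∈ Ioo (-(H : ℤ)) H, c n ≤ H * H := by
    simp only [hc, Finset.card_filter]
    rw [Finset.sum_comm]
    calc _ ≤ ∑ _m ∈ Ico (0 : ℤ) H, H := by
          refine Finset.sum_le_sum fun m hm => ?_
          rw [← Finset.card_filter]
          have h1 : (Ioo (-(H : ℤ)) H).filter (fun n => 0 ≤ m + n ∧ m + n < H) ⊆
              Ico (-m) (H - m) := by
            intro n hn
            rw [Finset.mem_filter] at hn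
            rw [Finset.mem_Ico]
            omega
          refine (Finset.card_le_card h1).trans ?_
          rw [Int.card_Ico]
          omega
      _ = H * H := by simp
  unfold co
  calc (1 / (H : ℝ)) * ∑ n ∈ Ioo (-(H : ℤ)) H, R y H n * R y H (n + 0)
      ≤ (1 / (H : ℝ)) * ∑ n ∈ Ioo (-(H : ℤ)) H, (c n : ℝ) / H :=
        mul_le_mul_of_nonneg_left (Finset.sum_le_sum fun n _ => hR1 n) (by positivity)
    _ = (∑ n ∈ Ioo (-(H : ℤ)) H, c n : ℕ) / ((H : ℝ) * H) := by
        rw [← Finset.sum_div]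
        push_cast
        field_simp
    _ ≤ 1 := by
        rw [div_le_one (by positivity)]
        exact_mod_cast hsum

lemma tor_co_nonneg (y : ℤ → ℝ) {H : ℕ} : 0 ≤ co y H 0 := by
  unfold co
  refine mul_nonneg (by positivity) (Finset.sum_nonneg fun n _ => ?_)
  rw [add_zero]
  exact mul_self_nonneg _

omit [MeasurableSpace Ω] in
/-- the Fourier coefficients of the density -/
lemma tor_inner (hW : S_WONE) (x : ℤ → Ω → ℝ) (s : ℕ) {H : ℕ} (hH : 1 ≤ H) (ω : Ω)
    (k : Fin s → ℤ) :
    ∫ α : TT s, torD x s H ω α • ch k α = ((∏ l, co (fun n => x n ω) H (k l) : ℝ) : ℂ) := by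
  have := tor_prob
  have h1 : ∀ α : TT s, torD x s H ω α • ch k α =
      ∏ l, (fun β : UnitAddCircle =>
        (H : ℂ) * (fourier (k l) β * ((‖FF (fun n => x n ω) H β‖ ^ 4 : ℝ) : ℂ))) (α l) := by
    intro α
    have e1 : ch k α = ∏ l, fourier (k l) (α l) := rfl
    rw [e1, Complex.real_smul]
    unfold torD
    rw [Complex.ofReal_prod, ← Finset.prod_mul_distrib]
    refine Finset.prod_congr rfl fun l _ => ?_
    push_cast
    ring
  rw [integral_congr_ae (Eventually.of_forall h1)]
  rw [volume_pi]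
  rw [integral_fintype_prod_eq_prod (𝕜 := ℂ) (fun (l : Fin s) (β : UnitAddCircle) =>
        (H : ℂ) * (fourier (k l) β * ((‖FF (fun n => x n ω) H β‖ ^ 4 : ℝ) : ℂ)))]
  rw [Complex.ofReal_prod]
  refine Finset.prod_congr rfl fun l _ => ?_
  rw [integral_const_mul]
  exact hW _ _ _ hH

theorem tor : S_TOR := by
  intro hW Ω _ μ T x hS s H hH
  have := tor_prob
  have := hS.prob
  have hm := hS.meas
  have hx := hS.bd
  refine ⟨torM μ x s H, ?_, fun G => ?_, fun k => ?_⟩
  · -- the mass
    have h0 : ∀ ω, ∫ α : TT s, torD x s H ω α = ∏ _l : Fin s, co (fun n => x n ω) H 0 := by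
      intro ω
      have h1 := tor_inner hW x s hH ω (fun _ => 0)
      have h2 : ∀ α : TT s, torD x s H ω α • ch (fun _ => (0 : ℤ)) α =
          ((torD x s H ω α : ℝ) : ℂ) := by
        intro α
        have e1 : ch (fun _ : Fin s => (0 : ℤ)) α = ∏ l, fourier (0 : ℤ) (α l) := rfl
        rw [e1, Complex.real_smul]
        simp
      have h3 : ∫ α : TT s, ((torD x s H ω α : ℝ) : ℂ) = ((∫ α : TT s, torD x s H ω α : ℝ) : ℂ) :=
        integral_ofReal
      rw [integral_congr_ae (Eventually.of_forall h2), h3] at h1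
      exact_mod_cast h1
    have h1 : ∀ ω, ∫ α : TT s, torD x s H ω α ≤ 1 := by
      intro ω
      rw [h0]
      exact Finset.prod_le_one (fun _ _ => tor_co_nonneg _)
        (fun _ _ => tor_co_le _ (fun n => hx n ω) hH)
    unfold torM
    rw [withDensity_apply _ MeasurableSet.univ, Measure.restrict_univ]
    have hi : Integrable (fun α : TT s => ∫ ω, torD x s H ω α ∂μ) := by
      have h2 := (tor_int (E := ℝ) μ x hm hx s hH (ContinuousMap.const _ 1)).integral_prod_left
      simpa [Function.uncurry] using h2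
    rw [← ofReal_integral_eq_lintegral_ofReal hi
      (Eventually.of_forall fun α => integral_nonneg fun ω => torD_nonneg x s H ω α)]
    rw [ENNReal.ofReal_le_one]
    have h3 := integral_integral_swap (f := fun (α : TT s) (ω : Ω) => torD x s H ω α)
      (by simpa using tor_int (E := ℝ) μ x hm hx s hH (ContinuousMap.const _ 1))
    rw [h3]
    calc ∫ ω, (∫ α : TT s, torD x s H ω α) ∂μ ≤ ∫ _ω, (1 : ℝ) ∂μ := by
          refine integral_mono_of_nonneg (Eventually.of_forall fun ω =>
            integral_nonneg fun α => torD_nonneg x s H ω α) (integrable_const _)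
            (Eventually.of_forall h1)
      _ = 1 := by simp
  · rw [tor_fubini μ x hm hx s hH G]
    refine integral_congr_ae (Eventually.of_forall fun ω => ?_)
    refine integral_congr_ae (Eventually.of_forall fun α => ?_)
    simp only [smul_eq_mul, torD]
    rw [mul_comm]
  · have h3 : ∫ ω, ((∏ l, co (fun n => x n ω) H (k l) : ℝ) : ℂ) ∂μ =
        ((∫ ω, (∏ l, co (fun n => x n ω) H (k l)) ∂μ : ℝ) : ℂ) := integral_ofReal
    rw [tor_fubini μ x hm hx s hH (ch k), ← h3]
    refine integral_congr_ae (Eventually.of_forall fun ω => ?_)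
    exact tor_inner hW x s hH ω k

end Pool.Agent.K9h47.JL
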