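import Pool.Agent.K9h47.JL.Stm
import Pool.Agent.Helper602.MK.J1a
import Pool.Agent.Helper602.MK.J1b
import Pool.Agent.Helper602.MK.J1c
import Pool.Agent.Helper602.MK.J2
import Pool.Agent.Helper602.MK.J3
import Pool.Agent.Helper602.MK.J4a
import Pool.Agent.Helper602.MK.J4b
import Pool.Agent.Helper602.MK.J4c

/-!
# Vinogradov's theorem for irrational frequencies (leaf VIN, helper24)

From the log-free minor arc estimate for the primes of the starting files (`Pool.Agent.Helper602.MK.J4Stmt`):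
a fixed irrational number is not on the major arcs for large `N`; then partial summation.
-/

set_option autoImplicit false

open MeasureTheory Filter Topology Finset

namespace Pool.Agent.K9h47.JL

namespace VinLeaf

open Pool.Agent.Helper602.MK (J1Stmt J4aStmt J4bStmt J4Stmt Major ee)

theorem mj1 : J1Stmt :=
  Pool.Agent.Helper602.MK.N_J1c.J1c (Pool.Agent.Helper602.MK.N_J1b.J1b Pool.Agent.Helper602.MK.N_J1a.J1a)

theorem mj4a : J4aStmt := Pool.Agent.Helper602.MK.N_J4a.J4a Pool.Agent.Helper602.MK.N_J3.J3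

theorem mj4b : J4bStmt :=
  Pool.Agent.Helper602.MK.N_J4b.J4b mj1 Pool.Agent.Helper602.MK.N_J2.J2 mj4a

theorem mj4 : J4Stmt :=
  Pool.Agent.Helper602.MK.N_J4c.J4c mj1 Pool.Agent.Helper602.MK.N_J2.J2 mj4b

/-- an irrational number is on a major arc of level `Q` for boundedly many `N` only -/
theorem not_major (θ : ℝ) (hθ : Irrational θ) (Q : ℝ) : ∃ N₁ : ℕ, ∀ N : ℕ, N₁ ≤ N → ¬ Major Q N θ := by
  -- for each q the distance from θ to the fractions with denominator q
  have h1 : ∀ q : ℕ, 1 ≤ q → ∃ δ : ℝ, 0 < δ ∧ ∀ a : ℤ, δ ≤ |θ - (a : ℝ) / q| := by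
    intro q hq
    have hq0 : (0 : ℝ) < q := by exact_mod_cast hq
    have hirr : Irrational (θ * q) := by
      have := hθ.mul_natCast (m := q) (by omega)
      exact this
    refine ⟨|θ * q - round (θ * q)| / q, ?_, ?_⟩
    · apply div_pos _ hq0
      rw [abs_pos, sub_ne_zero]
      exact hirr.ne_int _
    · intro a
      rw [div_le_iff₀ hq0]
      have h2 : |θ - (a : ℝ) / q| * q = |θ * q - a| := by
        rw [← abs_of_pos hq0, ← abs_mul, abs_of_pos hq0, sub_mul, div_mul_cancel₀ _ hq0.ne']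
      rw [h2]
      exact round_le _ _
  choose! δ hδ0 hδ using h1
  -- the minimum over q ≤ Q
  obtain ⟨ε, hε0, hε⟩ : ∃ ε : ℝ, 0 < ε ∧ ∀ q ∈ Finset.Icc 1 ⌊Q⌋₊, ε ≤ δ q := by
    by_cases hne : (Finset.Icc 1 ⌊Q⌋₊).Nonempty
    · obtain ⟨q, hq, hmin⟩ := Finset.exists_min_image _ δ hne
      exact ⟨δ q, hδ0 q (Finset.mem_Icc.1 hq).1, hmin⟩
    · rw [Finset.not_nonempty_iff_eq_empty] at hne
      exact ⟨1, one_pos, by rw [hne]; simp⟩
  refine ⟨⌈|Q| / ε⌉₊ + 1, ?_⟩
  rintro N hN ⟨q, hq1, hqQ, a, ha⟩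
  have hN0 : (0 : ℝ) < N := by exact_mod_cast (by omega : 0 < N)
  have h3 : |Q| / ε < N := by
    have h4 : |Q| / ε ≤ (⌈|Q| / ε⌉₊ : ℝ) := Nat.le_ceil _
    have h5 : ((⌈|Q| / ε⌉₊ + 1 : ℕ) : ℝ) ≤ N := by exact_mod_cast hN
    push_cast at h5
    linarith
  have h6 : Q / N < ε := by
    rw [div_lt_iff₀ hN0]
    rw [div_lt_iff₀ hε0] at h3
    have := le_abs_self Q
    linarith
  have h7 : ε ≤ δ q := hε q (Finset.mem_Icc.2 ⟨hq1, Nat.le_floor hqQ⟩)
  have h8 := hδ q hq1 a
  linarith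

/-- Abel summation with logarithmic weights -/
theorem log_abel (c : ℕ → ℂ) (N M : ℕ) (hN : 1 ≤ N) (hM : N ≤ M) (B : ℝ)
    (hB : ∀ m, N ≤ m → m ≤ M → ‖∑ n ∈ Ioc N m, c n‖ ≤ B) :
    ‖∑ n ∈ Ioc N M, ((Real.log n : ℝ) : ℂ) * c n‖ ≤ B * (2 * Real.log M - Real.log N) := by
  -- S (M) = log M * C(M) - ∑_{N < m < M} (log (m+1) - log m) C(m), and the first term
  have hB0 : 0 ≤ B := (norm_nonneg _).trans (hB N le_rfl hM)
  have key : ∀ M, N ≤ M → ∑ n ∈ Ioc N M, ((Real.log n : ℝ) : ℂ) * c n =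
      ((Real.log M : ℝ) : ℂ) * ∑ n ∈ Ioc N M, c n -
        ∑ m ∈ Ico N M, ((Real.log (m + 1 : ℕ) - Real.log m : ℝ) : ℂ) * ∑ n ∈ Ioc N m, c n := by
    intro M hM
    induction M, hM using Nat.le_induction with
    | base => simp
    | succ M hM ih =>
      rw [← Finset.insert_Ioc_right_eq_Ioc_add_one hM, Finset.sum_insert (by simp), Finset.sum_insert (by simp),
        Finset.sum_Ico_succ_top hM, ih]
      push_cast
      ring
  rw [key M hM]
  refine (norm_sub_le _ _).trans ?_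
  have hlog : 0 ≤ Real.log M := Real.log_nonneg (by exact_mod_cast (by omega : 1 ≤ M))
  have h1 : ‖((Real.log M : ℝ) : ℂ) * ∑ n ∈ Ioc N M, c n‖ ≤ Real.log M * B := by
    rw [norm_mul, Complex.norm_real, Real.norm_of_nonneg hlog]
    exact mul_le_mul_of_nonneg_left (hB M hM le_rfl) hlog
  have h2 : ‖∑ m ∈ Ico N M, ((Real.log (m + 1 : ℕ) - Real.log m : ℝ) : ℂ) * ∑ n ∈ Ioc N m, c n‖ ≤
      ∑ m ∈ Ico N M, (Real.log (m + 1 : ℕ) - Real.log m) * B := by
    refine (norm_sum_le _ _).trans (Finset.sum_le_sum fun m hm => ?_)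
    rw [Finset.mem_Ico] at hm
    have h3 : 0 ≤ Real.log (m + 1 : ℕ) - Real.log m := by
      rw [sub_nonneg]
      apply Real.log_le_log (by exact_mod_cast (by omega : 0 < m))
      push_cast; linarith
    rw [norm_mul, Complex.norm_real, Real.norm_of_nonneg h3]
    exact mul_le_mul_of_nonneg_left (hB m hm.1 hm.2.le) h3
  have h4 : ∑ m ∈ Ico N M, (Real.log (m + 1 : ℕ) - Real.log m) * B = (Real.log M - Real.log N) * B := by
    rw [← Finset.sum_mul, Finset.sum_Ico_sub (fun m : ℕ => Real.log m) hM]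
  rw [h4] at h2
  linarith

end VinLeaf

open VinLeaf in
/-- LEAF VIN -/
theorem vin : S_VIN := by
  intro θ hθ
  rw [Metric.tendsto_atTop]
  intro ε hε
  obtain ⟨Q, hQ, N₀, hN₀2, h0⟩ := mj4 (ε / 16) (by positivity)
  obtain ⟨N₁, h1⟩ := not_major θ hθ Q
  refine ⟨max N₀ N₁ + 2, fun i hi => ?_⟩
  have hi2 : i < 2 ^ i := Nat.lt_two_pow_self
  set N := 2 ^ i with hN
  have hNi : max N₀ N₁ + 2 ≤ N := by omega
  have hN0 : N₀ ≤ N := by have := le_max_left N₀ N₁; omega
  have hN1 : N₁ ≤ N := by have := le_max_right N₀ N₁; omega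
  have hNr : (4 : ℝ) ≤ N := by
    have : 4 ≤ N := by omega
    exact_mod_cast this
  have hlogN : 0 < Real.log N := Real.log_pos (by linarith)
  -- the partial sums
  set c : ℕ → ℂ := fun n => if n.Prime then Pool.Agent.Helper602.MK.ee (θ * n) else 0 with hc
  have hS : ∀ m, N ≤ m → ‖∑ n ∈ Icc 1 m, c n‖ ≤ ε / 16 * m / Real.log m := by
    intro m hm
    have := h0 m (hN0.trans hm) θ (h1 m (hN1.trans hm))
    rw [Finset.sum_filter] at this
    exact this
  have hB : ∀ m, N ≤ m → m ≤ 2 * N → ‖∑ n ∈ Ioc N m, c n‖ ≤ 3 * (ε / 16) * N / Real.log N := by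
    intro m hm hm2
    have e1 : ∑ n ∈ Ioc N m, c n = ∑ n ∈ Icc 1 m, c n - ∑ n ∈ Icc 1 N, c n := by
      rw [eq_sub_iff_add_eq, add_comm]
      have h3 : Icc 1 N = Ioc 0 N := rfl
      have h4 : Icc 1 m = Ioc 0 m := rfl
      rw [h3, h4]
      exact Finset.sum_Ioc_consecutive c (Nat.zero_le _) hm
    rw [e1]
    refine (norm_sub_le _ _).trans ?_
    have a1 := hS m hm
    have a2 := hS N le_rfl
    have hmr : (N : ℝ) ≤ m := by exact_mod_cast hm
    have hmr2 : (m : ℝ) ≤ 2 * N := by exact_mod_cast hm2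
    have a3 : ε / 16 * m / Real.log m ≤ ε / 16 * (2 * N) / Real.log N := by
      apply div_le_div₀ (by positivity) _ hlogN (Real.log_le_log (by linarith) hmr)
      exact mul_le_mul_of_nonneg_left hmr2 (by positivity)
    have a4 : ε / 16 * (2 * N) / Real.log N + ε / 16 * N / Real.log N = 3 * (ε / 16) * N / Real.log N := by
      ring
    linarith
  have hmain := log_abel c N (2 * N) (by omega) (by omega) _ hB
  have hlog2 : Real.log ((2 * N : ℕ) : ℝ) ≤ 2 * Real.log N := by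
    push_cast
    rw [Real.log_mul (by norm_num) (by linarith)]
    have : Real.log 2 ≤ Real.log N := Real.log_le_log (by norm_num) (by linarith)
    linarith
  have hsum : ∑ p ∈ Pr i, ((Real.log p / 2 ^ i : ℝ) : ℂ) * Complex.exp (2 * Real.pi * Complex.I * (p * θ)) =
      (1 / (N : ℂ)) * ∑ n ∈ Ioc N (2 * N), ((Real.log n : ℝ) : ℂ) * c n := by
    rw [Pr, Finset.sum_filter, Finset.mul_sum, pow_succ, mul_comm (2 ^ i) 2, ← hN]
    apply Finset.sum_congr rfl
    intro n _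
    by_cases hn : n.Prime
    · rw [if_pos hn]
      simp only [hc, if_pos hn]
      have h5 : Pool.Agent.Helper602.MK.ee (θ * n) = Complex.exp (2 * Real.pi * Complex.I * (n * θ)) := by
        unfold Pool.Agent.Helper602.MK.ee
        congr 1
        push_cast
        ring
      rw [h5, hN]
      push_cast
      ring
    · rw [if_neg hn]
      simp only [hc, if_neg hn, mul_zero]
  rw [Real.dist_eq, sub_zero, abs_of_nonneg (norm_nonneg _), hsum, norm_mul]
  have hn1 : ‖(1 / (N : ℂ))‖ = 1 / N := by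
    rw [norm_div, norm_one, Complex.norm_natCast]
  rw [hn1]
  have hfin : 3 * (ε / 16) * N / Real.log N * (2 * Real.log ((2 * N : ℕ) : ℝ) - Real.log N) ≤ 9 * (ε / 16) * N := by
    have h6 : 2 * Real.log ((2 * N : ℕ) : ℝ) - Real.log N ≤ 3 * Real.log N := by linarith
    calc 3 * (ε / 16) * N / Real.log N * (2 * Real.log ((2 * N : ℕ) : ℝ) - Real.log N)
        ≤ 3 * (ε / 16) * N / Real.log N * (3 * Real.log N) :=
          mul_le_mul_of_nonneg_left h6 (by positivity)
      _ = 9 * (ε / 16) * N := by field_simp; ring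
  have h7 := hmain.trans hfin
  calc 1 / (N : ℝ) * ‖∑ n ∈ Ioc N (2 * N), ((Real.log n : ℝ) : ℂ) * c n‖ ≤ 1 / (N : ℝ) * (9 * (ε / 16) * N) :=
        mul_le_mul_of_nonneg_left h7 (by positivity)
    _ = 9 * (ε / 16) := by field_simp
    _ < ε := by linarith

end Pool.Agent.K9h47.JL
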