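import Mathlib
import Pool.Agent.K9h47.JL.Stm

/-!
# Leaf WIN (helper64): the Fourier coefficients of the local spectral density in the limit
-/

set_option autoImplicit false

open MeasureTheory Filter Topology Finset

namespace Pool.Agent.K9h47.JL

lemma win_R_zero (y : ℤ → ℝ) (H : ℕ) (n : ℤ) (hn : n ∉ Ioo (-(H:ℤ)) H) : R y H n = 0 := by
  unfold R
  rw [Finset.filter_eq_empty_iff.mpr, Finset.sum_empty, mul_zero]
  intro m hm
  simp only [mem_Ico, mem_Ioo] at hm hn ⊢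
  omega

lemma win_R_le (y : ℤ → ℝ) (hy : ∀ n, |y n| ≤ 1) (H : ℕ) (hH : 1 ≤ H) (n : ℤ) : |R y H n| ≤ 1 := by
  have hH0 : (0:ℝ) < H := by exact_mod_cast hH
  unfold R
  rw [abs_mul, abs_of_nonneg (by positivity : (0:ℝ) ≤ 1 / (H:ℝ))]
  have h1 : |∑ m ∈ (Ico (0 : ℤ) H).filter (fun m => 0 ≤ m + n ∧ m + n < H), y m * y (m + n)| ≤ H := by
    refine (Finset.abs_sum_le_sum_abs _ _).trans ?_
    refine (Finset.sum_le_sum (fun m _ => (?_ : |y m * y (m + n)| ≤ 1))).trans ?_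
    · rw [abs_mul]
      exact mul_le_one₀ (hy _) (abs_nonneg _) (hy _)
    · rw [Finset.sum_const, nsmul_eq_mul, mul_one]
      have := Finset.card_filter_le (Ico (0:ℤ) H) (fun m => 0 ≤ m + n ∧ m + n < H)
      rw [Int.card_Ico] at this
      have h3 : ((H:ℤ) - 0).toNat = H := by omega
      rw [h3] at this
      exact_mod_cast this
  rw [one_div, inv_mul_le_iff₀ hH0, mul_one]
  exact h1

/-- the weight, cut off -/
noncomputable def winW (H : ℕ) (n : ℤ) : ℝ := max (1 - |(n:ℝ)| / H) 0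

lemma winW_nonneg (H : ℕ) (n : ℤ) : 0 ≤ winW H n := le_max_right _ _

lemma winW_le (H : ℕ) (n : ℤ) : winW H n ≤ 1 := by
  unfold winW
  refine max_le ?_ zero_le_one
  have : 0 ≤ |(n:ℝ)| / H := by positivity
  linarith

lemma winW_in (H : ℕ) (n : ℤ) (hn : n ∈ Ioo (-(H:ℤ)) H) : winW H n = 1 - |(n:ℝ)| / H := by
  unfold winW
  rw [mem_Ioo] at hn
  refine max_eq_left ?_
  have hH0 : (0:ℝ) < H := by
    have : (0:ℤ) < H := by omega
    exact_mod_cast this
  rw [sub_nonneg, div_le_one hH0]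
  have h2 : |n| ≤ (H:ℤ) := by rw [abs_le]; omega
  have : ((|n| : ℤ) : ℝ) ≤ ((H:ℤ) : ℝ) := by exact_mod_cast h2
  rw [Int.cast_abs] at this
  exact_mod_cast this

lemma winW_out (H : ℕ) (hH : 1 ≤ H) (n : ℤ) (hn : n ∉ Ioo (-(H:ℤ)) H) : winW H n = 0 := by
  unfold winW
  refine max_eq_right ?_
  have hH0 : (0:ℝ) < H := by exact_mod_cast hH
  rw [sub_nonpos, one_le_div hH0]
  rw [mem_Ioo] at hn
  have h2 : (H:ℤ) ≤ |n| := by
    rw [le_abs]; omega
  have : ((H:ℤ) : ℝ) ≤ ((|n| : ℤ) : ℝ) := by exact_mod_cast h2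
  rw [Int.cast_abs] at this
  exact_mod_cast this

lemma winW_lip (H : ℕ) (n j : ℤ) : |winW H (n + j) - winW H n| ≤ |(j:ℝ)| / H := by
  unfold winW
  refine (abs_max_sub_max_le_abs _ _ _).trans ?_
  have e : 1 - |((n + j : ℤ) : ℝ)| / H - (1 - |(n:ℝ)| / H) = (|(n:ℝ)| - |((n + j : ℤ) : ℝ)|) / H := by ring
  rw [e, abs_div, abs_of_nonneg (Nat.cast_nonneg H : (0:ℝ) ≤ H)]
  refine div_le_div_of_nonneg_right ?_ (Nat.cast_nonneg H)
  refine (abs_abs_sub_abs_le_abs_sub _ _).trans ?_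
  push_cast
  rw [show (n:ℝ) - (n + j) = -j by ring, abs_neg]

/-- the pointwise estimate -/
lemma win_point (y ρ : ℤ → ℝ) (hy : ∀ n, |y n| ≤ 1) (hρ : ∀ n, |ρ n| ≤ 1) (H : ℕ) (hH : 1 ≤ H) (j : ℤ) :
    |co y H j - (1 / (H : ℝ)) * ∑ n ∈ Ioo (-(H : ℤ)) H, (1 - |(n : ℝ)| / H) ^ 2 * (ρ n * ρ (n + j))| ≤
      2 * ((1 / (H:ℝ)) * ∑ n ∈ Ioo (-(H : ℤ)) H, |R y H n - (1 - |(n : ℝ)| / H) * ρ n|) + 2 * |(j:ℝ)| / H := by
  have hH0 : (0:ℝ) < H := by exact_mod_cast hH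
  set E : ℤ → ℝ := fun n => |R y H n - winW H n * ρ n| with hE
  have hE0 : ∀ n, 0 ≤ E n := fun n => abs_nonneg _
  have hEout : ∀ n, n ∉ Ioo (-(H:ℤ)) H → E n = 0 := by
    intro n hn
    simp only [hE]
    rw [win_R_zero y H n hn, winW_out H hH n hn]
    simp
  have hEin : ∑ n ∈ Ioo (-(H : ℤ)) H, |R y H n - (1 - |(n : ℝ)| / H) * ρ n| = ∑ n ∈ Ioo (-(H : ℤ)) H, E n := by
    refine Finset.sum_congr rfl fun n hn => ?_
    simp only [hE]
    rw [winW_in H n hn]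
  rw [hEin]
  unfold co
  rw [← mul_sub, ← Finset.sum_sub_distrib, abs_mul, abs_of_nonneg (by positivity : (0:ℝ) ≤ 1 / (H:ℝ))]
  have hterm : ∀ n ∈ Ioo (-(H : ℤ)) H,
      |R y H n * R y H (n + j) - (1 - |(n : ℝ)| / H) ^ 2 * (ρ n * ρ (n + j))| ≤
        E n + E (n + j) + |(j:ℝ)| / H := by
    intro n hn
    rw [← winW_in H n hn]
    have e : R y H n * R y H (n + j) - winW H n ^ 2 * (ρ n * ρ (n + j)) =
        (R y H n - winW H n * ρ n) * R y H (n + j) +
        (winW H n * ρ n) * (R y H (n + j) - winW H (n + j) * ρ (n + j)) +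
        (winW H n * ρ n * ρ (n + j)) * (winW H (n + j) - winW H n) := by ring
    rw [e]
    refine (abs_add_le _ _).trans ?_
    refine add_le_add ((abs_add_le _ _).trans (add_le_add ?_ ?_)) ?_
    · rw [abs_mul]
      exact mul_le_of_le_one_right (abs_nonneg _) (win_R_le y hy H hH _)
    · rw [abs_mul]
      refine mul_le_of_le_one_left (abs_nonneg _) ?_
      rw [abs_mul, abs_of_nonneg (winW_nonneg H n)]
      exact mul_le_one₀ (winW_le H n) (abs_nonneg _) (hρ n)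
    · rw [abs_mul]
      refine (mul_le_of_le_one_left (abs_nonneg _) ?_).trans (winW_lip H n j)
      rw [abs_mul, abs_mul, abs_of_nonneg (winW_nonneg H n)]
      exact mul_le_one₀ (mul_le_one₀ (winW_le H n) (abs_nonneg _) (hρ n)) (abs_nonneg _) (hρ _)
  have hshift : ∑ n ∈ Ioo (-(H : ℤ)) H, E (n + j) ≤ ∑ n ∈ Ioo (-(H : ℤ)) H, E n := by
    have h1 : ∑ n ∈ Ioo (-(H : ℤ)) H, E (n + j) =
        ∑ n ∈ (Ioo (-(H : ℤ)) H).map (addRightEmbedding j), E n := by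
      rw [Finset.sum_map]; rfl
    rw [h1]
    rw [← Finset.sum_filter_add_sum_filter_not ((Ioo (-(H : ℤ)) H).map (addRightEmbedding j))
      (fun n => n ∈ Ioo (-(H : ℤ)) H)]
    have h2 : ∑ n ∈ ((Ioo (-(H : ℤ)) H).map (addRightEmbedding j)).filter
        (fun n => ¬ n ∈ Ioo (-(H : ℤ)) H), E n = 0 := by
      refine Finset.sum_eq_zero fun n hn => ?_
      exact hEout n (Finset.mem_filter.mp hn).2
    rw [h2, add_zero]
    refine Finset.sum_le_sum_of_subset_of_nonneg ?_ (fun n _ _ => hE0 n)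
    intro n hn
    exact (Finset.mem_filter.mp hn).2
  have hcard : ((Ioo (-(H : ℤ)) H).card : ℝ) ≤ 2 * H := by
    rw [Int.card_Ioo]
    have : ((H:ℤ) - -(H:ℤ) - 1).toNat ≤ 2 * H := by omega
    exact_mod_cast this
  have hsum : |∑ n ∈ Ioo (-(H : ℤ)) H, (R y H n * R y H (n + j) -
      (1 - |(n : ℝ)| / H) ^ 2 * (ρ n * ρ (n + j)))| ≤
      2 * ∑ n ∈ Ioo (-(H : ℤ)) H, E n + 2 * |(j:ℝ)| := by
    refine (Finset.abs_sum_le_sum_abs _ _).trans ((Finset.sum_le_sum hterm).trans ?_)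
    rw [Finset.sum_add_distrib, Finset.sum_add_distrib, Finset.sum_const, nsmul_eq_mul]
    have h3 : ((Ioo (-(H : ℤ)) H).card : ℝ) * (|(j:ℝ)| / H) ≤ 2 * |(j:ℝ)| := by
      calc ((Ioo (-(H : ℤ)) H).card : ℝ) * (|(j:ℝ)| / H) ≤ (2 * H) * (|(j:ℝ)| / H) :=
            mul_le_mul_of_nonneg_right hcard (by positivity)
        _ = 2 * |(j:ℝ)| := by field_simp
    linarith
  calc (1 / (H:ℝ)) * |∑ n ∈ Ioo (-(H : ℤ)) H, (R y H n * R y H (n + j) -
      (1 - |(n : ℝ)| / H) ^ 2 * (ρ n * ρ (n + j)))|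
      ≤ (1 / (H:ℝ)) * (2 * ∑ n ∈ Ioo (-(H : ℤ)) H, E n + 2 * |(j:ℝ)|) :=
        mul_le_mul_of_nonneg_left hsum (by positivity)
    _ = _ := by ring

lemma win_R_meas {Ω : Type} [MeasurableSpace Ω] (x : ℤ → Ω → ℝ) (hx : ∀ n, Measurable (x n)) (H : ℕ) (n : ℤ) :
    Measurable (fun ω => R (fun k => x k ω) H n) := by
  unfold R
  refine Measurable.const_mul ?_ _
  exact Finset.measurable_sum _ (fun m _ => (hx _).mul (hx _))

theorem win (h1 : S_WTWO) (h2 : S_WTHR) : S_WIN := by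
  intro Ω _ μ T x r A g hS hC hL j
  haveI := hS.prob
  have ht1 := h1 μ T x r A g hS hC hL
  have ht2 := h2 μ r (g j) j hC.meas hC.bd (hL.meas j) (hL.bd j) (hL.lim j)
  have ht3 : Tendsto (fun H : ℕ => 2 * |(j:ℝ)| / H) atTop (𝓝 0) := tendsto_const_div_atTop_nhds_zero_nat _
  have ht := ((ht1.const_mul 2).add ht3).add ht2
  simp only [mul_zero, add_zero] at ht
  refine squeeze_zero' (Eventually.of_forall fun H => integral_nonneg fun ω => abs_nonneg _) ?_ ht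
  filter_upwards [eventually_ge_atTop 1] with H hH
  have hEm : ∀ n : ℤ, Measurable (fun ω => |R (fun k => x k ω) H n - (1 - |(n : ℝ)| / H) * r n ω|) := by
    intro n
    exact ((win_R_meas x hS.meas H n).sub ((hC.meas n).const_mul _)).abs
  have hEi : ∀ n ∈ Ioo (-(H : ℤ)) H,
      Integrable (fun ω => |R (fun k => x k ω) H n - (1 - |(n : ℝ)| / H) * r n ω|) μ := by
    intro n hn
    refine Integrable.of_bound (hEm n).aestronglyMeasurable 2 (Eventually.of_forall fun ω => ?_)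
    rw [Real.norm_eq_abs, abs_abs]
    refine (abs_sub _ _).trans ?_
    have e1 := win_R_le (fun k => x k ω) (fun n => hS.bd n ω) H hH n
    have e2 : |(1 - |(n : ℝ)| / H) * r n ω| ≤ 1 := by
      rw [← winW_in H n hn, abs_mul, abs_of_nonneg (winW_nonneg H n)]
      exact mul_le_one₀ (winW_le H n) (abs_nonneg _) (hC.bd n ω)
    linarith
  have hTm : Measurable (fun ω => |(1 / (H : ℝ)) * ∑ n ∈ Ioo (-(H : ℤ)) H,
    (1 - |(n : ℝ)| / H) ^ 2 * (r n ω * r (n + j) ω) - (2 / 3) * g j ω|) := by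
    refine Measurable.abs (Measurable.sub (Measurable.const_mul ?_ _) ((hL.meas j).const_mul _))
    exact Finset.measurable_sum _ (fun n _ => ((hC.meas n).mul (hC.meas _)).const_mul _)
  have hTi : Integrable (fun ω => |(1 / (H : ℝ)) * ∑ n ∈ Ioo (-(H : ℤ)) H,
    (1 - |(n : ℝ)| / H) ^ 2 * (r n ω * r (n + j) ω) - (2 / 3) * g j ω|) μ := by
    refine Integrable.abs ?_
    refine Integrable.sub (Integrable.const_mul ?_ _) (Integrable.const_mul ?_ _)
    · refine integrable_finsetSum _ (fun n _ => Integrable.const_mul ?_ _)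
      refine Integrable.of_bound ((hC.meas n).mul (hC.meas _)).aestronglyMeasurable 1
        (Eventually.of_forall fun ω => ?_)
      rw [Real.norm_eq_abs, abs_mul]
      exact mul_le_one₀ (hC.bd _ _) (abs_nonneg _) (hC.bd _ _)
    · refine Integrable.of_bound (hL.meas j).aestronglyMeasurable 1 (Eventually.of_forall fun ω => ?_)
      rw [Real.norm_eq_abs]
      exact hL.bd j ω
  have hEs : Integrable (fun ω => 2 * ((1 / (H:ℝ)) * ∑ n ∈ Ioo (-(H : ℤ)) H,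
      |R (fun k => x k ω) H n - (1 - |(n : ℝ)| / H) * r n ω|)) μ :=
    ((integrable_finsetSum _ hEi).const_mul _).const_mul _
  have hmain : ∫ ω, |co (fun k => x k ω) H j - (2 / 3) * g j ω| ∂μ ≤
      ∫ ω, ((2 * ((1 / (H:ℝ)) * ∑ n ∈ Ioo (-(H : ℤ)) H,
        |R (fun k => x k ω) H n - (1 - |(n : ℝ)| / H) * r n ω|) + 2 * |(j:ℝ)| / H) +
      |(1 / (H : ℝ)) * ∑ n ∈ Ioo (-(H : ℤ)) H,
        (1 - |(n : ℝ)| / H) ^ 2 * (r n ω * r (n + j) ω) - (2 / 3) * g j ω|) ∂μ := by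
    refine integral_mono_of_nonneg (Eventually.of_forall fun ω => abs_nonneg _) ?_
      (Eventually.of_forall fun ω => ?_)
    · exact (hEs.add (integrable_const _)).add hTi
    · simp only
      have e1 := win_point (fun k => x k ω) (fun n => r n ω) (fun n => hS.bd n ω) (fun n => hC.bd n ω) H hH j
      refine (abs_sub_le _ ((1 / (H : ℝ)) * ∑ n ∈ Ioo (-(H : ℤ)) H,
        (1 - |(n : ℝ)| / H) ^ 2 * (r n ω * r (n + j) ω)) _).trans ?_
      linarith
  refine hmain.trans (le_of_eq ?_)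
  have hA : Integrable (fun ω => 2 * ((1 / (H:ℝ)) * ∑ n ∈ Ioo (-(H : ℤ)) H,
      |R (fun k => x k ω) H n - (1 - |(n : ℝ)| / H) * r n ω|) + 2 * |(j:ℝ)| / H) μ :=
    hEs.add (integrable_const _)
  rw [integral_add hA hTi, integral_add hEs (integrable_const _),
    integral_const_mul, integral_const_mul, integral_finsetSum _ hEi]
  simp

end Pool.Agent.K9h47.JL
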