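import Mathlib
import Pool.Agent.K9h47.JL.Stm

/-!
# Leaf WONE (helper64): Fourier coefficients of the density `H |F_H|^4`
-/

set_option autoImplicit false

open MeasureTheory Filter Topology Finset

namespace Pool.Agent.K9h47.JL

/-- a double sum over a window, grouped by the difference of the places -/
lemma wone_dsum (y : ℤ → ℝ) (H : ℕ) (hH : 1 ≤ H) (F : ℤ → ℂ) :
    ∑ h ∈ Ico (0:ℤ) H, ∑ k ∈ Ico (0:ℤ) H, ((y h : ℝ) : ℂ) * ((y k : ℝ) : ℂ) * F (h - k)
      = ∑ n ∈ Ioo (-(H:ℤ)) H, (H : ℂ) * ((R y H n : ℝ) : ℂ) * F n := by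
  have hH0 : (H : ℝ) ≠ 0 := by positivity
  have e1 : ∀ n, (H : ℂ) * ((R y H n : ℝ) : ℂ) =
      ∑ m ∈ (Ico (0 : ℤ) H).filter (fun m => 0 ≤ m + n ∧ m + n < H),
        ((y m : ℝ) : ℂ) * ((y (m + n) : ℝ) : ℂ) := by
    intro n
    have : (H : ℝ) * R y H n =
        ∑ m ∈ (Ico (0 : ℤ) H).filter (fun m => 0 ≤ m + n ∧ m + n < H), y m * y (m + n) := by
      unfold R
      field_simp
    have h2 := congrArg (fun t : ℝ => (t : ℂ)) this
    push_cast at h2
    exact h2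
  simp only [e1, Finset.sum_mul]
  rw [Finset.sum_sigma', Finset.sum_sigma']
  refine Finset.sum_nbij' (fun p => ⟨p.1 - p.2, p.2⟩) (fun p => ⟨p.2 + p.1, p.2⟩) ?_ ?_ ?_ ?_ ?_
  · rintro ⟨h, k⟩ hp
    simp only [mem_sigma, mem_Ico, mem_Ioo, mem_filter] at hp ⊢
    refine ⟨⟨by omega, by omega⟩, ⟨by omega, by omega⟩, by omega, by omega⟩
  · rintro ⟨n, m⟩ hp
    simp only [mem_sigma, mem_Ico, mem_Ioo, mem_filter] at hp ⊢
    refine ⟨⟨by omega, by omega⟩, by omega, by omega⟩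
  · rintro ⟨h, k⟩ hp
    simp
  · rintro ⟨n, m⟩ hp
    simp
  · rintro ⟨h, k⟩ hp
    simp only
    rw [show k + (h - k) = h by ring]
    ring

lemma wone_range (H : ℕ) (f : ℤ → ℂ) : ∑ h ∈ range H, f (h : ℤ) = ∑ h ∈ Ico (0:ℤ) H, f h := by
  refine Finset.sum_nbij' (fun h => (h : ℤ)) (fun h => h.toNat) ?_ ?_ ?_ ?_ ?_
  · intro h hh; simp only [mem_range, mem_Ico] at hh ⊢; omega
  · intro h hh; simp only [mem_range, mem_Ico] at hh ⊢; omega
  · intro h hh; simp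
  · intro h hh; simp only [mem_Ico] at hh; simp; omega
  · intro h hh; rfl

lemma wone_sq (y : ℤ → ℝ) (H : ℕ) (hH : 1 ≤ H) (α : UnitAddCircle) :
    ((‖FF y H α‖ ^ 2 : ℝ) : ℂ) =
      (∑ n ∈ Ioo (-(H:ℤ)) H, ((R y H n : ℝ) : ℂ) * fourier n α) / H := by
  have hH0 : (H : ℂ) ≠ 0 := by
    have : (H : ℝ) ≠ 0 := by positivity
    exact_mod_cast this
  have h1 : ((‖FF y H α‖ ^ 2 : ℝ) : ℂ) = FF y H α * (starRingEnd ℂ) (FF y H α) := by
    rw [Complex.mul_conj, Complex.normSq_eq_norm_sq]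
  rw [h1]
  unfold FF
  rw [wone_range H (fun h => ((y h : ℝ) : ℂ) * fourier h α)]
  rw [map_div₀, map_sum]
  simp only [map_mul, Complex.conj_ofReal, Complex.conj_natCast]
  rw [div_mul_div_comm, Finset.sum_mul_sum]
  have h2 : ∑ h ∈ Ico (0:ℤ) H, ∑ k ∈ Ico (0:ℤ) H,
      ((y h : ℝ) : ℂ) * fourier h α * (((y k : ℝ) : ℂ) * (starRingEnd ℂ) (fourier k α)) =
      ∑ h ∈ Ico (0:ℤ) H, ∑ k ∈ Ico (0:ℤ) H, ((y h : ℝ) : ℂ) * ((y k : ℝ) : ℂ) * fourier (h - k) α := by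
    refine Finset.sum_congr rfl fun h _ => Finset.sum_congr rfl fun k _ => ?_
    rw [sub_eq_add_neg, fourier_add, fourier_neg]
    ring
  rw [h2, wone_dsum y H hH (fun n => fourier n α)]
  simp only [mul_assoc]
  rw [← Finset.mul_sum]
  field_simp

lemma wone_int (m : ℤ) : ∫ α : UnitAddCircle, (fourier m α : ℂ) = if m = 0 then 1 else 0 := by
  have h := congrFun (fourierCoeff_fourier (T := (1:ℝ)) m) 0
  unfold fourierCoeff at h
  simp only [neg_zero, fourier_zero, one_smul] at h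
  rw [AddCircle.integral_haarAddCircle] at h
  simp only [inv_one, one_smul] at h
  rw [h, Pi.single_apply]
  by_cases hm : m = 0
  · simp [hm]
  · simp [hm, Ne.symm hm]

lemma wone_R_even (y : ℤ → ℝ) (H : ℕ) (n : ℤ) : R y H (-n) = R y H n := by
  unfold R
  congr 1
  refine Finset.sum_nbij' (fun m => m - n) (fun m => m + n) ?_ ?_ ?_ ?_ ?_
  · intro m hm
    simp only [mem_filter, mem_Ico] at hm ⊢
    omega
  · intro m hm
    simp only [mem_filter, mem_Ico] at hm ⊢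
    omega
  · intro m hm; simp
  · intro m hm; simp
  · intro m hm
    rw [show m + -n = m - n by ring, show m - n + n = m by ring]
    ring

lemma wone_R_zero (y : ℤ → ℝ) (H : ℕ) (n : ℤ) (hn : n ∉ Ioo (-(H:ℤ)) H) : R y H n = 0 := by
  unfold R
  rw [Finset.filter_eq_empty_iff.mpr, Finset.sum_empty, mul_zero]
  intro m hm
  simp only [mem_Ico, mem_Ioo] at hm hn ⊢
  omega

theorem wone : S_WONE := by
  intro y H j hH
  have hH0 : (H : ℂ) ≠ 0 := by
    have : (H : ℝ) ≠ 0 := by positivity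
    exact_mod_cast this
  have h1 : ∀ α : UnitAddCircle, fourier j α * ((‖FF y H α‖ ^ 4 : ℝ) : ℂ) =
      ∑ n ∈ Ioo (-(H:ℤ)) H, ∑ n' ∈ Ioo (-(H:ℤ)) H,
        (((R y H n : ℝ) : ℂ) * ((R y H n' : ℝ) : ℂ) / (H * H)) * fourier (j + n + n') α := by
    intro α
    have : ((‖FF y H α‖ ^ 4 : ℝ) : ℂ) = ((‖FF y H α‖ ^ 2 : ℝ) : ℂ) * ((‖FF y H α‖ ^ 2 : ℝ) : ℂ) := by
      push_cast; ring
    rw [this, wone_sq y H hH α, div_mul_div_comm, Finset.sum_mul_sum, Finset.sum_div, Finset.mul_sum]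
    refine Finset.sum_congr rfl fun n _ => ?_
    rw [Finset.sum_div, Finset.mul_sum]
    refine Finset.sum_congr rfl fun n' _ => ?_
    rw [fourier_add, fourier_add]
    ring
  simp only [h1]
  have hint : ∀ m : ℤ, Integrable (fun α : UnitAddCircle => (fourier m α : ℂ)) := by
    intro m
    exact (ContinuousMap.continuous (fourier m)).integrable_of_hasCompactSupport
      (HasCompactSupport.of_compactSpace _)
  rw [integral_finsetSum _ (fun n _ => integrable_finsetSum _ (fun n' _ => (hint _).const_mul _))]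
  have h2 : ∀ n ∈ Ioo (-(H:ℤ)) H,
      ∫ α : UnitAddCircle, ∑ n' ∈ Ioo (-(H:ℤ)) H,
        (((R y H n : ℝ) : ℂ) * ((R y H n' : ℝ) : ℂ) / (H * H)) * fourier (j + n + n') α
      = ((R y H n : ℝ) : ℂ) * ((R y H (n + j) : ℝ) : ℂ) / (H * H) := by
    intro n hn
    rw [integral_finsetSum _ (fun n' _ => (hint _).const_mul _)]
    simp only [integral_const_mul, wone_int]
    have h3 : ∀ n' ∈ Ioo (-(H:ℤ)) H, (((R y H n : ℝ) : ℂ) * ((R y H n' : ℝ) : ℂ) / (H * H)) *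
        (if j + n + n' = 0 then (1:ℂ) else 0) =
        if n' = -(n + j) then (((R y H n : ℝ) : ℂ) * ((R y H n' : ℝ) : ℂ) / (H * H)) else 0 := by
      intro n' _
      by_cases h : n' = -(n + j)
      · rw [if_pos h, if_pos (by omega), mul_one]
      · rw [if_neg h, if_neg (by omega), mul_zero]
    rw [Finset.sum_congr rfl h3, Finset.sum_ite_eq' (Ioo (-(H:ℤ)) H) (-(n+j))]
    split_ifs with h4
    · rw [wone_R_even]
    · rw [← wone_R_even y H (n + j), wone_R_zero y H _ h4]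
      simp
  rw [Finset.sum_congr rfl h2]
  unfold co
  push_cast
  rw [Finset.mul_sum, Finset.mul_sum]
  refine Finset.sum_congr rfl fun n _ => ?_
  field_simp

end Pool.Agent.K9h47.JL
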