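import Mathlib
import Pool.Agent.K9h47.JL.Stm

/-!
# Chebyshev's bound for the primes of a dyadic interval (leaf WT)
-/

set_option autoImplicit false

open Finset

namespace Pool.Agent.K9h47.JL

theorem wt : S_WT := by
  intro i
  have h1 : ∑ p ∈ Pr i, Real.log p ≤ Chebyshev.theta ((2 ^ (i + 1) : ℕ) : ℝ) := by
    unfold Chebyshev.theta
    rw [Nat.floor_natCast]
    refine Finset.sum_le_sum_of_subset_of_nonneg ?_ fun p _ _ => Real.log_natCast_nonneg p
    intro p hp
    unfold Pr at hp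
    rw [mem_filter, mem_Ioc] at hp ⊢
    exact ⟨⟨hp.2.pos, hp.1.2⟩, hp.2⟩
  have h2 := Chebyshev.theta_le_log4_mul_x (x := ((2 ^ (i + 1) : ℕ) : ℝ)) (by positivity)
  have h3 : Real.log 4 = 2 * Real.log 2 := by
    rw [show (4 : ℝ) = 2 ^ 2 by norm_num, Real.log_pow]
    norm_num
  have h4 := Real.log_two_lt_d9
  rw [← Finset.sum_div, div_le_iff₀ (by positivity)]
  refine (h1.trans h2).trans ?_
  rw [h3]
  push_cast
  rw [pow_succ]
  nlinarith [pow_pos (show (0 : ℝ) < 2 by norm_num) i]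

end Pool.Agent.K9h47.JL
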