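import Mathlib
import Pool.Agent.K9h47.JL.Stm

/-!
# Joint law of the local frequencies: weights `(1 - |n|/H)²` from triangles (leaf WTHR)
-/

set_option autoImplicit false

open MeasureTheory Filter Topology Finset

namespace Pool.Agent.K9h47.JL

namespace Wthr

lemma ioo_succ (F : ℤ → ℝ) (H : ℕ) (hH : 1 ≤ H) :
    ∑ n ∈ Ioo (-((H + 1 : ℕ) : ℤ)) ((H + 1 : ℕ) : ℤ), F n =
      ∑ n ∈ Ioo (-(H : ℤ)) H, F n + (F H + F (-(H : ℤ))) := by
  have e : Ioo (-((H + 1 : ℕ) : ℤ)) ((H + 1 : ℕ) : ℤ) =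
      insert (H : ℤ) (insert (-(H : ℤ)) (Ioo (-(H : ℤ)) H)) := by
    ext n
    simp only [mem_Ioo, mem_insert]
    push_cast
    omega
  rw [e, sum_insert, sum_insert]
  · ring
  · simp
  · simp only [mem_insert, mem_Ioo, not_or]
    omega

lemma ioo_eq (F : ℤ → ℝ) (N : ℕ) :
    ∑ n ∈ Ioo (-((N + 1 : ℕ) : ℤ)) ((N + 1 : ℕ) : ℤ), F n =
      F 0 + ∑ k ∈ range N, (F ((k : ℤ) + 1) + F (-((k : ℤ) + 1))) := by
  induction N with
  | zero =>
    have e : Ioo (-((0 + 1 : ℕ) : ℤ)) ((0 + 1 : ℕ) : ℤ) = {0} := by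
      ext n
      simp only [mem_Ioo, mem_singleton]
      push_cast
      omega
    rw [e]
    simp
  | succ N ih =>
    rw [ioo_succ F (N + 1) (by omega), ih, sum_range_succ]
    push_cast
    ring

/-- double sum -/
def DD (y : ℤ → ℝ) (N : ℕ) : ℝ := ∑ i ∈ range N, ∑ k ∈ range N, y ((i : ℤ) - k)

lemma dd_succ (y : ℤ → ℝ) (N : ℕ) : DD y (N + 1) =
    DD y N + (y 0 + ∑ k ∈ range N, (y ((k : ℤ) + 1) + y (-((k : ℤ) + 1)))) := by
  unfold DD
  rw [sum_range_succ, sum_range_succ]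
  have h1 : ∑ i ∈ range N, ∑ k ∈ range (N + 1), y ((i : ℤ) - k) =
      ∑ i ∈ range N, ∑ k ∈ range N, y ((i : ℤ) - k) + ∑ i ∈ range N, y ((i : ℤ) - N) := by
    rw [← sum_add_distrib]
    refine sum_congr rfl fun i _ => ?_
    rw [sum_range_succ]
  have h2 : ∑ i ∈ range N, y ((i : ℤ) - N) = ∑ k ∈ range N, y (-((k : ℤ) + 1)) := by
    rw [← sum_range_reflect]
    refine sum_congr rfl fun k hk => ?_
    rw [mem_range] at hk
    congr 1
    omega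
  have h3 : ∑ k ∈ range N, y ((N : ℤ) - k) = ∑ k ∈ range N, y ((k : ℤ) + 1) := by
    rw [← sum_range_reflect]
    refine sum_congr rfl fun k hk => ?_
    rw [mem_range] at hk
    congr 1
    omega
  rw [h1, h2, h3, sub_self, sum_add_distrib]
  ring

lemma dd_eq (y : ℤ → ℝ) (N : ℕ) : DD y (N + 1) =
    ((N : ℝ) + 1) * y 0 + ∑ k ∈ range N, ((N : ℝ) - k) * (y ((k : ℤ) + 1) + y (-((k : ℤ) + 1))) := by
  induction N with
  | zero => simp [DD]
  | succ N ih =>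
    rw [dd_succ, ih]
    have h1 : ∑ k ∈ range (N + 1), (((N + 1 : ℕ) : ℝ) - k) * (y ((k : ℤ) + 1) + y (-((k : ℤ) + 1))) =
        ∑ k ∈ range (N + 1), ((N : ℝ) - k) * (y ((k : ℤ) + 1) + y (-((k : ℤ) + 1))) +
          ∑ k ∈ range (N + 1), (y ((k : ℤ) + 1) + y (-((k : ℤ) + 1))) := by
      rw [← sum_add_distrib]
      refine sum_congr rfl fun k _ => ?_
      push_cast
      ring
    rw [h1, sum_range_succ (fun k => ((N : ℝ) - k) * (y ((k : ℤ) + 1) + y (-((k : ℤ) + 1))))]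
    push_cast
    ring

/-- the sum with the squared weights -/
lemma sq_eq (y : ℤ → ℝ) (N : ℕ) :
    ((N : ℝ) + 1) ^ 2 * y 0 + ∑ k ∈ range N, ((N : ℝ) - k) ^ 2 *
      (y ((k : ℤ) + 1) + y (-((k : ℤ) + 1))) = ∑ i ∈ range (N + 1), (DD y i + DD y (i + 1)) := by
  induction N with
  | zero => simp [DD]
  | succ N ih =>
    rw [sum_range_succ (fun i => DD y i + DD y (i + 1)), ← ih, dd_eq y N, dd_eq y (N + 1)]
    have h1 : ∑ k ∈ range (N + 1), (((N + 1 : ℕ) : ℝ) - k) ^ 2 * (y ((k : ℤ) + 1) + y (-((k : ℤ) + 1))) =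
        ∑ k ∈ range (N + 1), ((N : ℝ) - k) ^ 2 * (y ((k : ℤ) + 1) + y (-((k : ℤ) + 1))) +
        ∑ k ∈ range (N + 1), ((N : ℝ) - k) * (y ((k : ℤ) + 1) + y (-((k : ℤ) + 1))) +
        ∑ k ∈ range (N + 1), (((N + 1 : ℕ) : ℝ) - k) * (y ((k : ℤ) + 1) + y (-((k : ℤ) + 1))) := by
      rw [← sum_add_distrib, ← sum_add_distrib]
      refine sum_congr rfl fun k _ => ?_
      push_cast
      ring
    rw [h1, sum_range_succ (fun k => ((N : ℝ) - k) ^ 2 * (y ((k : ℤ) + 1) + y (-((k : ℤ) + 1)))),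
      sum_range_succ (fun k => ((N : ℝ) - k) * (y ((k : ℤ) + 1) + y (-((k : ℤ) + 1))))]
    push_cast
    ring

lemma weights (y : ℤ → ℝ) (H : ℕ) (hH : 1 ≤ H) :
    (1 / (H : ℝ)) * ∑ n ∈ Ioo (-(H : ℤ)) H, (1 - |(n : ℝ)| / H) ^ 2 * y n =
      (1 / (H : ℝ) ^ 3) * ∑ i ∈ range H, (DD y i + DD y (i + 1)) := by
  obtain ⟨N, rfl⟩ : ∃ N, H = N + 1 := ⟨H - 1, by omega⟩
  have hN : ((N + 1 : ℕ) : ℝ) ≠ 0 := by positivity
  rw [ioo_eq (fun n => (1 - |(n : ℝ)| / ((N + 1 : ℕ) : ℝ)) ^ 2 * y n) N, ← sq_eq]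
  have h1 : ∀ k ∈ range N, ((1 - |(((k : ℤ) + 1 : ℤ) : ℝ)| / ((N + 1 : ℕ) : ℝ)) ^ 2 * y ((k : ℤ) + 1) +
      (1 - |((-((k : ℤ) + 1) : ℤ) : ℝ)| / ((N + 1 : ℕ) : ℝ)) ^ 2 * y (-((k : ℤ) + 1))) =
      (1 / ((N + 1 : ℕ) : ℝ) ^ 2) * (((N : ℝ) - k) ^ 2 * (y ((k : ℤ) + 1) + y (-((k : ℤ) + 1)))) := by
    intro k _
    have e1 : |(((k : ℤ) + 1 : ℤ) : ℝ)| = (k : ℝ) + 1 := by
      push_cast
      exact abs_of_nonneg (by positivity)
    have e2 : |((-((k : ℤ) + 1) : ℤ) : ℝ)| = (k : ℝ) + 1 := by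
      rw [Int.cast_neg, abs_neg, e1]
    rw [e1, e2]
    have e3 : 1 - ((k : ℝ) + 1) / ((N + 1 : ℕ) : ℝ) = ((N : ℝ) - k) / ((N + 1 : ℕ) : ℝ) := by
      rw [eq_div_iff hN, sub_mul, div_mul_cancel₀ _ hN]
      push_cast
      ring
    rw [e3]
    ring
  rw [sum_congr rfl h1, ← mul_sum]
  simp only [Int.cast_zero, abs_zero, zero_div, sub_zero, one_pow, one_mul]
  have e4 : y 0 = (1 / ((N + 1 : ℕ) : ℝ) ^ 2) * (((N : ℝ) + 1) ^ 2 * y 0) := by
    have : ((N : ℝ) + 1) = ((N + 1 : ℕ) : ℝ) := by push_cast; ring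
    rw [this]
    field_simp
  nth_rewrite 1 [e4]
  field_simp

lemma sum_sq (H : ℕ) : ∑ i ∈ range H, (((i : ℝ)) ^ 2 + ((i : ℝ) + 1) ^ 2) =
    (2 * (H : ℝ) ^ 3 + H) / 3 := by
  induction H with
  | zero => simp
  | succ H ih =>
    rw [sum_range_succ, ih]
    push_cast
    ring

section
variable {Ω : Type} [MeasurableSpace Ω] (r : ℤ → Ω → ℝ)

omit [MeasurableSpace Ω] in
lemma g_dd (j : ℤ) (N : ℕ) (ω : Ω) :
    (N : ℝ) ^ 2 * G r (pr 1) (pr 1) N N j ω = DD (fun n => r n ω * r (n + j) ω) N := by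
  unfold G DD pr
  rcases Nat.eq_zero_or_pos N with h | h
  · subst h
    simp
  · have hN : (N : ℝ) ≠ 0 := by positivity
    have e : ∀ i k : ℕ, ((1 : ℕ) : ℤ) * (i : ℤ) - ((1 : ℕ) : ℤ) * (k : ℤ) = (i : ℤ) - k := by
      intro i k
      push_cast
      ring
    simp only [e]
    field_simp

omit [MeasurableSpace Ω] in
lemma g_abs (hr : ∀ n ω, |r n ω| ≤ 1) (j : ℤ) (N : ℕ) (ω : Ω) :
    |G r (pr 1) (pr 1) N N j ω| ≤ 1 := by
  unfold G
  rcases Nat.eq_zero_or_pos N with h | h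
  · subst h
    simp
  · have hN : (0 : ℝ) < N := by exact_mod_cast h
    rw [abs_mul, abs_of_pos (by positivity : (0 : ℝ) < 1 / ((N : ℝ) * N)), one_div,
      inv_mul_le_iff₀ (by positivity), mul_one]
    refine (abs_sum_le_sum_abs _ _).trans ?_
    have h1 : ∀ i ∈ range N, |∑ k ∈ range N, r (pr 1 i - pr 1 k) ω * r (pr 1 i - pr 1 k + j) ω| ≤ N := by
      intro i _
      refine (abs_sum_le_sum_abs _ _).trans ?_
      have h2 : ∀ k ∈ range N, |r (pr 1 i - pr 1 k) ω * r (pr 1 i - pr 1 k + j) ω| ≤ 1 := by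
        intro k _
        rw [abs_mul]
        exact mul_le_one₀ (hr _ _) (abs_nonneg _) (hr _ _)
      refine (sum_le_sum h2).trans (le_of_eq ?_)
      simp
    refine (sum_le_sum h1).trans (le_of_eq ?_)
    simp

end

end Wthr

open Wthr

theorem wthr : S_WTHR := by
  intro Ω _ μ _ r g j hrm hr hgm hg hlim
  set Gn : ℕ → Ω → ℝ := fun N ω => G r (pr 1) (pr 1) N N j ω with hGn
  have hGm : ∀ N, Measurable (Gn N) := by
    intro N
    simp only [hGn]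
    unfold G
    refine Measurable.const_mul ?_ _
    refine Finset.measurable_fun_sum _ fun i _ => ?_
    refine Finset.measurable_fun_sum _ fun k _ => ?_
    exact (hrm _).mul (hrm _)
  have hint : ∀ N, Integrable (fun ω => |Gn N ω - g ω|) μ := by
    intro N
    refine Integrable.of_bound (C := 2) ?_ (Eventually.of_forall fun ω => ?_)
    · exact (continuous_abs.measurable.comp ((hGm N).sub hgm)).aestronglyMeasurable
    · rw [Real.norm_eq_abs, abs_abs]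
      have h1 := abs_sub (Gn N ω) (g ω)
      have h2 := g_abs r hr j N ω
      have h3 := hg ω
      have h4 : |Gn N ω| ≤ 1 := h2
      linarith
  set e : ℕ → ℝ := fun N => ∫ ω, |Gn N ω - g ω| ∂μ with he
  have he0 : Tendsto e atTop (𝓝 0) := hlim
  have hc1 : Tendsto (fun H : ℕ => (H : ℝ)⁻¹ * ∑ i ∈ range H, e i) atTop (𝓝 0) := he0.cesaro
  have hc2 : Tendsto (fun H : ℕ => (H : ℝ)⁻¹ * ∑ i ∈ range H, e (i + 1)) atTop (𝓝 0) :=
    ((tendsto_add_atTop_iff_nat 1).2 he0).cesaro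
  have hc3 : Tendsto (fun H : ℕ => (H : ℝ)⁻¹) atTop (𝓝 0) := tendsto_inv_atTop_nhds_zero_nat
  have hc : Tendsto (fun H : ℕ => (H : ℝ)⁻¹ * ∑ i ∈ range H, e i +
      (H : ℝ)⁻¹ * ∑ i ∈ range H, e (i + 1) + (H : ℝ)⁻¹) atTop (𝓝 0) := by
    simpa using (hc1.add hc2).add hc3
  refine tendsto_of_tendsto_of_tendsto_of_le_of_le' tendsto_const_nhds hc
    (Eventually.of_forall fun H => integral_nonneg fun ω => abs_nonneg _) ?_
  filter_upwards [eventually_ge_atTop 1] with H hH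
  have hH0 : (0 : ℝ) < H := by exact_mod_cast hH
  have hpt : ∀ ω, |(1 / (H : ℝ)) * ∑ n ∈ Ioo (-(H : ℤ)) H,
      (1 - |(n : ℝ)| / H) ^ 2 * (r n ω * r (n + j) ω) - (2 / 3) * g ω| ≤
      (H : ℝ)⁻¹ * ∑ i ∈ range H, |Gn i ω - g ω| +
        (H : ℝ)⁻¹ * ∑ i ∈ range H, |Gn (i + 1) ω - g ω| + (H : ℝ)⁻¹ := by
    intro ω
    rw [weights (fun n => r n ω * r (n + j) ω) H hH]
    have h1 : ∑ i ∈ range H, (DD (fun n => r n ω * r (n + j) ω) i +
        DD (fun n => r n ω * r (n + j) ω) (i + 1)) =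
        ∑ i ∈ range H, ((i : ℝ) ^ 2 * (Gn i ω - g ω) + ((i : ℝ) + 1) ^ 2 * (Gn (i + 1) ω - g ω)) +
          (2 * (H : ℝ) ^ 3 + H) / 3 * g ω := by
      rw [← sum_sq, sum_mul, ← sum_add_distrib]
      refine sum_congr rfl fun i _ => ?_
      rw [← g_dd r j i ω, ← g_dd r j (i + 1) ω]
      simp only [hGn]
      push_cast
      ring
    rw [h1]
    have h2 : (1 / (H : ℝ) ^ 3) * (∑ i ∈ range H, ((i : ℝ) ^ 2 * (Gn i ω - g ω) +
        ((i : ℝ) + 1) ^ 2 * (Gn (i + 1) ω - g ω)) + (2 * (H : ℝ) ^ 3 + H) / 3 * g ω) - (2 / 3) * g ω =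
        (1 / (H : ℝ) ^ 3) * ∑ i ∈ range H, ((i : ℝ) ^ 2 * (Gn i ω - g ω) +
        ((i : ℝ) + 1) ^ 2 * (Gn (i + 1) ω - g ω)) + 1 / (3 * (H : ℝ) ^ 2) * g ω := by
      field_simp
      ring
    rw [h2]
    refine (abs_add_le _ _).trans ?_
    have h3 : |(1 / (H : ℝ) ^ 3) * ∑ i ∈ range H, ((i : ℝ) ^ 2 * (Gn i ω - g ω) +
        ((i : ℝ) + 1) ^ 2 * (Gn (i + 1) ω - g ω))| ≤
        (H : ℝ)⁻¹ * ∑ i ∈ range H, |Gn i ω - g ω| + (H : ℝ)⁻¹ * ∑ i ∈ range H, |Gn (i + 1) ω - g ω| := by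
      rw [abs_mul, abs_of_pos (by positivity : (0 : ℝ) < 1 / (H : ℝ) ^ 3), ← mul_add,
        ← sum_add_distrib]
      have h4 : |∑ i ∈ range H, ((i : ℝ) ^ 2 * (Gn i ω - g ω) +
          ((i : ℝ) + 1) ^ 2 * (Gn (i + 1) ω - g ω))| ≤
          (H : ℝ) ^ 2 * ∑ i ∈ range H, (|Gn i ω - g ω| + |Gn (i + 1) ω - g ω|) := by
        refine (abs_sum_le_sum_abs _ _).trans ?_
        rw [mul_sum]
        refine sum_le_sum fun i hi => ?_
        rw [mem_range] at hi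
        have h5 : (i : ℝ) + 1 ≤ H := by exact_mod_cast hi
        have h6 : (0 : ℝ) ≤ i := Nat.cast_nonneg i
        refine (abs_add_le _ _).trans ?_
        rw [abs_mul, abs_mul, abs_of_nonneg (by positivity : (0 : ℝ) ≤ (i : ℝ) ^ 2),
          abs_of_nonneg (by positivity : (0 : ℝ) ≤ ((i : ℝ) + 1) ^ 2), mul_add]
        refine add_le_add (mul_le_mul_of_nonneg_right ?_ (abs_nonneg _))
          (mul_le_mul_of_nonneg_right ?_ (abs_nonneg _))
        · exact pow_le_pow_left₀ h6 (by linarith) 2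
        · exact pow_le_pow_left₀ (by linarith) h5 2
      refine (mul_le_mul_of_nonneg_left h4 (by positivity)).trans (le_of_eq ?_)
      field_simp
    have h4 : |1 / (3 * (H : ℝ) ^ 2) * g ω| ≤ (H : ℝ)⁻¹ := by
      rw [abs_mul, abs_of_pos (by positivity : (0 : ℝ) < 1 / (3 * (H : ℝ) ^ 2))]
      have h5 : 1 / (3 * (H : ℝ) ^ 2) * |g ω| ≤ 1 / (3 * (H : ℝ) ^ 2) * 1 :=
        mul_le_mul_of_nonneg_left (hg ω) (by positivity)
      refine h5.trans ?_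
      rw [mul_one, ← one_div, one_div_le_one_div (by positivity) hH0]
      have : (1 : ℝ) ≤ H := by exact_mod_cast hH
      nlinarith
    linarith
  have hI1 : Integrable (fun ω => (H : ℝ)⁻¹ * ∑ i ∈ range H, |Gn i ω - g ω|) μ :=
    (integrable_finsetSum _ fun i _ => hint i).const_mul _
  have hI2 : Integrable (fun ω => (H : ℝ)⁻¹ * ∑ i ∈ range H, |Gn (i + 1) ω - g ω|) μ :=
    (integrable_finsetSum _ fun i _ => hint (i + 1)).const_mul _
  calc ∫ ω, |(1 / (H : ℝ)) * ∑ n ∈ Ioo (-(H : ℤ)) H,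
        (1 - |(n : ℝ)| / H) ^ 2 * (r n ω * r (n + j) ω) - (2 / 3) * g ω| ∂μ
      ≤ ∫ ω, ((H : ℝ)⁻¹ * ∑ i ∈ range H, |Gn i ω - g ω| +
        (H : ℝ)⁻¹ * ∑ i ∈ range H, |Gn (i + 1) ω - g ω| + (H : ℝ)⁻¹) ∂μ := by
        refine integral_mono_of_nonneg (Eventually.of_forall fun ω => abs_nonneg _)
          ((hI1.add hI2).add (integrable_const _)) (Eventually.of_forall hpt)
    _ = _ := by
        have hI12 : Integrable (fun ω => (H : ℝ)⁻¹ * ∑ i ∈ range H, |Gn i ω - g ω| +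
            (H : ℝ)⁻¹ * ∑ i ∈ range H, |Gn (i + 1) ω - g ω|) μ := hI1.add hI2
        rw [integral_add hI12 (integrable_const _), integral_add hI1 hI2,
          integral_const_mul, integral_const_mul, integral_finsetSum _ fun i _ => hint i,
          integral_finsetSum _ fun i _ => hint (i + 1)]
        simp [he]

end Pool.Agent.K9h47.JL
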