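import Pool.Agent.K9h47.JL.Stm

/-!
# Leaf WTWO (helper76): the autocorrelations of a window on average
-/

set_option autoImplicit false

open MeasureTheory Filter Topology Finset

namespace Pool.Agent.K9h47.JL

namespace Wtwo

variable {Ω : Type} [MeasurableSpace Ω] {μ : Measure Ω} {T : Ω → Ω} {x r : ℤ → Ω → ℝ}

theorem ib [IsFiniteMeasure μ] {f : Ω → ℝ} (hf : Measurable f) {C : ℝ} (h : ∀ ω, |f ω| ≤ C) : Integrable f μ :=
  Integrable.of_bound hf.aestronglyMeasurable C (Eventually.of_forall h)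

theorem ib2 [IsFiniteMeasure μ] {f : Ω → ℝ} (hf : Measurable f) {C : ℝ} (h : ∀ ω, |f ω| ≤ C) :
    Integrable (fun ω => f ω ^ 2) μ :=
  ib (hf.pow_const 2) (C := C ^ 2) fun ω => by
    rw [abs_pow]
    exact pow_le_pow_left₀ (abs_nonneg _) (h ω) 2

theorem l1_sq [IsProbabilityMeasure μ] {f : Ω → ℝ} (hf : Measurable f) {C : ℝ} (h : ∀ ω, |f ω| ≤ C) :
    (∫ ω, |f ω| ∂μ) ^ 2 ≤ ∫ ω, f ω ^ 2 ∂μ := by
  set c := ∫ ω, |f ω| ∂μ with hc
  have h1 : 0 ≤ ∫ ω, (|f ω| - c) ^ 2 ∂μ := integral_nonneg fun ω => sq_nonneg _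
  have i1 : Integrable (fun ω => f ω ^ 2) μ := ib2 hf h
  have i2 : Integrable (fun ω => |f ω|) μ := ib (measurable_norm.comp hf) (C := C) fun ω => by
    simpa using h ω
  have e : ∫ ω, (|f ω| - c) ^ 2 ∂μ = ∫ ω, f ω ^ 2 ∂μ - 2 * c * ∫ ω, |f ω| ∂μ + c ^ 2 := by
    have e1 : (fun ω => (|f ω| - c) ^ 2) = fun ω => (f ω ^ 2 - 2 * c * |f ω|) + c ^ 2 := by
      funext ω
      rw [sub_sq, sq_abs]
      ring
    have i3 : Integrable (fun ω => f ω ^ 2 - 2 * c * |f ω|) μ := i1.sub (i2.const_mul _)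
    rw [e1, integral_add i3 (integrable_const _), integral_sub i1 (i2.const_mul _),
      integral_const_mul, integral_const]
    simp
  rw [e, ← hc] at h1
  nlinarith

theorem x_iter (hS : Stat μ T x) (m : ℕ) : ∀ (n : ℤ) (ω : Ω), x n (T^[m] ω) = x (n + m) ω := by
  induction m with
  | zero => intro n ω; simp
  | succ m ih =>
    intro n ω
    rw [Function.iterate_succ_apply', ← hS.next, ih]
    congr 1
    push_cast
    ring

theorem int_iter (hS : Stat μ T x) {f : Ω → ℝ} (hf : Measurable f) (m : ℕ) :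
    ∫ ω, f (T^[m] ω) ∂μ = ∫ ω, f ω ∂μ := by
  have h1 := hS.mp.iterate m
  have h2 := integral_map (μ := μ) h1.measurable.aemeasurable (f := f) hf.aestronglyMeasurable
  rw [h1.map_eq] at h2
  exact h2.symm

theorem int_succ (hS : Stat μ T x) (hC : Cor μ T x r) (s t k : ℤ) :
    ∫ ω, x (s + 1) ω * x (t + 1) ω * r k ω ∂μ = ∫ ω, x s ω * x t ω * r k ω ∂μ := by
  have hm : Measurable fun ω => x s ω * x t ω * r k ω := ((hS.meas s).mul (hS.meas t)).mul (hC.meas k)
  have h1 := int_iter hS hm 1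
  rw [← h1]
  refine integral_congr_ae ?_
  filter_upwards [hC.inv k] with ω hω
  rw [Function.iterate_one, hω, hS.next, hS.next]

theorem int_shift (hS : Stat μ T x) (hC : Cor μ T x r) (s t k j : ℤ) :
    ∫ ω, x (s + j) ω * x (t + j) ω * r k ω ∂μ = ∫ ω, x s ω * x t ω * r k ω ∂μ := by
  induction j using Int.induction_on with
  | zero => simp
  | succ i ih =>
    rw [← ih, ← int_succ hS hC (s + i) (t + i) k, add_assoc, add_assoc]
  | pred i ih =>
    rw [← ih, ← int_succ hS hC (s + (-i - 1)) (t + (-i - 1)) k]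
    congr 1
    funext ω
    congr 3 <;> ring_nf

theorem int_zero (hT : S_CTWO) (hS : Stat μ T x) (hC : Cor μ T x r) (n : ℤ) :
    ∫ ω, x 0 ω * x n ω * r n ω ∂μ = aa μ r n := by
  have := hS.prob
  have h1 := hT μ T x r hS hC 1 1 n le_rfl le_rfl
  have e : ∀ ω, Av x 1 1 n ω = x 0 ω * x n ω := by
    intro ω
    unfold Av
    simp
  simp only [e, Nat.cast_one, one_mul] at h1
  have hm : Measurable fun ω => x 0 ω * x n ω := (hS.meas 0).mul (hS.meas n)
  have hb : ∀ ω, |x 0 ω * x n ω| ≤ 1 := fun ω => by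
    rw [abs_mul]
    exact mul_le_one₀ (hS.bd 0 ω) (abs_nonneg _) (hS.bd n ω)
  have i1 : Integrable (fun ω => (x 0 ω * x n ω) ^ 2) μ := ib2 hm hb
  have i2 : Integrable (fun ω => r n ω ^ 2) μ := ib2 (hC.meas n) (hC.bd n)
  have i3 : Integrable (fun ω => x 0 ω * x n ω * r n ω) μ := ib (hm.mul (hC.meas n)) (C := 1) fun ω => by
    rw [abs_mul]
    exact mul_le_one₀ (hb ω) (abs_nonneg _) (hC.bd n ω)
  have e1 : (fun ω => (x 0 ω * x n ω - r n ω) ^ 2) =
      fun ω => ((x 0 ω * x n ω) ^ 2 - 2 * (x 0 ω * x n ω * r n ω)) + r n ω ^ 2 := by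
    funext ω
    ring
  have i4 : Integrable (fun ω => (x 0 ω * x n ω) ^ 2 - 2 * (x 0 ω * x n ω * r n ω)) μ := i1.sub (i3.const_mul 2)
  rw [e1, integral_add i4 i2, integral_sub i1 (i3.const_mul 2), integral_const_mul] at h1
  unfold aa at h1 ⊢
  linarith

/-- the correlation with the invariant function -/
theorem int_xxr (hT : S_CTWO) (hS : Stat μ T x) (hC : Cor μ T x r) (s t : ℤ) :
    ∫ ω, x s ω * x t ω * r (s - t) ω ∂μ = aa μ r (s - t) := by
  have h1 := int_shift hS hC s t (s - t) (-s)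
  rw [← h1, add_neg_cancel]
  have e : ∀ ω, r (s - t) ω = r (t + -s) ω := by
    intro ω
    rw [← hC.even (t + -s) ω]
    congr 1
    ring
  have e2 : aa μ r (s - t) = aa μ r (t + -s) := by
    unfold aa
    simp only [e]
  rw [e2]
  simp only [e]
  exact int_zero hT hS hC _

/-- the sum of `x_m x_(m + n)` over `m < M` -/
noncomputable def Uf (x : ℤ → Ω → ℝ) (M : ℕ) (n : ℤ) (ω : Ω) : ℝ := ∑ m ∈ range M, x m ω * x (m + n) ω

omit [MeasurableSpace Ω] in
theorem Av_eq (M : ℕ) (n : ℤ) (ω : Ω) : Av x 1 M n ω = (1 / (M : ℝ)) * Uf x M n ω := by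
  unfold Av Uf
  simp

theorem xx_le (hS : Stat μ T x) (s t : ℤ) (ω : Ω) : |x s ω * x t ω| ≤ 1 := by
  rw [abs_mul]
  exact mul_le_one₀ (hS.bd s ω) (abs_nonneg _) (hS.bd t ω)

theorem Uf_meas (hS : Stat μ T x) (M : ℕ) (n : ℤ) : Measurable (Uf x M n) := by
  unfold Uf
  exact Finset.measurable_fun_sum _ fun m _ => (hS.meas _).mul (hS.meas _)

theorem Uf_le (hS : Stat μ T x) (M : ℕ) (n : ℤ) (ω : Ω) : |Uf x M n ω| ≤ M := by
  unfold Uf
  refine (Finset.abs_sum_le_sum_abs _ _).trans ?_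
  refine (Finset.sum_le_sum (g := fun _ : ℕ => (1 : ℝ)) fun (m : ℕ) _ => xx_le hS (m : ℤ) (m + n) ω).trans ?_
  simp

theorem Av_meas (hS : Stat μ T x) (M : ℕ) (n : ℤ) : Measurable (Av x 1 M n) := by
  have : Av x 1 M n = fun ω => (1 / (M : ℝ)) * Uf x M n ω := by
    funext ω
    exact Av_eq M n ω
  rw [this]
  exact (Uf_meas hS M n).const_mul _

theorem Av_le (hS : Stat μ T x) (M : ℕ) (n : ℤ) (ω : Ω) : |Av x 1 M n ω| ≤ 1 := by
  rw [Av_eq, abs_mul]
  rcases Nat.eq_zero_or_pos M with h | h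
  · subst h
    simp
  have h0 : (0 : ℝ) < M := by exact_mod_cast h
  rw [abs_of_pos (by positivity : (0 : ℝ) < 1 / (M : ℝ))]
  have := Uf_le hS M n ω
  calc (1 / (M : ℝ)) * |Uf x M n ω| ≤ (1 / (M : ℝ)) * M := by gcongr
    _ = 1 := by field_simp

theorem block (z : ℕ → ℝ) (hz : ∀ m, |z m| ≤ 1) (M K : ℕ) (hK : 1 ≤ K) :
    |∑ m ∈ range M, z m - ∑ m ∈ range M, (1 / (K : ℝ)) * ∑ k ∈ range K, z (m + k)| ≤ 2 * K := by
  have hK0 : (0 : ℝ) < K := by exact_mod_cast hK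
  have e : ∑ m ∈ range M, z m - ∑ m ∈ range M, (1 / (K : ℝ)) * ∑ k ∈ range K, z (m + k) =
      (1 / (K : ℝ)) * ∑ k ∈ range K, (∑ m ∈ range M, z m - ∑ m ∈ range M, z (m + k)) := by
    rw [Finset.sum_sub_distrib, Finset.sum_const, card_range, nsmul_eq_mul, mul_sub, ← Finset.mul_sum,
      Finset.sum_comm]
    field_simp
  rw [e, abs_mul, abs_of_pos (by positivity : (0 : ℝ) < 1 / (K : ℝ))]
  have h1 : ∀ k ∈ range K, |∑ m ∈ range M, z m - ∑ m ∈ range M, z (m + k)| ≤ 2 * K := by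
    intro k hk
    have h2 := Finset.sum_range_add z M k
    have h3 := Finset.sum_range_add z k M
    rw [add_comm k M] at h3
    have h4 : ∑ m ∈ range M, z m - ∑ m ∈ range M, z (m + k) = ∑ m ∈ range k, z m - ∑ m ∈ range k, z (M + m) := by
      have h5 : ∑ m ∈ range M, z (m + k) = ∑ m ∈ range M, z (k + m) := by
        refine Finset.sum_congr rfl fun m _ => ?_
        rw [add_comm]
      rw [h5]
      linarith
    rw [h4]
    have h6 : |∑ m ∈ range k, z m| ≤ k := by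
      refine (Finset.abs_sum_le_sum_abs _ _).trans ((Finset.sum_le_sum fun m _ => hz m).trans ?_)
      simp
    have h7 : |∑ m ∈ range k, z (M + m)| ≤ k := by
      refine (Finset.abs_sum_le_sum_abs _ _).trans ((Finset.sum_le_sum fun m _ => hz (M + m)).trans ?_)
      simp
    have h8 : (k : ℝ) ≤ K := by exact_mod_cast (Finset.mem_range.1 hk).le
    calc |∑ m ∈ range k, z m - ∑ m ∈ range k, z (M + m)| ≤ |∑ m ∈ range k, z m| + |∑ m ∈ range k, z (M + m)| :=
          abs_sub _ _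
      _ ≤ 2 * K := by linarith
  calc (1 / (K : ℝ)) * |∑ k ∈ range K, (∑ m ∈ range M, z m - ∑ m ∈ range M, z (m + k))|
      ≤ (1 / (K : ℝ)) * ∑ k ∈ range K, (2 * K : ℝ) := by
        gcongr
        exact (Finset.abs_sum_le_sum_abs _ _).trans (Finset.sum_le_sum h1)
    _ = 2 * K := by
        rw [Finset.sum_const, card_range, nsmul_eq_mul]
        field_simp

/-- long averages are not larger than short ones, up to the boundary -/
theorem int_Uf_le (hS : Stat μ T x) (M K : ℕ) (hK : 1 ≤ K) (n : ℤ) :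
    ∫ ω, Uf x M n ω ^ 2 ∂μ ≤ (M : ℝ) ^ 2 * ∫ ω, Av x 1 K n ω ^ 2 ∂μ + 4 * K * M := by
  have := hS.prob
  set V : Ω → ℝ := fun ω => ∑ m ∈ range M, Av x 1 K n (T^[m] ω) with hV
  have hAm := Av_meas hS K n
  have hAi : ∀ m : ℕ, Measurable fun ω => Av x 1 K n (T^[m] ω) := fun m =>
    hAm.comp (hS.mp.iterate m).measurable
  have hVm : Measurable V := Finset.measurable_fun_sum _ fun m _ => hAi m
  have hVb : ∀ ω, |V ω| ≤ M := by
    intro ω
    refine (Finset.abs_sum_le_sum_abs _ _).trans ((Finset.sum_le_sum fun m _ => Av_le hS K n _).trans ?_)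
    simp
  have hUV : ∀ ω, |Uf x M n ω - V ω| ≤ 2 * K := by
    intro ω
    have h1 := block (fun m => x m ω * x (m + n) ω) (fun m => xx_le hS _ _ ω) M K hK
    have h2 : V ω = ∑ m ∈ range M, (1 / (K : ℝ)) * ∑ k ∈ range K, x ((m + k : ℕ) : ℤ) ω * x ((m + k : ℕ) + n) ω := by
      rw [hV]
      simp only
      refine Finset.sum_congr rfl fun m _ => ?_
      rw [Av_eq]
      unfold Uf
      congr 1
      refine Finset.sum_congr rfl fun k _ => ?_
      rw [x_iter hS, x_iter hS]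
      congr 2 <;> push_cast <;> ring
    rw [h2]
    exact h1
  have h1 : ∀ ω, Uf x M n ω ^ 2 ≤ V ω ^ 2 + 4 * K * M := by
    intro ω
    have a1 := abs_le.1 (hUV ω)
    have a2 := abs_le.1 (hVb ω)
    have a3 := abs_le.1 (Uf_le hS M n ω)
    have a4 : |(Uf x M n ω - V ω) * (Uf x M n ω + V ω)| ≤ 2 * K * (2 * M) := by
      rw [abs_mul]
      refine mul_le_mul (hUV ω) ?_ (abs_nonneg _) (by positivity)
      rw [abs_le]
      constructor <;> linarith
    have a5 := (abs_le.1 a4).2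
    nlinarith
  have h2 : ∀ ω, V ω ^ 2 ≤ M * ∑ m ∈ range M, Av x 1 K n (T^[m] ω) ^ 2 := by
    intro ω
    have h3 := sq_sum_le_card_mul_sum_sq (s := range M) (f := fun m => Av x 1 K n (T^[m] ω))
    rw [card_range] at h3
    exact h3
  have i1 : Integrable (fun ω => Uf x M n ω ^ 2) μ := ib2 (Uf_meas hS M n) (Uf_le hS M n)
  have i2 : ∀ m : ℕ, Integrable (fun ω => Av x 1 K n (T^[m] ω) ^ 2) μ := fun m =>
    ib2 (hAi m) fun ω => Av_le hS K n _
  calc ∫ ω, Uf x M n ω ^ 2 ∂μ ≤ ∫ ω, (M * ∑ m ∈ range M, Av x 1 K n (T^[m] ω) ^ 2 + 4 * K * M) ∂μ := by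
        refine integral_mono i1 (((integrable_finsetSum _ fun m _ => i2 m).const_mul _).add
          (integrable_const _)) fun ω => ?_
        have := h1 ω
        have := h2 ω
        simp only
        linarith
    _ = (M : ℝ) ^ 2 * ∫ ω, Av x 1 K n ω ^ 2 ∂μ + 4 * K * M := by
        rw [integral_add ((integrable_finsetSum _ fun m _ => i2 m).const_mul _) (integrable_const _),
          integral_const_mul, integral_finsetSum _ fun m _ => i2 m, integral_const]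
        have h4 : ∀ m ∈ range M, ∫ ω, Av x 1 K n (T^[m] ω) ^ 2 ∂μ = ∫ ω, Av x 1 K n ω ^ 2 ∂μ := fun m _ =>
          int_iter hS (hAm.pow_const 2) m
        rw [Finset.sum_congr rfl h4, Finset.sum_const, card_range, nsmul_eq_mul]
        simp
        ring

/-! ### the window -/

theorem R_nat (y : ℤ → ℝ) {H n : ℕ} (hn : n < H) :
    R y H (n : ℤ) = (1 / (H : ℝ)) * ∑ m ∈ range (H - n), y m * y (m + n) := by
  unfold R
  congr 1
  symm
  refine Finset.sum_nbij' (i := fun m : ℕ => (m : ℤ)) (j := fun m : ℤ => m.toNat) ?_ ?_ ?_ ?_ ?_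
  · intro m hm
    simp only [mem_range, mem_filter, mem_Ico] at hm ⊢
    omega
  · intro m hm
    simp only [mem_range, mem_filter, mem_Ico] at hm ⊢
    omega
  · intro m hm
    simp
  · intro m hm
    simp only [mem_filter, mem_Ico] at hm
    exact Int.toNat_of_nonneg hm.1.1
  · intro m hm
    rfl

theorem R_neg (y : ℤ → ℝ) (H : ℕ) (n : ℤ) : R y H (-n) = R y H n := by
  unfold R
  congr 1
  refine Finset.sum_nbij' (i := fun m : ℤ => m + -n) (j := fun m : ℤ => m + n) ?_ ?_ ?_ ?_ ?_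
  · intro m hm
    simp only [mem_filter, mem_Ico] at hm ⊢
    omega
  · intro m hm
    simp only [mem_filter, mem_Ico] at hm ⊢
    omega
  · intro m hm
    simp
  · intro m hm
    simp
  · intro m hm
    rw [neg_add_cancel_right, mul_comm]

theorem sum_Ioo (F : ℤ → ℝ) (hF : ∀ n, F (-n) = F n) {H : ℕ} (hH : 1 ≤ H) :
    ∑ n ∈ Ioo (-(H : ℤ)) H, F n = 2 * ∑ n ∈ range H, F n - F 0 := by
  induction H, hH using Nat.le_induction with
  | base =>
    have e : Ioo (-((1 : ℕ) : ℤ)) ((1 : ℕ) : ℤ) = {0} := by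
      ext a
      simp only [mem_Ioo, mem_singleton]
      omega
    rw [e]
    simp
    ring
  | succ H hH ih =>
    have e : Ioo (-((H + 1 : ℕ) : ℤ)) ((H + 1 : ℕ) : ℤ) = insert (-(H : ℤ)) (insert (H : ℤ) (Ioo (-(H : ℤ)) H)) := by
      ext a
      simp only [mem_Ioo, mem_insert]
      omega
    rw [e, sum_insert, sum_insert, ih, sum_range_succ, hF]
    · ring
    · simp
    · simp only [mem_insert, mem_Ioo, lt_self_iff_false, false_and, or_false]
      omega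

theorem aa_neg (hC : Cor μ T x r) (n : ℤ) : aa μ r (-n) = aa μ r n := by
  unfold aa
  simp only [hC.even]

theorem av_sub_nonneg (hT : S_CTWO) (hS : Stat μ T x) (hC : Cor μ T x r) {M : ℕ} (hM : 1 ≤ M) (n : ℤ) :
    0 ≤ ∫ ω, Av x 1 M n ω ^ 2 ∂μ - aa μ r n := by
  have h1 := hT μ T x r hS hC 1 M n le_rfl hM
  simp only [Nat.cast_one, one_mul] at h1
  rw [← h1]
  exact integral_nonneg fun ω => sq_nonneg _

theorem key (hT : S_CTWO) (hS : Stat μ T x) (hC : Cor μ T x r) {H n K : ℕ} (hn : n < H) (hK : 1 ≤ K) :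
    (∫ ω, |R (fun k => x k ω) H (n : ℤ) - (1 - |((n : ℤ) : ℝ)| / H) * r n ω| ∂μ) ^ 2 ≤
      (∫ ω, Av x 1 K n ω ^ 2 ∂μ - aa μ r n) + 4 * K / H := by
  have := hS.prob
  obtain ⟨M, hM⟩ : ∃ M, M = H - n := ⟨_, rfl⟩
  have hM1 : 1 ≤ M := by omega
  have hMH : (M : ℝ) = H - n := by
    rw [hM]
    push_cast [Nat.cast_sub hn.le]
    ring
  have hH0 : (0 : ℝ) < H := by
    have : 0 < H := by omega
    exact_mod_cast this
  have hM0 : (0 : ℝ) < M := by exact_mod_cast hM1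
  have hw1 : (M : ℝ) / H ≤ 1 := by
    rw [div_le_one hH0, hMH]
    have : (0 : ℝ) ≤ n := Nat.cast_nonneg n
    linarith
  have hw0 : 0 ≤ (M : ℝ) / H := by positivity
  have e : ∀ ω, R (fun k => x k ω) H (n : ℤ) - (1 - |((n : ℤ) : ℝ)| / H) * r n ω =
      (M : ℝ) / H * (Av x 1 M n ω - r n ω) := by
    intro ω
    rw [R_nat _ hn, ← hM, Av_eq, Int.cast_natCast, Nat.abs_cast]
    unfold Uf
    have h1 : (1 - (n : ℝ) / H) = M / H := by
      rw [hMH]
      field_simp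
    rw [h1]
    field_simp
  have hmeas : Measurable fun ω => (M : ℝ) / H * (Av x 1 M n ω - r n ω) :=
    ((Av_meas hS M n).sub (hC.meas n)).const_mul _
  have hbd : ∀ ω, |(M : ℝ) / H * (Av x 1 M n ω - r n ω)| ≤ 2 := by
    intro ω
    rw [abs_mul, abs_of_nonneg hw0]
    have h1 : |Av x 1 M n ω - r n ω| ≤ 2 := by
      have h2 := abs_sub (Av x 1 M n ω) (r n ω)
      have h3 := Av_le hS M n ω
      have h4 := hC.bd n ω
      linarith
    calc (M : ℝ) / H * |Av x 1 M n ω - r n ω| ≤ 1 * 2 := mul_le_mul hw1 h1 (abs_nonneg _) zero_le_one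
      _ = 2 := by norm_num
  simp only [e]
  refine (l1_sq hmeas hbd).trans ?_
  have e2 : ∫ ω, ((M : ℝ) / H * (Av x 1 M n ω - r n ω)) ^ 2 ∂μ =
      ((M : ℝ) / H) ^ 2 * (∫ ω, Av x 1 M n ω ^ 2 ∂μ - aa μ r n) := by
    have h1 := hT μ T x r hS hC 1 M n le_rfl hM1
    simp only [Nat.cast_one, one_mul] at h1
    rw [← h1, ← integral_const_mul]
    refine integral_congr_ae (Eventually.of_forall fun ω => ?_)
    simp only
    ring
  have e3 : ∫ ω, Av x 1 M n ω ^ 2 ∂μ = (1 / (M : ℝ)) ^ 2 * ∫ ω, Uf x M n ω ^ 2 ∂μ := by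
    rw [← integral_const_mul]
    refine integral_congr_ae (Eventually.of_forall fun ω => ?_)
    simp only [Av_eq]
    ring
  have h2 := int_Uf_le hS M K hK (n : ℤ)
  have h3 := av_sub_nonneg hT hS hC hK (n : ℤ)
  rw [e2, e3]
  have h4 : ((M : ℝ) / H) ^ 2 * ((1 / (M : ℝ)) ^ 2 * ∫ ω, Uf x M n ω ^ 2 ∂μ - aa μ r n) ≤
      ((M : ℝ) / H) ^ 2 * ((1 / (M : ℝ)) ^ 2 * ((M : ℝ) ^ 2 * ∫ ω, Av x 1 K n ω ^ 2 ∂μ + 4 * K * M) - aa μ r n) := by
    gcongr
  refine h4.trans ?_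
  have h5 : ((M : ℝ) / H) ^ 2 * ((1 / (M : ℝ)) ^ 2 * ((M : ℝ) ^ 2 * ∫ ω, Av x 1 K n ω ^ 2 ∂μ + 4 * K * M) - aa μ r n) =
      ((M : ℝ) / H) ^ 2 * (∫ ω, Av x 1 K n ω ^ 2 ∂μ - aa μ r n) + (M : ℝ) / H * (4 * K / H) := by
    field_simp
    ring
  rw [h5]
  have h6 : ((M : ℝ) / H) ^ 2 ≤ 1 := pow_le_one₀ hw0 hw1
  have h7 : (0 : ℝ) ≤ 4 * K / H := by positivity
  have h8 : ((M : ℝ) / H) ^ 2 * (∫ ω, Av x 1 K n ω ^ 2 ∂μ - aa μ r n) ≤
      1 * (∫ ω, Av x 1 K n ω ^ 2 ∂μ - aa μ r n) := mul_le_mul_of_nonneg_right h6 h3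
  have h9 : (M : ℝ) / H * (4 * K / H) ≤ 1 * (4 * K / H) := mul_le_mul_of_nonneg_right hw1 h7
  linarith

theorem lim_av (hT : S_CTWO) (hS : Stat μ T x) (hC : Cor μ T x r) (K : ℕ) :
    Tendsto (fun H : ℕ => (1 / (H : ℝ)) * ∑ n ∈ range H, ∫ ω, Av x 1 K n ω ^ 2 ∂μ) atTop
      (𝓝 (al (aa μ r) (pr 1) (pr 1) K K)) := by
  have := hS.prob
  -- the limits of the terms
  have key2 : ∀ i j : ℕ, Tendsto (fun H : ℕ => ∫ ω, (x i ω * x j ω) *
      ((1 / (H : ℝ)) * ∑ n ∈ range H, x (n + i) ω * x (n + j) ω) ∂μ) atTop (𝓝 (aa μ r (i - j))) := by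
    intro i j
    have h0 : Tendsto (fun H : ℕ => √(∫ ω, ((1 / (H : ℝ)) *
        ∑ m ∈ range H, x (m + i) ω * x (m + j) ω - r (i - j) ω) ^ 2 ∂μ)) atTop (𝓝 0) := by
      have h1 := (hC.lim i j).sqrt
      rwa [Real.sqrt_zero] at h1
    refine tendsto_iff_dist_tendsto_zero.2 (squeeze_zero (fun _ => dist_nonneg) (fun H => ?_) h0)
    set P : Ω → ℝ := fun ω => (1 / (H : ℝ)) * ∑ n ∈ range H, x (n + i) ω * x (n + j) ω with hP
    have hPm : Measurable P :=
      (Finset.measurable_fun_sum _ fun m _ => (hS.meas _).mul (hS.meas _)).const_mul _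
    have hPb : ∀ ω, |P ω| ≤ 1 := by
      intro ω
      rw [hP]
      simp only
      rw [abs_mul, abs_of_nonneg (by positivity : (0 : ℝ) ≤ 1 / (H : ℝ))]
      have h1 : |∑ n ∈ range H, x (n + i) ω * x (n + j) ω| ≤ H := by
        refine (Finset.abs_sum_le_sum_abs _ _).trans ?_
        refine (Finset.sum_le_sum (g := fun _ : ℕ => (1 : ℝ)) fun (m : ℕ) _ => xx_le hS _ _ ω).trans ?_
        simp
      rcases Nat.eq_zero_or_pos H with h | h
      · subst h
        simp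
      have hh : (0 : ℝ) < H := by exact_mod_cast h
      calc (1 / (H : ℝ)) * |∑ n ∈ range H, x (n + i) ω * x (n + j) ω| ≤ (1 / (H : ℝ)) * H := by gcongr
        _ = 1 := by field_simp
    have hrm := hC.meas ((i : ℤ) - j)
    have hrb := hC.bd ((i : ℤ) - j)
    have hxm : Measurable fun ω => x i ω * x j ω := (hS.meas i).mul (hS.meas j)
    have i1 : Integrable (fun ω => x i ω * x j ω * P ω) μ := ib (hxm.mul hPm) (C := 1) fun ω => by
      rw [abs_mul]
      exact mul_le_one₀ (xx_le hS _ _ ω) (abs_nonneg _) (hPb ω)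
    have i2 : Integrable (fun ω => x i ω * x j ω * r (i - j) ω) μ := ib (hxm.mul hrm) (C := 1) fun ω => by
      rw [abs_mul]
      exact mul_le_one₀ (xx_le hS _ _ ω) (abs_nonneg _) (hrb ω)
    have hdb : ∀ ω, |P ω - r (i - j) ω| ≤ 2 := by
      intro ω
      have h2 := abs_sub (P ω) (r (i - j) ω)
      have h3 := hPb ω
      have h4 := hrb ω
      linarith
    have hdm : Measurable fun ω => P ω - r (i - j) ω := hPm.sub hrm
    rw [← int_xxr hT hS hC, Real.dist_eq, ← integral_sub i1 i2]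
    have e1 : (fun ω => x i ω * x j ω * P ω - x i ω * x j ω * r (i - j) ω) =
        fun ω => x i ω * x j ω * (P ω - r (i - j) ω) := by
      funext ω
      ring
    rw [e1]
    have h2 : |∫ ω, x i ω * x j ω * (P ω - r (i - j) ω) ∂μ| ≤ ∫ ω, |P ω - r (i - j) ω| ∂μ := by
      refine (abs_integral_le_integral_abs).trans ?_
      refine integral_mono ?_ ?_ fun ω => ?_
      · exact (ib (hxm.mul hdm) (C := 2) fun ω => by
          change |x i ω * x j ω * (P ω - r (i - j) ω)| ≤ 2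
          rw [abs_mul]
          calc |x i ω * x j ω| * |P ω - r (i - j) ω| ≤ 1 * 2 :=
                mul_le_mul (xx_le hS _ _ ω) (hdb ω) (abs_nonneg _) zero_le_one
            _ = 2 := by norm_num).abs
      · exact (ib hdm hdb).abs
      · simp only
        rw [abs_mul]
        exact mul_le_of_le_one_left (abs_nonneg _) (xx_le hS _ _ ω)
    refine h2.trans ?_
    exact Real.le_sqrt_of_sq_le (l1_sq hdm hdb)
  -- the sums
  have e : ∀ H : ℕ, (1 / (H : ℝ)) * ∑ n ∈ range H, ∫ ω, Av x 1 K n ω ^ 2 ∂μ =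
      (1 / ((K : ℝ) * K)) * ∑ i ∈ range K, ∑ j ∈ range K, ∫ ω, (x i ω * x j ω) *
        ((1 / (H : ℝ)) * ∑ n ∈ range H, x (n + i) ω * x (n + j) ω) ∂μ := by
    intro H
    have i3 : ∀ (i j n : ℕ), Integrable (fun ω => (x i ω * x (i + n) ω) * (x j ω * x (j + n) ω)) μ := fun i j n =>
      ib (((hS.meas _).mul (hS.meas _)).mul ((hS.meas _).mul (hS.meas _))) (C := 1) fun ω => by
        rw [abs_mul]
        exact mul_le_one₀ (xx_le hS _ _ ω) (abs_nonneg _) (xx_le hS _ _ ω)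
    have e1 : ∀ n : ℕ, ∫ ω, Av x 1 K n ω ^ 2 ∂μ = (1 / ((K : ℝ) * K)) * ∑ i ∈ range K, ∑ j ∈ range K,
        ∫ ω, (x i ω * x (i + n) ω) * (x j ω * x (j + n) ω) ∂μ := by
      intro n
      have e2 : ∀ ω, Av x 1 K n ω ^ 2 = (1 / ((K : ℝ) * K)) * ∑ i ∈ range K, ∑ j ∈ range K,
          (x i ω * x (i + n) ω) * (x j ω * x (j + n) ω) := by
        intro ω
        rw [Av_eq]
        unfold Uf
        rw [mul_pow, sq (∑ m ∈ range K, x m ω * x (m + n) ω), Finset.sum_mul_sum]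
        congr 1
        ring
      simp only [e2]
      rw [integral_const_mul, integral_finsetSum _ fun i _ => integrable_finsetSum _ fun j _ => i3 i j n]
      congr 1
      refine Finset.sum_congr rfl fun i _ => ?_
      rw [integral_finsetSum _ fun j _ => i3 i j n]
    simp only [e1]
    have e4 : ∀ i j : ℕ, ∫ ω, (x i ω * x j ω) * ((1 / (H : ℝ)) * ∑ n ∈ range H, x (n + i) ω * x (n + j) ω) ∂μ =
        (1 / (H : ℝ)) * ∑ n ∈ range H, ∫ ω, (x i ω * x (i + n) ω) * (x j ω * x (j + n) ω) ∂μ := by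
      intro i j
      rw [← integral_finsetSum _ fun n _ => i3 i j n, ← integral_const_mul]
      refine integral_congr_ae (Eventually.of_forall fun ω => ?_)
      simp only
      rw [mul_left_comm, Finset.mul_sum]
      congr 1
      refine Finset.sum_congr rfl fun n _ => ?_
      rw [add_comm (n : ℤ) (i : ℤ), add_comm (n : ℤ) (j : ℤ)]
      ring
    simp only [e4]
    rw [← Finset.mul_sum, mul_left_comm]
    congr 1
    rw [Finset.sum_comm]
    simp only [← Finset.mul_sum]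
    congr 1
    refine Finset.sum_congr rfl fun i _ => ?_
    rw [Finset.sum_comm]
  simp only [e]
  unfold al
  refine Tendsto.const_mul _ (tendsto_finsetSum _ fun i _ => tendsto_finsetSum _ fun j _ => ?_)
  have h := key2 i j
  have e5 : pr 1 i - pr 1 j = (i : ℤ) - j := by
    unfold pr
    simp
  rw [e5]
  exact h

end Wtwo

theorem wtwo (hT : S_CTWO) : S_WTWO := by
  intro Ω _ μ T x r A g hS hC hL
  have := hS.prob
  set I : ℕ → ℤ → ℝ := fun H n => ∫ ω, |R (fun k => x k ω) H n - (1 - |(n : ℝ)| / H) * r n ω| ∂μ with hI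
  have hI0 : ∀ H n, 0 ≤ I H n := fun H n => integral_nonneg fun ω => abs_nonneg _
  have hIneg : ∀ H n, I H (-n) = I H n := by
    intro H n
    rw [hI]
    simp only [Wtwo.R_neg, hC.even, Int.cast_neg, abs_neg]
  -- the mean of the correlations
  have hflat : Tendsto (fun H : ℕ => (1 / (H : ℝ)) * ∑ n ∈ range H, aa μ r n) atTop (𝓝 A) := by
    have h1 : Tendsto (fun H : ℕ => (1 / (2 * (H : ℝ))) * ∑ n ∈ Ioo (-(H : ℤ)) H, aa μ r n +
        aa μ r 0 / 2 * (1 / (H : ℝ))) atTop (𝓝 (A + aa μ r 0 / 2 * 0)) :=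
      hL.flat.add (tendsto_one_div_atTop_nhds_zero_nat.const_mul _)
    rw [mul_zero, add_zero] at h1
    refine h1.congr' ?_
    filter_upwards [eventually_ge_atTop 1] with H hH
    rw [Wtwo.sum_Ioo _ (Wtwo.aa_neg hC) hH]
    have : (0 : ℝ) < H := by exact_mod_cast hH
    field_simp
    ring
  have hQ : ∀ K : ℕ, Tendsto (fun H : ℕ => (1 / (H : ℝ)) * ∑ n ∈ range H,
      (∫ ω, Av x 1 K n ω ^ 2 ∂μ - aa μ r n) + 4 * K / H) atTop (𝓝 (al (aa μ r) (pr 1) (pr 1) K K - A)) := by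
    intro K
    have h1 := ((Wtwo.lim_av hT hS hC K).sub hflat).add
      ((tendsto_one_div_atTop_nhds_zero_nat (𝕜 := ℝ)).const_mul (4 * (K : ℝ)))
    rw [mul_zero, add_zero] at h1
    refine h1.congr fun H => ?_
    rw [Finset.sum_sub_distrib]
    ring
  have hb : ∀ K H : ℕ, 1 ≤ K → 1 ≤ H → (1 / (H : ℝ)) * ∑ n ∈ Ioo (-(H : ℤ)) H, I H n ≤
      2 * √((1 / (H : ℝ)) * ∑ n ∈ range H, (∫ ω, Av x 1 K n ω ^ 2 ∂μ - aa μ r n) + 4 * K / H) := by
    intro K H hK hH
    have hH0 : (0 : ℝ) < H := by exact_mod_cast hH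
    rw [Wtwo.sum_Ioo _ (hIneg H) hH]
    have h1 : (1 / (H : ℝ)) * ∑ n ∈ range H, I H n ≤
        √((1 / (H : ℝ)) * ∑ n ∈ range H, (∫ ω, Av x 1 K n ω ^ 2 ∂μ - aa μ r n) + 4 * K / H) := by
      refine Real.le_sqrt_of_sq_le ?_
      have h2 := sq_sum_le_card_mul_sum_sq (s := range H) (f := fun n : ℕ => I H n)
      rw [card_range] at h2
      have h3 : ∑ n ∈ range H, I H (n : ℤ) ^ 2 ≤
          ∑ n ∈ range H, ((∫ ω, Av x 1 K n ω ^ 2 ∂μ - aa μ r n) + 4 * K / H) :=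
        Finset.sum_le_sum fun n hn => Wtwo.key hT hS hC (Finset.mem_range.1 hn) hK
      rw [Finset.sum_add_distrib, Finset.sum_const, card_range, nsmul_eq_mul] at h3
      calc ((1 / (H : ℝ)) * ∑ n ∈ range H, I H n) ^ 2 = (1 / (H : ℝ)) ^ 2 * (∑ n ∈ range H, I H n) ^ 2 := by ring
        _ ≤ (1 / (H : ℝ)) ^ 2 * (H * (∑ n ∈ range H, (∫ ω, Av x 1 K n ω ^ 2 ∂μ - aa μ r n) + H * (4 * K / H))) := by
            gcongr
            exact h2.trans (by gcongr)
        _ = (1 / (H : ℝ)) * ∑ n ∈ range H, (∫ ω, Av x 1 K n ω ^ 2 ∂μ - aa μ r n) + 4 * K / H := by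
            field_simp
    have h2 : 0 ≤ (1 / (H : ℝ)) * I H 0 := mul_nonneg (by positivity) (hI0 H 0)
    calc (1 / (H : ℝ)) * (2 * ∑ n ∈ range H, I H n - I H 0) =
          2 * ((1 / (H : ℝ)) * ∑ n ∈ range H, I H n) - (1 / (H : ℝ)) * I H 0 := by ring
      _ ≤ _ := by linarith
  change Tendsto (fun H : ℕ => (1 / (H : ℝ)) * ∑ n ∈ Ioo (-(H : ℤ)) H, I H n) atTop (𝓝 0)
  refine tendsto_order.2 ⟨fun a ha => Eventually.of_forall fun H => ha.trans_le ?_, fun a ha => ?_⟩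
  · exact mul_nonneg (by positivity) (Finset.sum_nonneg fun n _ => hI0 H n)
  · have ha2 : (0 : ℝ) < a ^ 2 / 8 := by positivity
    obtain ⟨K, hK1, hK⟩ := ((eventually_ge_atTop 1).and
      (hL.tend.eventually (gt_mem_nhds (show A < A + a ^ 2 / 8 by linarith)))).exists
    have hlt : al (aa μ r) (pr 1) (pr 1) K K - A < a ^ 2 / 4 := by linarith
    filter_upwards [eventually_ge_atTop 1, (hQ K).eventually (gt_mem_nhds hlt)] with H hH1 hH2
    refine (hb K H hK1 hH1).trans_lt ?_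
    have h3 : √((1 / (H : ℝ)) * ∑ n ∈ range H, (∫ ω, Av x 1 K n ω ^ 2 ∂μ - aa μ r n) + 4 * K / H) < a / 2 := by
      rw [Real.sqrt_lt' (by positivity)]
      calc _ < a ^ 2 / 4 := hH2
        _ = (a / 2) ^ 2 := by ring
    linarith

end Pool.Agent.K9h47.JL
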